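import Pool.Agent.H96.DWild
import Mathlib.RingTheory.AlgebraicIndependent.TranscendenceBasis
import Mathlib.Algebra.MvPolynomial.NoZeroDivisors

/-!
# The function field of a diagonal hypersurface
-/

set_option autoImplicit false
set_option linter.unusedSectionVars false

namespace Pool.Agent.H96.Diag

open MvPolynomial Pool.Agent.H96.VL

/-- The dehomogenization of `∑ a_j x_j ^ p`. -/
noncomputable def affD (p : ℕ) {n : ℕ} (a : Fin (n + 1) → ℤ) : MvPolynomial (Fin n) ℚ :=
  ∑ j, C (a j : ℚ) * (Fin.cons 1 X : Fin (n + 1) → MvPolynomial (Fin n) ℚ) j ^ p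

/-- `K` is the function field of the hypersurface. -/
structure DiagField (p : ℕ) {n : ℕ} (a : Fin (n + 1) → ℤ) (K : Type) [Field K] [Algebra ℚ K]
    (ψ : MvPolynomial (Fin n) ℚ →ₐ[ℚ] K) : Prop where
  ker : ∀ h, ψ h = 0 ↔ h ∈ Ideal.span {affD p a}
  surj : ∀ z, ∃ h g, ψ g ≠ 0 ∧ z = ψ h / ψ g

theorem coeff_affD {p : ℕ} (hp : 0 < p) {m : ℕ} (a : Fin (m + 2) → ℤ) :
    coeff (Finsupp.single (0 : Fin (m + 1)) p) (affD p a) = a 1 := by
  classical
  rw [affD, Fin.sum_univ_succ, coeff_add, coeff_sum]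
  rw [Fin.cons_zero, one_pow, mul_one, coeff_C, if_neg]
  · rw [zero_add, Finset.sum_eq_single (0 : Fin (m + 1))]
    · rw [Fin.cons_succ, coeff_C_mul, coeff_X_pow, if_pos rfl, mul_one]
      rfl
    · intro j _ hj
      rw [Fin.cons_succ, coeff_C_mul, coeff_X_pow, if_neg, mul_zero]
      intro h
      exact hj ((Finsupp.single_left_inj hp.ne').mp h)
    · intro h; exact absurd (Finset.mem_univ _) h
  · intro h
    have := (Finsupp.single_eq_zero.mp h.symm)
    omega

theorem mem_support_affD {p : ℕ} (hp : 0 < p) {m : ℕ} {a : Fin (m + 2) → ℤ} (ha : a 1 ≠ 0) :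
    Finsupp.single (0 : Fin (m + 1)) p ∈ (affD p a).support := by
  rw [mem_support_iff, coeff_affD hp]
  exact_mod_cast ha

theorem totalDegree_affD {p : ℕ} (hp : 0 < p) {m : ℕ} {a : Fin (m + 2) → ℤ} (ha : a 1 ≠ 0) :
    p ≤ (affD p a).totalDegree := by
  have h := le_totalDegree (mem_support_affD hp ha)
  simpa using h

theorem degreeOf_affD {p : ℕ} (hp : 0 < p) {m : ℕ} {a : Fin (m + 2) → ℤ} (ha : a 1 ≠ 0) :
    p ≤ (affD p a).degreeOf 0 := by
  have h := monomial_le_degreeOf 0 (mem_support_affD hp ha)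
  simpa using h

variable {p : ℕ} {m : ℕ} {a : Fin (m + 2) → ℤ} {K : Type} [Field K] [Algebra ℚ K]
  {ψ : MvPolynomial (Fin (m + 1)) ℚ →ₐ[ℚ] K}

theorem DiagField.ne_of_totalDegree (h : DiagField p a K ψ) (hp : 2 ≤ p) (ha : a 1 ≠ 0)
    {g : MvPolynomial (Fin (m + 1)) ℚ} (hg0 : g ≠ 0) (hg : g.totalDegree ≤ 1) : ψ g ≠ 0 := by
  intro h0
  have h1 := Ideal.mem_span_singleton.mp ((h.ker g).mp h0)
  have h2 := totalDegree_le_of_dvd_of_isDomain h1 hg0
  have h3 := totalDegree_affD (p := p) (by omega) ha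
  omega

/-- The coordinates. -/
noncomputable def crd (ψ : MvPolynomial (Fin (m + 1)) ℚ →ₐ[ℚ] K) : Fin (m + 2) → K :=
  fun j => ψ ((Fin.cons 1 X : Fin (m + 2) → MvPolynomial (Fin (m + 1)) ℚ) j)

theorem crd_zero : crd ψ 0 = 1 := by
  rw [crd, Fin.cons_zero, map_one]

theorem crd_succ (j : Fin (m + 1)) : crd ψ j.succ = ψ (X j) := by
  rw [crd, Fin.cons_succ]

theorem ws_crd (d : ℕ) : ws d a (crd ψ) = ψ (affD d a) := by
  rw [affD, map_sum, ws]
  refine Finset.sum_congr rfl fun j _ => ?_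
  rw [map_mul, map_pow, crd]
  congr 1
  have h := ψ.commutes (a j : ℚ)
  rw [MvPolynomial.algebraMap_eq] at h
  rw [h, map_intCast]

theorem affD_one_ne (ha : a 1 ≠ 0) : affD 1 a ≠ 0 := by
  intro h
  have := mem_support_affD (p := 1) one_pos ha
  rw [h] at this
  simp at this

theorem totalDegree_affD_one : (affD 1 a).totalDegree ≤ 1 := by
  rw [affD]
  refine (totalDegree_finsetSum _ _).trans (Finset.sup_le fun j _ => ?_)
  refine (totalDegree_mul _ _).trans ?_
  rw [totalDegree_C, zero_add, pow_one]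
  refine Fin.cases ?_ (fun j => ?_) j
  · rw [Fin.cons_zero]; simp
  · rw [Fin.cons_succ, totalDegree_X]

theorem trdeg_int_eq : Algebra.trdeg ℤ K = Algebra.trdeg ℚ K := by
  have h1 := trdeg_add_eq ℤ ℚ (A := K)
  have h2 : Algebra.trdeg ℤ ℚ = 0 := by
    have : Algebra.IsAlgebraic ℤ ℚ := IsLocalization.isAlgebraic ℚ (nonZeroDivisors ℤ)
    exact trdeg_eq_zero_iff.mpr this
  rw [← h1, h2, zero_add]

theorem DiagField.trdeg_le (h : DiagField p a K ψ) (hp : 0 < p) (ha : a 1 ≠ 0) :
    (m : Cardinal.{0}) ≤ Algebra.trdeg ℚ K := by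
  have hind : AlgebraicIndependent ℚ fun i : Fin m => ψ (X i.succ) := by
    rw [AlgebraicIndependent]
    rw [injective_iff_map_eq_zero]
    intro g hg
    have h1 : aeval (fun i : Fin m => ψ (X i.succ)) g = ψ (rename Fin.succ g) := by
      have h2 : ((ψ.comp (rename Fin.succ : MvPolynomial (Fin m) ℚ →ₐ[ℚ] _)) :
          MvPolynomial (Fin m) ℚ →ₐ[ℚ] K) = aeval (fun i : Fin m => ψ (X i.succ)) := by
        apply MvPolynomial.algHom_ext
        intro i
        rw [aeval_X, AlgHom.comp_apply, rename_X]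
      rw [← h2, AlgHom.comp_apply]
    rw [h1, h.ker, Ideal.mem_span_singleton] at hg
    by_contra hg0
    have hr0 : rename Fin.succ g ≠ 0 := by
      intro h0
      exact hg0 (rename_injective _ (Fin.succ_injective m) (by rw [h0, map_zero]))
    obtain ⟨r, hr⟩ := hg
    have hf0 : affD p a ≠ 0 := by rintro h0; rw [h0, zero_mul] at hr; exact hr0 hr
    have hr0' : r ≠ 0 := by rintro h0; rw [h0, mul_zero] at hr; exact hr0 hr
    have h2 := degreeOf_mul_eq (n := (0 : Fin (m + 1))) hf0 hr0'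
    rw [← hr] at h2
    have h3 := degreeOf_affD hp ha
    have h4 : degreeOf 0 (rename Fin.succ g) = 0 := by
      by_contra hne
      have h5 := mem_vars_iff_degreeOf_ne_zero.mpr hne
      obtain ⟨j, -, hj⟩ := mem_vars_rename _ _ h5
      exact Fin.succ_ne_zero j hj
    omega
  have := hind.cardinalMk_le_trdeg
  simpa using this

theorem ratCast_mem_subfield (F : Subfield K) (r : ℚ) : algebraMap ℚ K r ∈ F := by
  have : algebraMap ℚ K r = (r : K) := by rw [eq_ratCast]
  rw [this]
  exact SubfieldClass.ratCast_mem F r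

theorem DiagField.base (h : DiagField p a K ψ) (hp : p.Prime) (hp2 : p ≠ 2)
    (ha : ∀ j, a j ≠ 0) (hpa : ∀ j, ¬ (p : ℤ) ∣ a j) : Base p a (crd ψ) := by
  have hp3 : 3 ≤ p := by
    have := hp.two_le
    omega
  refine ⟨hp, hp3, ?_, ?_, ?_, hpa, ?_, ?_⟩
  · intro j
    refine Fin.cases ?_ (fun j => ?_) j
    · rw [crd_zero]; exact one_ne_zero
    · rw [crd_succ]
      exact h.ne_of_totalDegree hp.two_le (ha 1) (X_ne_zero j) (by rw [totalDegree_X])
  · rw [ws_crd, h.ker]
    exact Ideal.mem_span_singleton_self _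
  · rw [ws_crd]
    exact h.ne_of_totalDegree hp.two_le (ha 1) (affD_one_ne (ha 1)) totalDegree_affD_one
  · intro F hF
    have hX : ∀ j : Fin (m + 1), ψ (X j) ∈ F := by
      intro j
      have := hF j.succ 0
      rwa [crd_zero, div_one, crd_succ] at this
    have hψ : ∀ g, ψ g ∈ F := by
      intro g
      induction g using MvPolynomial.induction_on with
      | C r =>
        have h1 := ψ.commutes r
        rw [MvPolynomial.algebraMap_eq] at h1
        rw [h1]; exact ratCast_mem_subfield F r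
      | add P Q hP hQ => rw [map_add]; exact F.add_mem hP hQ
      | mul_X P i hP => rw [map_mul]; exact F.mul_mem hP (hX i)
    rw [eq_top_iff]
    intro z _
    obtain ⟨u, v, -, rfl⟩ := h.surj z
    exact F.div_mem (hψ u) (hψ v)
  · rw [trdeg_int_eq, Fintype.card_fin]
    have h1 := h.trdeg_le hp.pos (ha 1)
    push_cast
    gcongr

open Pool.Agent.H19.OG

/-- **Main theorem**, for coprime coefficients. -/
theorem diag_main (h : DiagField p a K ψ) (hp : p.Prime) (hp2 : p ≠ 2) (hm : 1 ≤ m)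
    (hsq : ∀ j, Squarefree (a j)) (hpa : ∀ j, ¬ (p : ℤ) ∣ a j)
    (hgcd : ∀ q : ℕ, q.Prime → ∃ j, ¬ (q : ℤ) ∣ a j) : HasCharts K := by
  classical
  have : CharZero K := charZero_of_injective_algebraMap (algebraMap ℚ K).injective
  have ha : ∀ j, a j ≠ 0 := fun j => (hsq j).ne_zero
  exact hasCharts 0 (h.base hp hp2 ha hpa) ⟨ha, hsq, hgcd⟩ (by rw [Fintype.card_fin]; omega)

/-- **Main theorem.** -/
theorem diag_main' (h : DiagField p a K ψ) (hp : p.Prime) (hp2 : p ≠ 2) (hm : 1 ≤ m)
    (hsq : ∀ j, Squarefree (a j)) (hpa : ∀ j, ¬ (p : ℤ) ∣ a j) : HasCharts K := by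
  obtain ⟨a', ha', hg⟩ := Finset.extract_gcd a (s := Finset.univ) ⟨0, Finset.mem_univ _⟩
  set d := Finset.univ.gcd a with hd
  have hmul : ∀ j, a j = d * a' j := fun j => ha' j (Finset.mem_univ j)
  have hd0 : d ≠ 0 := by
    intro h0
    have h1 := hmul 0
    rw [h0, zero_mul] at h1
    exact (hsq 0).ne_zero h1
  have hspan : Ideal.span {affD p a} = Ideal.span {affD p a'} := by
    have h1 : affD p a = C (d : ℚ) * affD p a' := by
      rw [affD, affD, Finset.mul_sum]
      refine Finset.sum_congr rfl fun j _ => ?_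
      rw [hmul j, Int.cast_mul, C_mul, mul_assoc]
    rw [h1]
    apply Ideal.span_singleton_mul_left_unit
    rw [isUnit_iff_exists_inv]
    refine ⟨C ((d : ℚ)⁻¹), ?_⟩
    rw [← C_mul, mul_inv_cancel₀ (by exact_mod_cast hd0), C_1]
  have h' : DiagField p a' K ψ := ⟨fun g => by rw [h.ker, hspan], h.surj⟩
  refine diag_main h' hp hp2 hm (fun j => ?_) (fun j hj => ?_) fun q hq => ?_
  · refine (hsq j).squarefree_of_dvd ?_
    rw [hmul j]; exact dvd_mul_left _ _
  · apply hpa j
    rw [hmul j]; exact hj.mul_left _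
  · by_contra hcon
    push Not at hcon
    have h1 : (q : ℤ) ∣ Finset.univ.gcd a' := Finset.dvd_gcd fun j _ => hcon j
    rw [hg] at h1
    exact (Nat.prime_iff_prime_int.mp hq).not_dvd_one h1

/-- Every field of fractions of the coordinate ring has a regular projective model. -/
theorem fracCharts {p : ℕ} (hp : p.Prime) (hp2 : p ≠ 2) {n : ℕ} (hn : 2 ≤ n)
    (a : Fin (n + 1) → ℤ) (hsq : ∀ j, Squarefree (a j)) (hpa : ∀ j, ¬ (p : ℤ) ∣ a j) :
    FracCharts (MvPolynomial (Fin n) ℚ ⧸ Ideal.span {affD p a}) := by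
  intro K _ alg hfr
  obtain ⟨m, rfl⟩ : ∃ m, n = m + 1 := ⟨n - 1, by omega⟩
  let Q := MvPolynomial (Fin (m + 1)) ℚ ⧸ Ideal.span {affD p a}
  let ψ₀ : MvPolynomial (Fin (m + 1)) ℚ →+* K :=
    (algebraMap Q K).comp (Ideal.Quotient.mk (Ideal.span {affD p a}))
  let algQ : Algebra ℚ K := (ψ₀.comp MvPolynomial.C).toAlgebra
  let ψ : MvPolynomial (Fin (m + 1)) ℚ →ₐ[ℚ] K := { ψ₀ with commutes' := fun r => rfl }
  have hinj : Function.Injective (algebraMap Q K) := IsFractionRing.injective Q K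
  have hnt : Nontrivial Q := hinj.isDomain (algebraMap Q K) |>.toNontrivial
  have hψ : DiagField p a K ψ := by
    constructor
    · intro h
      constructor
      · intro h0
        have h1 : algebraMap Q K (Ideal.Quotient.mk _ h) = 0 := h0
        rw [map_eq_zero_iff _ hinj] at h1
        exact Ideal.Quotient.eq_zero_iff_mem.mp h1
      · intro h0
        show algebraMap Q K (Ideal.Quotient.mk _ h) = 0
        have h1 : (Ideal.Quotient.mk (Ideal.span {affD p a}) h) = 0 :=
          Ideal.Quotient.eq_zero_iff_mem.mpr h0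
        rw [h1, map_zero]
    · intro z
      obtain ⟨u, v, hv, huv⟩ := IsFractionRing.div_surjective (A := Q) z
      obtain ⟨u', hu'⟩ := Ideal.Quotient.mk_surjective u
      obtain ⟨v', hv'⟩ := Ideal.Quotient.mk_surjective v
      refine ⟨u', v', ?_, ?_⟩
      · show algebraMap Q K (Ideal.Quotient.mk _ v') ≠ 0
        rw [hv']
        exact (map_ne_zero_iff _ hinj).mpr (nonZeroDivisors.ne_zero hv)
      · show z = algebraMap Q K (Ideal.Quotient.mk _ u') / algebraMap Q K (Ideal.Quotient.mk _ v')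
        rw [hu', hv', huv]
  exact diag_main' hψ hp hp2 (by omega) hsq hpa

/-- Regular models for fields isomorphic to the ring of fractions of `R`. -/
theorem hasCharts_of_fracCharts {R : Type} [CommRing R] (h : FracCharts R) {K : Type} [Field K]
    (e : K ≃+* FractionRing R) : HasCharts K := by
  let _ : Algebra R K := (e.symm.toRingHom.comp (algebraMap R (FractionRing R))).toAlgebra
  let e' : FractionRing R ≃ₐ[R] K := { e.symm with commutes' := fun r => rfl }
  have : IsFractionRing R K := IsLocalization.isLocalization_of_algEquiv (nonZeroDivisors R) e'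
  exact h K

end Pool.Agent.H96.Diag
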