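import Pool.Agent.H96.RegHeight
import Pool.Agent.H19.OG.P2

/-!
# Valuation-local subrings, and a projective model lemma checked along valuations
-/

set_option autoImplicit false

namespace Pool.Agent.H96.VL

variable {K : Type} [Field K]

/-- `R` is a `V`-local subring of `K`: it is contained in `V` and closed under inverses of units
of `V`. -/
structure VLocal (V : ValuationSubring K) (R : Subring K) : Prop where
  le : ∀ x ∈ R, V.valuation x ≤ 1
  inv : ∀ x ∈ R, V.valuation x = 1 → x⁻¹ ∈ R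

theorem VLocal.div_mem {V : ValuationSubring K} {R : Subring K} (h : VLocal V R) {x y : K}
    (hx : x ∈ R) (hy : y ∈ R) (hy1 : V.valuation y = 1) : x / y ∈ R := by
  rw [div_eq_mul_inv]
  exact R.mul_mem hx (h.inv y hy hy1)

/-- The localization of the subring `B` at the centre of `V`. -/
def vloc (V : ValuationSubring K) (B : Subalgebra ℤ K) : Subring K where
  carrier := {x | ∃ a ∈ B, ∃ b ∈ B, V.valuation b = 1 ∧ x = a / b}
  mul_mem' := by
    rintro x y ⟨a, ha, b, hb, hb1, rfl⟩ ⟨c, hc, d, hd, hd1, rfl⟩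
    exact ⟨a * c, B.mul_mem ha hc, b * d, B.mul_mem hb hd, by rw [map_mul, hb1, hd1, one_mul],
      by rw [div_mul_div_comm]⟩
  one_mem' := ⟨1, B.one_mem, 1, B.one_mem, by simp, by simp⟩
  add_mem' := by
    rintro x y ⟨a, ha, b, hb, hb1, rfl⟩ ⟨c, hc, d, hd, hd1, rfl⟩
    have hb0 : b ≠ 0 := by rintro rfl; simp at hb1
    have hd0 : d ≠ 0 := by rintro rfl; simp at hd1
    exact ⟨a * d + b * c, B.add_mem (B.mul_mem ha hd) (B.mul_mem hb hc), b * d, B.mul_mem hb hd,
      by rw [map_mul, hb1, hd1, one_mul], by rw [div_add_div _ _ hb0 hd0]⟩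
  zero_mem' := ⟨0, B.zero_mem, 1, B.one_mem, by simp, by simp⟩
  neg_mem' := by
    rintro x ⟨a, ha, b, hb, hb1, rfl⟩
    exact ⟨-a, B.neg_mem ha, b, hb, hb1, by rw [neg_div]⟩

theorem mem_vloc {V : ValuationSubring K} {B : Subalgebra ℤ K} {x : K} :
    x ∈ vloc V B ↔ ∃ a ∈ B, ∃ b ∈ B, V.valuation b = 1 ∧ x = a / b := Iff.rfl

theorem subset_vloc {V : ValuationSubring K} {B : Subalgebra ℤ K} {x : K} (hx : x ∈ B) :
    x ∈ vloc V B := ⟨x, hx, 1, B.one_mem, by simp, by simp⟩

theorem vlocal_vloc {V : ValuationSubring K} {B : Subalgebra ℤ K}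
    (hB : ∀ x ∈ B, V.valuation x ≤ 1) : VLocal V (vloc V B) where
  le := by
    rintro x ⟨a, ha, b, hb, hb1, rfl⟩
    rw [map_div₀, hb1, div_one]
    exact hB a ha
  inv := by
    rintro x ⟨a, ha, b, hb, hb1, rfl⟩ h
    rw [map_div₀, hb1, div_one] at h
    exact ⟨b, hb, a, ha, h, by rw [inv_div]⟩

theorem vloc_le {V : ValuationSubring K} {B : Subalgebra ℤ K} {R : Subring K} (hR : VLocal V R)
    (hB : ∀ x ∈ B, x ∈ R) : vloc V B ≤ R := by
  rintro x ⟨a, ha, b, hb, hb1, rfl⟩
  exact hR.div_mem (hB a ha) (hB b hb) hb1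

theorem adjoin_le_of {R : Subring K} {s : Set K} (hs : ∀ x ∈ s, x ∈ R) :
    ∀ x ∈ Algebra.adjoin ℤ s, x ∈ R := by
  intro x hx
  induction hx using Algebra.adjoin_induction with
  | mem x hx => exact hs x hx
  | algebraMap r =>
    rw [eq_intCast (algebraMap ℤ K) r]
    exact intCast_mem R r
  | add x y _ _ hx hy => exact R.add_mem hx hy
  | mul x y _ _ hx hy => exact R.mul_mem hx hy

theorem adjoin_val_le {V : ValuationSubring K} {s : Set K} (hs : ∀ x ∈ s, V.valuation x ≤ 1) :
    ∀ x ∈ Algebra.adjoin ℤ s, V.valuation x ≤ 1 := by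
  intro x hx
  rw [ValuationSubring.valuation_le_one_iff]
  exact adjoin_le_of (R := V.toSubring) (fun x hx => (V.valuation_le_one_iff x).mp (hs x hx)) x hx

/-- The centre of `V` on `B`. -/
def centre (V : ValuationSubring K) (B : Subalgebra ℤ K) (hB : ∀ x ∈ B, V.valuation x ≤ 1) :
    Ideal B where
  carrier := {x | V.valuation (x : K) < 1}
  add_mem' := by
    intro a b ha hb
    exact (V.valuation.map_add_lt ha hb)
  zero_mem' := by simp
  smul_mem' := by
    intro c x hx
    show V.valuation ((c : K) * (x : K)) < 1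
    rw [map_mul]
    exact (mul_le_mul_left (hB c c.2) (V.valuation (x : K))).trans_lt (by simpa using hx)

theorem centre_isPrime (V : ValuationSubring K) (B : Subalgebra ℤ K)
    (hB : ∀ x ∈ B, V.valuation x ≤ 1) : (centre V B hB).IsPrime where
  ne_top' := by
    intro h
    have h1 : (1 : B) ∈ centre V B hB := by rw [h]; trivial
    have h2 : V.valuation ((1 : B) : K) < 1 := h1
    simp at h2
  mem_or_mem' := by
    intro x y hxy
    have h1 : V.valuation ((x : K) * (y : K)) < 1 := hxy
    rw [map_mul] at h1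
    by_contra hcon
    push Not at hcon
    obtain ⟨hx, hy⟩ := hcon
    have hx' : V.valuation (x : K) = 1 := le_antisymm (hB _ x.2) (not_lt.mp hx)
    have hy' : V.valuation (y : K) = 1 := le_antisymm (hB _ y.2) (not_lt.mp hy)
    rw [hx', hy', one_mul] at h1
    exact lt_irrefl _ h1

/-- The localization of `B` at the centre of `V` is `vloc V B`. -/
theorem exists_equiv (V : ValuationSubring K) (B : Subalgebra ℤ K)
    (hB : ∀ x ∈ B, V.valuation x ≤ 1) (q : Ideal B) [q.IsPrime]
    (hq : ∀ x : B, x ∈ q ↔ V.valuation (x : K) < 1) :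
    Nonempty (Localization.AtPrime q ≃+* vloc V B) := by
  have hunit : ∀ y : q.primeCompl, IsUnit (algebraMap B K (y : B)) := by
    rintro ⟨y, hy⟩
    rw [isUnit_iff_ne_zero]
    intro h0
    apply hy
    show y ∈ q
    rw [hq]
    have : (y : K) = 0 := h0
    rw [this]; simp
  let φ : Localization.AtPrime q →+* K := IsLocalization.lift (M := q.primeCompl) hunit
  have hφ : ∀ (a : B) (b : q.primeCompl), φ (IsLocalization.mk' _ a b) = (a : K) / ((b : B) : K) := by
    intro a b
    rw [IsLocalization.lift_mk'_spec]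
    show (a : K) = ((b : B) : K) * ((a : K) / ((b : B) : K))
    have hb0 : ((b : B) : K) ≠ 0 := (hunit b).ne_zero
    field_simp
  have hinj : Function.Injective φ := by
    rw [injective_iff_map_eq_zero]
    intro z hz
    obtain ⟨a, b, rfl⟩ := IsLocalization.exists_mk'_eq q.primeCompl z
    rw [hφ] at hz
    have hb0 : ((b : B) : K) ≠ 0 := (hunit b).ne_zero
    have ha : (a : K) = 0 := by
      rcases div_eq_zero_iff.mp hz with h | h
      · exact h
      · exact absurd h hb0
    have : a = 0 := Subtype.ext ha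
    rw [this, IsLocalization.mk'_zero]
  have hrange : φ.range = vloc V B := by
    ext x
    constructor
    · rintro ⟨z, rfl⟩
      obtain ⟨a, b, rfl⟩ := IsLocalization.exists_mk'_eq q.primeCompl z
      refine ⟨a, a.2, (b : B), (b : B).2, ?_, hφ a b⟩
      refine le_antisymm (hB _ (b : B).2) (not_lt.mp fun h => b.2 ((hq _).mpr h))
    · rintro ⟨a, ha, b, hb, hb1, rfl⟩
      have hbq : (⟨b, hb⟩ : B) ∈ q.primeCompl := by
        intro h
        have := (hq _).mp h
        rw [hb1] at this
        exact lt_irrefl _ this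
      exact ⟨IsLocalization.mk' _ (⟨a, ha⟩ : B) ⟨⟨b, hb⟩, hbq⟩, hφ _ _⟩
  exact ⟨(RingEquiv.ofLeftInverse (f := φ) (Function.leftInverse_invFun hinj)).trans
    (RingEquiv.subringCongr hrange)⟩

/-- Every prime of a subring of a field is the centre of a valuation. -/
theorem exists_centre (B : Subalgebra ℤ K) (q : Ideal B) [q.IsPrime] :
    ∃ V : ValuationSubring K, (∀ x ∈ B, V.valuation x ≤ 1) ∧
      ∀ x : B, x ∈ q ↔ V.valuation (x : K) < 1 := by
  have hunit : ∀ y : q.primeCompl, IsUnit (algebraMap B K (y : B)) := by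
    rintro ⟨y, hy⟩
    rw [isUnit_iff_ne_zero]
    intro h0
    apply hy
    show y ∈ q
    have : y = 0 := Subtype.ext h0
    rw [this]; exact q.zero_mem
  let φ : Localization.AtPrime q →+* K := IsLocalization.lift (M := q.primeCompl) hunit
  have hφ : ∀ a : B, φ (algebraMap B _ a) = (a : K) := fun a => IsLocalization.lift_eq hunit a
  obtain ⟨V, hV, hloc⟩ := IsLocalRing.exists_factor_valuationRing φ
  have hBV : ∀ x ∈ B, V.valuation x ≤ 1 := by
    intro x hx
    rw [ValuationSubring.valuation_le_one_iff]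
    have h1 := hV (algebraMap B _ ⟨x, hx⟩)
    rw [hφ] at h1
    exact h1
  refine ⟨V, hBV, fun x => ?_⟩
  have h1 : x ∈ q ↔ ¬ IsUnit (algebraMap B (Localization.AtPrime q) x) := by
    rw [IsLocalization.AtPrime.isUnit_to_map_iff (Localization.AtPrime q) q x]
    show x ∈ q ↔ ¬ (x ∉ q)
    rw [not_not]
  have h2 : IsUnit (algebraMap B (Localization.AtPrime q) x) ↔
      IsUnit (φ.codRestrict V.toSubring hV (algebraMap B _ x)) :=
    ⟨fun h => h.map _, fun h => hloc.map_nonunit _ h⟩
  rw [h1, h2]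
  have hxV : (x : K) ∈ V := (V.valuation_le_one_iff _).mp (hBV x x.2)
  have h3 : φ.codRestrict V.toSubring hV (algebraMap B _ x) = (⟨(x : K), hxV⟩ : V) :=
    Subtype.ext (hφ x)
  rw [h3]
  have h4 := V.valuation_lt_one_iff (⟨(x : K), hxV⟩ : V)
  rw [IsLocalRing.mem_maximalIdeal, mem_nonunits_iff] at h4
  exact h4

/-- `s R` is a principal fractional ideal generated by `T`, for a local ring `R`. -/
structure Gen (R : Subring K) (s : Finset K) (T : K) : Prop where
  ne : T ≠ 0
  mem : ∀ g ∈ s, g / T ∈ R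
  ex : ∃ g ∈ s, T / g ∈ R ∧ g ≠ 0

/-- `s R` is a principal fractional ideal. -/
def Prin (R : Subring K) (s : Finset K) : Prop := ∃ T, Gen R s T

theorem Gen.val_le {V : ValuationSubring K} {R : Subring K} (hR : VLocal V R) {s : Finset K} {T : K}
    (h : Gen R s T) {g : K} (hg : g ∈ s) : V.valuation g ≤ V.valuation T := by
  have h1 := hR.le _ (h.mem g hg)
  rw [map_div₀] at h1
  have hT : 0 < V.valuation T := by
    rw [Valuation.pos_iff]; exact h.ne
  exact (div_le_one₀ hT).mp h1

theorem Gen.exists_eq {V : ValuationSubring K} {R : Subring K} (hR : VLocal V R) {s : Finset K}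
    {T : K} (h : Gen R s T) : ∃ g ∈ s, g ≠ 0 ∧ V.valuation g = V.valuation T ∧ T / g ∈ R := by
  obtain ⟨g, hg, hTg, hg0⟩ := h.ex
  refine ⟨g, hg, hg0, le_antisymm (h.val_le hR hg) ?_, hTg⟩
  have h1 := hR.le _ hTg
  rw [map_div₀] at h1
  have hg' : 0 < V.valuation g := by
    rw [Valuation.pos_iff]; exact hg0
  exact (div_le_one₀ hg').mp h1

/-- Change of generator. -/
theorem Gen.of_max {V : ValuationSubring K} {R : Subring K} (hR : VLocal V R) {s : Finset K}
    {T : K} (h : Gen R s T) {g : K} (hg : g ∈ s) (hmax : ∀ g' ∈ s, V.valuation g' ≤ V.valuation g) :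
    Gen R s g := by
  obtain ⟨g1, hg1, hg10, hv1, hT1⟩ := h.exists_eq hR
  have hvg : V.valuation g = V.valuation T := by
    apply le_antisymm (h.val_le hR hg)
    rw [← hv1]; exact hmax _ hg1
  have hT0 : V.valuation T ≠ 0 := by rw [Ne, Valuation.zero_iff]; exact h.ne
  have hg0 : g ≠ 0 := by
    intro h0
    rw [h0, map_zero] at hvg
    exact hT0 hvg.symm
  have h1 : (g / T)⁻¹ ∈ R := by
    apply hR.inv _ (h.mem g hg)
    rw [map_div₀, hvg, div_self hT0]
  have hT := h.ne
  refine ⟨hg0, fun g' hg' => ?_, g, hg, by rw [div_self hg0]; exact R.one_mem, hg0⟩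
  have : g' / g = (g' / T) * (g / T)⁻¹ := by field_simp
  rw [this]
  exact R.mul_mem (h.mem g' hg') h1

theorem Gen.div_mem_of_eq {V : ValuationSubring K} {R : Subring K} (hR : VLocal V R) {s : Finset K}
    {T U : K} (h : Gen R s T) (h' : Gen R s U) : T / U ∈ R := by
  obtain ⟨g, hg, hg0, hv, hT⟩ := h.exists_eq hR
  have := R.mul_mem hT (h'.mem g hg)
  have h2 : T / g * (g / U) = T / U := by field_simp
  rwa [h2] at this

theorem Gen.mono {R R' : Subring K} (hRR : R ≤ R') {s : Finset K} {T : K} (h : Gen R s T) :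
    Gen R' s T :=
  ⟨h.ne, fun g hg => hRR (h.mem g hg), by
    obtain ⟨g, hg, h1, h2⟩ := h.ex
    exact ⟨g, hg, hRR h1, h2⟩⟩

open AlgebraicGeometry CategoryTheory

/-- **Projective model lemma, checked along valuations.** If for every valuation ring `V` of `K`
there is a least `V`-local ring over which the finite set `s` generates a principal fractional
ideal, and this ring is regular, then the projective model of `K` defined by `s` is regular. -/
theorem hasCharts_of_vlocal (s : Finset K) (h0 : (0 : K) ∉ s) (g₀ : K) (hg₀ : g₀ ∈ s)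
    (hfrac : IsFractionRing (Algebra.adjoin ℤ (Set.range fun j : s => (j : K) / g₀)) K)
    (h : ∀ V : ValuationSubring K, ∃ R : Subring K, VLocal V R ∧ Prin R s ∧
      (∀ R' : Subring K, VLocal V R' → Prin R' s → R ≤ R') ∧ IsRegularLocalRing R) :
    Pool.Agent.H19.OG.HasCharts K := by
  refine ⟨s, inferInstance, (fun j => (j : K)), ⟨g₀, hg₀⟩, ?_, ?_, hfrac⟩
  · intro i hi
    apply h0
    have : (i : K) = 0 := hi
    rw [← this]; exact i.2
  · rintro ⟨g, hg⟩
    have hg0 : g ≠ 0 := by rintro rfl; exact h0 hg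
    show IsRegularRing (Algebra.adjoin ℤ (Set.range fun j : s => (j : K) / g))
    set B := Algebra.adjoin ℤ (Set.range fun j : s => (j : K) / g) with hB
    have hfg : B.FG := Subalgebra.fg_def.mpr ⟨_, Set.finite_range _, rfl⟩
    have hnoeth : IsNoetherianRing B := by
      have : Algebra.FiniteType ℤ B := B.fg_iff_finiteType.mp hfg
      exact Algebra.FiniteType.isNoetherianRing ℤ B
    rw [isRegularRing_iff]
    intro q hq
    obtain ⟨V, hBV, hqV⟩ := exists_centre B q
    obtain ⟨R, hR, hRs, hmin, hreg⟩ := h V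
    have hmemB : ∀ g' ∈ s, g' / g ∈ B := fun g' hg' => Algebra.subset_adjoin ⟨⟨g', hg'⟩, rfl⟩
    have hR1 : VLocal V (vloc V B) := vlocal_vloc hBV
    have hle1 : R ≤ vloc V B := by
      refine hmin _ hR1 ⟨g, hg0, fun g' hg' => subset_vloc (hmemB g' hg'), g, hg, ?_, hg0⟩
      rw [div_self hg0]
      exact Subring.one_mem _
    have hle2 : vloc V B ≤ R := by
      apply vloc_le hR
      apply adjoin_le_of
      rintro _ ⟨⟨g', hg'⟩, rfl⟩
      obtain ⟨T, hT⟩ := hRs
      refine (hT.of_max hR hg ?_).mem g' hg'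
      intro g'' hg''
      have h1 := hBV _ (hmemB g'' hg'')
      rw [map_div₀] at h1
      have hgp : 0 < V.valuation g := by rw [Valuation.pos_iff]; exact hg0
      exact (div_le_one₀ hgp).mp h1
    have hRB : R = vloc V B := le_antisymm hle1 hle2
    obtain ⟨e⟩ := exists_equiv V B hBV q hqV
    rw [hRB] at hreg
    exact IsRegularLocalRing.of_ringEquiv e.symm

/-- The same with the model itself as conclusion. -/
theorem exists_model_of_vlocal (s : Finset K) (h0 : (0 : K) ∉ s) (g₀ : K) (hg₀ : g₀ ∈ s)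
    (hfrac : IsFractionRing (Algebra.adjoin ℤ (Set.range fun j : s => (j : K) / g₀)) K)
    (h : ∀ V : ValuationSubring K, ∃ R : Subring K, VLocal V R ∧ Prin R s ∧
      (∀ R' : Subring K, VLocal V R' → Prin R' s → R ≤ R') ∧ IsRegularLocalRing R) :
    ∃ (X' : Scheme.{0}) (_ : AlgebraicGeometry.IsIntegral X') (f : X' ⟶ Spec (CommRingCat.of ℤ)),
        IsProper f ∧
        (∀ x : X',
          (((Module.finrank (IsLocalRing.ResidueField (X'.presheaf.stalk x))
              (IsLocalRing.CotangentSpace (X'.presheaf.stalk x)) : ℕ∞)) : WithBot ℕ∞)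
            = ringKrullDim (X'.presheaf.stalk x)) ∧
        Nonempty (X'.functionField ≃+* K) :=
  (hasCharts_of_vlocal s h0 g₀ hg₀ hfrac h).exists_model

end Pool.Agent.H96.VL
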