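import Pool.Agent.H96.RegPt
import Pool.Agent.H96.VLoc

/-!
# Regularity of the local ring of a finitely generated subring at the centre of a valuation
-/

set_option autoImplicit false

namespace Pool.Agent.H96.VL

open MvPolynomial IsLocalRing Pool.Agent.H96.Reg

section Residue

variable {K : Type} [Field K]

open Classical in
/-- The residue class of `x` modulo the maximal ideal of `V` (and `0` if `x ∉ V`). -/
noncomputable def resv (V : ValuationSubring K) (x : K) : ResidueField V :=
  if h : x ∈ V then residue V ⟨x, h⟩ else 0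

theorem resv_of_mem {V : ValuationSubring K} {x : K} (h : x ∈ V) :
    resv V x = residue V ⟨x, h⟩ := by
  rw [resv, dif_pos h]

theorem mem_of_val_le {V : ValuationSubring K} {x : K} (h : V.valuation x ≤ 1) : x ∈ V :=
  (V.valuation_le_one_iff x).mp h

theorem resv_eq_zero_iff {V : ValuationSubring K} {x : K} (h : V.valuation x ≤ 1) :
    resv V x = 0 ↔ V.valuation x < 1 := by
  rw [resv_of_mem (mem_of_val_le h), residue_eq_zero_iff,
    ValuationSubring.valuation_lt_one_iff]

theorem resv_ne_zero_iff {V : ValuationSubring K} {x : K} (h : V.valuation x ≤ 1) :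
    resv V x ≠ 0 ↔ V.valuation x = 1 := by
  rw [Ne, resv_eq_zero_iff h, not_lt]
  exact ⟨fun h' => le_antisymm h h', fun h' => h'.ge⟩

theorem resv_add {V : ValuationSubring K} {x y : K} (hx : V.valuation x ≤ 1)
    (hy : V.valuation y ≤ 1) : resv V (x + y) = resv V x + resv V y := by
  rw [resv_of_mem (mem_of_val_le hx), resv_of_mem (mem_of_val_le hy),
    resv_of_mem (V.add_mem _ _ (mem_of_val_le hx) (mem_of_val_le hy)), ← map_add]
  rfl

theorem resv_mul {V : ValuationSubring K} {x y : K} (hx : V.valuation x ≤ 1)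
    (hy : V.valuation y ≤ 1) : resv V (x * y) = resv V x * resv V y := by
  rw [resv_of_mem (mem_of_val_le hx), resv_of_mem (mem_of_val_le hy),
    resv_of_mem (V.mul_mem _ _ (mem_of_val_le hx) (mem_of_val_le hy)), ← map_mul]
  rfl

theorem resv_intCast (V : ValuationSubring K) (n : ℤ) : resv V (n : K) = (n : ResidueField V) := by
  have h : (n : K) ∈ V := intCast_mem V n
  rw [resv_of_mem h]
  have : (⟨(n : K), h⟩ : V) = (n : V) := by
    apply Subtype.ext
    simp
  rw [this, map_intCast]

theorem val_intCast_le (V : ValuationSubring K) (n : ℤ) : V.valuation (n : K) ≤ 1 :=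
  (V.valuation_le_one_iff _).mpr (intCast_mem V n)

theorem resv_aeval {V : ValuationSubring K} {σ : Type} (z : σ → K)
    (hz : ∀ s, V.valuation (z s) ≤ 1) (P : MvPolynomial σ ℤ) :
    V.valuation (aeval z P) ≤ 1 ∧ resv V (aeval z P) = aeval (fun s => resv V (z s)) P := by
  have h1 : ∀ P : MvPolynomial σ ℤ, aeval z P = ((aeval (fun s => (⟨z s, mem_of_val_le (hz s)⟩ : V)) P
      : V) : K) := by
    intro P
    induction P using MvPolynomial.induction_on with
    | C n => simp
    | add P Q hP hQ => rw [map_add, map_add, hP, hQ]; rfl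
    | mul_X P i hP => rw [map_mul, map_mul, hP, aeval_X, aeval_X]; rfl
  have h2 : V.valuation (aeval z P) ≤ 1 := by
    rw [h1, V.valuation_le_one_iff]
    exact (aeval (fun s => (⟨z s, mem_of_val_le (hz s)⟩ : V)) P).2
  refine ⟨h2, ?_⟩
  rw [resv_of_mem (mem_of_val_le h2)]
  have h3 : (⟨aeval z P, mem_of_val_le h2⟩ : V) =
      aeval (fun s => (⟨z s, mem_of_val_le (hz s)⟩ : V)) P := Subtype.ext (h1 P)
  rw [h3]
  induction P using MvPolynomial.induction_on with
  | C n => simp
  | add P Q hP hQ =>
    rw [map_add, map_add, map_add]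
    have hP2 : V.valuation (aeval z P) ≤ 1 := by
      rw [h1, V.valuation_le_one_iff]
      exact (aeval (fun s => (⟨z s, mem_of_val_le (hz s)⟩ : V)) P).2
    have hQ2 : V.valuation (aeval z Q) ≤ 1 := by
      rw [h1, V.valuation_le_one_iff]
      exact (aeval (fun s => (⟨z s, mem_of_val_le (hz s)⟩ : V)) Q).2
    rw [hP hP2 (Subtype.ext (h1 P)), hQ hQ2 (Subtype.ext (h1 Q))]
  | mul_X P i hP =>
    rw [map_mul, map_mul, map_mul, aeval_X, aeval_X]
    have hP2 : V.valuation (aeval z P) ≤ 1 := by
      rw [h1, V.valuation_le_one_iff]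
      exact (aeval (fun s => (⟨z s, mem_of_val_le (hz s)⟩ : V)) P).2
    rw [hP hP2 (Subtype.ext (h1 P)), resv_of_mem (mem_of_val_le (hz i))]

end Residue

theorem height_ker_aeval_le {σ κ : Type} [Finite σ] [Fintype κ] {K : Type} [Field K]
    (x : σ → K) (halg : Algebra.IsAlgebraic (Algebra.adjoin ℤ (Set.range x)) K)
    [FaithfulSMul ℤ K]
    (htr : (Nat.card σ : Cardinal.{0}) ≤ Algebra.trdeg ℤ K + Fintype.card κ)
    (π : MvPolynomial σ ℤ →ₐ[ℤ] Algebra.adjoin ℤ (Set.range x))
    (hπx : ∀ g, ((π g : Algebra.adjoin ℤ (Set.range x)) : K) = aeval x g) :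
    (RingHom.ker (π : MvPolynomial σ ℤ →+* Algebra.adjoin ℤ (Set.range x))).height ≤
      ((Fintype.card κ : ℕ) : ℕ∞) := by
  classical
  obtain ⟨t, htx, ht⟩ := exists_isTranscendenceBasis_subset (R := ℤ) (A := K) (Set.range x)
  choose g hg using fun z : t => htx z.2
  have hginj : Function.Injective g := by
    intro a b hab
    apply Subtype.ext
    rw [← hg a, ← hg b, hab]
  let T : Set σ := Set.range g
  let e : t ≃ T := Equiv.ofInjective g hginj
  have hT : AlgebraicIndependent ℤ (fun i : T => x (i : σ)) := by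
    have h1 : (fun i : T => x (i : σ)) = (Subtype.val : t → K) ∘ e.symm := by
      funext i
      obtain ⟨z, rfl⟩ := e.surjective i
      rw [Function.comp_apply, Equiv.symm_apply_apply]
      exact hg z
    rw [h1]
    exact ht.1.comp _ e.symm.injective
  have hcardT : (Nat.card T : Cardinal.{0}) = Algebra.trdeg ℤ K := by
    rw [← ht.cardinalMk_eq_trdeg, Nat.cast_card]
    exact (Cardinal.mk_congr e).symm
  have hsplit : Nat.card σ = Nat.card T + Nat.card (Tᶜ : Set σ) := by
    rw [← Nat.card_sum]
    exact Nat.card_congr (Equiv.Set.sumCompl T).symm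
  have hcompl : Nat.card (Tᶜ : Set σ) ≤ Fintype.card κ := by
    rw [← hcardT, hsplit] at htr
    have : Nat.card T + Nat.card (Tᶜ : Set σ) ≤ Nat.card T + Fintype.card κ := by exact_mod_cast htr
    omega
  have hTπ : AlgebraicIndependent ℤ (fun i : T => π (X (i : σ))) := by
    have h1 : AlgebraicIndependent ℤ
        (fun i : T => (Algebra.adjoin ℤ (Set.range x)).val (π (X (i : σ)))) := by
      have : (fun i : T => (Algebra.adjoin ℤ (Set.range x)).val (π (X (i : σ)))) =
          fun i : T => x (i : σ) := by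
        funext i
        show ((π (X (i : σ)) : Algebra.adjoin ℤ (Set.range x)) : K) = x i
        rw [hπx, aeval_X]
      rw [this]; exact hT
    exact AlgebraicIndependent.of_comp (Algebra.adjoin ℤ (Set.range x)).val h1
  exact (height_ker_le (π : MvPolynomial σ ℤ →+* Algebra.adjoin ℤ (Set.range x)) T hTπ).trans
    (show ((Nat.card (Tᶜ : Set σ) : ℕ) : ℕ∞) ≤ ((Fintype.card κ : ℕ) : ℕ∞) by exact_mod_cast hcompl)

/-- **Regularity at the centre of a valuation, from relations.** -/
theorem isRegularLocalRing_vloc {σ κ : Type} [Finite σ] [Fintype κ] {K : Type} [Field K]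
    [CharZero K] (V : ValuationSubring K) (z : σ → K) (hz : ∀ s, V.valuation (z s) ≤ 1)
    (halg : Algebra.IsAlgebraic (Algebra.adjoin ℤ (Set.range z)) K)
    (f : κ → MvPolynomial σ ℤ) (hf : ∀ k, aeval z (f k) = 0)
    (htr : (Nat.card σ : Cardinal.{0}) ≤ Algebra.trdeg ℤ K + Fintype.card κ)
    (hind : IndepAt f (RingHom.ker
      (aeval (fun s => resv V (z s)) : MvPolynomial σ ℤ →ₐ[ℤ] ResidueField V))) :
    IsRegularLocalRing (vloc V (Algebra.adjoin ℤ (Set.range z))) := by
  classical
  set B := Algebra.adjoin ℤ (Set.range z) with hB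
  have hBV : ∀ x ∈ B, V.valuation x ≤ 1 := by
    apply adjoin_val_le
    rintro _ ⟨s, rfl⟩
    exact hz s
  let π : MvPolynomial σ ℤ →ₐ[ℤ] B := aeval (fun i => ⟨z i, Algebra.subset_adjoin ⟨i, rfl⟩⟩)
  have hπx : ∀ g, ((π g : B) : K) = aeval z g := by
    intro g
    have : (B.val.comp π) = aeval z := by
      apply MvPolynomial.algHom_ext
      intro i
      simp [π]
    exact congrFun (congrArg DFunLike.coe this) g
  have hπ : Function.Surjective (π : MvPolynomial σ ℤ →+* B) := by
    rintro ⟨w, hw⟩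
    have hz' := hw
    rw [hB, Algebra.adjoin_range_eq_range_aeval] at hz'
    obtain ⟨g, hg⟩ := hz'
    exact ⟨g, Subtype.ext ((hπx g).trans hg)⟩
  have hht := height_ker_aeval_le (κ := κ) z halg htr π hπx
  let ε : Fin (Fintype.card κ) ≃ κ := (Fintype.equivFin κ).symm
  have hf0 : ∀ k, (π : MvPolynomial σ ℤ →+* B) (f k) = 0 := by
    intro k
    apply Subtype.ext
    exact (hπx (f k)).trans (hf k)
  have hnoeth : IsNoetherianRing B :=
    isNoetherianRing_of_surjective _ _ (π : MvPolynomial σ ℤ →+* B) hπ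
  let q := centre V B hBV
  have hq : q.IsPrime := centre_isPrime V B hBV
  have hcomap : q.comap (π : MvPolynomial σ ℤ →+* B) = RingHom.ker
      (aeval (fun s => resv V (z s)) : MvPolynomial σ ℤ →ₐ[ℤ] ResidueField V) := by
    ext g
    have h1 := resv_aeval z hz g
    show V.valuation ((π g : B) : K) < 1 ↔ aeval (fun s => resv V (z s)) g = 0
    rw [hπx, ← resv_eq_zero_iff h1.1, h1.2]
  have hreg : IsRegularLocalRing (Localization.AtPrime q) := by
    refine isRegularLocalRing_of_surjective_pt (π : MvPolynomial σ ℤ →+* B) hπ (f ∘ ε)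
      (fun k => hf0 _) hht q ?_
    rw [hcomap]
    exact hind.comp_equiv ε
  obtain ⟨e⟩ := exists_equiv V B hBV q (fun x => Iff.rfl)
  exact IsRegularLocalRing.of_ringEquiv e

end Pool.Agent.H96.VL
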