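import Pool.Agent.H96.DSys
import Pool.Agent.H96.RegV

/-!
# The systems at a centred point, and the wrapper for the charts
-/

set_option autoImplicit false
set_option linter.unusedSectionVars false

namespace Pool.Agent.H96.VL

open MvPolynomial

theorem isFractionRing_of_closure {K : Type} [Field K] (B : Subalgebra ℤ K)
    (h : Subfield.closure (B : Set K) = ⊤) : IsFractionRing B K := by
  have hBr : Subring.closure (B : Set K) = B.toSubring := by
    rw [← Subalgebra.coe_toSubring]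
    exact Subring.closure_eq _
  apply IsFractionRing.of_field
  intro z
  have hz : z ∈ Subfield.closure (B : Set K) := by rw [h]; trivial
  obtain ⟨y, hy, w, hw, hyw⟩ := Subfield.mem_closure_iff.mp hz
  rw [hBr] at hy hw
  exact ⟨⟨y, hy⟩, ⟨w, hw⟩, hyw.symm⟩

/-- The condition to be checked along `V`. -/
def Good {K : Type} [Field K] (V : ValuationSubring K) (s : Finset K) : Prop :=
  ∃ R : Subring K, VLocal V R ∧ Prin R s ∧
    (∀ R' : Subring K, VLocal V R' → Prin R' s → R ≤ R') ∧ IsRegularLocalRing R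

theorem good_of_relations {σ κ : Type} [Finite σ] [Fintype κ] {K : Type} [Field K]
    [CharZero K] (V : ValuationSubring K) (s : Finset K) (z : σ → K)
    (hz : ∀ s, V.valuation (z s) ≤ 1)
    (hfield : Subfield.closure (Set.range z) = ⊤)
    (f : κ → MvPolynomial σ ℤ) (hf : ∀ k, aeval z (f k) = 0)
    (htr : (Nat.card σ : Cardinal.{0}) ≤ Algebra.trdeg ℤ K + Fintype.card κ)
    (hind : (∀ k, aeval (fun s => resv V (z s)) (f k) = 0) → Reg.IndepAt f (RingHom.ker
      (aeval (fun s => resv V (z s)) : MvPolynomial σ ℤ →ₐ[ℤ] IsLocalRing.ResidueField V)))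
    (hprin : ∀ R : Subring K, VLocal V R → (∀ s, z s ∈ R) → Prin R s)
    (hmin : ∀ R' : Subring K, VLocal V R' → Prin R' s → ∀ j, z j ∈ R') : Good V s := by
  have hBV : ∀ x ∈ Algebra.adjoin ℤ (Set.range z), V.valuation x ≤ 1 := by
    apply adjoin_val_le
    rintro _ ⟨s, rfl⟩
    exact hz s
  have hR : VLocal V (vloc V (Algebra.adjoin ℤ (Set.range z))) := vlocal_vloc hBV
  refine ⟨vloc V (Algebra.adjoin ℤ (Set.range z)), hR, hprin _ hR ?_, ?_, ?_⟩
  · intro s
    exact subset_vloc (Algebra.subset_adjoin ⟨s, rfl⟩)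
  · intro R' hR' hP
    apply vloc_le hR'
    apply adjoin_le_of
    rintro _ ⟨s, rfl⟩
    exact hmin R' hR' hP s
  · have hcl : Subfield.closure (Algebra.adjoin ℤ (Set.range z) : Set K) = ⊤ := by
      rw [eq_top_iff, ← hfield]
      exact Subfield.closure_mono Algebra.subset_adjoin
    have hfr := isFractionRing_of_closure _ hcl
    have halg : Algebra.IsAlgebraic (Algebra.adjoin ℤ (Set.range z)) K :=
      IsLocalization.isAlgebraic K (nonZeroDivisors (Algebra.adjoin ℤ (Set.range z)))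
    refine isRegularLocalRing_vloc V z hz halg f hf htr (hind fun k => ?_)
    have h1 := (resv_aeval z hz (f k)).2
    rw [← h1, hf k, resv_eq_zero_iff (by simp)]
    simp

end Pool.Agent.H96.VL

namespace Pool.Agent.H96.Diag

open MvPolynomial Pool.Agent.H96.VL
open scoped Pointwise

variable {K : Type} [Field K] [CharZero K] [DecidableEq K] {ι : Type} [Fintype ι] [DecidableEq ι]
variable {V : ValuationSubring K} {R : Subring K}

/-- The data attached to a valuation centred at `c`. -/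
structure CData (V : ValuationSubring K) (p : ℕ) (x : ι → K) (c : ι → ℤ) (i : ι) (t : K)
    (y : ι → K) : Prop where
  t0 : t ≠ 0
  xi : x i = c i * t
  ci : V.valuation (c i : K) = 1
  xj : ∀ j, x j = t * (c j + y j)
  yi : y i = 0
  py : V.valuation (p : K) < 1
  hy : ∀ j, V.valuation (y j) < 1

theorem CData.inv_ci {p : ℕ} {x : ι → K} {c : ι → ℤ} {i : ι} {t : K} {y : ι → K}
    (h : CData V p x c i t y) (hR : VLocal V R) : ((c i : K))⁻¹ ∈ R :=
  hR.inv _ (intCast_mem R _) h.ci

theorem CData.ci0 {p : ℕ} {x : ι → K} {c : ι → ℤ} {i : ι} {t : K} {y : ι → K}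
    (h : CData V p x c i t y) : (c i : K) ≠ 0 := by
  intro h0
  have := h.ci
  rw [h0, map_zero] at this
  exact zero_ne_one this

theorem CData.minor {p : ℕ} {x : ι → K} {c : ι → ℤ} {i : ι} {t : K} {y : ι → K}
    (h : CData V p x c i t y) (j l : ι) :
    (c l : K) * x j - c j * x l = t * (c l * y j - c j * y l) := by
  rw [h.xj j, h.xj l]; ring

theorem CData.minor_i {p : ℕ} {x : ι → K} {c : ι → ℤ} {i : ι} {t : K} {y : ι → K}
    (h : CData V p x c i t y) (j : ι) :
    (c i : K) * x j - c j * x i = t * (c i * y j) := by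
  rw [h.minor, h.yi]; ring

/-- `e` is a generator of the ideal of the point `c`. -/
theorem CData.gen_mS {p : ℕ} (hp : p ≠ 0) {x : ι → K} (hx : ∀ j, x j ≠ 0) {c : ι → ℤ} {i : ι}
    {t : K} {y : ι → K}
    (h : CData V p x c i t y) (hR : VLocal V R) (hXR : ∀ j, x j / t ∈ R) {e : K} (he0 : e ≠ 0)
    (he : e = p ∨ ∃ j, e = y j) (hpe : (p : K) / e ∈ R) (hye : ∀ j, y j / e ∈ R) :
    Gen R (mS p x c) (e * t) := by
  have ht := h.t0
  have hc := h.ci0
  refine ⟨mul_ne_zero he0 ht, ?_, ?_⟩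
  · intro g hg
    obtain ⟨_, ⟨j, rfl⟩ | ⟨j, l, rfl⟩⟩ := mS_cases hg
    · have : (p : K) * x j / (e * t) = (p / e) * (x j / t) := by field_simp
      rw [this]
      exact R.mul_mem hpe (hXR j)
    · rw [h.minor]
      have : t * ((c l : K) * y j - c j * y l) / (e * t) = c l * (y j / e) - c j * (y l / e) := by
        field_simp
      rw [this]
      exact R.sub_mem (R.mul_mem (intCast_mem R _) (hye j)) (R.mul_mem (intCast_mem R _) (hye l))
  · rcases he with he | ⟨j, he⟩
    · refine ⟨p * x i, mem_mS_p hp hx c i, ?_, ?_⟩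
      · have : e * t / (p * x i) = (c i : K)⁻¹ := by
          rw [he] at he0 ⊢
          rw [h.xi]; field_simp
        rw [this]
        exact h.inv_ci hR
      · rw [← he]; exact mul_ne_zero he0 (hx i)
    · have h1 : (c i : K) * x j - c j * x i = t * (c i * e) := by rw [h.minor_i, he]
      have h2 : (c i : K) * x j - c j * x i ≠ 0 := by
        rw [h1]; exact mul_ne_zero ht (mul_ne_zero hc he0)
      refine ⟨_, mem_mS_minor h2, ?_, h2⟩
      rw [h1]
      have : e * t / (t * ((c i : K) * e)) = (c i : K)⁻¹ := by field_simp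
      rw [this]
      exact h.inv_ci hR

/-- Conversely. -/
theorem CData.div_mem_of_prin {p : ℕ} (hp : p ≠ 0) {x : ι → K} (hx : ∀ j, x j ≠ 0) {c : ι → ℤ}
    {i : ι} {t : K} {y : ι → K}
    (h : CData V p x c i t y) (hR : VLocal V R) (hxt : ∀ j, V.valuation (x j) ≤ V.valuation t)
    {e : K} (he0 : e ≠ 0)
    (he : e = p ∨ ∃ j, e = y j) (hpe : V.valuation (p : K) ≤ V.valuation e)
    (hye : ∀ j, V.valuation (y j) ≤ V.valuation e) (hP : Prin R (mS p x c)) :
    (p : K) / e ∈ R ∧ ∀ j, y j / e ∈ R := by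
  have ht := h.t0
  have hc := h.ci0
  obtain ⟨T, hT⟩ := hP
  have hmem : e * (c i * t) ∈ mS p x c := by
    rcases he with he | ⟨j, he⟩
    · rw [he, ← h.xi]
      exact mem_mS_p hp hx c i
    · have h1 : e * (c i * t) = (c i : K) * x j - c j * x i := by rw [h.minor_i, he]; ring
      rw [h1]
      apply mem_mS_minor
      rw [← h1]
      exact mul_ne_zero he0 (mul_ne_zero hc ht)
  have hgen : Gen R (mS p x c) (e * (c i * t)) := by
    refine hT.of_max hR hmem ?_
    intro g hg
    rw [map_mul, map_mul, h.ci, one_mul]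
    obtain ⟨_, ⟨j, rfl⟩ | ⟨j, l, rfl⟩⟩ := mS_cases hg
    · rw [map_mul]
      exact mul_le_mul' hpe (hxt j)
    · rw [h.minor, map_mul, mul_comm]
      refine mul_le_mul' ?_ le_rfl
      refine (V.valuation.map_sub _ _).trans (max_le ?_ ?_)
      · rw [map_mul]
        calc V.valuation (c l : K) * V.valuation (y j) ≤ 1 * V.valuation e :=
              mul_le_mul' (val_intCast_le V _) (hye j)
          _ = _ := one_mul _
      · rw [map_mul]
        calc V.valuation (c j : K) * V.valuation (y l) ≤ 1 * V.valuation e :=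
              mul_le_mul' (val_intCast_le V _) (hye l)
          _ = _ := one_mul _
  constructor
  · have h1 := hgen.mem _ (mem_mS_p hp hx c i)
    have : (p : K) * x i / (e * (c i * t)) = p / e := by
      rw [h.xi]; field_simp
    rwa [this] at h1
  · intro j
    by_cases hj : y j = 0
    · rw [hj, zero_div]; exact R.zero_mem
    · have h2 : (c i : K) * x j - c j * x i ≠ 0 := by
        rw [h.minor_i]; exact mul_ne_zero ht (mul_ne_zero hc hj)
      have h1 := hgen.mem _ (mem_mS_minor h2)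
      rw [h.minor_i] at h1
      have : t * ((c i : K) * y j) / (e * (c i * t)) = y j / e := by
        field_simp
      rwa [this] at h1

section J2

variable {p : ℕ} {a : ι → ℤ} {x : ι → K} {c : ι → ℤ} {t e n : K}

theorem gen_J2 (hp : p.Prime) (ht : t ≠ 0) (hX : Gen R (X0 x) t) (hm : Gen R (mS p x c) (e * t))
    (hl : gx p a x ≠ 0) (hn : n = p ∨ n = gx p a x / t ^ p ∨ n = e ^ 2)
    (h1 : (p : K) / n ∈ R) (h2 : (gx p a x / t ^ p) / n ∈ R) (h3 : e ^ 2 / n ∈ R) :
    Gen R (J2 p a x c) (n * t ^ p) := by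
  have hpK : (p : K) ≠ 0 := by exact_mod_cast hp.ne_zero
  have he : e ≠ 0 := left_ne_zero_of_mul hm.ne
  have htp : t ^ p ≠ 0 := pow_ne_zero _ ht
  have hn0 : n ≠ 0 := by
    rcases hn with h | h | h
    · rw [h]; exact hpK
    · rw [h]; exact div_ne_zero hl htp
    · rw [h]; exact pow_ne_zero _ he
  have g1 : Gen R ({(p : K)} * X0 x ^ p) (p * t ^ p) := (Gen.singleton hpK).mul (hX.pow _)
  have g2 : Gen R {gx p a x} (gx p a x) := Gen.singleton hl
  have g3 : Gen R (mS p x c ^ 2 * X0 x ^ (p - 2)) (e ^ 2 * t ^ p) := by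
    have h := (hm.pow 2).mul (hX.pow (p - 2))
    rwa [mul_pow, mul_assoc, ← pow_add, Nat.add_sub_cancel' hp.two_le] at h
  have m1 : ∀ g ∈ ({(p : K)} * X0 x ^ p : Finset K), g / (n * t ^ p) ∈ R := by
    apply g1.div_mem_trans
    rw [mul_div_mul_right _ _ htp]
    exact h1
  have m2 : ∀ g ∈ ({gx p a x} : Finset K), g / (n * t ^ p) ∈ R := by
    apply g2.div_mem_trans
    have : gx p a x / (n * t ^ p) = (gx p a x / t ^ p) / n := by field_simp
    rw [this]
    exact h2
  have m3 : ∀ g ∈ mS p x c ^ 2 * X0 x ^ (p - 2), g / (n * t ^ p) ∈ R := by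
    apply g3.div_mem_trans
    rw [mul_div_mul_right _ _ htp]
    exact h3
  refine ⟨mul_ne_zero hn0 htp, ?_, ?_⟩
  · intro g hg
    rcases Finset.mem_union.mp hg with h | h
    · exact m1 g h
    · rcases Finset.mem_union.mp h with h | h
      · exact m2 g h
      · exact m3 g h
  · rcases hn with h | h | h
    · obtain ⟨g, hg, h4, h5⟩ := g1.ex
      exact ⟨g, Finset.mem_union_left _ hg, by rw [h]; exact h4, h5⟩
    · refine ⟨gx p a x, Finset.mem_union_right _ (Finset.mem_union_left _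
        (Finset.mem_singleton_self _)), ?_, hl⟩
      have : n * t ^ p / gx p a x = 1 := by
        rw [h]; field_simp
      rw [this]; exact R.one_mem
    · obtain ⟨g, hg, h4, h5⟩ := g3.ex
      exact ⟨g, Finset.mem_union_right _ (Finset.mem_union_right _ hg), by rw [h]; exact h4, h5⟩

theorem div_mem_of_prin_J2 (hR : VLocal V R) (hp : p.Prime) (ht : t ≠ 0) (hX : Gen R (X0 x) t)
    (hm : Gen R (mS p x c) (e * t))
    (hl : gx p a x ≠ 0) (hn : n = p ∨ n = gx p a x / t ^ p ∨ n = e ^ 2)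
    (h1 : V.valuation (p : K) ≤ V.valuation n)
    (h2 : V.valuation (gx p a x / t ^ p) ≤ V.valuation n)
    (h3 : V.valuation (e ^ 2) ≤ V.valuation n) (hP : Prin R (J2 p a x c)) :
    (p : K) / n ∈ R ∧ (gx p a x / t ^ p) / n ∈ R ∧ e ^ 2 / n ∈ R := by
  have hpK : (p : K) ≠ 0 := by exact_mod_cast hp.ne_zero
  have htp : t ^ p ≠ 0 := pow_ne_zero _ ht
  have g1 : Gen R ({(p : K)} * X0 x ^ p) (p * t ^ p) := (Gen.singleton hpK).mul (hX.pow _)
  have g2 : Gen R {gx p a x} (gx p a x / t ^ p * t ^ p) := by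
    rw [div_mul_cancel₀ _ htp]
    exact Gen.singleton hl
  have g3 : Gen R (mS p x c ^ 2 * X0 x ^ (p - 2)) (e ^ 2 * t ^ p) := by
    have h := (hm.pow 2).mul (hX.pow (p - 2))
    rwa [mul_pow, mul_assoc, ← pow_add, Nat.add_sub_cancel' hp.two_le] at h
  have s1 : ({(p : K)} * X0 x ^ p : Finset K) ⊆ J2 p a x c := Finset.subset_union_left
  have s2 : ({gx p a x} : Finset K) ⊆ J2 p a x c :=
    Finset.subset_union_left.trans Finset.subset_union_right
  have s3 : mS p x c ^ 2 * X0 x ^ (p - 2) ⊆ J2 p a x c :=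
    Finset.subset_union_right.trans Finset.subset_union_right
  have hmax : ∀ g ∈ J2 p a x c, V.valuation g ≤ V.valuation (n * t ^ p) := by
    intro g hg
    rw [map_mul]
    rcases Finset.mem_union.mp hg with h | h
    · refine (g1.val_le hR h).trans ?_
      rw [map_mul]
      exact mul_le_mul' h1 le_rfl
    · rcases Finset.mem_union.mp h with h | h
      · refine (g2.val_le hR h).trans ?_
        rw [map_mul]
        exact mul_le_mul' h2 le_rfl
      · refine (g3.val_le hR h).trans ?_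
        rw [map_mul]
        exact mul_le_mul' h3 le_rfl
  obtain ⟨u, gu, su⟩ : ∃ u, Gen R u (n * t ^ p) ∧ u ⊆ J2 p a x c := by
    rcases hn with h | h | h
    · exact ⟨_, by rw [h]; exact g1, s1⟩
    · exact ⟨_, by rw [h]; exact g2, s2⟩
    · exact ⟨_, by rw [h]; exact g3, s3⟩
  refine ⟨?_, ?_, ?_⟩
  · have h4 := g1.div_mem_of_prin hR gu s1 su hmax hP
    rwa [mul_div_mul_right _ _ htp] at h4
  · have h4 := g2.div_mem_of_prin hR gu s2 su hmax hP
    rwa [mul_div_mul_right _ _ htp] at h4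
  · have h4 := g3.div_mem_of_prin hR gu s3 su hmax hP
    rwa [mul_div_mul_right _ _ htp] at h4

theorem gen_MS_NS (hR : VLocal V R) (hp : p.Prime) (hF : ws p a x = 0) (ht : t ≠ 0)
    (hXR : ∀ j, x j / t ∈ R) (hX : Gen R (X0 x) t) {𝒱 : Finset (ι → ℤ)} (hc : c ∈ 𝒱)
    (hother : ∀ c' ∈ 𝒱, c' ≠ c → ∃ g ∈ mS p x c', V.valuation t ≤ V.valuation g)
    (hm : Gen R (mS p x c) (e * t)) (hJ : Gen R (J2 p a x c) (n * t ^ p)) :
    Gen R (MS p x 𝒱) (e * t ^ 𝒱.card) ∧ Gen R (NS p a x 𝒱) (n * t ^ (p * 𝒱.card)) := by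
  classical
  have h1 : ∀ c' ∈ 𝒱.erase c, Gen R (mS p x c') t := fun c' hc' =>
    gen_mS_of_not hR ht hXR (hother c' (Finset.mem_of_mem_erase hc') (Finset.ne_of_mem_erase hc'))
  have hcard : 𝒱.card = 1 + (𝒱.erase c).card := by
    rw [Finset.card_erase_of_mem hc]
    have := Finset.card_pos.mpr ⟨c, hc⟩
    omega
  constructor
  · have h := hm.mul (Gen.prod (𝒱.erase c) h1)
    rw [Finset.mul_prod_erase 𝒱 (mS p x) hc, Finset.prod_const] at h
    rw [MS, hcard, pow_add, pow_one, ← mul_assoc]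
    exact h
  · have h := hJ.mul (Gen.prod (𝒱.erase c) fun c' hc' => gen_J2_of_one hp hF ht hXR hX (h1 c' hc'))
    rw [Finset.mul_prod_erase 𝒱 (J2 p a x) hc, Finset.prod_const, ← pow_mul] at h
    rw [NS, hcard, mul_add, pow_add, mul_one, ← mul_assoc]
    exact h

end J2

end Pool.Agent.H96.Diag
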