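import Pool.Agent.H96.VLoc

/-!
# Calculus of principal systems
-/

set_option autoImplicit false

namespace Pool.Agent.H96.VL

open scoped Pointwise

variable {K : Type} [Field K] [DecidableEq K] {R : Subring K}

theorem Gen.mul {s t : Finset K} {T U : K} (hs : Gen R s T) (ht : Gen R t U) :
    Gen R (s * t) (T * U) := by
  refine ⟨mul_ne_zero hs.ne ht.ne, ?_, ?_⟩
  · intro g hg
    obtain ⟨a, ha, b, hb, rfl⟩ := Finset.mem_mul.mp hg
    rw [mul_div_mul_comm]
    exact R.mul_mem (hs.mem a ha) (ht.mem b hb)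
  · obtain ⟨a, ha, h1, h2⟩ := hs.ex
    obtain ⟨b, hb, h3, h4⟩ := ht.ex
    refine ⟨a * b, Finset.mul_mem_mul ha hb, ?_, mul_ne_zero h2 h4⟩
    rw [mul_div_mul_comm]
    exact R.mul_mem h1 h3

theorem Gen.one : Gen R (1 : Finset K) 1 := by
  refine ⟨one_ne_zero, ?_, ⟨1, by simp, by simp [R.one_mem], one_ne_zero⟩⟩
  intro g hg
  rw [Finset.mem_one] at hg
  rw [hg]; simp [R.one_mem]

theorem Gen.pow {s : Finset K} {T : K} (hs : Gen R s T) (n : ℕ) : Gen R (s ^ n) (T ^ n) := by
  induction n with
  | zero => simpa using Gen.one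
  | succ n ih => rw [pow_succ, pow_succ]; exact ih.mul hs

theorem Gen.prod {κ : Type} (A : Finset κ) {s : κ → Finset K} {T : κ → K}
    (h : ∀ c ∈ A, Gen R (s c) (T c)) : Gen R (∏ c ∈ A, s c) (∏ c ∈ A, T c) := by
  classical
  induction A using Finset.induction_on with
  | empty => simpa using Gen.one
  | insert a A ha ih =>
    rw [Finset.prod_insert ha, Finset.prod_insert ha]
    exact (h a (Finset.mem_insert_self a A)).mul (ih fun c hc => h c (Finset.mem_insert_of_mem hc))

theorem Gen.singleton {a : K} (ha : a ≠ 0) : Gen R {a} a := by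
  refine ⟨ha, ?_, ⟨a, Finset.mem_singleton_self a, by rw [div_self ha]; exact R.one_mem, ha⟩⟩
  intro g hg
  rw [Finset.mem_singleton] at hg
  rw [hg, div_self ha]
  exact R.one_mem

theorem Prin.of_mul_left {s t : Finset K} (h : Prin R (s * t)) : Prin R s := by
  obtain ⟨W, hW⟩ := h
  obtain ⟨g, hg, h1, h2⟩ := hW.ex
  obtain ⟨a, ha, b, hb, rfl⟩ := Finset.mem_mul.mp hg
  have ha0 := left_ne_zero_of_mul h2
  have hb0 := right_ne_zero_of_mul h2
  have hW0 := hW.ne
  refine ⟨a, ha0, fun a' ha' => ?_, a, ha, by rw [div_self ha0]; exact R.one_mem, ha0⟩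
  have h3 := R.mul_mem (hW.mem (a' * b) (Finset.mul_mem_mul ha' hb)) h1
  have : a' * b / W * (W / (a * b)) = a' / a := by field_simp
  rwa [this] at h3

theorem Prin.of_mul_right {s t : Finset K} (h : Prin R (s * t)) : Prin R t := by
  rw [mul_comm] at h
  exact h.of_mul_left

theorem prin_mul_iff {s t : Finset K} : Prin R (s * t) ↔ Prin R s ∧ Prin R t :=
  ⟨fun h => ⟨h.of_mul_left, h.of_mul_right⟩, fun ⟨⟨_, hT⟩, ⟨_, hU⟩⟩ => ⟨_, hT.mul hU⟩⟩

theorem prin_prod_iff {κ : Type} (A : Finset κ) {s : κ → Finset K} :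
    Prin R (∏ c ∈ A, s c) ↔ ∀ c ∈ A, Prin R (s c) := by
  classical
  constructor
  · intro h c hc
    rw [← Finset.mul_prod_erase A s hc] at h
    exact h.of_mul_left
  · intro h
    choose! T hT using h
    exact ⟨_, Gen.prod A hT⟩

/-- Comparability in `R`. -/
def Cmp (R : Subring K) (u w : K) : Prop := u / w ∈ R ∨ w / u ∈ R

omit [DecidableEq K] in
theorem Cmp.div_mem {V : ValuationSubring K} (hR : VLocal V R) {u w : K} (h : Cmp R u w)
    (hu : u ≠ 0) (hw : w ≠ 0) (hv : V.valuation u ≤ V.valuation w) : u / w ∈ R := by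
  rcases h with h | h
  · exact h
  · have hu' : 0 < V.valuation u := by rw [Valuation.pos_iff]; exact hu
    have h1 : V.valuation (w / u) = 1 := by
      apply le_antisymm (hR.le _ h)
      rw [map_div₀]
      exact (one_le_div₀ hu').mpr hv
    have h2 := hR.inv _ h h1
    rwa [inv_div] at h2

theorem Gen.union_left {s t : Finset K} {U : K} (ht : Gen R t U) (hs : ∀ g ∈ s, g / U ∈ R) :
    Gen R (s ∪ t) U := by
  refine ⟨ht.ne, ?_, ?_⟩
  · intro g hg
    rcases Finset.mem_union.mp hg with h | h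
    · exact hs g h
    · exact ht.mem g h
  · obtain ⟨b, hb, h3, h4⟩ := ht.ex
    exact ⟨b, Finset.mem_union_right _ hb, h3, h4⟩

theorem Gen.union_right {s t : Finset K} {T : K} (hs : Gen R s T) (ht : ∀ g ∈ t, g / T ∈ R) :
    Gen R (s ∪ t) T := by
  rw [Finset.union_comm]
  exact hs.union_left ht

omit [DecidableEq K] in
theorem Gen.div_mem_trans {s : Finset K} {T U : K} (hs : Gen R s T) (hTU : T / U ∈ R) :
    ∀ g ∈ s, g / U ∈ R := by
  intro g hg
  have h := R.mul_mem (hs.mem g hg) hTU
  have hT := hs.ne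
  have : g / T * (T / U) = g / U := by field_simp
  rwa [this] at h

theorem Gen.prin_union {s t : Finset K} {T U : K} (hs : Gen R s T) (ht : Gen R t U)
    (h : Cmp R T U) : Prin R (s ∪ t) := by
  rcases h with h | h
  · exact ⟨U, ht.union_left (hs.div_mem_trans h)⟩
  · exact ⟨T, hs.union_right (ht.div_mem_trans h)⟩

/-- Any two generators of subsystems are comparable to the generator of a principal system,
in case the second has maximal value. -/
theorem Gen.div_mem_of_prin {V : ValuationSubring K} (hR : VLocal V R) {s t u : Finset K}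
    {T U : K} (hs : Gen R s T) (ht : Gen R t U) (hsu : s ⊆ u) (htu : t ⊆ u)
    (hmax : ∀ g ∈ u, V.valuation g ≤ V.valuation U) (h : Prin R u) : T / U ∈ R := by
  obtain ⟨W, hW⟩ := h
  obtain ⟨a, ha, ha0, hva, hTa⟩ := hs.exists_eq hR
  obtain ⟨b, hb, hb0, hvb, hUb⟩ := ht.exists_eq hR
  have hgen : Gen R u b := hW.of_max hR (htu hb) (fun g hg => by rw [hvb]; exact hmax g hg)
  have h1 := hgen.mem a (hsu ha)
  have h2 := ht.mem b hb
  have hU := ht.ne
  have h3 := R.mul_mem (R.mul_mem hTa h1) h2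
  have : T / a * (a / b) * (b / U) = T / U := by field_simp
  rwa [this] at h3

theorem Gen.cmp_of_prin_union {V : ValuationSubring K} (hR : VLocal V R) {s t : Finset K}
    {T U : K} (hs : Gen R s T) (ht : Gen R t U) (h : Prin R (s ∪ t)) : Cmp R T U := by
  rcases le_total (V.valuation T) (V.valuation U) with hv | hv
  · left
    refine hs.div_mem_of_prin hR ht Finset.subset_union_left Finset.subset_union_right ?_ h
    intro g hg
    rcases Finset.mem_union.mp hg with h' | h'
    · exact (hs.val_le hR h').trans hv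
    · exact ht.val_le hR h'
  · right
    refine ht.div_mem_of_prin hR hs Finset.subset_union_right Finset.subset_union_left ?_ h
    intro g hg
    rcases Finset.mem_union.mp hg with h' | h'
    · exact hs.val_le hR h'
    · exact (ht.val_le hR h').trans hv

theorem prin_union_iff {V : ValuationSubring K} (hR : VLocal V R) {s t : Finset K}
    {T U : K} (hs : Gen R s T) (ht : Gen R t U) : Prin R (s ∪ t) ↔ Cmp R T U :=
  ⟨fun h => hs.cmp_of_prin_union hR ht h, fun h => hs.prin_union ht h⟩

end Pool.Agent.H96.VL
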