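import Pool.Agent.H96.DPoly

/-!
# Expansion of a diagonal form at a point
-/

set_option autoImplicit false

namespace Pool.Agent.H96.Diag

open MvPolynomial Pool.Agent.H96.Reg

/-- The higher part of the binomial expansion of `(c + z) ^ p`. -/
noncomputable def upol (p : ℕ) (c : ℤ) : Polynomial ℤ :=
  ∑ k ∈ Finset.range (p - 3), Polynomial.C (((p.choose (k + 3) / p : ℕ) : ℤ) * c ^ (p - 3 - k)) *
    Polynomial.X ^ k

theorem binom_expand {p : ℕ} (hp : p.Prime) (hp3 : 3 ≤ p) (c : ℤ) {A : Type} [CommRing A]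
    [Algebra ℤ A] (z : A) :
    ((c : A) + z) ^ p = (c : A) ^ p + p * (c : A) ^ (p - 1) * z +
      p * (((((p - 1) / 2 : ℕ) : ℤ) * c ^ (p - 2) : ℤ) : A) * z ^ 2 +
      p * z ^ 3 * Polynomial.aeval z (upol p c) + z ^ p := by
  obtain ⟨m, rfl⟩ : ∃ m, p = m + 3 := ⟨p - 3, by omega⟩
  have hodd : (m + 3) % 2 = 1 := by
    rcases hp.eq_two_or_odd with h | h
    · omega
    · exact h
  obtain ⟨r, hr⟩ : ∃ r, m + 3 = 2 * r + 1 := ⟨(m + 3) / 2, by omega⟩
  have hu : Polynomial.aeval z (upol (m + 3) c) =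
      ∑ k ∈ Finset.range m, (((m + 3).choose (k + 3) / (m + 3) : ℕ) : A) * (c : A) ^ (m - k) *
        z ^ k := by
    rw [upol, map_sum]
    refine Finset.sum_congr rfl fun k _ => ?_
    rw [map_mul, Polynomial.aeval_C, map_pow, Polynomial.aeval_X, eq_intCast (algebraMap ℤ A),
      Int.cast_mul, Int.cast_pow, Int.cast_natCast]
    rfl
  have hsum : ((c : A) + z) ^ (m + 3) = ∑ k ∈ Finset.range (m + 3 + 1),
      z ^ k * (c : A) ^ (m + 3 - k) * ((m + 3).choose k : A) := by
    rw [add_comm, add_pow]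
  rw [hsum, Finset.sum_range_succ, Finset.sum_range_succ', Finset.sum_range_succ',
    Finset.sum_range_succ', hu, Finset.mul_sum]
  have h3 : ∀ k ∈ Finset.range m,
      z ^ (k + 1 + 1 + 1) * (c : A) ^ (m + 3 - (k + 1 + 1 + 1)) *
        ((m + 3).choose (k + 1 + 1 + 1) : A) =
      ((m + 3 : ℕ) : A) * z ^ 3 * ((((m + 3).choose (k + 3) / (m + 3) : ℕ) : A) *
        (c : A) ^ (m - k) * z ^ k) := by
    intro k hk
    have hk' := Finset.mem_range.mp hk
    have h4 : (m + 3) * ((m + 3).choose (k + 3) / (m + 3)) = (m + 3).choose (k + 3) :=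
      Nat.mul_div_cancel' (hp.dvd_choose_self (by omega) (by omega))
    have h5 : m + 3 - (k + 1 + 1 + 1) = m - k := by omega
    have h6 : ((m + 3).choose (k + 1 + 1 + 1) : A) =
        ((m + 3 : ℕ) : A) * (((m + 3).choose (k + 3) / (m + 3) : ℕ) : A) := by
      rw [← Nat.cast_mul, h4]
    rw [h5, h6]
    ring
  rw [Finset.sum_congr rfl h3]
  have h2 : ((m + 3).choose (0 + 1 + 1) : A) = ((m + 3 : ℕ) : A) * (((m + 3 - 1) / 2 : ℕ) : A) := by
    rw [← Nat.cast_mul]
    congr 1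
    show (m + 3).choose 2 = _
    rw [Nat.choose_two_right, Nat.mul_div_assoc]
    exact ⟨r, by omega⟩
  have h1 : ((m + 3).choose (0 + 1) : A) = ((m + 3 : ℕ) : A) := by
    simp
  rw [h2, h1]
  simp only [Nat.choose_zero_right, Nat.choose_self, pow_zero, zero_add, Nat.sub_self, Nat.sub_zero,
    Nat.cast_one, one_mul, mul_one]
  have e1 : m + 3 - (1 + 1) = m + 3 - 2 := by omega
  rw [e1]
  simp only [Int.cast_mul, Int.cast_pow, Int.cast_natCast]
  ring

variable {ι : Type} [Fintype ι]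

/-- The data of an integral point `c` of the hyperplane `∑ a_j c_j = 0` with coordinates prime to
`p`, and with `∑ a_j c_j ^ p = p ^ 2 c₀`. -/
structure PtData (p : ℕ) (a : ι → ℤ) (c : ι → ℤ) (b : ι → ℤ) (c₀ : ℤ) : Prop where
  lin : ∑ j, a j * c j = 0
  frm : ∑ j, a j * c j ^ p = p ^ 2 * c₀
  fermat : ∀ j, c j ^ (p - 1) = 1 + p * b j

/-- The weights of the quadratic part. -/
def qw (p : ℕ) (a c : ι → ℤ) (j : ι) : ℤ := a j * ((((p - 1) / 2 : ℕ) : ℤ) * c j ^ (p - 2))

/-- The higher order part of the expansion of `G`. -/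
noncomputable def HH {p : ℕ} (hp : p.Prime) (a c : ι → ℤ) {A : Type} [CommRing A] [Algebra ℤ A]
    (E : A) (Y : ι → A) : A :=
  ∑ j, (a j : A) * (Y j ^ 3 * Polynomial.aeval (E * Y j) (upol p (c j))) +
    E ^ (p - 3) * aeval Y (Gp hp a)

theorem map_HH {p : ℕ} (hp : p.Prime) (a c : ι → ℤ) {A B : Type} [CommRing A] [CommRing B]
    [Algebra ℤ A] [Algebra ℤ B] (φ : A →ₐ[ℤ] B) (E : A) (Y : ι → A) :
    φ (HH hp a c E Y) = HH hp a c (φ E) (fun j => φ (Y j)) := by
  simp only [HH, map_add, map_sum, map_mul, map_pow, map_intCast, ← Polynomial.aeval_algHom_apply]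
  congr 2
  rw [← MvPolynomial.comp_aeval_apply]

theorem G_expand {p : ℕ} (hp : p.Prime) (hp3 : 3 ≤ p) {a c b : ι → ℤ} {c₀ : ℤ}
    (hc : PtData p a c b c₀) {K : Type} [Field K] [CharZero K] (e : K) (Y : ι → K) :
    aeval (fun j => (c j : K) + e * Y j) (Gp hp a) =
      p * c₀ + e * ws 1 a Y + e * (p * ws 1 (fun j => a j * b j) Y) +
        e ^ 2 * (ws 2 (qw p a c) Y + e * HH hp a c e Y) := by
  have hpK : (p : K) ≠ 0 := by exact_mod_cast hp.ne_zero
  have h1 := Gp_eval hp a (fun j => (c j : K) + e * Y j)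
  have h2 := Gp_eval hp a Y
  have hlin : ws 1 a (fun j => (c j : K) + e * Y j) = e * ws 1 a Y := by
    have h3 : ∑ j, (a j : K) * (c j : K) = 0 := by
      have := congrArg (Int.cast : ℤ → K) hc.lin
      push_cast at this
      exact this
    simp only [ws, pow_one, mul_add, Finset.sum_add_distrib, h3, zero_add, Finset.mul_sum]
    refine Finset.sum_congr rfl fun j _ => by ring
  have hfrm : ws p a (fun j => (c j : K) + e * Y j) = p ^ 2 * c₀ + p * e * ws 1 a Y +
      p * e * (p * ws 1 (fun j => a j * b j) Y) + p * e ^ 2 * ws 2 (qw p a c) Y +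
      p * e ^ 3 * ∑ j, (a j : K) * (Y j ^ 3 * Polynomial.aeval (e * Y j) (upol p (c j))) +
      e ^ p * ws p a Y := by
    have h3 : ∑ j, (a j : K) * (c j : K) ^ p = p ^ 2 * c₀ := by
      have := congrArg (Int.cast : ℤ → K) hc.frm
      push_cast at this
      exact this
    have h4 : ∀ j, (c j : K) ^ (p - 1) = 1 + p * b j := by
      intro j
      have := congrArg (Int.cast : ℤ → K) (hc.fermat j)
      push_cast at this
      exact this
    rw [← h3]
    simp only [ws, Finset.mul_sum, ← Finset.sum_add_distrib]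
    refine Finset.sum_congr rfl fun j _ => ?_
    rw [binom_expand hp hp3 (c j) (e * Y j), h4]
    simp only [qw]
    push_cast
    ring
  rw [hlin, hfrm, h2] at h1
  obtain ⟨m, hm⟩ : ∃ m, p = m + 3 := ⟨p - 3, by omega⟩
  have he : e ^ p = e ^ 3 * e ^ (p - 3) := by rw [← pow_add]; congr 1; omega
  apply mul_left_cancel₀ hpK
  rw [HH]
  have h5 : (e * ws 1 a Y) ^ p = e ^ p * ws 1 a Y ^ p := by rw [mul_pow]
  rw [h5] at h1
  linear_combination -h1 + ((p : K) * aeval Y (Gp hp a)) * he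

end Pool.Agent.H96.Diag
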