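import Pool.Agent.H96.DExp

/-!
# Independence of the relations in the charts
-/

set_option autoImplicit false
set_option linter.unusedSimpArgs false
set_option linter.unusedSectionVars false

namespace Pool.Agent.H96.Diag

open MvPolynomial Pool.Agent.H96.Reg Pool.Agent.H96.VL

section Calc

variable {σ : Type} {k : Type} [Field k] (y : σ → k)

/-- Value of a partial derivative at a point. -/
noncomputable def dv (d : σ) (P : MvPolynomial σ ℤ) : k := aeval y (pderiv d P)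

theorem dv_def (d : σ) (P : MvPolynomial σ ℤ) : aeval y (pderiv d P) = dv y d P := rfl

theorem dv_add (d : σ) (P Q : MvPolynomial σ ℤ) : dv y d (P + Q) = dv y d P + dv y d Q := by
  simp [dv]

theorem dv_sub (d : σ) (P Q : MvPolynomial σ ℤ) : dv y d (P - Q) = dv y d P - dv y d Q := by
  simp [dv]

theorem dv_neg (d : σ) (P : MvPolynomial σ ℤ) : dv y d (-P) = -dv y d P := by
  simp [dv]

theorem dv_mul (d : σ) (P Q : MvPolynomial σ ℤ) :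
    dv y d (P * Q) = aeval y P * dv y d Q + aeval y Q * dv y d P := by
  simp only [dv, Derivation.leibniz, smul_eq_mul, map_add, map_mul]

theorem dv_pow (d : σ) (P : MvPolynomial σ ℤ) (n : ℕ) :
    dv y d (P ^ n) = n * (aeval y P) ^ (n - 1) * dv y d P := by
  simp only [dv, Derivation.leibniz_pow, smul_eq_mul, nsmul_eq_mul, map_mul, map_pow, map_natCast]
  ring

theorem dv_natCast (d : σ) (n : ℕ) : dv y d (n : MvPolynomial σ ℤ) = 0 := by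
  have : (n : MvPolynomial σ ℤ) = C (n : ℤ) := by simp
  rw [dv, this, pderiv_C, map_zero]

theorem dv_intCast (d : σ) (n : ℤ) : dv y d (n : MvPolynomial σ ℤ) = 0 := by
  have : (n : MvPolynomial σ ℤ) = C n := by simp
  rw [dv, this, pderiv_C, map_zero]

theorem dv_one (d : σ) : dv y d (1 : MvPolynomial σ ℤ) = 0 := by
  have := dv_natCast y d 1
  rwa [Nat.cast_one] at this

theorem dv_X_self (d : σ) : dv y d (X d : MvPolynomial σ ℤ) = 1 := by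
  classical
  rw [dv, pderiv_X_self, map_one]

theorem dv_X_of_ne {d d' : σ} (h : d' ≠ d) : dv y d (X d' : MvPolynomial σ ℤ) = 0 := by
  classical
  rw [dv, pderiv_X_of_ne h, map_zero]

variable {ι : Type} [Fintype ι]

theorem ev_ws (emb : ι → σ) (n : ℕ) (w : ι → ℤ) :
    aeval y (ws n w (fun j => X (emb j) : ι → MvPolynomial σ ℤ)) = ws n w (fun j => y (emb j)) := by
  have := map_ws (aeval y : MvPolynomial σ ℤ →ₐ[ℤ] k).toRingHom n w
    (fun j => X (emb j) : ι → MvPolynomial σ ℤ)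
  simpa using this

theorem dv_ws [DecidableEq ι] [DecidableEq σ] (emb : ι → σ) (hemb : Function.Injective emb) (n : ℕ) (w : ι → ℤ)
    (l : ι) : dv y (emb l) (ws n w (fun j => X (emb j) : ι → MvPolynomial σ ℤ)) =
      w l * (n * y (emb l) ^ (n - 1)) := by
  rw [dv, pderiv_ws, map_sum, Finset.sum_eq_single l]
  · simp
  · intro j _ hj
    have : emb j ≠ emb l := fun h => hj (hemb h)
    simp [this]
  · intro h; exact absurd (Finset.mem_univ _) h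

theorem dv_ws_of_ne [DecidableEq ι] [DecidableEq σ] (emb : ι → σ) (n : ℕ) (w : ι → ℤ)
    (d : σ) (hd : ∀ j, emb j ≠ d) :
    dv y d (ws n w (fun j => X (emb j) : ι → MvPolynomial σ ℤ)) = 0 := by
  rw [dv, pderiv_ws, map_sum]
  refine Finset.sum_eq_zero fun j _ => ?_
  simp [hd j]

theorem ev_Gp (emb : ι → σ) {p : ℕ} (hp : p.Prime) (a : ι → ℤ) :
    aeval y (aeval (fun j => X (emb j) : ι → MvPolynomial σ ℤ) (Gp hp a)) =
      aeval (fun j => y (emb j)) (Gp hp a) := by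
  rw [← AlgHom.comp_apply, comp_aeval]
  simp

theorem dv_Gp [DecidableEq ι] [DecidableEq σ] (emb : ι → σ) (hemb : Function.Injective emb) {p : ℕ} (hp : p.Prime)
    (a : ι → ℤ) (l : ι) :
    dv y (emb l) (aeval (fun j => X (emb j) : ι → MvPolynomial σ ℤ) (Gp hp a)) =
      a l * (y (emb l) ^ (p - 1) - (ws 1 a (fun j => y (emb j))) ^ (p - 1)) := by
  rw [dv, deriv_aeval, map_sum, Finset.sum_eq_single l]
  · rw [pderiv_X_self, mul_one, pderiv_Gp, map_mul, map_sub, map_pow, map_pow, map_intCast, aeval_X]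
    have h1 := map_ws (aeval (fun j => X (emb j) : ι → MvPolynomial σ ℤ) :
      MvPolynomial ι ℤ →ₐ[ℤ] MvPolynomial σ ℤ).toRingHom 1 a (X : ι → MvPolynomial ι ℤ)
    have h2 : aeval (fun j => X (emb j) : ι → MvPolynomial σ ℤ) (ws 1 a (X : ι → MvPolynomial ι ℤ)) =
      ws 1 a (fun j => X (emb j) : ι → MvPolynomial σ ℤ) := by simpa using h1
    rw [h2, map_mul, map_sub, map_pow, map_pow, map_intCast, aeval_X, ev_ws]
  · intro j _ hj
    have : emb j ≠ emb l := fun h => hj (hemb h)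
    rw [pderiv_X_of_ne this, mul_zero, map_zero]
  · intro h; exact absurd (Finset.mem_univ _) h

theorem dv_Gp_of_ne [DecidableEq ι] [DecidableEq σ] (emb : ι → σ) {p : ℕ} (hp : p.Prime)
    (a : ι → ℤ) (d : σ) (hd : ∀ j, emb j ≠ d) :
    dv y d (aeval (fun j => X (emb j) : ι → MvPolynomial σ ℤ) (Gp hp a)) = 0 := by
  rw [dv, deriv_aeval, map_sum]
  refine Finset.sum_eq_zero fun j _ => ?_
  rw [pderiv_X_of_ne (hd j), mul_zero, map_zero]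

end Calc

variable {ι : Type} [Fintype ι] [DecidableEq ι] {k : Type} [Field k]

/-! ### Region (i): `p` generates the ideal of the point -/

/-- The main relation in region (i). -/
noncomputable def rI {p : ℕ} (hp : p.Prime) (a c b : ι → ℤ) (c₀ : ℤ) : MvPolynomial ι ℤ :=
  (c₀ : MvPolynomial ι ℤ) + ws 1 a (fun j => X j) +
    (p : MvPolynomial ι ℤ) * ws 1 (fun j => a j * b j) (fun j => X j) +
    (p : MvPolynomial ι ℤ) * (ws 2 (qw p a c) (fun j => X j) +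
      (p : MvPolynomial ι ℤ) * HH hp a c (p : MvPolynomial ι ℤ) (fun j => X j)) +
    (p : MvPolynomial ι ℤ) ^ (p - 2) * (ws 1 a (fun j => X j)) ^ p

/-- The relations in region (i). -/
noncomputable def fI {p : ℕ} (hp : p.Prime) (a c b : ι → ℤ) (c₀ : ℤ) (i : ι) :
    Fin 2 → MvPolynomial ι ℤ := ![X i, rI hp a c b c₀]

theorem indep_I {p : ℕ} (hp : p.Prime) (hp3 : 3 ≤ p) (a c b : ι → ℤ) (c₀ : ℤ) {i l₀ : ι}
    (hl₀ : l₀ ≠ i) (hpk : (p : k) = 0) (hal : (a l₀ : k) ≠ 0) (y : ι → k)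
    (hf : ∀ m, aeval y (fI hp a c b c₀ i m) = 0) :
    IndepAt (fI hp a c b c₀ i) (RingHom.ker (aeval y : MvPolynomial ι ℤ →ₐ[ℤ] k)) := by
  have hp2 : p - 2 ≠ 0 := by omega
  refine indepAt_of_linear y _ hf 0 ?_ (Or.inl ⟨i, ?_⟩)
  · intro A hA m hm
    have hm1 : m = 1 := by
      fin_cases m
      · exact absurd rfl hm
      · rfl
    subst hm1
    have h1 := hA l₀
    rw [Fin.sum_univ_two] at h1
    have h2 : aeval y (pderiv l₀ (fI hp a c b c₀ i 0)) = 0 := by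
      show dv y l₀ (X i) = 0
      exact dv_X_of_ne y hl₀.symm
    have h3 : aeval y (pderiv l₀ (fI hp a c b c₀ i 1)) = a l₀ := by
      show dv y l₀ (rI hp a c b c₀) = a l₀
      have h4 := dv_ws y (fun j : ι => j) (fun _ _ h => h) 1 a l₀
      simp only [rI, dv_add, dv_mul, dv_pow, dv_natCast, dv_intCast, map_natCast, hpk, h4]
      simp
    rw [h2, h3, mul_zero, zero_add] at h1
    exact (mul_eq_zero.mp h1).resolve_right hal
  · show dv y i (X i) ≠ 0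
    rw [dv_X_self]
    exact one_ne_zero

/-! ### Regions (ii) -/

/-- The family of relations in the charts of type (ii) and (iii). -/
noncomputable def fam (i j₀ : ι) (r₁ r₂ r₃ : MvPolynomial (ι ⊕ Fin 3) ℤ) :
    Fin 5 → MvPolynomial (ι ⊕ Fin 3) ℤ :=
  ![X (Sum.inl i), X (Sum.inl j₀) - 1, r₂, r₃, r₁]

omit [Fintype ι] [DecidableEq ι] in
theorem fam_zero_iff {i j₀ : ι} {r₁ r₂ r₃ : MvPolynomial (ι ⊕ Fin 3) ℤ} {A : Type} [CommRing A]
    [Algebra ℤ A] (y : ι ⊕ Fin 3 → A) :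
    (∀ m, aeval y (fam i j₀ r₁ r₂ r₃ m) = 0) ↔ y (Sum.inl i) = 0 ∧ y (Sum.inl j₀) = 1 ∧
      aeval y r₂ = 0 ∧ aeval y r₃ = 0 ∧ aeval y r₁ = 0 := by
  rw [Fin.forall_fin_succ, Fin.forall_fin_succ, Fin.forall_fin_succ, Fin.forall_fin_succ,
    Fin.forall_fin_one]
  simp [fam, sub_eq_zero]

omit [Fintype ι] [DecidableEq ι] in
theorem indep_II (a : ι → ℤ) (q : ι → k) (W ρ N : k) {i j₀ l₀ : ι} (hij : j₀ ≠ i) (hl₀ : l₀ ≠ i)
    (hl₀' : l₀ ≠ j₀) (hal : (a l₀ : k) ≠ 0) (y : ι ⊕ Fin 3 → k)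
    (r₁ r₂ r₃ : MvPolynomial (ι ⊕ Fin 3) ℤ)
    (h1l : ∀ l, dv y (Sum.inl l) r₁ = 0) (h2l : ∀ l, dv y (Sum.inl l) r₂ = a l)
    (h3l : ∀ l, dv y (Sum.inl l) r₃ = W * q l)
    (h1m : dv y (Sum.inr 2) r₁ = 0) (h2m : dv y (Sum.inr 2) r₂ = -ρ)
    (h3m : dv y (Sum.inr 2) r₃ = N) (hN : N ≠ 0) (hρ : ρ * W = 0)
    (hf : ∀ m, aeval y (fam i j₀ r₁ r₂ r₃ m) = 0)
    (hfin : (∃ l, dv y l r₁ ≠ 0) ∨
      ∃ (q : ℕ) (u h : MvPolynomial (ι ⊕ Fin 3) ℤ), q.Prime ∧ (q : k) = 0 ∧ aeval y u ≠ 0 ∧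
        r₁ = u * (q : MvPolynomial (ι ⊕ Fin 3) ℤ) + h ∧
        h ∈ (RingHom.ker (aeval y : MvPolynomial (ι ⊕ Fin 3) ℤ →ₐ[ℤ] k)) ^ 2) :
    IndepAt (fam i j₀ r₁ r₂ r₃)
      (RingHom.ker (aeval y : MvPolynomial (ι ⊕ Fin 3) ℤ →ₐ[ℤ] k)) := by
  refine indepAt_of_linear y _ hf 4 ?_ hfin
  intro A hA
  have hsum : ∀ d, A 0 * dv y d (X (Sum.inl i)) + A 1 * dv y d (X (Sum.inl j₀)) +
      A 2 * dv y d r₂ + A 3 * dv y d r₃ + A 4 * dv y d r₁ = 0 := by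
    intro d
    have h1 := hA d
    rw [Fin.sum_univ_five] at h1
    have h2 : aeval y (pderiv d (fam i j₀ r₁ r₂ r₃ 1)) = dv y d (X (Sum.inl j₀)) := by
      show dv y d (X (Sum.inl j₀) - 1) = _
      rw [dv_sub, dv_one, sub_zero]
    rw [h2] at h1
    exact h1
  have e0 : ∀ l, l ≠ i → dv y (Sum.inl l) (X (Sum.inl i)) = 0 := fun l hl =>
    dv_X_of_ne y (fun h => hl (Sum.inl_injective h).symm)
  have e1 : ∀ l, l ≠ j₀ → dv y (Sum.inl l) (X (Sum.inl j₀)) = 0 := fun l hl =>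
    dv_X_of_ne y (fun h => hl (Sum.inl_injective h).symm)
  have s2 := hsum (Sum.inr 2)
  rw [dv_X_of_ne y (by simp), dv_X_of_ne y (by simp), h2m, h3m, h1m] at s2
  have sl := hsum (Sum.inl l₀)
  rw [e0 _ hl₀, e1 _ hl₀', h1l, h2l, h3l] at sl
  have hA2 : A 2 = 0 := by
    have h1 : A 2 * a l₀ * N = 0 := by
      have : A 2 * a l₀ * N = N * (A 0 * 0 + A 1 * 0 + A 2 * a l₀ + A 3 * (W * q l₀) + A 4 * 0) -
          W * q l₀ * (A 0 * 0 + A 1 * 0 + A 2 * -ρ + A 3 * N + A 4 * 0) -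
          A 2 * q l₀ * (ρ * W) := by ring
      rw [this, sl, s2, hρ]; ring
    rcases mul_eq_zero.mp h1 with h | h
    · exact (mul_eq_zero.mp h).resolve_right hal
    · exact absurd h hN
  have hA3 : A 3 = 0 := by
    rw [hA2] at s2
    have : A 3 * N = 0 := by linear_combination s2
    exact (mul_eq_zero.mp this).resolve_right hN
  have hA0 : A 0 = 0 := by
    have h1 := hsum (Sum.inl i)
    rw [dv_X_self, e1 _ hij.symm, hA2, hA3, h1l] at h1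
    linear_combination h1
  have hA1 : A 1 = 0 := by
    have h1 := hsum (Sum.inl j₀)
    rw [dv_X_self, e0 _ hij, hA2, hA3, h1l] at h1
    linear_combination h1
  intro m hm
  fin_cases m
  · exact hA0
  · exact hA1
  · exact hA2
  · exact hA3
  · exact absurd rfl hm

/-- The variable vector. -/
noncomputable abbrev Yv : ι → MvPolynomial (ι ⊕ Fin 3) ℤ := fun j => X (Sum.inl j)

/-- The additional variables. -/
noncomputable abbrev uv (m : Fin 3) : MvPolynomial (ι ⊕ Fin 3) ℤ := X (Sum.inr m)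

/-- First order part. -/
noncomputable def BB {A : Type} [CommRing A] (a b : ι → ℤ) (c₀ : ℤ) (E : A) (Y : ι → A) : A :=
  (c₀ : A) + E * ws 1 (fun j => a j * b j) Y

/-- Second order part. -/
noncomputable def QQ {p : ℕ} (hp : p.Prime) (a c : ι → ℤ) {A : Type} [CommRing A] [Algebra ℤ A]
    (E : A) (Y : ι → A) : A := ws 2 (qw p a c) Y + E * HH hp a c E Y

omit [DecidableEq ι] in
theorem map_BB {A B : Type} [CommRing A] [CommRing B] [Algebra ℤ A] [Algebra ℤ B] (φ : A →ₐ[ℤ] B)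
    (a b : ι → ℤ) (c₀ : ℤ) (E : A) (Y : ι → A) :
    φ (BB a b c₀ E Y) = BB a b c₀ (φ E) (fun j => φ (Y j)) := by
  have := map_ws φ.toRingHom 1 (fun j => a j * b j) Y
  simp only [BB, map_add, map_mul, map_intCast]
  congr 2

omit [DecidableEq ι] in
theorem map_QQ {p : ℕ} (hp : p.Prime) {A B : Type} [CommRing A] [CommRing B] [Algebra ℤ A]
    [Algebra ℤ B] (φ : A →ₐ[ℤ] B)
    (a c : ι → ℤ) (E : A) (Y : ι → A) :
    φ (QQ hp a c E Y) = QQ hp a c (φ E) (fun j => φ (Y j)) := by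
  have := map_ws φ.toRingHom 2 (qw p a c) Y
  simp only [QQ, map_add, map_mul, map_HH]
  congr 1

theorem dv_BB_inl (y : ι ⊕ Fin 3 → k) (a b : ι → ℤ) (c₀ : ℤ) (E : MvPolynomial (ι ⊕ Fin 3) ℤ)
    (hE : aeval y E = 0) (l : ι) (hE' : dv y (Sum.inl l) E = 0) :
    dv y (Sum.inl l) (BB a b c₀ E Yv) = 0 := by
  simp only [BB, dv_add, dv_mul, dv_intCast, hE, hE']
  ring

theorem dv_BB_inr (y : ι ⊕ Fin 3 → k) (a b : ι → ℤ) (c₀ : ℤ) (E : MvPolynomial (ι ⊕ Fin 3) ℤ)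
    (hE : aeval y E = 0) (l : Fin 3) (hE' : dv y (Sum.inr l) E = 0) :
    dv y (Sum.inr l) (BB a b c₀ E Yv) = 0 := by
  simp only [BB, dv_add, dv_mul, dv_intCast, hE, hE']
  ring

theorem dv_QQ_inl {p : ℕ} (hp : p.Prime) (y : ι ⊕ Fin 3 → k) (a c : ι → ℤ)
    (E : MvPolynomial (ι ⊕ Fin 3) ℤ)
    (hE : aeval y E = 0) (l : ι) (hE' : dv y (Sum.inl l) E = 0) :
    dv y (Sum.inl l) (QQ hp a c E Yv) = qw p a c l * (2 * y (Sum.inl l)) := by
  have h := dv_ws y (Sum.inl : ι → ι ⊕ Fin 3) Sum.inl_injective 2 (qw p a c) l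
  simp only [QQ, dv_add, dv_mul, hE, hE', Yv]
  rw [h]
  simp

theorem dv_QQ_inr {p : ℕ} (hp : p.Prime) (y : ι ⊕ Fin 3 → k) (a c : ι → ℤ)
    (E : MvPolynomial (ι ⊕ Fin 3) ℤ)
    (hE : aeval y E = 0) (l : Fin 3) (hE' : dv y (Sum.inr l) E = 0) :
    dv y (Sum.inr l) (QQ hp a c E Yv) = 0 := by
  have h := dv_ws_of_ne y (Sum.inl : ι → ι ⊕ Fin 3) 2 (qw p a c) (Sum.inr l) (by simp)
  simp only [QQ, dv_add, dv_mul, hE, hE', Yv]
  rw [h]
  simp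

theorem dv_lin_inl (y : ι ⊕ Fin 3 → k) (a : ι → ℤ) (l : ι) :
    dv y (Sum.inl l) (ws 1 a Yv) = a l := by
  have h := dv_ws y (Sum.inl : ι → ι ⊕ Fin 3) Sum.inl_injective 1 a l
  rw [h]
  simp

theorem dv_lin_inr (y : ι ⊕ Fin 3 → k) (a : ι → ℤ) (l : Fin 3) :
    dv y (Sum.inr l) (ws 1 a Yv) = 0 :=
  dv_ws_of_ne y (Sum.inl : ι → ι ⊕ Fin 3) 1 a (Sum.inr l) (by simp)

omit [Fintype ι] [DecidableEq ι] in
theorem dv_u_inl (y : ι ⊕ Fin 3 → k) (l : ι) (m : Fin 3) : dv y (Sum.inl l) (uv m) = 0 :=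
  dv_X_of_ne y (by simp)

omit [Fintype ι] [DecidableEq ι] in
theorem dv_u_inr (y : ι ⊕ Fin 3 → k) {l m : Fin 3} (h : m ≠ l) : dv y (Sum.inr l) (uv m) = 0 :=
  dv_X_of_ne y (fun h' => h (Sum.inr_injective h'))

omit [Fintype ι] [DecidableEq ι] in
theorem dv_u_self (y : ι ⊕ Fin 3 → k) (m : Fin 3) : dv y (Sum.inr m) (uv m) = 1 :=
  dv_X_self y _

omit [Fintype ι] [DecidableEq ι] in
theorem ev_u (y : ι ⊕ Fin 3 → k) (m : Fin 3) : aeval y (uv m) = y (Sum.inr m) := aeval_X _ _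

/-- Relations in region (ii), `p` generating `(p, G, e²)`. -/
noncomputable def r1p (p : ℕ) : MvPolynomial (ι ⊕ Fin 3) ℤ :=
  -(uv 0 ^ 2 * uv 1) + (p : MvPolynomial (ι ⊕ Fin 3) ℤ)

noncomputable def r2p (a : ι → ℤ) : MvPolynomial (ι ⊕ Fin 3) ℤ := ws 1 a Yv - uv 0 * uv 2

noncomputable def r3p {p : ℕ} (hp : p.Prime) (a c b : ι → ℤ) (c₀ : ℤ) :
    MvPolynomial (ι ⊕ Fin 3) ℤ :=
  uv 2 + BB a b c₀ (uv 0 * uv 1) Yv + uv 1 * QQ hp a c (uv 0 * uv 1) Yv +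
    (p : MvPolynomial (ι ⊕ Fin 3) ℤ) * ((p : MvPolynomial (ι ⊕ Fin 3) ℤ) ^ (p - 3) * uv 2 ^ p)

theorem indep_IIp {p : ℕ} (hp : p.Prime) (hp3 : 3 ≤ p) (a c b : ι → ℤ) (c₀ : ℤ) {i j₀ l₀ : ι}
    (hij : j₀ ≠ i) (hl₀ : l₀ ≠ i) (hl₀' : l₀ ≠ j₀) (hpk : (p : k) = 0) (hal : (a l₀ : k) ≠ 0)
    (y : ι ⊕ Fin 3 → k) (hE : y (Sum.inr 0) * y (Sum.inr 1) = 0)
    (hf : ∀ m, aeval y (fam i j₀ (r1p p) (r2p a) (r3p hp a c b c₀) m) = 0) :
    IndepAt (fam i j₀ (r1p p) (r2p a) (r3p hp a c b c₀))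
      (RingHom.ker (aeval y : MvPolynomial (ι ⊕ Fin 3) ℤ →ₐ[ℤ] k)) := by
  have hEv : aeval y (uv 0 * uv 1 : MvPolynomial (ι ⊕ Fin 3) ℤ) = 0 := by
    rw [map_mul, ev_u, ev_u, hE]
  have hEl : ∀ l, dv y (Sum.inl l) (uv 0 * uv 1 : MvPolynomial (ι ⊕ Fin 3) ℤ) = 0 := by
    intro l; rw [dv_mul, dv_u_inl, dv_u_inl]; ring
  have hEr : dv y (Sum.inr 2) (uv 0 * uv 1 : MvPolynomial (ι ⊕ Fin 3) ℤ) = 0 := by
    rw [dv_mul, dv_u_inr y (by decide), dv_u_inr y (by decide)]; ring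
  refine indep_II a (fun l => qw p a c l * (2 * y (Sum.inl l))) (y (Sum.inr 1)) (y (Sum.inr 0)) 1
    hij hl₀ hl₀' hal y _ _ _ ?_ ?_ ?_ ?_ ?_ ?_ one_ne_zero hE hf ?_
  · intro l
    simp only [r1p, dv_add, dv_neg, dv_mul, dv_pow, dv_u_inl, dv_natCast]
    ring
  · intro l
    simp only [r2p, dv_sub, dv_mul, dv_lin_inl, dv_u_inl]
    ring
  · intro l
    simp only [r3p, dv_add, dv_mul, dv_u_inl, dv_BB_inl y a b c₀ _ hEv l (hEl l),
      dv_QQ_inl hp y a c _ hEv l (hEl l), dv_natCast, dv_pow, ev_u, map_natCast, hpk]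
    ring
  · simp only [r1p, dv_add, dv_neg, dv_mul, dv_pow, dv_natCast,
      dv_u_inr y (show (0 : Fin 3) ≠ 2 by decide), dv_u_inr y (show (1 : Fin 3) ≠ 2 by decide)]
    ring
  · simp only [r2p, dv_sub, dv_mul, dv_lin_inr, dv_u_inr y (show (0 : Fin 3) ≠ 2 by decide),
      dv_u_self, ev_u]
    ring
  · simp only [r3p, dv_add, dv_mul, dv_u_self, dv_u_inr y (show (0 : Fin 3) ≠ 2 by decide),
      dv_u_inr y (show (1 : Fin 3) ≠ 2 by decide), dv_BB_inr y a b c₀ _ hEv 2 hEr,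
      dv_QQ_inr hp y a c _ hEv 2 hEr, dv_natCast, dv_pow, ev_u, map_natCast, hpk]
    ring
  · by_cases h0 : y (Sum.inr 0) = 0
    · right
      refine ⟨p, 1, -(uv 0 ^ 2 * uv 1), hp, hpk, by simp, by rw [r1p]; ring, ?_⟩
      refine Ideal.neg_mem_iff _ |>.mpr (Ideal.mul_mem_right _ _ (Ideal.pow_mem_pow ?_ 2))
      show aeval y (uv 0) = 0
      rw [ev_u, h0]
    · left
      refine ⟨Sum.inr 1, ?_⟩
      have : dv y (Sum.inr 1) (r1p p : MvPolynomial (ι ⊕ Fin 3) ℤ) = -(y (Sum.inr 0)) ^ 2 := by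
        simp only [r1p, dv_add, dv_neg, dv_mul, dv_pow, dv_natCast, dv_u_self,
          dv_u_inr y (show (0 : Fin 3) ≠ 1 by decide), map_pow, ev_u]
        ring
      rw [this]
      exact neg_ne_zero.mpr (pow_ne_zero _ h0)

/-- Relations in region (ii), `G` generating `(p, G, e²)`. -/
noncomputable def r1G (p : ℕ) : MvPolynomial (ι ⊕ Fin 3) ℤ :=
  (uv 0 ^ 2 * uv 1) ^ (p - 1) * uv 2 ^ p + (p : MvPolynomial (ι ⊕ Fin 3) ℤ)

noncomputable def r3G {p : ℕ} (hp : p.Prime) (a c b : ι → ℤ) (c₀ : ℤ) :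
    MvPolynomial (ι ⊕ Fin 3) ℤ :=
  uv 2 - 1 - (uv 0 ^ 2 * uv 1) ^ (p - 2) * uv 2 ^ p * BB a b c₀ (uv 0 * uv 1) Yv +
    uv 1 * QQ hp a c (uv 0 * uv 1) Yv

theorem indep_IIG {p : ℕ} (hp : p.Prime) (hp3 : 3 ≤ p) (a c b : ι → ℤ) (c₀ : ℤ) {i j₀ l₀ : ι}
    (hij : j₀ ≠ i) (hl₀ : l₀ ≠ i) (hl₀' : l₀ ≠ j₀) (hpk : (p : k) = 0) (hal : (a l₀ : k) ≠ 0)
    (y : ι ⊕ Fin 3 → k) (hE : y (Sum.inr 0) * y (Sum.inr 1) = 0)
    (hf : ∀ m, aeval y (fam i j₀ (r1G p) (r2p a) (r3G hp a c b c₀) m) = 0) :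
    IndepAt (fam i j₀ (r1G p) (r2p a) (r3G hp a c b c₀))
      (RingHom.ker (aeval y : MvPolynomial (ι ⊕ Fin 3) ℤ →ₐ[ℤ] k)) := by
  have hEv : aeval y (uv 0 * uv 1 : MvPolynomial (ι ⊕ Fin 3) ℤ) = 0 := by
    rw [map_mul, ev_u, ev_u, hE]
  have hEl : ∀ l, dv y (Sum.inl l) (uv 0 * uv 1 : MvPolynomial (ι ⊕ Fin 3) ℤ) = 0 := by
    intro l; rw [dv_mul, dv_u_inl, dv_u_inl]; ring
  have hEr : dv y (Sum.inr 2) (uv 0 * uv 1 : MvPolynomial (ι ⊕ Fin 3) ℤ) = 0 := by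
    rw [dv_mul, dv_u_inr y (by decide), dv_u_inr y (by decide)]; ring
  have hG0 : y (Sum.inr 0) ^ 2 * y (Sum.inr 1) = 0 := by
    linear_combination y (Sum.inr 0) * hE
  refine indep_II a (fun l => qw p a c l * (2 * y (Sum.inl l))) (y (Sum.inr 1)) (y (Sum.inr 0)) 1
    hij hl₀ hl₀' hal y _ _ _ ?_ ?_ ?_ ?_ ?_ ?_ one_ne_zero hE hf ?_
  · intro l
    simp only [r1G, dv_add, dv_neg, dv_mul, dv_pow, dv_u_inl, dv_natCast]
    ring
  · intro l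
    simp only [r2p, dv_sub, dv_mul, dv_lin_inl, dv_u_inl]
    ring
  · intro l
    simp only [r3G, dv_add, dv_sub, dv_mul, dv_u_inl, dv_BB_inl y a b c₀ _ hEv l (hEl l),
      dv_QQ_inl hp y a c _ hEv l (hEl l), dv_natCast, dv_pow, ev_u, map_natCast, dv_one]
    ring
  · have h1 : p - 1 - 1 ≠ 0 := by omega
    have h2 : p - 1 ≠ 0 := by omega
    simp only [r1G, dv_add, dv_neg, dv_mul, dv_pow, dv_natCast, map_mul, map_pow, ev_u, hG0,
      zero_pow h1, zero_pow h2,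
      dv_u_inr y (show (0 : Fin 3) ≠ 2 by decide), dv_u_inr y (show (1 : Fin 3) ≠ 2 by decide)]
    ring
  · simp only [r2p, dv_sub, dv_mul, dv_lin_inr, dv_u_inr y (show (0 : Fin 3) ≠ 2 by decide),
      dv_u_self, ev_u]
    ring
  · have h1 : p - 2 ≠ 0 := by omega
    simp only [r3G, dv_add, dv_sub, dv_mul, dv_u_self, dv_u_inr y (show (0 : Fin 3) ≠ 2 by decide),
      dv_u_inr y (show (1 : Fin 3) ≠ 2 by decide), dv_BB_inr y a b c₀ _ hEv 2 hEr, dv_one,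
      dv_QQ_inr hp y a c _ hEv 2 hEr, dv_natCast, dv_pow, map_mul, map_pow, ev_u, hG0,
      zero_pow h1]
    ring
  · right
    refine ⟨p, 1, (uv 0 ^ 2 * uv 1) ^ (p - 1) * uv 2 ^ p, hp, hpk, by simp,
      by rw [r1G]; ring, ?_⟩
    refine Ideal.mul_mem_right _ _ (Ideal.pow_le_pow_right (show 2 ≤ p - 1 by omega)
      (Ideal.pow_mem_pow ?_ _))
    show aeval y (uv 0 ^ 2 * uv 1) = 0
    rw [map_mul, map_pow, ev_u, ev_u, hG0]

/-- Relations in region (ii) with parameter `m`. -/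
noncomputable def r1k (p m : ℕ) : MvPolynomial (ι ⊕ Fin 3) ℤ :=
  -(uv 0 * (uv 0 * uv 1) ^ m) + (p : MvPolynomial (ι ⊕ Fin 3) ℤ)

noncomputable def r2k (a : ι → ℤ) : MvPolynomial (ι ⊕ Fin 3) ℤ := ws 1 a Yv - uv 0 * uv 1 * uv 2

noncomputable def r3k {p : ℕ} (hp : p.Prime) (m : ℕ) (a c b : ι → ℤ) (c₀ : ℤ) :
    MvPolynomial (ι ⊕ Fin 3) ℤ :=
  uv 2 + (uv 0 * uv 1) ^ (2 * p - 3 - m) * uv 1 * uv 2 ^ p +
    uv 0 * (uv 0 * uv 1) ^ (m - 2) * BB a b c₀ (uv 0 * uv 1) Yv + QQ hp a c (uv 0 * uv 1) Yv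

theorem indep_IIk {p : ℕ} (hp : p.Prime) {m : ℕ} (hm : 2 ≤ m) (a c b : ι → ℤ)
    (c₀ : ℤ) {i j₀ l₀ : ι}
    (hij : j₀ ≠ i) (hl₀ : l₀ ≠ i) (hl₀' : l₀ ≠ j₀) (hpk : (p : k) = 0) (hal : (a l₀ : k) ≠ 0)
    (y : ι ⊕ Fin 3 → k) (hE : y (Sum.inr 0) * y (Sum.inr 1) = 0)
    (hf : ∀ n, aeval y (fam i j₀ (r1k p m) (r2k a) (r3k hp m a c b c₀) n) = 0) :
    IndepAt (fam i j₀ (r1k p m) (r2k a) (r3k hp m a c b c₀))
      (RingHom.ker (aeval y : MvPolynomial (ι ⊕ Fin 3) ℤ →ₐ[ℤ] k)) := by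
  have hEv : aeval y (uv 0 * uv 1 : MvPolynomial (ι ⊕ Fin 3) ℤ) = 0 := by
    rw [map_mul, ev_u, ev_u, hE]
  have hEl : ∀ l, dv y (Sum.inl l) (uv 0 * uv 1 : MvPolynomial (ι ⊕ Fin 3) ℤ) = 0 := by
    intro l; rw [dv_mul, dv_u_inl, dv_u_inl]; ring
  have hEr : dv y (Sum.inr 2) (uv 0 * uv 1 : MvPolynomial (ι ⊕ Fin 3) ℤ) = 0 := by
    rw [dv_mul, dv_u_inr y (by decide), dv_u_inr y (by decide)]; ring
  refine indep_II a (fun l => qw p a c l * (2 * y (Sum.inl l))) 1 0 1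
    hij hl₀ hl₀' hal y _ _ _ ?_ ?_ ?_ ?_ ?_ ?_ one_ne_zero (by ring) hf ?_
  · intro l
    rw [r1k, dv_add, dv_neg, dv_mul, dv_pow, hEl, dv_u_inl, dv_natCast]
    ring
  · intro l
    rw [r2k, dv_sub, dv_mul, dv_lin_inl, hEl, dv_u_inl]
    ring
  · intro l
    rw [r3k, dv_add, dv_add, dv_add, dv_u_inl, dv_mul, dv_mul, dv_pow, dv_pow, hEl, dv_u_inl,
      dv_u_inl, dv_mul, dv_BB_inl y a b c₀ _ hEv l (hEl l), dv_mul, dv_pow, hEl, dv_u_inl,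
      dv_QQ_inl hp y a c _ hEv l (hEl l)]
    ring
  · rw [r1k, dv_add, dv_neg, dv_mul, dv_pow, hEr, dv_natCast, dv_u_inr y (by decide)]
    ring
  · rw [r2k, dv_sub, dv_mul, dv_lin_inr, hEr, dv_u_self, hEv]
    ring
  · rw [r3k, dv_add, dv_add, dv_add, dv_u_self, dv_mul, dv_mul, dv_pow, dv_pow, hEr, dv_u_self,
      dv_u_inr y (by decide), dv_mul, dv_BB_inr y a b c₀ _ hEv 2 hEr, dv_mul, dv_pow, hEr,
      dv_u_inr y (by decide), dv_QQ_inr hp y a c _ hEv 2 hEr, hpk]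
    ring
  · right
    refine ⟨p, 1, -(uv 0 * (uv 0 * uv 1) ^ m), hp, hpk, by simp, by rw [r1k]; ring, ?_⟩
    refine Ideal.neg_mem_iff _ |>.mpr (Ideal.mul_mem_left _ _
      (Ideal.pow_le_pow_right hm (Ideal.pow_mem_pow ?_ _)))
    exact hEv

end Pool.Agent.H96.Diag
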