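import Pool.Agent.H96.DInd

/-!
# Independence of the relations in the charts, part 2
-/

set_option autoImplicit false
set_option linter.unusedSimpArgs false
set_option linter.unusedSectionVars false

namespace Pool.Agent.H96.Diag

open MvPolynomial Pool.Agent.H96.Reg Pool.Agent.H96.VL

variable {ι : Type} [Fintype ι] [DecidableEq ι] {k : Type} [Field k]

/-! ### Region (iii) -/

noncomputable def r1t (p j : ℕ) : MvPolynomial (ι ⊕ Fin 3) ℤ :=
  -(uv 0 ^ (2 * p - 2) * (uv 1 ^ (j + 1) * uv 2 ^ j)) + (p : MvPolynomial (ι ⊕ Fin 3) ℤ)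

noncomputable def r2t (a : ι → ℤ) : MvPolynomial (ι ⊕ Fin 3) ℤ :=
  ws 1 a Yv - uv 0 * (uv 1 * uv 2)

noncomputable def r3t {p : ℕ} (hp : p.Prime) (j n : ℕ) (a c b : ι → ℤ) (c₀ : ℤ) :
    MvPolynomial (ι ⊕ Fin 3) ℤ :=
  uv 1 * uv 2 + uv 1 ^ n * uv 2 ^ (n + 1) +
    uv 0 ^ (2 * p - 4) * ((uv 1 ^ (j + 1) * uv 2 ^ j) * BB a b c₀ (uv 0) Yv) +
    QQ hp a c (uv 0) Yv

theorem quadric_contra {p : ℕ} (hp3 : 3 ≤ p) (hpk : (p : k) = 0) (hodd : p % 2 = 1) (a c : ι → ℤ)
    {i j₀ : ι} (ha : ∀ l, (a l : k) ≠ 0)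
    (hc : ∀ l, (c l : k) ^ (p - 1) = 1) (hac : ∑ l, (a l : k) * (c l : k) = 0) (y : ι → k)
    (hyi : y i = 0) (hyj : y j₀ = 1) (hlin : ws 1 a y = 0) (hQ : ws 2 (qw p a c) y = 0)
    {A₂ A₃ : k} (hA : A₃ ≠ 0)
    (hl : ∀ l, l ≠ i → l ≠ j₀ → A₂ * a l + A₃ * (qw p a c l * (2 * y l)) = 0) : False := by
  have hc0 : ∀ l, (c l : k) ≠ 0 := by
    intro l h
    have h1 := hc l
    rw [h, zero_pow (by omega)] at h1
    exact zero_ne_one h1
  have h2 : (2 : k) * (((p - 1) / 2 : ℕ) : k) = -1 := by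
    have h3 : 2 * ((p - 1) / 2) = p - 1 := by omega
    have h4 : ((2 * ((p - 1) / 2) : ℕ) : k) = ((p - 1 : ℕ) : k) := by rw [h3]
    rw [Nat.cast_mul, Nat.cast_sub (by omega), hpk] at h4
    push_cast at h4
    rw [h4]; ring
  have hcc : ∀ l, (c l : k) ^ (p - 2) * c l = 1 := by
    intro l
    rw [← pow_succ, show p - 2 + 1 = p - 1 by omega]
    exact hc l
  have hq : ∀ l, (qw p a c l : k) * 2 = -(a l * (c l : k) ^ (p - 2)) := by
    intro l
    rw [qw]
    simp only [Int.cast_mul, Int.cast_pow, Int.cast_natCast]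
    linear_combination ((a l : k) * (c l : k) ^ (p - 2)) * h2
  obtain ⟨μ, hμ⟩ : ∃ μ, A₂ = A₃ * μ := ⟨A₂ / A₃, by field_simp⟩
  have hz : ∀ l, l ≠ i → l ≠ j₀ → y l - μ * c l = 0 := by
    intro l h1 h1'
    have h3 := hl l h1 h1'
    have h4 : A₃ * (a l * (y l - μ * c l)) = 0 := by
      have h5 := hq l
      have h6 := hcc l
      have : A₃ * (a l * (y l - μ * c l)) =
        -(c l) * (A₂ * a l + A₃ * (qw p a c l * (2 * y l))) := by
        rw [hμ]
        linear_combination (A₃ * y l * c l) * h5 - (A₃ * a l * y l) * h6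
      rw [this, h3, mul_zero]
    rcases mul_eq_zero.mp h4 with h | h
    · exact absurd h hA
    · exact (mul_eq_zero.mp h).resolve_left (ha l)
  have hlin' : ∑ l, (a l : k) * y l = 0 := by
    have : ws 1 a y = ∑ l, (a l : k) * y l := by simp [ws]
    rw [← this, hlin]
  have hQ' : ∑ l, (a l : k) * ((c l : k) ^ (p - 2) * y l ^ 2) = 0 := by
    have : ∑ l, (a l : k) * ((c l : k) ^ (p - 2) * y l ^ 2) = -2 * ws 2 (qw p a c) y := by
      rw [ws, Finset.mul_sum]
      refine Finset.sum_congr rfl fun l _ => ?_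
      linear_combination ((y l) ^ 2) * hq l
    rw [this, hQ, mul_zero]
  -- the quadratic form evaluated
  have h5 : ∑ l, (a l : k) * ((c l : k) ^ (p - 2) * y l * (y l - μ * c l)) = 0 := by
    have : ∑ l, (a l : k) * ((c l : k) ^ (p - 2) * y l * (y l - μ * c l)) =
        ∑ l, (a l : k) * ((c l : k) ^ (p - 2) * y l ^ 2) - μ * ∑ l, (a l : k) * y l := by
      rw [Finset.mul_sum, ← Finset.sum_sub_distrib]
      refine Finset.sum_congr rfl fun l _ => ?_
      linear_combination (-(a l : k) * y l * μ) * hcc l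
    rw [this, hQ', hlin']; ring
  rw [Finset.sum_eq_single j₀] at h5
  · rw [hyj] at h5
    have h6 : 1 - μ * c j₀ = 0 := by
      rcases mul_eq_zero.mp h5 with h | h
      · exact absurd h (ha _)
      · rcases mul_eq_zero.mp h with h' | h'
        · rw [mul_one] at h'
          exact absurd h' (pow_ne_zero _ (hc0 _))
        · exact h'
    have h7 : ∑ l, (a l : k) * (y l - μ * c l) = 0 := by
      have : ∑ l, (a l : k) * (y l - μ * c l) =
          ∑ l, (a l : k) * y l - μ * ∑ l, (a l : k) * c l := by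
        rw [Finset.mul_sum, ← Finset.sum_sub_distrib]
        refine Finset.sum_congr rfl fun l _ => by ring
      rw [this, hlin', hac]; ring
    rw [Finset.sum_eq_single i] at h7
    · rw [hyi] at h7
      have h8 : μ = 0 := by
        rcases mul_eq_zero.mp h7 with h | h
        · exact absurd h (ha _)
        · have : μ * c i = 0 := by linear_combination -h
          exact (mul_eq_zero.mp this).resolve_right (hc0 _)
      rw [h8] at h6
      simp at h6
    · intro l _ hli
      by_cases hlj : l = j₀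
      · rw [hlj, hyj, h6, mul_zero]
      · rw [hz l hli hlj, mul_zero]
    · intro h; exact absurd (Finset.mem_univ _) h
  · intro l _ hlj
    by_cases hli : l = i
    · rw [hli, hyi]; ring
    · rw [hz l hli hlj]; ring
  · intro h; exact absurd (Finset.mem_univ _) h

theorem indep_III {p : ℕ} (hp : p.Prime) (hp3 : 3 ≤ p) {j n : ℕ} (hjn : j + n + 1 = p)
    (a c b : ι → ℤ) (c₀ : ℤ) {i j₀ l₀ : ι}
    (hij : j₀ ≠ i) (hl₀ : l₀ ≠ i) (hl₀' : l₀ ≠ j₀) (hpk : (p : k) = 0) (ha : ∀ l, (a l : k) ≠ 0)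
    (hc : ∀ l, (c l : k) ^ (p - 1) = 1) (hac : ∑ l, (a l : k) * (c l : k) = 0)
    (y : ι ⊕ Fin 3 → k) (hE : y (Sum.inr 0) = 0)
    (hf : ∀ m, aeval y (fam i j₀ (r1t p j) (r2t a) (r3t hp j n a c b c₀) m) = 0) :
    IndepAt (fam i j₀ (r1t p j) (r2t a) (r3t hp j n a c b c₀))
      (RingHom.ker (aeval y : MvPolynomial (ι ⊕ Fin 3) ℤ →ₐ[ℤ] k)) := by
  have hodd : p % 2 = 1 := by
    rcases hp.eq_two_or_odd with h | h
    · omega
    · exact h
  have hEv : aeval y (uv 0 : MvPolynomial (ι ⊕ Fin 3) ℤ) = 0 := by rw [ev_u, hE]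
  have h22 : 2 * p - 2 ≠ 0 := by omega
  have h23 : 2 * p - 2 - 1 ≠ 0 := by omega
  have h24 : 2 * p - 4 ≠ 0 := by omega
  have h25 : 2 * p - 4 - 1 ≠ 0 := by omega
  have hE4 : aeval y (uv 0 ^ (2 * p - 4) : MvPolynomial (ι ⊕ Fin 3) ℤ) = 0 := by
    rw [map_pow, hEv, zero_pow h24]
  have hd1 : ∀ d, dv y d (r1t p j) = 0 := by
    intro d
    rw [r1t, dv_add, dv_neg, dv_natCast, dv_mul, map_pow, hEv, dv_pow, hEv, zero_pow h22,
      zero_pow h23]
    ring
  have hvals := (fam_zero_iff y).mp hf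
  obtain ⟨hyi, hyj, hv2, hv3, hv1⟩ := hvals
  refine indepAt_of_linear y _ hf 4 ?_ ?_
  · intro A hA
    have hsum : ∀ d, A 0 * dv y d (X (Sum.inl i)) + A 1 * dv y d (X (Sum.inl j₀)) +
        A 2 * dv y d (r2t a) + A 3 * dv y d (r3t hp j n a c b c₀) = 0 := by
      intro d
      have h1 := hA d
      rw [Fin.sum_univ_five] at h1
      have h2 : aeval y (pderiv d (fam i j₀ (r1t p j) (r2t a) (r3t hp j n a c b c₀) 1)) =
          dv y d (X (Sum.inl j₀)) := by
        show dv y d (X (Sum.inl j₀) - 1) = _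
        rw [dv_sub, dv_one, sub_zero]
      have h3 : aeval y (pderiv d (fam i j₀ (r1t p j) (r2t a) (r3t hp j n a c b c₀) 4)) = 0 :=
        hd1 d
      rw [h2, h3, mul_zero, add_zero] at h1
      exact h1
    have e0 : ∀ l, l ≠ i → dv y (Sum.inl l) (X (Sum.inl i)) = 0 := fun l hl =>
      dv_X_of_ne y (fun h => hl (Sum.inl_injective h).symm)
    have e1 : ∀ l, l ≠ j₀ → dv y (Sum.inl l) (X (Sum.inl j₀)) = 0 := fun l hl =>
      dv_X_of_ne y (fun h => hl (Sum.inl_injective h).symm)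
    have d2l : ∀ l, dv y (Sum.inl l) (r2t a) = a l := by
      intro l
      rw [r2t, dv_sub, dv_mul, dv_lin_inl, dv_u_inl, hEv]; ring
    have d2r : ∀ m : Fin 3, m ≠ 0 → dv y (Sum.inr m) (r2t a) = 0 := by
      intro m hm
      rw [r2t, dv_sub, dv_mul, dv_lin_inr, dv_u_inr y hm.symm, hEv]; ring
    have d3l : ∀ l, dv y (Sum.inl l) (r3t hp j n a c b c₀) =
        qw p a c l * (2 * y (Sum.inl l)) := by
      intro l
      rw [r3t, dv_add, dv_add, dv_add, dv_mul, dv_u_inl, dv_u_inl, dv_mul, dv_pow, dv_pow, dv_u_inl,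
        dv_u_inl, dv_mul, hE4, dv_pow, dv_u_inl,
        dv_QQ_inl hp y a c _ hEv l (dv_u_inl y l 0)]
      ring
    have d3r1 : dv y (Sum.inr 1) (r3t hp j n a c b c₀) =
        y (Sum.inr 2) + y (Sum.inr 2) ^ (n + 1) * (n * y (Sum.inr 1) ^ (n - 1)) := by
      rw [r3t, dv_add, dv_add, dv_add, dv_mul, dv_u_self, dv_u_inr y (show (2 : Fin 3) ≠ 1 by decide),
        dv_mul, dv_pow, dv_pow, dv_u_self, dv_u_inr y (show (2 : Fin 3) ≠ 1 by decide), dv_mul,
        hE4, dv_pow _ _ (uv 0), dv_u_inr y (show (0 : Fin 3) ≠ 1 by decide),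
        dv_QQ_inr hp y a c _ hEv 1 (dv_u_inr y (by decide))]
      simp only [map_pow, ev_u]
      ring
    have d3r2 : dv y (Sum.inr 2) (r3t hp j n a c b c₀) =
        y (Sum.inr 1) + (n + 1) * (y (Sum.inr 1) ^ n * y (Sum.inr 2) ^ n) := by
      rw [r3t, dv_add, dv_add, dv_add, dv_mul, dv_u_self, dv_u_inr y (show (1 : Fin 3) ≠ 2 by decide),
        dv_mul, dv_pow, dv_pow, dv_u_self, dv_u_inr y (show (1 : Fin 3) ≠ 2 by decide), dv_mul,
        hE4, dv_pow _ _ (uv 0), dv_u_inr y (show (0 : Fin 3) ≠ 2 by decide),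
        dv_QQ_inr hp y a c _ hEv 2 (dv_u_inr y (by decide))]
      simp only [map_pow, ev_u]
      push_cast
      ring
    have hA3 : A 3 = 0 := by
      by_contra hA3
      have s1 := hsum (Sum.inr 1)
      rw [dv_X_of_ne y (by simp), dv_X_of_ne y (by simp), d2r 1 (by decide), d3r1] at s1
      have s2 := hsum (Sum.inr 2)
      rw [dv_X_of_ne y (by simp), dv_X_of_ne y (by simp), d2r 2 (by decide), d3r2] at s2
      have s1' : y (Sum.inr 2) + y (Sum.inr 2) ^ (n + 1) * (n * y (Sum.inr 1) ^ (n - 1)) = 0 := by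
        have : A 3 * (y (Sum.inr 2) + y (Sum.inr 2) ^ (n + 1) * (n * y (Sum.inr 1) ^ (n - 1))) = 0 := by
          linear_combination s1
        exact (mul_eq_zero.mp this).resolve_left hA3
      have s2' : y (Sum.inr 1) + (n + 1) * (y (Sum.inr 1) ^ n * y (Sum.inr 2) ^ n) = 0 := by
        have : A 3 * (y (Sum.inr 1) + (n + 1) * (y (Sum.inr 1) ^ n * y (Sum.inr 2) ^ n)) = 0 := by
          linear_combination s2
        exact (mul_eq_zero.mp this).resolve_left hA3
      have hn : (n : k) * (y (Sum.inr 1) * y (Sum.inr 1) ^ (n - 1)) = n * y (Sum.inr 1) ^ n := by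
        rcases Nat.eq_zero_or_pos n with h | h
        · rw [h]; simp
        · rw [← pow_succ', Nat.sub_add_cancel h]
      have hT : y (Sum.inr 1) ^ n * y (Sum.inr 2) ^ (n + 1) = 0 := by
        linear_combination y (Sum.inr 2) * s2' - y (Sum.inr 1) * s1' +
          y (Sum.inr 2) ^ (n + 1) * hn
      have hαβ : y (Sum.inr 1) * y (Sum.inr 2) = 0 := by
        linear_combination y (Sum.inr 1) * s1' - y (Sum.inr 2) ^ (n + 1) * hn - n * hT
      have hlin : ws 1 a (fun l => y (Sum.inl l)) = 0 := by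
        have h1 := hv2
        rw [r2t, map_sub, map_mul, hEv, zero_mul, sub_zero] at h1
        rw [← h1]
        exact (ev_ws y Sum.inl 1 a).symm
      have hQ : ws 2 (qw p a c) (fun l => y (Sum.inl l)) = 0 := by
        have h1 := hv3
        rw [r3t, map_add, map_add, map_add, map_mul, map_mul, map_mul, map_pow, map_pow, map_pow,
          hEv, zero_pow h24, ev_u, ev_u, hαβ, hT, zero_mul, QQ, map_add, map_mul, hEv, zero_mul] at h1
        have h2 := ev_ws y (Sum.inl : ι → ι ⊕ Fin 3) 2 (qw p a c)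
        rw [← h2]
        linear_combination h1
      refine quadric_contra hp3 hpk hodd a c ha hc hac (fun l => y (Sum.inl l)) hyi hyj hlin hQ
        hA3 (A₂ := A 2) ?_
      intro l hli hlj
      have h1 := hsum (Sum.inl l)
      rw [e0 _ hli, e1 _ hlj, d2l, d3l] at h1
      linear_combination h1
    have hA2 : A 2 = 0 := by
      have h1 := hsum (Sum.inl l₀)
      rw [e0 _ hl₀, e1 _ hl₀', d2l, hA3] at h1
      have : A 2 * a l₀ = 0 := by linear_combination h1
      exact (mul_eq_zero.mp this).resolve_right (ha _)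
    have hA0 : A 0 = 0 := by
      have h1 := hsum (Sum.inl i)
      rw [dv_X_self, e1 _ hij.symm, hA2, hA3] at h1
      linear_combination h1
    have hA1 : A 1 = 0 := by
      have h1 := hsum (Sum.inl j₀)
      rw [dv_X_self, e0 _ hij, hA2, hA3] at h1
      linear_combination h1
    intro m hm
    fin_cases m
    · exact hA0
    · exact hA1
    · exact hA2
    · exact hA3
    · exact absurd rfl hm
  · right
    refine ⟨p, 1, -(uv 0 ^ (2 * p - 2) * (uv 1 ^ (j + 1) * uv 2 ^ j)), hp, hpk, by simp, ?_, ?_⟩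
    · show r1t p j = _
      rw [r1t]; ring
    · refine Ideal.neg_mem_iff _ |>.mpr (Ideal.mul_mem_right _ _
        (Ideal.pow_le_pow_right (show 2 ≤ 2 * p - 2 by omega) (Ideal.pow_mem_pow ?_ _)))
      exact hEv

/-! ### Region T1 -/

/-- The family of relations in the charts of type T1. -/
noncomputable def famT1 {p : ℕ} (hp : p.Prime) (j n : ℕ) (a : ι → ℤ) (i : ι) :
    Fin 4 → MvPolynomial (ι ⊕ Fin 2) ℤ :=
  ![X (Sum.inl i) - 1, ws 1 a (fun l => X (Sum.inl l)) - X (Sum.inr 0) * X (Sum.inr 1),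
    aeval (fun l => X (Sum.inl l) : ι → MvPolynomial (ι ⊕ Fin 2) ℤ) (Gp hp a) +
      X (Sum.inr 0) ^ n * X (Sum.inr 1) ^ (n + 1),
    -(X (Sum.inr 0) ^ (j + 1) * X (Sum.inr 1) ^ j) + (p : MvPolynomial (ι ⊕ Fin 2) ℤ)]

theorem indep_T1 {p : ℕ} (hp : p.Prime) (hp3 : 3 ≤ p) {j n : ℕ} (hjn : j + n + 1 = p)
    (a : ι → ℤ) {i l₀ : ι} (hl₀ : l₀ ≠ i) (hpk : (p : k) = 0) (ha : ∀ l, (a l : k) ≠ 0)
    (y : ι ⊕ Fin 2 → k) (hE : y (Sum.inr 0) * y (Sum.inr 1) = 0)
    (hnc : ¬ ∀ l, y (Sum.inl l) ^ (p - 1) = 1)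
    (hf : ∀ m, aeval y (famT1 hp j n a i m) = 0) :
    IndepAt (famT1 hp j n a i)
      (RingHom.ker (aeval y : MvPolynomial (ι ⊕ Fin 2) ℤ →ₐ[ℤ] k)) := by
  classical
  have hv0 : y (Sum.inl i) = 1 := by
    have h := hf 0
    have h1 : aeval y (X (Sum.inl i) - 1 : MvPolynomial (ι ⊕ Fin 2) ℤ) = 0 := h
    rw [map_sub, aeval_X, map_one] at h1
    linear_combination h1
  have hv1 : ws 1 a (fun l => y (Sum.inl l)) = 0 := by
    have h := hf 1
    have h1 : aeval y (ws 1 a (fun l => X (Sum.inl l)) - X (Sum.inr 0) * X (Sum.inr 1) :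
      MvPolynomial (ι ⊕ Fin 2) ℤ) = 0 := h
    rw [map_sub, map_mul, aeval_X, aeval_X, hE, sub_zero, ev_ws] at h1
    exact h1
  have hp1 : p - 1 ≠ 0 := by omega
  -- Euler
  have hfrm : ws p a (fun l => y (Sum.inl l)) = 0 := by
    have h := Gp_eval hp a (fun l => y (Sum.inl l))
    rw [hv1, hpk, zero_mul, add_zero, zero_pow hp.ne_zero] at h
    exact h
  have e0 : ∀ l, l ≠ i → dv y (Sum.inl l) (X (Sum.inl i) - 1) = 0 := fun l hl => by
    rw [dv_sub, dv_one, dv_X_of_ne y (fun h => hl (Sum.inl_injective h).symm), sub_zero]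
  have d1l : ∀ l, dv y (Sum.inl l) (ws 1 a (fun l => X (Sum.inl l)) -
      X (Sum.inr 0) * X (Sum.inr 1) : MvPolynomial (ι ⊕ Fin 2) ℤ) = a l := by
    intro l
    rw [dv_sub, dv_mul, dv_ws y (Sum.inl : ι → ι ⊕ Fin 2) Sum.inl_injective,
      dv_X_of_ne y (by simp), dv_X_of_ne y (by simp)]
    simp
  have d2l : ∀ l, dv y (Sum.inl l) (aeval (fun l => X (Sum.inl l) :
      ι → MvPolynomial (ι ⊕ Fin 2) ℤ) (Gp hp a) + X (Sum.inr 0) ^ n * X (Sum.inr 1) ^ (n + 1)) =
      a l * y (Sum.inl l) ^ (p - 1) := by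
    intro l
    rw [dv_add, dv_Gp y (Sum.inl : ι → ι ⊕ Fin 2) Sum.inl_injective, dv_mul, dv_pow, dv_pow,
      dv_X_of_ne y (by simp), dv_X_of_ne y (by simp), hv1, zero_pow hp1]
    ring
  have d3l : ∀ l, dv y (Sum.inl l) (-(X (Sum.inr 0) ^ (j + 1) * X (Sum.inr 1) ^ j) +
      (p : MvPolynomial (ι ⊕ Fin 2) ℤ)) = 0 := by
    intro l
    rw [dv_add, dv_neg, dv_mul, dv_pow, dv_pow, dv_natCast, dv_X_of_ne y (by simp),
      dv_X_of_ne y (by simp)]
    ring
  refine indepAt_of_linear y _ hf 3 ?_ ?_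
  · intro A hA
    have hsum : ∀ l, A 0 * dv y (Sum.inl l) (X (Sum.inl i) - 1) + A 1 * a l +
        A 2 * (a l * y (Sum.inl l) ^ (p - 1)) = 0 := by
      intro l
      have h1 := hA (Sum.inl l)
      rw [Fin.sum_univ_four] at h1
      have h2 : aeval y (pderiv (Sum.inl l) (famT1 hp j n a i 1)) = a l := d1l l
      have h3 : aeval y (pderiv (Sum.inl l) (famT1 hp j n a i 2)) =
        a l * y (Sum.inl l) ^ (p - 1) := d2l l
      have h4 : aeval y (pderiv (Sum.inl l) (famT1 hp j n a i 3)) = 0 := d3l l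
      rw [h2, h3, h4, mul_zero, add_zero] at h1
      exact h1
    have hA2 : A 2 = 0 := by
      by_contra hA2
      apply hnc
      obtain ⟨μ, hμ⟩ : ∃ μ, A 1 = -(A 2 * μ) := ⟨-(A 1 / A 2), by field_simp⟩
      have h1 : ∀ l, l ≠ i → y (Sum.inl l) ^ (p - 1) = μ := by
        intro l hl
        have h2 := hsum l
        rw [e0 l hl, hμ] at h2
        have h3 : A 2 * (a l * (y (Sum.inl l) ^ (p - 1) - μ)) = 0 := by linear_combination h2
        have h4 := (mul_eq_zero.mp ((mul_eq_zero.mp h3).resolve_left hA2)).resolve_left (ha l)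
        linear_combination h4
      have h2 : ∑ l, (a l : k) * (y (Sum.inl l) * (y (Sum.inl l) ^ (p - 1) - μ)) = 0 := by
        have h3 : ∑ l, (a l : k) * (y (Sum.inl l) * (y (Sum.inl l) ^ (p - 1) - μ)) =
            ws p a (fun l => y (Sum.inl l)) - μ * ws 1 a (fun l => y (Sum.inl l)) := by
          rw [ws, ws, Finset.mul_sum, ← Finset.sum_sub_distrib]
          refine Finset.sum_congr rfl fun l _ => ?_
          have h4 : y (Sum.inl l) ^ p = y (Sum.inl l) * y (Sum.inl l) ^ (p - 1) := by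
            rw [← pow_succ', Nat.sub_add_cancel hp.one_le]
          rw [h4]
          ring
        rw [h3, hfrm, hv1]; ring
      rw [Finset.sum_eq_single i] at h2
      · rw [hv0, one_pow, one_mul] at h2
        have hμ1 : μ = 1 := by
          have h3 := (mul_eq_zero.mp h2).resolve_left (ha i)
          linear_combination -h3
        intro l
        by_cases hl : l = i
        · rw [hl, hv0, one_pow]
        · rw [h1 l hl, hμ1]
      · intro l _ hl
        rw [h1 l hl]; ring
      · intro h; exact absurd (Finset.mem_univ _) h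
    have hA1 : A 1 = 0 := by
      have h1 := hsum l₀
      rw [e0 _ hl₀, hA2] at h1
      have : A 1 * a l₀ = 0 := by linear_combination h1
      exact (mul_eq_zero.mp this).resolve_right (ha _)
    have hA0 : A 0 = 0 := by
      have h1 := hsum i
      rw [dv_sub, dv_one, dv_X_self, hA1, hA2] at h1
      linear_combination h1
    intro m hm
    fin_cases m
    · exact hA0
    · exact hA1
    · exact hA2
    · exact absurd rfl hm
  · have hr : famT1 hp j n a i 3 = -(X (Sum.inr 0) ^ (j + 1) * X (Sum.inr 1) ^ j) +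
      (p : MvPolynomial (ι ⊕ Fin 2) ℤ) := rfl
    rw [hr]
    have hmemP : ∀ m : ℕ, 2 ≤ m → ∀ d, y d = 0 → (X d : MvPolynomial (ι ⊕ Fin 2) ℤ) ^ m ∈
        (RingHom.ker (aeval y : MvPolynomial (ι ⊕ Fin 2) ℤ →ₐ[ℤ] k)) ^ 2 := by
      intro m hm d hd
      refine Ideal.pow_le_pow_right hm (Ideal.pow_mem_pow ?_ _)
      show aeval y (X d) = 0
      rw [aeval_X, hd]
    rcases Nat.eq_zero_or_pos j with hj | hj
    · left
      refine ⟨Sum.inr 0, ?_⟩
      rw [dv_def, hj, dv_add, dv_neg, dv_natCast, pow_zero, mul_one, zero_add, pow_one, dv_X_self]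
      simp
    · by_cases h0 : y (Sum.inr 0) = 0
      · right
        refine ⟨p, 1, -(X (Sum.inr 0) ^ (j + 1) * X (Sum.inr 1) ^ j), hp, hpk, by simp,
          by ring, ?_⟩
        exact Ideal.neg_mem_iff _ |>.mpr (Ideal.mul_mem_right _ _ (hmemP _ (by omega) _ h0))
      · have h1 : y (Sum.inr 1) = 0 := (mul_eq_zero.mp hE).resolve_left h0
        rcases Nat.lt_or_ge 1 j with hj2 | hj2
        · right
          refine ⟨p, 1, -(X (Sum.inr 0) ^ (j + 1) * X (Sum.inr 1) ^ j), hp, hpk, by simp,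
            by ring, ?_⟩
          exact Ideal.neg_mem_iff _ |>.mpr (Ideal.mul_mem_left _ _ (hmemP _ hj2 _ h1))
        · left
          have hj1 : j = 1 := by omega
          refine ⟨Sum.inr 1, ?_⟩
          rw [dv_def, hj1, dv_add, dv_neg, dv_natCast, pow_one, dv_mul, dv_pow, dv_X_self,
            dv_X_of_ne y (by simp), map_pow, aeval_X]
          simp only [mul_one, mul_zero, add_zero]
          exact neg_ne_zero.mpr (pow_ne_zero _ h0)

/-! ### Regions T0 -/

/-- The family of relations in the charts of type T0. -/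
noncomputable def famT0 (p : ℕ) (a : ι → ℤ) (i : ι) : Fin 2 → MvPolynomial ι ℤ :=
  ![X i - 1, ws p a (fun l => X l)]

theorem indep_T0b {p : ℕ} (hp : p.Prime) (a : ι → ℤ) {i : ι}
    (hpk : (p : k) = 0) (y : ι → k) (hG : aeval y (Gp hp a) ≠ 0)
    (hf : ∀ m, aeval y (famT0 p a i m) = 0) :
    IndepAt (famT0 p a i) (RingHom.ker (aeval y : MvPolynomial ι ℤ →ₐ[ℤ] k)) := by
  have hv1 : ws p a y = 0 := by
    have h := hf 1
    have h1 : aeval y (ws p a (fun l => X l) : MvPolynomial ι ℤ) = 0 := h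
    rw [ev_ws y (fun l => l)] at h1
    exact h1
  have hlin : ws 1 a y = 0 := by
    have h := Gp_eval hp a y
    rw [hv1, hpk, zero_mul, add_zero] at h
    exact pow_eq_zero_iff hp.ne_zero |>.mp h.symm
  refine indepAt_of_linear y _ hf 1 ?_ ?_
  · intro A hA m hm
    have hm0 : m = 0 := by
      fin_cases m
      · rfl
      · exact absurd rfl hm
    subst hm0
    have h1 := hA i
    rw [Fin.sum_univ_two] at h1
    have h2 : aeval y (pderiv i (famT0 p a i 0)) = 1 := by
      show dv y i (X i - 1) = 1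
      rw [dv_sub, dv_one, dv_X_self, sub_zero]
    have h3 : aeval y (pderiv i (famT0 p a i 1)) = 0 := by
      show dv y i (ws p a (fun l => X l)) = 0
      rw [dv_ws y (fun l : ι => l) (fun _ _ h => h) p a i, hpk]
      ring
    rw [h2, h3] at h1
    linear_combination h1
  · right
    refine ⟨p, Gp hp a, (ws 1 a (fun l => X l)) ^ p, hp, hpk, hG, ?_, ?_⟩
    · show ws p a (fun l => X l) = _
      have h := Gp_spec hp a
      rw [show (fun l => X l : ι → MvPolynomial ι ℤ) = X from rfl, h]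
      ring
    · refine Ideal.pow_le_pow_right hp.two_le (Ideal.pow_mem_pow ?_ _)
      show aeval y (ws 1 a (fun l => X l)) = 0
      rw [ev_ws y (fun l => l)]
      exact hlin

theorem indep_T0a {p : ℕ} (hp : p.Prime) (a : ι → ℤ) {i : ι}
    (hpk : (p : k) ≠ 0) (ha0 : a i ≠ 0) (hsq : Squarefree (a i))
    (hcop : ∀ l, l ≠ i → IsCoprime (a l) (a i)) (y : ι → k)
    (hf : ∀ m, aeval y (famT0 p a i m) = 0) :
    IndepAt (famT0 p a i) (RingHom.ker (aeval y : MvPolynomial ι ℤ →ₐ[ℤ] k)) := by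
  have hp2 := hp.two_le
  have hv0 : y i = 1 := by
    have h : aeval y (X i - 1 : MvPolynomial ι ℤ) = 0 := hf 0
    rw [map_sub, aeval_X, map_one] at h
    linear_combination h
  have hv1 : ws p a y = 0 := by
    have h1 : aeval y (ws p a (fun l => X l) : MvPolynomial ι ℤ) = 0 := hf 1
    rw [ev_ws y (fun l => l)] at h1
    exact h1
  have d0 : ∀ l, l ≠ i → aeval y (pderiv l (famT0 p a i 0)) = 0 := by
    intro l hl
    show dv y l (X i - 1) = 0
    rw [dv_sub, dv_one, dv_X_of_ne y hl.symm, sub_zero]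
  have d1 : ∀ l, aeval y (pderiv l (famT0 p a i 1)) = a l * (p * y l ^ (p - 1)) := by
    intro l
    show dv y l (ws p a (fun l => X l)) = _
    exact dv_ws y (fun l : ι => l) (fun _ _ h => h) p a l
  by_cases hex : ∃ l, l ≠ i ∧ (a l : k) * y l ≠ 0
  · obtain ⟨l, hl, hne⟩ := hex
    have hne' : (a l : k) * (p * y l ^ (p - 1)) ≠ 0 := by
      have h1 : (a l : k) ≠ 0 := left_ne_zero_of_mul hne
      have h2 : y l ≠ 0 := right_ne_zero_of_mul hne
      exact mul_ne_zero h1 (mul_ne_zero hpk (pow_ne_zero _ h2))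
    refine indepAt_of_linear y _ hf 1 ?_ (Or.inl ⟨l, by
      show aeval y (pderiv l (famT0 p a i 1)) ≠ 0
      rw [d1]; exact hne'⟩)
    intro A hA m hm
    have hm0 : m = 0 := by
      fin_cases m
      · rfl
      · exact absurd rfl hm
    subst hm0
    have h1 := hA l
    rw [Fin.sum_univ_two, d0 l hl, d1] at h1
    have hA1 : A 1 = 0 := by
      have : A 1 * (a l * (p * y l ^ (p - 1))) = 0 := by linear_combination h1
      exact (mul_eq_zero.mp this).resolve_right hne'
    have h2 := hA i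
    have h3 : aeval y (pderiv i (famT0 p a i 0)) = 1 := by
      show dv y i (X i - 1) = 1
      rw [dv_sub, dv_one, dv_X_self, sub_zero]
    rw [Fin.sum_univ_two, h3, hA1] at h2
    linear_combination h2
  · push Not at hex
    -- all the other monomials vanish, so `a i = 0` in `k`
    have hai : (a i : k) = 0 := by
      rw [ws, Finset.sum_eq_single i] at hv1
      · rw [hv0, one_pow, mul_one] at hv1
        exact hv1
      · intro l _ hl
        rcases mul_eq_zero.mp (hex l hl) with h | h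
        · rw [h, zero_mul]
        · rw [h, zero_pow hp.ne_zero, mul_zero]
      · intro h; exact absurd (Finset.mem_univ _) h
    obtain ⟨q, hq⟩ := CharP.exists k
    have hq0 : q ≠ 0 := by
      rintro rfl
      have : CharZero k := CharP.charP_to_charZero k
      exact ha0 (by exact_mod_cast hai)
    have hqp : q.Prime := (CharP.char_is_prime_or_zero k q).resolve_right hq0
    have hqk : (q : k) = 0 := CharP.cast_eq_zero k q
    obtain ⟨a', ha'⟩ : (q : ℤ) ∣ a i := (CharP.intCast_eq_zero_iff k q _).mp hai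
    have ha'k : (a' : k) ≠ 0 := by
      intro h
      obtain ⟨a'', ha''⟩ : (q : ℤ) ∣ a' := (CharP.intCast_eq_zero_iff k q _).mp h
      have h1 : (q : ℤ) * q ∣ a i := ⟨a'', by rw [ha', ha'']; ring⟩
      have h2 := hsq _ h1
      have h3 : IsUnit q := by
        have := Int.isUnit_iff_natAbs_eq.mp h2
        simpa using this
      rw [Nat.isUnit_iff] at h3
      exact hqp.one_lt.ne' h3
    have hyl : ∀ l, l ≠ i → y l = 0 := by
      intro l hl
      rcases mul_eq_zero.mp (hex l hl) with h | h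
      · exfalso
        obtain ⟨u, v, huv⟩ := hcop l hl
        have := congrArg (Int.cast : ℤ → k) huv
        push_cast at this
        rw [h, hai] at this
        simp at this
      · exact h
    refine indepAt_of_linear y _ hf 1 ?_ (Or.inr ⟨q, (a' : MvPolynomial ι ℤ) * X i ^ p,
      ∑ l ∈ Finset.univ.erase i, (a l : MvPolynomial ι ℤ) * X l ^ p, hqp, hqk, ?_, ?_, ?_⟩)
    · intro A hA m hm
      have hm0 : m = 0 := by
        fin_cases m
        · rfl
        · exact absurd rfl hm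
      subst hm0
      have h1 := hA i
      have h2 : aeval y (pderiv i (famT0 p a i 0)) = 1 := by
        show dv y i (X i - 1) = 1
        rw [dv_sub, dv_one, dv_X_self, sub_zero]
      rw [Fin.sum_univ_two, h2, d1, hai] at h1
      linear_combination h1
    · rw [map_mul, map_pow, aeval_X, hv0, map_intCast]
      simpa using ha'k
    · show ws p a (fun l => X l) = _
      rw [ws, ← Finset.add_sum_erase _ _ (Finset.mem_univ i)]
      congr 1
      rw [ha']
      push_cast
      ring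
    · refine Ideal.sum_mem _ fun l hl => Ideal.mul_mem_left _ _
        (Ideal.pow_le_pow_right hp.two_le (Ideal.pow_mem_pow ?_ _))
      show aeval y (X l) = 0
      rw [aeval_X, hyl l (Finset.ne_of_mem_erase hl)]

end Pool.Agent.H96.Diag
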