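import Pool.Agent.H96.IndepLin

/-!
# Polynomials attached to a diagonal form of prime degree
-/

set_option autoImplicit false

namespace Pool.Agent.H96.Diag

open MvPolynomial Pool.Agent.H96.Reg

variable {ι : Type} [Fintype ι]

/-- The weighted power sum `∑ w_j Y_j ^ d`. -/
def ws {A : Type} [CommRing A] (d : ℕ) (w : ι → ℤ) (Y : ι → A) : A := ∑ j, (w j : A) * Y j ^ d

theorem map_ws {A B : Type} [CommRing A] [CommRing B] (φ : A →+* B) (d : ℕ) (w : ι → ℤ)
    (Y : ι → A) : φ (ws d w Y) = ws d w (fun j => φ (Y j)) := by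
  simp [ws]

theorem ws_smul {A : Type} [CommRing A] (d : ℕ) (w : ι → ℤ) (e : A) (Y : ι → A) :
    ws d w (fun j => e * Y j) = e ^ d * ws d w Y := by
  simp only [ws, Finset.mul_sum]
  refine Finset.sum_congr rfl fun j _ => ?_
  rw [mul_pow]; ring

/-- The polynomial `G` with `∑ a_j X_j ^ p = (∑ a_j X_j) ^ p + p G`. -/
noncomputable def Gp {p : ℕ} (hp : p.Prime) (a : ι → ℤ) : MvPolynomial ι ℤ :=
  (exists_expand_eq hp (∑ j, C (a j) * X j : MvPolynomial ι ℤ)).choose

theorem Gp_spec {p : ℕ} (hp : p.Prime) (a : ι → ℤ) :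
    ws p a (X : ι → MvPolynomial ι ℤ) = (ws 1 a X) ^ p + (p : MvPolynomial ι ℤ) * Gp hp a := by
  have h : expand p (∑ j, C (a j) * X j : MvPolynomial ι ℤ) =
      (∑ j, C (a j) * X j : MvPolynomial ι ℤ) ^ p + (p : MvPolynomial ι ℤ) * Gp hp a :=
    (exists_expand_eq hp (∑ j, C (a j) * X j : MvPolynomial ι ℤ)).choose_spec
  have h1 : (∑ j, C (a j) * X j : MvPolynomial ι ℤ) = ws 1 a X := by
    simp only [ws, pow_one]
    refine Finset.sum_congr rfl fun j _ => ?_
    simp
  have h2 : expand p (∑ j, C (a j) * X j : MvPolynomial ι ℤ) = ws p a X := by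
    simp only [ws, map_sum, map_mul, expand_C, expand_X]
    refine Finset.sum_congr rfl fun j _ => ?_
    simp
  rw [h2, h1] at h
  exact h

theorem Gp_eval {p : ℕ} (hp : p.Prime) (a : ι → ℤ) {A : Type} [CommRing A] [Algebra ℤ A]
    (Y : ι → A) :
    ws p a Y = (ws 1 a Y) ^ p + (p : A) * aeval Y (Gp hp a) := by
  have h := congrArg (aeval Y : MvPolynomial ι ℤ →ₐ[ℤ] A) (Gp_spec hp a)
  have h1 : ∀ d, aeval Y (ws d a (X : ι → MvPolynomial ι ℤ)) = ws d a Y := by
    intro d
    have := map_ws (aeval Y : MvPolynomial ι ℤ →ₐ[ℤ] A).toRingHom d a X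
    simpa using this
  rw [map_add, map_mul, map_pow, h1, h1, map_natCast] at h
  exact h

theorem pderiv_ws [DecidableEq ι] {σ : Type} [DecidableEq σ] (emb : ι → σ)
    (d : ℕ) (w : ι → ℤ) (l : σ) :
    pderiv l (ws d w (fun j => X (emb j) : ι → MvPolynomial σ ℤ)) =
      ∑ j, (w j : MvPolynomial σ ℤ) * ((d : MvPolynomial σ ℤ) * X (emb j) ^ (d - 1) *
        (if emb j = l then 1 else 0)) := by
  simp only [ws, map_sum]
  refine Finset.sum_congr rfl fun j _ => ?_
  rw [Derivation.leibniz, Derivation.leibniz_pow]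
  have h1 : pderiv l ((w j : ℤ) : MvPolynomial σ ℤ) = 0 := by
    have : ((w j : ℤ) : MvPolynomial σ ℤ) = C (w j) := by simp
    rw [this, pderiv_C]
  rw [h1, pderiv_X]
  simp only [smul_eq_mul, mul_zero, add_zero, nsmul_eq_mul, Pi.single_apply]
  by_cases h : emb j = l
  · simp [h]
  · simp [h]

/-- The partial derivatives of `G`. -/
theorem pderiv_Gp [DecidableEq ι] {p : ℕ} (hp : p.Prime) (a : ι → ℤ) (l : ι) :
    pderiv l (Gp hp a) = (a l : MvPolynomial ι ℤ) * (X l ^ (p - 1) - (ws 1 a X) ^ (p - 1)) := by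
  have h := congrArg (pderiv l) (Gp_spec hp a)
  have h1 := pderiv_ws (fun j : ι => j) p a l
  have h2 := pderiv_ws (fun j : ι => j) 1 a l
  rw [map_add, Derivation.leibniz, Derivation.leibniz_pow] at h
  have h3 : pderiv l ((p : ℕ) : MvPolynomial ι ℤ) = 0 := by
    have : ((p : ℕ) : MvPolynomial ι ℤ) = C (p : ℤ) := by simp
    rw [this, pderiv_C]
  have h4 : (∑ j, (a j : MvPolynomial ι ℤ) * ((p : MvPolynomial ι ℤ) * X j ^ (p - 1) *
      (if j = l then 1 else 0))) = (a l : MvPolynomial ι ℤ) * ((p : MvPolynomial ι ℤ) *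
        X l ^ (p - 1)) := by
    rw [Finset.sum_eq_single l]
    · simp
    · intro j _ hj; simp [hj]
    · intro h; exact absurd (Finset.mem_univ _) h
  have h5 : (∑ j, (a j : MvPolynomial ι ℤ) * (((1 : ℕ) : MvPolynomial ι ℤ) * X j ^ (1 - 1) *
      (if j = l then 1 else 0))) = (a l : MvPolynomial ι ℤ) := by
    rw [Finset.sum_eq_single l]
    · simp
    · intro j _ hj; simp [hj]
    · intro h; exact absurd (Finset.mem_univ _) h
  rw [h4] at h1
  rw [h5] at h2
  rw [h3, smul_zero, add_zero] at h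
  have h6 : (p : MvPolynomial ι ℤ) * pderiv l (Gp hp a) =
      (p : MvPolynomial ι ℤ) * ((a l : MvPolynomial ι ℤ) *
        (X l ^ (p - 1) - (ws 1 a X) ^ (p - 1))) := by
    rw [h1, h2] at h
    simp only [smul_eq_mul, nsmul_eq_mul] at h
    linear_combination -h
  have hp0 : (p : MvPolynomial ι ℤ) ≠ 0 := by
    have : (p : MvPolynomial ι ℤ) = C (p : ℤ) := by simp
    rw [this, Ne, C_eq_zero]
    exact_mod_cast hp.ne_zero
  exact mul_left_cancel₀ hp0 h6

/-- Chain rule. -/
theorem deriv_aeval {S : Type} [CommRing S] [Algebra ℤ S] [DecidableEq ι] (D : Derivation ℤ S S) (Y : ι → S)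
    (F : MvPolynomial ι ℤ) : D (aeval Y F) = ∑ j, aeval Y (pderiv j F) * D (Y j) := by
  induction F using MvPolynomial.induction_on with
  | C n => simp
  | add F F' h h' =>
    rw [map_add, map_add, h, h', ← Finset.sum_add_distrib]
    refine Finset.sum_congr rfl fun j _ => ?_
    rw [map_add, map_add]; ring
  | mul_X F i h =>
    have h2 : ∀ j, aeval Y (pderiv j (F * X i)) * D (Y j) =
        aeval Y F * (if j = i then D (Y j) else 0) + Y i * (aeval Y (pderiv j F) * D (Y j)) := by
      intro j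
      rw [Derivation.leibniz, pderiv_X]
      by_cases hj : j = i
      · subst hj
        simp only [smul_eq_mul, Pi.single_eq_same, map_add, map_mul, map_one, aeval_X, if_true]
        ring
      · simp only [smul_eq_mul, Pi.single_apply, map_add, map_mul, aeval_X, if_neg hj,
          if_neg (Ne.symm hj), mul_zero, map_zero]
        ring
    rw [Finset.sum_congr rfl fun j _ => h2 j, Finset.sum_add_distrib, ← Finset.mul_sum,
      ← Finset.mul_sum, Finset.sum_ite_eq' Finset.univ i, ← h, map_mul, aeval_X,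
      Derivation.leibniz]
    simp

end Pool.Agent.H96.Diag
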