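import Pool.Agent.H96.DTame

/-!
# The points to be blown up
-/

set_option autoImplicit false
set_option linter.unusedSectionVars false

namespace Pool.Agent.H96.Diag

open MvPolynomial Pool.Agent.H96.VL Pool.Agent.H96.Reg
open scoped Pointwise

section Points

variable {ι : Type} [Fintype ι] [DecidableEq ι]

/-- `c` is an integral point of the hyperplane, reducing to `u`, at which the form is divisible by
`p ^ 2`. -/
def IsPt (p : ℕ) (a : ι → ℤ) (u : ι → ZMod p) (c : ι → ℤ) : Prop :=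
  (∀ j, (c j : ZMod p) = u j) ∧ ∑ j, a j * c j = 0 ∧ (p : ℤ) ^ 2 ∣ ∑ j, a j * c j ^ p

open Classical in
/-- A chosen point above `u`. -/
noncomputable def rep (p : ℕ) (a : ι → ℤ) (u : ι → ZMod p) : ι → ℤ :=
  if h : ∃ c, IsPt p a u c then h.choose else 0

theorem rep_spec {p : ℕ} {a : ι → ℤ} {u : ι → ZMod p} (h : ∃ c, IsPt p a u c) :
    IsPt p a u (rep p a u) := by
  rw [rep, dif_pos h]; exact h.choose_spec

open Classical in
/-- The set of points. -/
noncomputable def Pts (p : ℕ) [NeZero p] (a : ι → ℤ) (i₀ : ι) : Finset (ι → ℤ) :=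
  ((Finset.univ : Finset (ι → ZMod p)).filter fun u => u i₀ = 1 ∧ (∀ j, u j ≠ 0) ∧
    ∃ c, IsPt p a u c).image (rep p a)

variable {p : ℕ} [NeZero p] {a : ι → ℤ} {i₀ : ι} {c c' : ι → ℤ}

theorem mem_Pts : c ∈ Pts p a i₀ ↔ ∃ u : ι → ZMod p, u i₀ = 1 ∧ (∀ j, u j ≠ 0) ∧
    (∃ c, IsPt p a u c) ∧ rep p a u = c := by
  simp only [Pts, Finset.mem_image, Finset.mem_filter, Finset.mem_univ, true_and, and_assoc]

theorem Pts_uniq (hc : c ∈ Pts p a i₀) (hc' : c' ∈ Pts p a i₀)
    (h : ∀ j, (c j : ZMod p) = c' j) : c = c' := by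
  obtain ⟨u, -, -, hu, rfl⟩ := mem_Pts.mp hc
  obtain ⟨u', -, -, hu', rfl⟩ := mem_Pts.mp hc'
  have h1 : u = u' := by
    funext j
    rw [← (rep_spec hu).1 j, ← (rep_spec hu').1 j, h j]
  rw [h1]

theorem Pts_not_dvd (hc : c ∈ Pts p a i₀) (j : ι) : ¬ (p : ℤ) ∣ c j := by
  obtain ⟨u, -, hu0, hu, rfl⟩ := mem_Pts.mp hc
  intro hd
  apply hu0 j
  rw [← (rep_spec hu).1 j]
  exact (ZMod.intCast_zmod_eq_zero_iff_dvd _ _).mpr hd

theorem Pts_i₀ (hc : c ∈ Pts p a i₀) : (p : ℤ) ∣ c i₀ - 1 := by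
  obtain ⟨u, hu1, -, hu, rfl⟩ := mem_Pts.mp hc
  rw [← ZMod.intCast_zmod_eq_zero_iff_dvd, Int.cast_sub, (rep_spec hu).1 i₀, hu1, Int.cast_one,
    sub_self]

theorem Pts_data (hp : p.Prime) (hc : c ∈ Pts p a i₀) : ∃ b c₀, PtData p a c b c₀ := by
  have hnd := Pts_not_dvd hc
  obtain ⟨u, -, -, hu, rfl⟩ := mem_Pts.mp hc
  obtain ⟨h1, h2, h3⟩ := rep_spec hu
  obtain ⟨c₀, hc₀⟩ := h3
  have hf : ∀ j, ∃ b : ℤ, rep p a u j ^ (p - 1) = 1 + p * b := by
    intro j
    have hcop : IsCoprime (rep p a u j) (p : ℤ) :=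
      ((Nat.prime_iff_prime_int.mp hp).coprime_iff_not_dvd.mpr (hnd j)).symm
    obtain ⟨b, hb⟩ := Int.prime_dvd_pow_sub_one hp hcop
    exact ⟨b, by linear_combination hb⟩
  choose b hb using hf
  exact ⟨b, c₀, h2, hc₀, hb⟩

/-- Existence of exact lifts. -/
theorem exists_lift (hp : p.Prime) {j₁ : ι} (hj₁ : ¬ (p : ℤ) ∣ a j₁) (v : ι → ℤ)
    (hv : (p : ℤ) ∣ ∑ j, a j * v j) :
    ∃ c : ι → ℤ, ∑ j, a j * c j = 0 ∧ ∀ j, (p : ℤ) ∣ c j - v j := by
  obtain ⟨s, hs⟩ := hv
  have hcop : IsCoprime (p : ℤ) (a j₁) :=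
    (Nat.prime_iff_prime_int.mp hp).coprime_iff_not_dvd.mpr hj₁
  obtain ⟨m, κ, hmκ⟩ := hcop
  refine ⟨fun j => a j₁ * κ * v j - if j = j₁ then p * s * κ else 0, ?_, ?_⟩
  · simp only [mul_sub, Finset.sum_sub_distrib]
    have h1 : ∑ j, a j * (a j₁ * κ * v j) = a j₁ * κ * ∑ j, a j * v j := by
      rw [Finset.mul_sum]
      exact Finset.sum_congr rfl fun j _ => by ring
    have h2 : ∑ j, a j * (if j = j₁ then (p : ℤ) * s * κ else 0) = a j₁ * (p * s * κ) := by
      rw [Finset.sum_eq_single j₁]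
      · rw [if_pos rfl]
      · intro j _ hj; rw [if_neg hj, mul_zero]
      · intro h; exact absurd (Finset.mem_univ _) h
    rw [h1, h2, hs]; ring
  · intro j
    by_cases hj : j = j₁
    · simp only [if_pos hj]
      exact ⟨-m * v j - s * κ, by linear_combination v j * hmκ⟩
    · simp only [if_neg hj]
      exact ⟨-m * v j, by linear_combination v j * hmκ⟩

/-- Existence of a point above the class of an integral vector `d`. -/
theorem exists_mem_Pts (hp : p.Prime) {j₁ : ι} (hj₁ : ¬ (p : ℤ) ∣ a j₁) (d : ι → ℤ)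
    (hd0 : ∀ j, ¬ (p : ℤ) ∣ d j)
    (hd1 : (p : ℤ) ∣ ∑ j, a j * d j) (hd2 : (p : ℤ) ^ 2 ∣ ∑ j, a j * d j ^ p) :
    ∃ c ∈ Pts p a i₀, ∃ κ : ℤ, ∀ j, (p : ℤ) ∣ c j - κ * d j := by
  have hpp := Nat.prime_iff_prime_int.mp hp
  obtain ⟨m, κ, hmκ⟩ : IsCoprime (p : ℤ) (d i₀) := hpp.coprime_iff_not_dvd.mpr (hd0 i₀)
  have hκ : ¬ (p : ℤ) ∣ κ := by
    intro h
    have h1 : (p : ℤ) ∣ 1 := by
      rw [← hmκ]
      exact dvd_add (dvd_mul_left _ _) (h.mul_right _)
    exact hpp.not_dvd_one h1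
  obtain ⟨e, he0, he1⟩ := exists_lift hp hj₁ (fun j => κ * d j) (by
    have : ∑ j, a j * (κ * d j) = κ * ∑ j, a j * d j := by
      rw [Finset.mul_sum]
      exact Finset.sum_congr rfl fun j _ => by ring
    rw [this]
    exact hd1.mul_left κ)
  have he2 : (p : ℤ) ^ 2 ∣ ∑ j, a j * e j ^ p := by
    have h1 : (p : ℤ) ^ 2 ∣ ∑ j, a j * (e j ^ p - (κ * d j) ^ p) := by
      apply Finset.dvd_sum
      intro j _
      apply Dvd.dvd.mul_left
      have h2 := dvd_sub_pow_of_dvd_sub (R := ℤ) (p := p) (he1 j) 1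
      simpa using h2
    have h3 : ∑ j, a j * e j ^ p = ∑ j, a j * (e j ^ p - (κ * d j) ^ p) +
        κ ^ p * ∑ j, a j * d j ^ p := by
      rw [Finset.mul_sum, ← Finset.sum_add_distrib]
      exact Finset.sum_congr rfl fun j _ => by rw [mul_pow]; ring
    rw [h3]
    exact dvd_add h1 (hd2.mul_left _)
  have hu : ∃ c, IsPt p a (fun j => (e j : ZMod p)) c := ⟨e, fun _ => rfl, he0, he2⟩
  refine ⟨rep p a (fun j => (e j : ZMod p)), mem_Pts.mpr ⟨_, ?_, ?_, hu, rfl⟩, κ, ?_⟩
  · have h1 : ((e i₀ - 1 : ℤ) : ZMod p) = 0 := by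
      rw [ZMod.intCast_zmod_eq_zero_iff_dvd]
      obtain ⟨z, hz⟩ := he1 i₀
      exact ⟨z - m, by linear_combination hz + hmκ⟩
    push_cast at h1
    exact sub_eq_zero.mp h1
  · intro j h1
    have h2 := (ZMod.intCast_zmod_eq_zero_iff_dvd _ _).mp h1
    have h3 : (p : ℤ) ∣ κ * d j := by
      have := dvd_sub h2 (he1 j)
      rwa [sub_sub_cancel] at this
    rcases hpp.dvd_or_dvd h3 with h | h
    · exact hκ h
    · exact hd0 j h
  · intro j
    have h1 := (rep_spec hu).1 j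
    have h2 : ((rep p a (fun j => (e j : ZMod p)) j - e j : ℤ) : ZMod p) = 0 := by
      push_cast
      rw [h1, sub_self]
    have h3 := (ZMod.intCast_zmod_eq_zero_iff_dvd _ _).mp h2
    have := dvd_add h3 (he1 j)
    rwa [sub_add_sub_cancel] at this

end Points

variable {K : Type} [Field K] [CharZero K] [DecidableEq K] {ι : Type} [Fintype ι] [DecidableEq ι]
variable {V : ValuationSubring K} {R : Subring K}
variable {p : ℕ} {a : ι → ℤ} {x : ι → K} {𝒬 : Finset ℕ} {i : ι} {q : ℕ} {c c' : ι → ℤ}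

/-- `V` is centred at `c`. -/
def Centred (V : ValuationSubring K) (p : ℕ) (x : ι → K) (i : ι) (c : ι → ℤ) : Prop :=
  ∀ g ∈ mS p x c, V.valuation g < V.valuation (x i)

theorem Centred.minor (hx : ∀ j, x j ≠ 0) (h : Centred V p x i c) (j l : ι) :
    V.valuation ((c l : K) * x j - c j * x l) < V.valuation (x i) := by
  by_cases h0 : (c l : K) * x j - c j * x l = 0
  · rw [h0, map_zero, Valuation.pos_iff]; exact hx i
  · exact h _ (mem_mS_minor h0)

theorem res_minor (hx : ∀ j, x j ≠ 0) (hi : ∀ j, V.valuation (x j) ≤ V.valuation (x i))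
    (c : ι → ℤ) (j l : ι) :
    V.valuation ((c l : K) * x j - c j * x l) < V.valuation (x i) ↔
      (c l : IsLocalRing.ResidueField V) * resv V (x j / x i) = c j * resv V (x l / x i) := by
  have hz := val_X_le (V := V) hx hi
  have hxiv : 0 < V.valuation (x i) := by rw [Valuation.pos_iff]; exact hx i
  have h1 := resv_aeval (fun j => x j / x i) hz (C (c l) * X j - C (c j) * X l)
  simp only [map_sub, map_mul, aeval_X, aeval_C, eq_intCast (algebraMap ℤ K),
    eq_intCast (algebraMap ℤ (IsLocalRing.ResidueField V))] at h1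
  have h2 : (c l : K) * (x j / x i) - c j * (x l / x i) = ((c l : K) * x j - c j * x l) / x i := by
    have := hx i
    field_simp
  rw [h2] at h1
  constructor
  · intro h
    have h3 : V.valuation (((c l : K) * x j - c j * x l) / x i) < 1 := by
      rw [map_div₀]; exact (div_lt_one₀ hxiv).mpr h
    have h4 := h1.2
    rw [(resv_eq_zero_iff h1.1).mpr h3] at h4
    exact (sub_eq_zero.mp h4.symm)
  · intro h
    have h4 := h1.2
    rw [h, sub_self, resv_eq_zero_iff h1.1, map_div₀, div_lt_one₀ hxiv] at h4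
    exact h4

theorem resv_xi (hx : ∀ j, x j ≠ 0) : resv V (x i / x i) = 1 := by
  rw [div_self (hx i)]
  have := resv_intCast V 1
  simpa using this

theorem dvd_of_cast_eq_zero (hp : p.Prime) (hv : V.valuation (p : K) < 1) {n : ℤ}
    (h : (n : IsLocalRing.ResidueField V) = 0) : (p : ℤ) ∣ n := by
  by_contra hcon
  exact cast_ne_of_not_dvd hp hv hcon h

theorem cast_eq_zero_of_dvd (hv : V.valuation (p : K) < 1) {n : ℤ}
    (h : (p : ℤ) ∣ n) : (n : IsLocalRing.ResidueField V) = 0 := by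
  obtain ⟨m, rfl⟩ := h
  push_cast
  rw [cast_p_eq_zero hv, zero_mul]

/-- A valuation is centred at one point at most. -/
theorem Centred.uniq [NeZero p] {i₀ : ι} (hp : p.Prime) (hv : V.valuation (p : K) < 1)
    (hx : ∀ j, x j ≠ 0) (hi : ∀ j, V.valuation (x j) ≤ V.valuation (x i))
    (hc : c ∈ Pts p a i₀) (hc' : c' ∈ Pts p a i₀) (h : Centred V p x i c)
    (h' : Centred V p x i c') : c = c' := by
  apply Pts_uniq hc hc'
  intro j
  have key : ∀ {c : ι → ℤ}, c ∈ Pts p a i₀ → Centred V p x i c →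
      resv V (x j / x i) = c j * resv V (x i₀ / x i) := by
    intro c hc h
    have h1 := (res_minor hx hi c j i₀).mp (h.minor hx j i₀)
    have h2 : (c i₀ : IsLocalRing.ResidueField V) = 1 := by
      have h3 := cast_eq_zero_of_dvd hv (Pts_i₀ hc)
      push_cast at h3
      exact sub_eq_zero.mp h3
    rwa [h2, one_mul] at h1
  have h1 := key hc h
  rw [key hc' h'] at h1
  have h2 : resv V (x i₀ / x i) ≠ 0 := by
    intro h0
    have h3 := (res_minor hx hi c i i₀).mp (h.minor hx i i₀)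
    rw [h0, mul_zero, resv_xi hx, mul_one] at h3
    exact Pts_not_dvd hc i₀ (dvd_of_cast_eq_zero hp hv h3)
  have h3 : ((c j - c' j : ℤ) : IsLocalRing.ResidueField V) = 0 := by
    push_cast
    have := mul_right_cancel₀ h2 h1
    rw [this, sub_self]
  have h4 := dvd_of_cast_eq_zero hp hv h3
  have h5 := (ZMod.intCast_zmod_eq_zero_iff_dvd _ p).mpr h4
  push_cast at h5
  exact sub_eq_zero.mp h5

/-- Completeness of the set of points. -/
theorem exists_centred [NeZero p] (i₀ : ι) (hB : Base p a x) (hv : V.valuation (p : K) < 1)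
    (hi : ∀ j, V.valuation (x j) ≤ V.valuation (x i))
    (hG : V.valuation (aeval (fun j => x j / x i) (Gp hB.hp a)) < 1)
    (hnc : ∀ l, resv V (x l / x i) ^ (p - 1) = 1) : ∃ c ∈ Pts p a i₀, Centred V p x i c := by
  have hp := hB.hp
  haveI : Fact p.Prime := ⟨hp⟩
  have hx := hB.hx
  have hz := val_X_le (V := V) hx hi
  have hpK : (p : K) ≠ 0 := by exact_mod_cast hp.ne_zero
  have hp1 : p - 1 ≠ 0 := by have := hp.two_le; omega
  haveI : CharP (IsLocalRing.ResidueField V) p := by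
    have h0 := cast_p_eq_zero hv
    exact (CharP.charP_iff_prime_eq_zero hp).mpr h0
  -- integral representatives
  have hint : ∀ l, ∃ n : ℤ, (n : IsLocalRing.ResidueField V) = resv V (x l / x i) := by
    intro l
    rw [← mem_bot_iff_intCast p, Subfield.mem_bot_iff_pow_eq_self _ p]
    have h1 : resv V (x l / x i) ^ p = resv V (x l / x i) ^ (p - 1) * resv V (x l / x i) := by
      rw [← pow_succ]; congr 1; omega
    rw [h1, hnc, one_mul]
  choose d hd using hint
  have hX0 : ∀ l, resv V (x l / x i) ≠ 0 := by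
    intro l h0
    have := hnc l
    rw [h0, zero_pow hp1] at this
    exact zero_ne_one this
  have hd0 : ∀ j, ¬ (p : ℤ) ∣ d j := by
    intro j h
    apply hX0 j
    rw [← hd j]
    exact cast_eq_zero_of_dvd hv h
  have haev : ∀ P : MvPolynomial ι ℤ, aeval (fun j => resv V (x j / x i)) P =
      ((aeval d P : ℤ) : IsLocalRing.ResidueField V) := by
    intro P
    have h1 : (fun j => resv V (x j / x i)) = fun j => (d j : IsLocalRing.ResidueField V) := by
      funext j; rw [hd]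
    rw [h1]
    have h2 := MvPolynomial.aeval_algebraMap_apply (IsLocalRing.ResidueField V) d P
    rw [eq_intCast (algebraMap ℤ (IsLocalRing.ResidueField V))] at h2
    rw [← h2]
    rfl
  -- the linear form
  have hL : V.valuation (ws 1 a x / x i) < 1 := by
    have hLp : (ws 1 a x / x i) ^ p = -(p * aeval (fun j => x j / x i) (Gp hB.hp a)) := by
      rw [hB.G_eq (hx i)]; field_simp
    have h1 : V.valuation ((ws 1 a x / x i) ^ p) < 1 := by
      rw [hLp, Valuation.map_neg, map_mul]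
      exact mul_lt_one_of_lt_of_le hv hG.le
    rw [map_pow] at h1
    exact (pow_lt_one_iff_of_nonneg (by simp) hp.ne_zero).mp h1
  have hd1 : (p : ℤ) ∣ ∑ j, a j * d j := by
    apply dvd_of_cast_eq_zero (V := V) hp hv
    have h1 := (resv_aeval _ hz (ws 1 a (fun l => X l : ι → MvPolynomial ι ℤ))).2
    rw [haev, ev_ws _ (fun l => l), ws_div, pow_one, (resv_eq_zero_iff hL.le).mpr hL] at h1
    rw [h1]
    congr 1
    have h2 := map_ws (aeval d : MvPolynomial ι ℤ →ₐ[ℤ] ℤ).toRingHom 1 a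
      (fun l => X l : ι → MvPolynomial ι ℤ)
    have h3 : aeval d (ws 1 a (fun l => X l : ι → MvPolynomial ι ℤ)) = ws 1 a d := by
      simpa using h2
    rw [h3]
    simp [ws]
  have hdG : (p : ℤ) ∣ aeval d (Gp hp a) := by
    apply dvd_of_cast_eq_zero (V := V) hp hv
    have h1 := (resv_aeval _ hz (Gp hp a)).2
    rw [haev, (resv_eq_zero_iff hG.le).mpr hG] at h1
    exact h1.symm
  have hd2 : (p : ℤ) ^ 2 ∣ ∑ j, a j * d j ^ p := by
    have h1 := Gp_eval hp a d
    have h2 : ws p a d = ∑ j, a j * d j ^ p := by simp [ws]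
    have h3 : ws 1 a d = ∑ j, a j * d j := by simp [ws]
    rw [← h2, h1, h3]
    apply dvd_add
    · exact (pow_dvd_pow _ hp.two_le).trans (pow_dvd_pow_of_dvd hd1 p)
    · rw [pow_two]
      exact mul_dvd_mul_left _ hdG
  obtain ⟨c, hc, κ, hcκ⟩ := exists_mem_Pts (i₀ := i₀) hp (hB.hpa i) d hd0 hd1 hd2
  refine ⟨c, hc, ?_⟩
  have hcX : ∀ j, (c j : IsLocalRing.ResidueField V) = κ * resv V (x j / x i) := by
    intro j
    have h1 := cast_eq_zero_of_dvd hv (hcκ j)
    push_cast at h1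
    rw [← hd j]
    exact sub_eq_zero.mp h1
  have hxiv : 0 < V.valuation (x i) := by rw [Valuation.pos_iff]; exact hx i
  intro g hg
  obtain ⟨_, ⟨j, rfl⟩ | ⟨j, l, rfl⟩⟩ := mS_cases hg
  · rw [map_mul]
    calc V.valuation (p : K) * V.valuation (x j) ≤ V.valuation (p : K) * V.valuation (x i) :=
          mul_le_mul' le_rfl (hi j)
      _ < 1 * V.valuation (x i) := by
          exact mul_lt_mul_of_pos_right hv hxiv
      _ = V.valuation (x i) := one_mul _
  · rw [res_minor hx hi, hcX, hcX]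
    ring

end Pool.Agent.H96.Diag
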