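import Pool.Agent.H96.DReg3

/-!
# The tame primes
-/

set_option autoImplicit false
set_option linter.unusedSectionVars false

namespace Pool.Agent.H96.Diag

open MvPolynomial Pool.Agent.H96.VL Pool.Agent.H96.Reg
open scoped Pointwise

section Indep

variable {ι : Type} [Fintype ι] [DecidableEq ι] {k : Type} [Field k]

/-- Independence in region T0 when the coefficients in play are units. -/
theorem indep_T0c {p : ℕ} (hp : p.Prime) (a : ι → ℤ) {i : ι} (hpk : (p : k) ≠ 0)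
    (hai : (a i : k) ≠ 0) (y : ι → k) (hf : ∀ m, aeval y (famT0 p a i m) = 0) :
    IndepAt (famT0 p a i) (RingHom.ker (aeval y : MvPolynomial ι ℤ →ₐ[ℤ] k)) := by
  have hv0 : y i = 1 := by
    have h : aeval y (X i - 1 : MvPolynomial ι ℤ) = 0 := hf 0
    rw [map_sub, aeval_X, map_one] at h
    linear_combination h
  have hv1 : ws p a y = 0 := by
    have h1 : aeval y (ws p a (fun l => X l) : MvPolynomial ι ℤ) = 0 := hf 1
    rw [ev_ws y (fun l => l)] at h1
    exact h1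
  have d0 : ∀ l, l ≠ i → aeval y (pderiv l (famT0 p a i 0)) = 0 := by
    intro l hl
    show dv y l (X i - 1) = 0
    rw [dv_sub, dv_one, dv_X_of_ne y hl.symm, sub_zero]
  have d1 : ∀ l, aeval y (pderiv l (famT0 p a i 1)) = a l * (p * y l ^ (p - 1)) := by
    intro l
    show dv y l (ws p a (fun l => X l)) = _
    exact dv_ws y (fun l : ι => l) (fun _ _ h => h) p a l
  obtain ⟨l, hl, hne⟩ : ∃ l, l ≠ i ∧ (a l : k) * y l ≠ 0 := by
    by_contra hcon
    push Not at hcon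
    rw [ws, Finset.sum_eq_single i] at hv1
    · rw [hv0, one_pow, mul_one] at hv1
      exact hai hv1
    · intro l _ hl
      rcases mul_eq_zero.mp (hcon l hl) with h | h
      · rw [h, zero_mul]
      · rw [h, zero_pow hp.ne_zero, mul_zero]
    · intro h; exact absurd (Finset.mem_univ _) h
  have hne' : (a l : k) * (p * y l ^ (p - 1)) ≠ 0 :=
    mul_ne_zero (left_ne_zero_of_mul hne)
      (mul_ne_zero hpk (pow_ne_zero _ (right_ne_zero_of_mul hne)))
  refine indepAt_of_linear y _ hf 1 ?_ (Or.inl ⟨l, by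
    show aeval y (pderiv l (famT0 p a i 1)) ≠ 0
    rw [d1]; exact hne'⟩)
  intro A hA m hm
  have hm0 : m = 0 := by
    fin_cases m
    · rfl
    · exact absurd rfl hm
  subst hm0
  have h1 := hA l
  rw [Fin.sum_univ_two, d0 l hl, d1] at h1
  have hA1 : A 1 = 0 := by
    have : A 1 * (a l * (p * y l ^ (p - 1))) = 0 := by linear_combination h1
    exact (mul_eq_zero.mp this).resolve_right hne'
  have h2 := hA i
  have h3 : aeval y (pderiv i (famT0 p a i 0)) = 1 := by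
    show dv y i (X i - 1) = 1
    rw [dv_sub, dv_one, dv_X_self, sub_zero]
  rw [Fin.sum_univ_two, h3, hA1] at h2
  linear_combination h2

/-- Relations at a tame prime `q`, `m < p`. -/
noncomputable def famQ1 (p q m : ℕ) (a₀ b₁ : ι → ℤ) (i j₀ : ι) :
    Fin 4 → MvPolynomial (ι ⊕ Fin 2) ℤ :=
  ![X (Sum.inl i) - 1, X (Sum.inl j₀) - 1,
    ws p b₁ (fun l => X (Sum.inl l)) + (X (Sum.inr 0) * X (Sum.inr 1)) ^ (p - 1 - m) *
      (X (Sum.inr 1) * ws p a₀ (fun l => X (Sum.inl l))),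
    -(X (Sum.inr 0) * (X (Sum.inr 0) * X (Sum.inr 1)) ^ m) + (q : MvPolynomial (ι ⊕ Fin 2) ℤ)]

/-- Relations at a tame prime `q`, last region. -/
noncomputable def famQ2 (p q : ℕ) (a₀ b₁ : ι → ℤ) (i j₀ : ι) :
    Fin 4 → MvPolynomial (ι ⊕ Fin 2) ℤ :=
  ![X (Sum.inl i) - 1, X (Sum.inl j₀) - 1,
    X (Sum.inr 1) * ws p b₁ (fun l => X (Sum.inl l)) + ws p a₀ (fun l => X (Sum.inl l)),
    -(X (Sum.inr 0) ^ p * X (Sum.inr 1)) + (q : MvPolynomial (ι ⊕ Fin 2) ℤ)]

theorem indep_Q1 {p q m : ℕ} (hp : p.Prime) (hq : q.Prime)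
    (a₀ b₁ : ι → ℤ) {i j₀ : ι} (hij : j₀ ≠ i) (hpk : (p : k) ≠ 0) (hqk : (q : k) = 0)
    (ha : ∀ l, b₁ l ≠ 0 → a₀ l = 0) (hb : ∀ l, b₁ l ≠ 0 → (b₁ l : k) ≠ 0) (hbi : b₁ i ≠ 0)
    (hbj : b₁ j₀ = 0)
    (y : ι ⊕ Fin 2 → k) (hE : y (Sum.inr 0) * y (Sum.inr 1) = 0)
    (hf : ∀ n, aeval y (famQ1 p q m a₀ b₁ i j₀ n) = 0) :
    IndepAt (famQ1 p q m a₀ b₁ i j₀)
      (RingHom.ker (aeval y : MvPolynomial (ι ⊕ Fin 2) ℤ →ₐ[ℤ] k)) := by
  classical
  have hv0 : y (Sum.inl i) = 1 := by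
    have h1 : aeval y (X (Sum.inl i) - 1 : MvPolynomial (ι ⊕ Fin 2) ℤ) = 0 := hf 0
    rw [map_sub, aeval_X, map_one] at h1
    linear_combination h1
  set B := ws p b₁ (fun l => y (Sum.inl l)) with hB
  set A' := ws p a₀ (fun l => y (Sum.inl l)) with hA'
  have hv2 : B + (y (Sum.inr 0) * y (Sum.inr 1)) ^ (p - 1 - m) * (y (Sum.inr 1) * A') = 0 := by
    have h1 : aeval y (ws p b₁ (fun l => X (Sum.inl l)) +
      (X (Sum.inr 0) * X (Sum.inr 1)) ^ (p - 1 - m) *
      (X (Sum.inr 1) * ws p a₀ (fun l => X (Sum.inl l))) : MvPolynomial (ι ⊕ Fin 2) ℤ) = 0 := hf 2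
    rw [map_add, map_mul, map_pow, map_mul, map_mul, aeval_X, aeval_X, ev_ws y Sum.inl,
      ev_ws y Sum.inl] at h1
    exact h1
  have hd2l : ∀ l, dv y (Sum.inl l) (ws p b₁ (fun l => X (Sum.inl l)) +
      (X (Sum.inr 0) * X (Sum.inr 1)) ^ (p - 1 - m) *
      (X (Sum.inr 1) * ws p a₀ (fun l => X (Sum.inl l))) : MvPolynomial (ι ⊕ Fin 2) ℤ) =
      b₁ l * (p * y (Sum.inl l) ^ (p - 1)) +
        (y (Sum.inr 0) * y (Sum.inr 1)) ^ (p - 1 - m) * (y (Sum.inr 1) *
          (a₀ l * (p * y (Sum.inl l) ^ (p - 1)))) := by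
    intro l
    rw [dv_add, dv_ws y (Sum.inl : ι → ι ⊕ Fin 2) Sum.inl_injective, dv_mul, dv_mul,
      dv_ws y (Sum.inl : ι → ι ⊕ Fin 2) Sum.inl_injective, dv_pow, dv_mul,
      dv_X_of_ne y (by simp), dv_X_of_ne y (by simp), map_pow, map_mul, aeval_X, aeval_X]
    ring
  have hd2r : dv y (Sum.inr 1) (ws p b₁ (fun l => X (Sum.inl l)) +
      (X (Sum.inr 0) * X (Sum.inr 1)) ^ (p - 1 - m) *
      (X (Sum.inr 1) * ws p a₀ (fun l => X (Sum.inl l))) : MvPolynomial (ι ⊕ Fin 2) ℤ) =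
      (y (Sum.inr 0) * y (Sum.inr 1)) ^ (p - 1 - m) * A' +
        y (Sum.inr 1) * A' * (((p - 1 - m : ℕ) : k) *
          (y (Sum.inr 0) * y (Sum.inr 1)) ^ (p - 1 - m - 1) * y (Sum.inr 0)) := by
    rw [dv_add, dv_ws_of_ne y (Sum.inl : ι → ι ⊕ Fin 2) _ _ _ (by simp), dv_mul, dv_mul,
      dv_ws_of_ne y (Sum.inl : ι → ι ⊕ Fin 2) _ _ _ (by simp), dv_pow, dv_mul,
      dv_X_self, dv_X_of_ne y (by simp), map_pow, map_mul, map_mul, aeval_X, aeval_X,
      ev_ws y Sum.inl]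
    ring
  have hd3l : ∀ l, dv y (Sum.inl l) (-(X (Sum.inr 0) * (X (Sum.inr 0) * X (Sum.inr 1)) ^ m) +
      (q : MvPolynomial (ι ⊕ Fin 2) ℤ)) = 0 := by
    intro l
    rw [dv_add, dv_neg, dv_mul, dv_pow, dv_mul, dv_natCast, dv_X_of_ne y (by simp),
      dv_X_of_ne y (by simp)]
    ring
  have hd3r : dv y (Sum.inr 1) (-(X (Sum.inr 0) * (X (Sum.inr 0) * X (Sum.inr 1)) ^ m) +
      (q : MvPolynomial (ι ⊕ Fin 2) ℤ)) =
      -(y (Sum.inr 0) * (m * (y (Sum.inr 0) * y (Sum.inr 1)) ^ (m - 1) * y (Sum.inr 0))) := by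
    rw [dv_add, dv_neg, dv_mul, dv_pow, dv_mul, dv_natCast, dv_X_self, dv_X_of_ne y (by simp),
      map_mul, aeval_X, aeval_X]
    ring
  have e0 : ∀ l, l ≠ i → dv y (Sum.inl l) (X (Sum.inl i) - 1) = 0 := fun l hl => by
    rw [dv_sub, dv_one, dv_X_of_ne y (fun h => hl (Sum.inl_injective h).symm), sub_zero]
  have e1 : ∀ l, l ≠ j₀ → dv y (Sum.inl l) (X (Sum.inl j₀) - 1) = 0 := fun l hl => by
    rw [dv_sub, dv_one, dv_X_of_ne y (fun h => hl (Sum.inl_injective h).symm), sub_zero]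
  refine indepAt_of_linear y _ hf 3 ?_ ?_
  · intro A hA
    have hsum : ∀ d, A 0 * dv y d (X (Sum.inl i) - 1) + A 1 * dv y d (X (Sum.inl j₀) - 1) +
        A 2 * dv y d (ws p b₁ (fun l => X (Sum.inl l)) +
          (X (Sum.inr 0) * X (Sum.inr 1)) ^ (p - 1 - m) *
          (X (Sum.inr 1) * ws p a₀ (fun l => X (Sum.inl l))) : MvPolynomial (ι ⊕ Fin 2) ℤ) +
        A 3 * dv y d (-(X (Sum.inr 0) * (X (Sum.inr 0) * X (Sum.inr 1)) ^ m) +
          (q : MvPolynomial (ι ⊕ Fin 2) ℤ)) = 0 := by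
      intro d
      have h1 := hA d
      rw [Fin.sum_univ_four] at h1
      exact h1
    have hA2 : A 2 = 0 := by
      by_contra hA2
      have hyl : ∀ l, l ≠ i → b₁ l ≠ 0 → y (Sum.inl l) = 0 := by
        intro l hl hbl
        have hlj : l ≠ j₀ := by rintro rfl; exact hbl hbj
        have h1 := hsum (Sum.inl l)
        rw [e0 l hl, e1 l hlj, hd2l, hd3l, ha l hbl] at h1
        have h2 : A 2 * (b₁ l * (p * y (Sum.inl l) ^ (p - 1))) = 0 := by
          push_cast at h1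
          linear_combination h1
        have h3 := (mul_eq_zero.mp h2).resolve_left hA2
        have h4 := (mul_eq_zero.mp h3).resolve_left (hb l hbl)
        have h5 := (mul_eq_zero.mp h4).resolve_left hpk
        exact eq_zero_of_pow_eq_zero h5
      have hBi : B = b₁ i := by
        rw [hB, ws, Finset.sum_eq_single i]
        · rw [hv0, one_pow, mul_one]
        · intro l _ hl
          by_cases hbl : b₁ l = 0
          · rw [hbl]; simp
          · rw [hyl l hl hbl, zero_pow hp.ne_zero, mul_zero]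
        · intro h; exact absurd (Finset.mem_univ _) h
      have hBne : B ≠ 0 := by rw [hBi]; exact hb i hbi
      have hN : p - 1 - m = 0 := by
        by_contra hN
        rw [hE, zero_pow hN, zero_mul, add_zero] at hv2
        exact hBne hv2
      rw [hN, pow_zero, one_mul] at hv2
      have hne : y (Sum.inr 1) * A' ≠ 0 := by
        intro h
        rw [h, add_zero] at hv2
        exact hBne hv2
      have hy0 : y (Sum.inr 0) = 0 := (mul_eq_zero.mp hE).resolve_right (left_ne_zero_of_mul hne)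
      have h1 := hsum (Sum.inr 1)
      rw [hd2r, hd3r, hN, hy0, dv_sub, dv_one, dv_X_of_ne y (by simp), dv_sub, dv_one,
        dv_X_of_ne y (by simp)] at h1
      have h2 : A 2 * A' = 0 := by
        simp only [pow_zero] at h1
        push_cast at h1
        linear_combination h1
      exact (right_ne_zero_of_mul hne) ((mul_eq_zero.mp h2).resolve_left hA2)
    have hA0 : A 0 = 0 := by
      have h1 := hsum (Sum.inl i)
      rw [e1 i hij.symm, hA2, hd3l, dv_sub, dv_one, dv_X_self] at h1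
      linear_combination h1
    have hA1 : A 1 = 0 := by
      have h1 := hsum (Sum.inl j₀)
      rw [e0 j₀ hij, hA2, hd3l, dv_sub, dv_one, dv_X_self] at h1
      linear_combination h1
    intro n hn
    fin_cases n
    · exact hA0
    · exact hA1
    · exact hA2
    · exact absurd rfl hn
  · have hr : famQ1 p q m a₀ b₁ i j₀ 3 = -(X (Sum.inr 0) * (X (Sum.inr 0) * X (Sum.inr 1)) ^ m) +
      (q : MvPolynomial (ι ⊕ Fin 2) ℤ) := rfl
    rw [hr]
    have hEv : aeval y (X (Sum.inr 0) * X (Sum.inr 1) : MvPolynomial (ι ⊕ Fin 2) ℤ) = 0 := by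
      rw [map_mul, aeval_X, aeval_X, hE]
    rcases Nat.eq_zero_or_pos m with hm0 | hm0
    · left
      refine ⟨Sum.inr 0, ?_⟩
      rw [dv_def, hm0, dv_add, dv_neg, dv_natCast, pow_zero, mul_one, dv_X_self]
      simp
    · rcases Nat.lt_or_ge 1 m with hm2 | hm2
      · right
        refine ⟨q, 1, -(X (Sum.inr 0) * (X (Sum.inr 0) * X (Sum.inr 1)) ^ m), hq, hqk, by simp,
          by ring, ?_⟩
        exact Ideal.neg_mem_iff _ |>.mpr (Ideal.mul_mem_left _ _
          (Ideal.pow_le_pow_right hm2 (Ideal.pow_mem_pow hEv _)))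
      · have hm1 : m = 1 := by omega
        by_cases h0 : y (Sum.inr 0) = 0
        · right
          refine ⟨q, 1, -(X (Sum.inr 0) * (X (Sum.inr 0) * X (Sum.inr 1)) ^ m), hq, hqk, by simp,
            by ring, ?_⟩
          have h1 : (X (Sum.inr 0) * (X (Sum.inr 0) * X (Sum.inr 1)) ^ m :
            MvPolynomial (ι ⊕ Fin 2) ℤ) = X (Sum.inr 0) ^ 2 * X (Sum.inr 1) := by
            rw [hm1]; ring
          rw [h1]
          refine Ideal.neg_mem_iff _ |>.mpr (Ideal.mul_mem_right _ _ (Ideal.pow_mem_pow ?_ 2))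
          show aeval y (X (Sum.inr 0)) = 0
          rw [aeval_X, h0]
        · left
          refine ⟨Sum.inr 1, ?_⟩
          rw [dv_def, hd3r, hm1]
          simp only [Nat.cast_one, Nat.sub_self, pow_zero, one_mul]
          exact neg_ne_zero.mpr (mul_ne_zero h0 h0)

theorem indep_Q2 {p q : ℕ} (hp : p.Prime) (hq : q.Prime)
    (a₀ b₁ : ι → ℤ) {i j₀ : ι} (hij : j₀ ≠ i) (hpk : (p : k) ≠ 0) (hqk : (q : k) = 0)
    (ha : ∀ l, a₀ l ≠ 0 → b₁ l = 0) (ha' : ∀ l, a₀ l ≠ 0 → (a₀ l : k) ≠ 0) (haj : a₀ j₀ ≠ 0)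
    (hai : a₀ i = 0)
    (y : ι ⊕ Fin 2 → k) (hE : y (Sum.inr 0) = 0)
    (hf : ∀ n, aeval y (famQ2 p q a₀ b₁ i j₀ n) = 0) :
    IndepAt (famQ2 p q a₀ b₁ i j₀)
      (RingHom.ker (aeval y : MvPolynomial (ι ⊕ Fin 2) ℤ →ₐ[ℤ] k)) := by
  classical
  have hv0 : y (Sum.inl j₀) = 1 := by
    have h1 : aeval y (X (Sum.inl j₀) - 1 : MvPolynomial (ι ⊕ Fin 2) ℤ) = 0 := hf 1
    rw [map_sub, aeval_X, map_one] at h1
    linear_combination h1
  set B := ws p b₁ (fun l => y (Sum.inl l)) with hB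
  set A' := ws p a₀ (fun l => y (Sum.inl l)) with hA'
  have hv2 : y (Sum.inr 1) * B + A' = 0 := by
    have h1 : aeval y (X (Sum.inr 1) * ws p b₁ (fun l => X (Sum.inl l)) +
      ws p a₀ (fun l => X (Sum.inl l)) : MvPolynomial (ι ⊕ Fin 2) ℤ) = 0 := hf 2
    rw [map_add, map_mul, aeval_X, ev_ws y Sum.inl, ev_ws y Sum.inl] at h1
    exact h1
  have hd2l : ∀ l, dv y (Sum.inl l) (X (Sum.inr 1) * ws p b₁ (fun l => X (Sum.inl l)) +
      ws p a₀ (fun l => X (Sum.inl l)) : MvPolynomial (ι ⊕ Fin 2) ℤ) =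
      y (Sum.inr 1) * (b₁ l * (p * y (Sum.inl l) ^ (p - 1))) +
        a₀ l * (p * y (Sum.inl l) ^ (p - 1)) := by
    intro l
    rw [dv_add, dv_mul, dv_ws y (Sum.inl : ι → ι ⊕ Fin 2) Sum.inl_injective,
      dv_ws y (Sum.inl : ι → ι ⊕ Fin 2) Sum.inl_injective,
      dv_X_of_ne y (by simp), aeval_X]
    ring
  have hd2r : dv y (Sum.inr 1) (X (Sum.inr 1) * ws p b₁ (fun l => X (Sum.inl l)) +
      ws p a₀ (fun l => X (Sum.inl l)) : MvPolynomial (ι ⊕ Fin 2) ℤ) = B := by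
    rw [dv_add, dv_mul, dv_ws_of_ne y (Sum.inl : ι → ι ⊕ Fin 2) _ _ _ (by simp),
      dv_ws_of_ne y (Sum.inl : ι → ι ⊕ Fin 2) _ _ _ (by simp), dv_X_self, ev_ws y Sum.inl]
    ring
  have hd3 : ∀ d, dv y d (-(X (Sum.inr 0) ^ p * X (Sum.inr 1)) +
      (q : MvPolynomial (ι ⊕ Fin 2) ℤ)) = 0 := by
    intro d
    have h1 : p - 1 ≠ 0 := by have := hp.two_le; omega
    rw [dv_add, dv_neg, dv_mul, dv_pow, dv_natCast, map_pow, aeval_X, hE, zero_pow hp.ne_zero,
      zero_pow h1]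
    ring
  have e0 : ∀ l, l ≠ i → dv y (Sum.inl l) (X (Sum.inl i) - 1) = 0 := fun l hl => by
    rw [dv_sub, dv_one, dv_X_of_ne y (fun h => hl (Sum.inl_injective h).symm), sub_zero]
  have e1 : ∀ l, l ≠ j₀ → dv y (Sum.inl l) (X (Sum.inl j₀) - 1) = 0 := fun l hl => by
    rw [dv_sub, dv_one, dv_X_of_ne y (fun h => hl (Sum.inl_injective h).symm), sub_zero]
  refine indepAt_of_linear y _ hf 3 ?_ ?_
  · intro A hA
    have hsum : ∀ d, A 0 * dv y d (X (Sum.inl i) - 1) + A 1 * dv y d (X (Sum.inl j₀) - 1) +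
        A 2 * dv y d (X (Sum.inr 1) * ws p b₁ (fun l => X (Sum.inl l)) +
          ws p a₀ (fun l => X (Sum.inl l)) : MvPolynomial (ι ⊕ Fin 2) ℤ) = 0 := by
      intro d
      have h1 := hA d
      rw [Fin.sum_univ_four] at h1
      have h2 : aeval y (pderiv d (famQ2 p q a₀ b₁ i j₀ 3)) = 0 := hd3 d
      rw [h2, mul_zero, add_zero] at h1
      exact h1
    have hA2 : A 2 = 0 := by
      by_contra hA2
      have hyl : ∀ l, l ≠ j₀ → a₀ l ≠ 0 → y (Sum.inl l) = 0 := by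
        intro l hl hal
        have hli : l ≠ i := by rintro rfl; exact hal hai
        have h1 := hsum (Sum.inl l)
        rw [e0 l hli, e1 l hl, hd2l, ha l hal] at h1
        have h2 : A 2 * (a₀ l * (p * y (Sum.inl l) ^ (p - 1))) = 0 := by
          push_cast at h1
          linear_combination h1
        have h3 := (mul_eq_zero.mp h2).resolve_left hA2
        have h4 := (mul_eq_zero.mp h3).resolve_left (ha' l hal)
        have h5 := (mul_eq_zero.mp h4).resolve_left hpk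
        exact eq_zero_of_pow_eq_zero h5
      have hAj : A' = a₀ j₀ := by
        rw [hA', ws, Finset.sum_eq_single j₀]
        · rw [hv0, one_pow, mul_one]
        · intro l _ hl
          by_cases hal : a₀ l = 0
          · rw [hal]; simp
          · rw [hyl l hl hal, zero_pow hp.ne_zero, mul_zero]
        · intro h; exact absurd (Finset.mem_univ _) h
      have h1 := hsum (Sum.inr 1)
      rw [hd2r, dv_sub, dv_one, dv_X_of_ne y (by simp), dv_sub, dv_one,
        dv_X_of_ne y (by simp)] at h1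
      have h2 : A 2 * B = 0 := by linear_combination h1
      have h3 := (mul_eq_zero.mp h2).resolve_left hA2
      rw [h3, mul_zero, zero_add, hAj] at hv2
      exact ha' j₀ haj hv2
    have hA0 : A 0 = 0 := by
      have h1 := hsum (Sum.inl i)
      rw [e1 i hij.symm, hA2, dv_sub, dv_one, dv_X_self] at h1
      linear_combination h1
    have hA1 : A 1 = 0 := by
      have h1 := hsum (Sum.inl j₀)
      rw [e0 j₀ hij, hA2, dv_sub, dv_one, dv_X_self] at h1
      linear_combination h1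
    intro n hn
    fin_cases n
    · exact hA0
    · exact hA1
    · exact hA2
    · exact absurd rfl hn
  · right
    refine ⟨q, 1, -(X (Sum.inr 0) ^ p * X (Sum.inr 1)), hq, hqk, by simp, ?_, ?_⟩
    · show -(X (Sum.inr 0) ^ p * X (Sum.inr 1)) + (q : MvPolynomial (ι ⊕ Fin 2) ℤ) = _
      ring
    · refine Ideal.neg_mem_iff _ |>.mpr (Ideal.mul_mem_right _ _
        (Ideal.pow_le_pow_right hp.two_le (Ideal.pow_mem_pow ?_ _)))
      show aeval y (X (Sum.inr 0)) = 0
      rw [aeval_X, hE]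

end Indep

end Pool.Agent.H96.Diag
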