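import Pool.Agent.H96.DQ

/-!
# The charts at the tame primes
-/

set_option autoImplicit false
set_option linter.unusedSectionVars false

namespace Pool.Agent.H96.Diag

open MvPolynomial Pool.Agent.H96.VL Pool.Agent.H96.Reg
open scoped Pointwise

variable {K : Type} [Field K] [CharZero K] [DecidableEq K] {ι : Type} [Fintype ι] [DecidableEq ι]
variable {V : ValuationSubring K} {R : Subring K}

/-- The coordinates whose coefficient is prime to `q`. -/
def XQ (a : ι → ℤ) (x : ι → K) (q : ℕ) : Finset K :=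
  (Finset.univ.filter fun j => ¬ (q : ℤ) ∣ a j).image x

/-- The ideal `(q) + (x_j : q ∤ a_j)^k`. -/
def Sq (a : ι → ℤ) (x : ι → K) (q k : ℕ) : Finset K := {(q : K)} * X0 x ^ k ∪ XQ a x q ^ k

def TQ (p : ℕ) (a : ι → ℤ) (x : ι → K) (𝒬 : Finset ℕ) : Finset K :=
  ∏ q ∈ 𝒬, ∏ k ∈ Finset.Icc 1 p, Sq a x q k

def TotQ (p : ℕ) (a : ι → ℤ) (x : ι → K) (𝒱 : Finset (ι → ℤ)) (𝒬 : Finset ℕ) : Finset K :=
  Tot p a x 𝒱 * TQ p a x 𝒬

variable {p : ℕ} {a : ι → ℤ} {x : ι → K} {𝒱 : Finset (ι → ℤ)} {𝒬 : Finset ℕ} {i : ι}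

theorem XQ_subset (q : ℕ) : XQ a x q ⊆ X0 x := by
  intro g hg
  obtain ⟨j, _, rfl⟩ := Finset.mem_image.mp hg
  exact Finset.mem_image_of_mem _ (Finset.mem_univ j)

theorem mem_XQ {q : ℕ} {j : ι} (h : ¬ (q : ℤ) ∣ a j) : x j ∈ XQ a x q :=
  Finset.mem_image_of_mem _ (Finset.mem_filter.mpr ⟨Finset.mem_univ _, h⟩)

theorem XQ_cases {q : ℕ} {g : K} (hg : g ∈ XQ a x q) : ∃ j, ¬ (q : ℤ) ∣ a j ∧ g = x j := by
  obtain ⟨j, hj, rfl⟩ := Finset.mem_image.mp hg
  exact ⟨j, (Finset.mem_filter.mp hj).2, rfl⟩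

theorem prin_Sq_unit (hR : VLocal V R) {t : K} (hX : Gen R (X0 x) t) {q : ℕ}
    (hq : V.valuation (q : K) = 1) (k : ℕ) : Prin R (Sq a x q k) := by
  have hq0 : (q : K) ≠ 0 := by
    intro h; rw [h, map_zero] at hq; exact zero_ne_one hq
  have h1 : Gen R ({(q : K)} * X0 x ^ k) (q * t ^ k) := (Gen.singleton hq0).mul (hX.pow k)
  refine ⟨_, h1.union_right ?_⟩
  intro g hg
  have hg' : g ∈ X0 x ^ k := Finset.pow_subset_pow_left (XQ_subset q) hg
  have ht := hX.ne
  have htk := pow_ne_zero k ht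
  have h2 : g / (q * t ^ k) = (g / t ^ k) / q := by field_simp
  rw [h2]
  exact hR.div_mem ((hX.pow k).mem g hg') (natCast_mem R q) hq

/-- Reduction to the system `Tot` if all the `q` are units. -/
theorem good_TotQ_of_good (hq : ∀ q ∈ 𝒬, V.valuation (q : K) = 1)
    (hi : ∀ j, V.valuation (x j) ≤ V.valuation (x i)) (hx : ∀ j, x j ≠ 0)
    (h : Good V (Tot p a x 𝒱)) : Good V (TotQ p a x 𝒱 𝒬) := by
  obtain ⟨R, hR, hP, hmin, hreg⟩ := h
  have key : ∀ {R : Subring K}, VLocal V R → Prin R (Tot p a x 𝒱) → Prin R (TotQ p a x 𝒱 𝒬) := by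
    intro R hR hP
    rw [TotQ, prin_mul_iff]
    refine ⟨hP, ?_⟩
    rw [TQ, prin_prod_iff]
    intro q hq'
    rw [prin_prod_iff]
    intro k _
    have hPX : Prin R (X0 x) := by
      rw [Tot] at hP
      exact hP.of_mul_left
    have hX := gen_X0 hR (hx i) rfl (div_mem_of_prin_X0 hR hi hPX)
    exact prin_Sq_unit hR hX (hq q hq') k
  refine ⟨R, hR, key hR hP, fun R' hR' hP' => hmin R' hR' ?_, hreg⟩
  rw [TotQ, prin_mul_iff] at hP'
  exact hP'.1

/-- Hypotheses at a tame prime `q`. -/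
structure QCtr (V : ValuationSubring K) (p : ℕ) (a : ι → ℤ) (x : ι → K) (𝒬 : Finset ℕ) (i : ι)
    (q : ℕ) : Prop where
  hB : Base p a x
  hi : ∀ j, V.valuation (x j) ≤ V.valuation (x i)
  hv : V.valuation (p : K) = 1
  hqp : q.Prime
  hq : q ∈ 𝒬
  hqv : V.valuation (q : K) < 1
  hq' : ∀ q' ∈ 𝒬, q' ≠ q → V.valuation (q' : K) = 1
  ha0 : ∀ j, a j ≠ 0
  hsq : ∀ j, Squarefree (a j)

variable {q : ℕ}

theorem val_eq_one_of_not_dvd {q : ℕ} (hq : q.Prime) (hqv : V.valuation (q : K) < 1) {n : ℤ}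
    (hn : ¬ (q : ℤ) ∣ n) : V.valuation (n : K) = 1 := by
  by_contra hne
  have hlt : V.valuation (n : K) < 1 := lt_of_le_of_ne (val_intCast_le V _) hne
  have hcop : IsCoprime n (q : ℤ) :=
    (Int.isCoprime_iff_gcd_eq_one.mpr (by
      rw [Int.gcd_comm]
      exact Int.isCoprime_iff_gcd_eq_one.mp
        ((Prime.coprime_iff_not_dvd (Nat.prime_iff_prime_int.mp hq)).mpr hn)))
  obtain ⟨u, v, huv⟩ := hcop
  have h1 : (u : K) * (n : K) + v * (q : K) = 1 := by
    have := congrArg (Int.cast : ℤ → K) huv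
    push_cast at this
    exact this
  have h2 : V.valuation ((u : K) * (n : K) + v * (q : K)) < 1 := by
    apply V.valuation.map_add_lt
    · rw [map_mul]
      exact (mul_le_mul' (val_intCast_le V u) le_rfl).trans_lt (by rwa [one_mul])
    · rw [map_mul]
      exact (mul_le_mul' (val_intCast_le V v) le_rfl).trans_lt (by rwa [one_mul])
  rw [h1, map_one] at h2
  exact lt_irrefl _ h2

theorem cast_ne_of_not_dvd {q : ℕ} (hq : q.Prime) (hqv : V.valuation (q : K) < 1) {n : ℤ}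
    (hn : ¬ (q : ℤ) ∣ n) : (n : IsLocalRing.ResidueField V) ≠ 0 := by
  rw [← resv_intCast, resv_ne_zero_iff (val_intCast_le V _)]
  exact val_eq_one_of_not_dvd hq hqv hn

theorem QCtr.prin_Tot (h : QCtr V p a x 𝒬 i q) (hR : VLocal V R) (hXR : ∀ j, x j / x i ∈ R) :
    Prin R (Tot p a x 𝒱) := by
  have hother : ∀ c' ∈ 𝒱, ∃ g ∈ mS p x c', V.valuation (x i) ≤ V.valuation g := fun c' _ =>
    ⟨_, mem_mS_p h.hB.hp.ne_zero h.hB.hx c' i, by rw [map_mul, h.hv, one_mul]⟩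
  rw [uncentred_iff h.hB.hp h.hB.hx h.hB.hF h.hB.hl h.hi hother hR]
  exact ⟨hXR, fun j _ => Or.inr (hR.div_mem (R.pow_mem (lam_mem hXR) j) (natCast_mem R p) h.hv)⟩

theorem QCtr.q0 (h : QCtr V p a x 𝒬 i q) : (q : K) ≠ 0 := by exact_mod_cast h.hqp.ne_zero

theorem QCtr.prin_iff (h : QCtr V p a x 𝒬 i q) (hR : VLocal V R) :
    Prin R (TotQ p a x 𝒱 𝒬) ↔ (∀ j, x j / x i ∈ R) ∧
      ∀ k ∈ Finset.Icc 1 p, Prin R (Sq a x q k) := by
  constructor
  · intro hP
    rw [TotQ, prin_mul_iff] at hP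
    obtain ⟨hP1, hP2⟩ := hP
    have hPX : Prin R (X0 x) := by
      rw [Tot] at hP1
      exact hP1.of_mul_left
    rw [TQ, prin_prod_iff] at hP2
    exact ⟨div_mem_of_prin_X0 hR h.hi hPX, (prin_prod_iff _).mp (hP2 q h.hq)⟩
  · rintro ⟨hXR, hS⟩
    rw [TotQ, prin_mul_iff]
    refine ⟨h.prin_Tot hR hXR, ?_⟩
    rw [TQ, prin_prod_iff]
    intro q' hq'
    by_cases hqq : q' = q
    · subst hqq
      exact (prin_prod_iff _).mpr hS
    · rw [prin_prod_iff]
      intro k _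
      exact prin_Sq_unit hR (gen_X0 hR (h.hB.hx i) rfl hXR) (h.hq' q' hq' hqq) k

/-- Some coordinate with coefficient prime to `q` generates. -/
theorem QCtr.good_A (h : QCtr V p a x 𝒬 i q) (hai : ¬ (q : ℤ) ∣ a i) :
    Good V (TotQ p a x 𝒱 𝒬) := by
  have hB := h.hB
  refine good_of_relations V _ (fun j => x j / x i) (val_X_le hB.hx h.hi) ?_ (famT0 p a i) ?_ ?_ ?_
    ?_ ?_
  · exact hB.closure_eq (hB.hx i) fun j => Subfield.subset_closure ⟨j, rfl⟩
  · intro k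
    fin_cases k
    · show aeval _ (X i - 1) = 0
      rw [map_sub, aeval_X, map_one, div_self (hB.hx i), sub_self]
    · show aeval _ (ws p a (fun l => X l)) = 0
      rw [ev_ws _ (fun l => l), ws_div, hB.hF, zero_div]
  · simpa using hB.htr
  · exact fun hf => indep_T0c hB.hp a (cast_p_ne_zero h.hv)
      (cast_ne_of_not_dvd h.hqp h.hqv hai) _ hf
  · intro R hR hz
    rw [h.prin_iff hR]
    refine ⟨hz, fun k _ => ?_⟩
    have hX := gen_X0 hR (hB.hx i) rfl hz
    have hXQ : Gen R (XQ a x q) (x i) := by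
      refine ⟨hB.hx i, fun g hg => ?_, x i, mem_XQ hai, ?_, hB.hx i⟩
      · obtain ⟨j, _, rfl⟩ := XQ_cases hg
        exact hz j
      · rw [div_self (hB.hx i)]; exact R.one_mem
    refine ⟨_, (hXQ.pow k).union_left ?_⟩
    intro g hg
    obtain ⟨b, hb, d, hd, rfl⟩ := Finset.mem_mul.mp hg
    rw [Finset.mem_singleton] at hb
    rw [hb, mul_div_assoc]
    exact R.mul_mem (natCast_mem R q) ((hX.pow k).mem d hd)
  · intro R' hR' hP j
    exact ((h.prin_iff hR').mp hP).1 j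

/-- The coefficients prime to `q`. -/
def a0 (a : ι → ℤ) (q : ℕ) (j : ι) : ℤ := if (q : ℤ) ∣ a j then 0 else a j

/-- The other coefficients, divided by `q`. -/
def b1 (a : ι → ℤ) (q : ℕ) (j : ι) : ℤ := if (q : ℤ) ∣ a j then a j / q else 0

theorem a0_ne {j : ι} (h : a0 a q j ≠ 0) : ¬ (q : ℤ) ∣ a j := by
  intro h'; apply h; rw [a0, if_pos h']

theorem b1_ne {j : ι} (h : b1 a q j ≠ 0) : (q : ℤ) ∣ a j := by
  by_contra h'; apply h; rw [b1, if_neg h']

theorem a0_eq {j : ι} (h : ¬ (q : ℤ) ∣ a j) : a0 a q j = a j := by rw [a0, if_neg h]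

theorem a0_eq' {j : ι} (h : (q : ℤ) ∣ a j) : a0 a q j = 0 := by rw [a0, if_pos h]

theorem b1_eq {j : ι} (h : (q : ℤ) ∣ a j) : (q : ℤ) * b1 a q j = a j := by
  rw [b1, if_pos h, Int.mul_ediv_cancel' h]

theorem b1_eq' {j : ι} (h : ¬ (q : ℤ) ∣ a j) : b1 a q j = 0 := by rw [b1, if_neg h]

theorem a_eq (j : ι) : a j = a0 a q j + (q : ℤ) * b1 a q j := by
  by_cases h : (q : ℤ) ∣ a j
  · rw [a0_eq' h, b1_eq h, zero_add]
  · rw [a0_eq h, b1_eq' h]; ring

theorem QCtr.b1_cast (h : QCtr V p a x 𝒬 i q) {j : ι} (hb : b1 a q j ≠ 0) :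
    (b1 a q j : IsLocalRing.ResidueField V) ≠ 0 := by
  apply cast_ne_of_not_dvd h.hqp h.hqv
  rintro ⟨c, hc⟩
  have h1 := b1_eq (b1_ne hb)
  rw [hc] at h1
  have h2 : (q : ℤ) * q ∣ a j := ⟨c, by rw [← h1]; ring⟩
  have h3 := h.hsq j _ h2
  have h4 : IsUnit q := by
    have := Int.isUnit_iff_natAbs_eq.mp h3
    simpa using this
  rw [Nat.isUnit_iff] at h4
  exact h.hqp.one_lt.ne' h4

theorem QCtr.split (h : QCtr V p a x 𝒬 i q) :
    ws p (a0 a q) x + q * ws p (b1 a q) x = 0 := by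
  rw [← h.hB.hF]
  simp only [ws, Finset.mul_sum, ← Finset.sum_add_distrib]
  refine Finset.sum_congr rfl fun j _ => ?_
  have h1 := congrArg (Int.cast : ℤ → K) (a_eq (a := a) (q := q) j)
  push_cast at h1
  rw [h1]; ring

open Classical in
/-- The vector of coordinates: `x_j / x_i` for `q ∣ a_j` and `x_j / s` for `q ∤ a_j`. -/
noncomputable def Wv (a : ι → ℤ) (x : ι → K) (q : ℕ) (i : ι) (s : K) (j : ι) : K :=
  if (q : ℤ) ∣ a j then x j / x i else x j / s

theorem Wv_pos {s : K} {j : ι} (h : (q : ℤ) ∣ a j) : Wv a x q i s j = x j / x i := by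
  rw [Wv, if_pos h]

theorem Wv_neg {s : K} {j : ι} (h : ¬ (q : ℤ) ∣ a j) : Wv a x q i s j = x j / s := by
  rw [Wv, if_neg h]

theorem ws_a0_Wv {s : K} : ws p (a0 a q) (Wv a x q i s) = ws p (a0 a q) x / s ^ p := by
  rw [← ws_div]
  refine Finset.sum_congr rfl fun j _ => ?_
  by_cases h : (q : ℤ) ∣ a j
  · rw [a0_eq' h]; simp
  · rw [Wv_neg h]

theorem ws_b1_Wv {s : K} : ws p (b1 a q) (Wv a x q i s) = ws p (b1 a q) x / x i ^ p := by
  rw [← ws_div]
  refine Finset.sum_congr rfl fun j _ => ?_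
  by_cases h : (q : ℤ) ∣ a j
  · rw [Wv_pos h]
  · rw [b1_eq' h]; simp

/-- The relation between the two parts. -/
theorem QCtr.rel (h : QCtr V p a x 𝒬 i q) {s e : K} (hs : s ≠ 0) (he : e = s / x i) :
    e ^ p * ws p (a0 a q) (Wv a x q i s) + q * ws p (b1 a q) (Wv a x q i s) = 0 := by
  rw [ws_a0_Wv, ws_b1_Wv, he]
  have hx := h.hB.hx i
  have h1 := h.split
  have h2 : x i ^ p ≠ 0 := pow_ne_zero _ hx
  have h3 : s ^ p ≠ 0 := pow_ne_zero _ hs
  rw [div_pow]
  field_simp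
  linear_combination h1

/-- The relations in region Q0. -/
noncomputable def famQ0 (p q : ℕ) (a₀ b₁ : ι → ℤ) (i : ι) : Fin 2 → MvPolynomial ι ℤ :=
  ![X i - 1, (q : MvPolynomial ι ℤ) ^ (p - 1) * ws p a₀ (fun l => X l) + ws p b₁ (fun l => X l)]

theorem indep_Q0 {k : Type} [Field k] {p q : ℕ} (hp : p.Prime)
    (a₀ b₁ : ι → ℤ) {i : ι} (hpk : (p : k) ≠ 0) (hqk : (q : k) = 0)
    (hb : ∀ l, b₁ l ≠ 0 → (b₁ l : k) ≠ 0) (hbi : b₁ i ≠ 0)
    (y : ι → k) (hf : ∀ n, aeval y (famQ0 p q a₀ b₁ i n) = 0) :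
    IndepAt (famQ0 p q a₀ b₁ i)
      (RingHom.ker (aeval y : MvPolynomial ι ℤ →ₐ[ℤ] k)) := by
  have hp1 : p - 1 ≠ 0 := by have := hp.two_le; omega
  have hv0 : y i = 1 := by
    have h : aeval y (X i - 1 : MvPolynomial ι ℤ) = 0 := hf 0
    rw [map_sub, aeval_X, map_one] at h
    linear_combination h
  have hv1 : ws p b₁ y = 0 := by
    have h1 : aeval y ((q : MvPolynomial ι ℤ) ^ (p - 1) * ws p a₀ (fun l => X l) +
      ws p b₁ (fun l => X l)) = 0 := hf 1
    rw [map_add, map_mul, map_pow, map_natCast, hqk, zero_pow hp1, zero_mul, zero_add,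
      ev_ws y (fun l => l)] at h1
    exact h1
  have d0 : ∀ l, l ≠ i → aeval y (pderiv l (famQ0 p q a₀ b₁ i 0)) = 0 := by
    intro l hl
    show dv y l (X i - 1) = 0
    rw [dv_sub, dv_one, dv_X_of_ne y hl.symm, sub_zero]
  have d1 : ∀ l, aeval y (pderiv l (famQ0 p q a₀ b₁ i 1)) = b₁ l * (p * y l ^ (p - 1)) := by
    intro l
    show dv y l ((q : MvPolynomial ι ℤ) ^ (p - 1) * ws p a₀ (fun l => X l) +
      ws p b₁ (fun l => X l)) = _
    rw [dv_add, dv_mul, dv_pow, dv_natCast, map_pow, map_natCast, hqk, zero_pow hp1,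
      dv_ws y (fun l : ι => l) (fun _ _ h => h) p b₁ l]
    ring
  obtain ⟨l, hl, hne⟩ : ∃ l, l ≠ i ∧ (b₁ l : k) * y l ≠ 0 := by
    by_contra hcon
    push Not at hcon
    rw [ws, Finset.sum_eq_single i] at hv1
    · rw [hv0, one_pow, mul_one] at hv1
      exact hb i hbi hv1
    · intro l _ hl
      rcases mul_eq_zero.mp (hcon l hl) with h | h
      · rw [h, zero_mul]
      · rw [h, zero_pow hp.ne_zero, mul_zero]
    · intro h; exact absurd (Finset.mem_univ _) h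
  have hne' : (b₁ l : k) * (p * y l ^ (p - 1)) ≠ 0 :=
    mul_ne_zero (left_ne_zero_of_mul hne)
      (mul_ne_zero hpk (pow_ne_zero _ (right_ne_zero_of_mul hne)))
  refine indepAt_of_linear y _ hf 1 ?_ (Or.inl ⟨l, by
    show aeval y (pderiv l (famQ0 p q a₀ b₁ i 1)) ≠ 0
    rw [d1]; exact hne'⟩)
  intro A hA m hm
  have hm0 : m = 0 := by
    fin_cases m
    · rfl
    · exact absurd rfl hm
  subst hm0
  have h1 := hA l
  rw [Fin.sum_univ_two, d0 l hl, d1] at h1
  have hA1 : A 1 = 0 := by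
    have : A 1 * (b₁ l * (p * y l ^ (p - 1))) = 0 := by linear_combination h1
    exact (mul_eq_zero.mp this).resolve_right hne'
  have h2 := hA i
  have h3 : aeval y (pderiv i (famQ0 p q a₀ b₁ i 0)) = 1 := by
    show dv y i (X i - 1) = 1
    rw [dv_sub, dv_one, dv_X_self, sub_zero]
  rw [Fin.sum_univ_two, h3, hA1] at h2
  linear_combination h2

/-- `q` generates. -/
theorem QCtr.good_0 (h : QCtr V p a x 𝒬 i q) (hai : (q : ℤ) ∣ a i)
    (hle : ∀ j, ¬ (q : ℤ) ∣ a j → V.valuation (x j) ≤ V.valuation (q * x i)) :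
    Good V (TotQ p a x 𝒱 𝒬) := by
  have hB := h.hB
  have hq0 := h.q0
  have hs : (q : K) * x i ≠ 0 := mul_ne_zero hq0 (hB.hx i)
  have hrel := h.rel (s := q * x i) (e := q) hs (by have := hB.hx i; field_simp)
  have hp1 : 1 ≤ p := hB.hp.one_le
  refine good_of_relations V _ (Wv a x q i (q * x i)) ?_ ?_ (famQ0 p q (a0 a q) (b1 a q) i) ?_ ?_ ?_
    ?_ ?_
  · intro j
    by_cases hj : (q : ℤ) ∣ a j
    · rw [Wv_pos hj]; exact val_X_le hB.hx h.hi j
    · rw [Wv_neg hj]; exact val_div_le hs (hle j hj)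
  · refine hB.closure_eq (hB.hx i) fun j => ?_
    by_cases hj : (q : ℤ) ∣ a j
    · rw [← Wv_pos (i := i) (s := q * x i) hj]
      exact Subfield.subset_closure ⟨j, rfl⟩
    · have h1 : x j / x i = q * Wv a x q i (q * x i) j := by
        rw [Wv_neg hj]; have := hB.hx i; field_simp
      rw [h1]
      exact Subfield.mul_mem _ (_root_.natCast_mem _ _) (Subfield.subset_closure ⟨j, rfl⟩)
  · intro k
    fin_cases k
    · show aeval _ (X i - 1) = 0
      rw [map_sub, aeval_X, map_one, Wv_pos hai, div_self (hB.hx i), sub_self]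
    · show aeval _ ((q : MvPolynomial ι ℤ) ^ (p - 1) * ws p (a0 a q) (fun l => X l) +
        ws p (b1 a q) (fun l => X l)) = 0
      rw [map_add, map_mul, map_pow, map_natCast, ev_ws _ (fun l => l), ev_ws _ (fun l => l)]
      apply mul_left_cancel₀ hq0
      have h1 : (q : K) ^ p = q * q ^ (p - 1) := by rw [← pow_succ']; congr 1; omega
      rw [h1] at hrel
      linear_combination hrel
  · simpa using hB.htr
  · intro hf
    have hbi : b1 a q i ≠ 0 := by
      intro h0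
      have h1 := b1_eq hai
      rw [h0, mul_zero] at h1
      exact h.ha0 i h1.symm
    have hbc : ∀ l, b1 a q l ≠ 0 → (b1 a q l : IsLocalRing.ResidueField V) ≠ 0 :=
      fun l hl => h.b1_cast hl
    exact indep_Q0 hB.hp (a0 a q) (b1 a q) (cast_p_ne_zero h.hv) (cast_p_eq_zero h.hqv)
      hbc hbi (fun s => resv V (Wv a x q i (q * x i) s)) hf
  · intro R hR hz
    have hXR : ∀ j, x j / x i ∈ R := by
      intro j
      by_cases hj : (q : ℤ) ∣ a j
      · rw [← Wv_pos (i := i) (s := q * x i) hj]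
        exact hz j
      · have h1 : x j / x i = q * Wv a x q i (q * x i) j := by
          rw [Wv_neg hj]; have := hB.hx i; field_simp
        rw [h1]
        exact R.mul_mem (natCast_mem R q) (hz j)
    rw [h.prin_iff hR]
    refine ⟨hXR, fun k hk => ?_⟩
    have hk1 := (Finset.mem_Icc.mp hk).1
    have hX := gen_X0 hR (hB.hx i) rfl hXR
    have g1 : Gen R ({(q : K)} * X0 x ^ k) (q * x i ^ k) := (Gen.singleton hq0).mul (hX.pow k)
    refine ⟨_, g1.union_right ?_⟩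
    -- elements of `XQ ^ k`
    have hpow : ∀ n : ℕ, ∀ g ∈ XQ a x q ^ n, g / (q * x i) ^ n ∈ R := by
      intro n
      induction n with
      | zero =>
        intro g hg
        rw [pow_zero, Finset.mem_one] at hg
        rw [hg]; simp [R.one_mem]
      | succ n ih =>
        intro g hg
        rw [pow_succ] at hg
        obtain ⟨b, hb, d, hd, rfl⟩ := Finset.mem_mul.mp hg
        obtain ⟨j, hj, rfl⟩ := XQ_cases hd
        rw [pow_succ, mul_div_mul_comm]
        refine R.mul_mem (ih b hb) ?_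
        rw [← Wv_neg (i := i) (s := q * x i) hj]
        exact hz j
    intro g hg
    have h1 := hpow k g hg
    have hxi := hB.hx i
    have h2 : g / (q * x i ^ k) = (g / (q * x i) ^ k) * q ^ (k - 1) := by
      have h3 : (q : K) ^ k = q ^ (k - 1) * q := by rw [← pow_succ]; congr 1; omega
      rw [mul_pow, h3]
      have h4 : x i ^ k ≠ 0 := pow_ne_zero _ hxi
      have h5 : (q : K) ^ (k - 1) ≠ 0 := pow_ne_zero _ hq0
      field_simp
    rw [h2]
    exact R.mul_mem h1 (R.pow_mem (natCast_mem R q) _)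
  · intro R' hR' hP
    obtain ⟨hXR, hS⟩ := (h.prin_iff hR').mp hP
    have h1 := hS 1 (Finset.mem_Icc.mpr ⟨le_rfl, hp1⟩)
    rw [Sq, pow_one, pow_one] at h1
    obtain ⟨T, hT⟩ := h1
    have hmem : (q : K) * x i ∈ ({(q : K)} * X0 x ∪ XQ a x q : Finset K) :=
      Finset.mem_union_left _ (Finset.mul_mem_mul (Finset.mem_singleton_self _)
        (Finset.mem_image_of_mem _ (Finset.mem_univ i)))
    have hgen := hT.of_max hR' hmem (by
      intro g hg
      rcases Finset.mem_union.mp hg with h' | h'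
      · obtain ⟨b, hb, d, hd, rfl⟩ := Finset.mem_mul.mp h'
        obtain ⟨j, _, rfl⟩ := Finset.mem_image.mp hd
        rw [Finset.mem_singleton] at hb
        rw [hb, map_mul, map_mul]
        exact mul_le_mul' le_rfl (h.hi j)
      · obtain ⟨j, hj, rfl⟩ := XQ_cases h'
        exact hle j hj)
    intro j
    by_cases hj : (q : ℤ) ∣ a j
    · rw [Wv_pos hj]; exact hXR j
    · rw [Wv_neg hj]
      exact hgen.mem _ (Finset.mem_union_right _ (mem_XQ hj))

end Pool.Agent.H96.Diag
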