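import Pool.Agent.H96.DQ2

/-!
# The charts at the tame primes, part 2
-/

set_option autoImplicit false
set_option linter.unusedSectionVars false

namespace Pool.Agent.H96.Diag

open MvPolynomial Pool.Agent.H96.VL Pool.Agent.H96.Reg
open scoped Pointwise

variable {K : Type} [Field K] [CharZero K] [DecidableEq K] {ι : Type} [Fintype ι] [DecidableEq ι]
variable {V : ValuationSubring K} {R : Subring K}
variable {p : ℕ} {a : ι → ℤ} {x : ι → K} {𝒱 : Finset (ι → ℤ)} {𝒬 : Finset ℕ} {i : ι} {q : ℕ}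

theorem QCtr.prin_iff2 (h : QCtr V p a x 𝒬 i q) {j₀ : ι} (hj₀ : ¬ (q : ℤ) ∣ a j₀)
    (hmax : ∀ j, ¬ (q : ℤ) ∣ a j → V.valuation (x j) ≤ V.valuation (x j₀))
    (hle : V.valuation (q * x i) ≤ V.valuation (x j₀)) (hR : VLocal V R) :
    Prin R (TotQ p a x 𝒱 𝒬) ↔ (∀ j, x j / x i ∈ R) ∧ (∀ j, ¬ (q : ℤ) ∣ a j → x j / x j₀ ∈ R) ∧
      ∀ k ∈ Finset.Icc 1 p, Cmp R (q : K) ((x j₀ / x i) ^ k) := by
  have hB := h.hB
  have hq0 := h.q0
  have hp1 : 1 ≤ p := hB.hp.one_le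
  have key : (∀ j, x j / x i ∈ R) → (∀ j, ¬ (q : ℤ) ∣ a j → x j / x j₀ ∈ R) →
      ∀ k, (Prin R (Sq a x q k) ↔ Cmp R (q : K) ((x j₀ / x i) ^ k)) := by
    intro hXR hYR k
    have hX := gen_X0 hR (hB.hx i) rfl hXR
    have g1 : Gen R ({(q : K)} * X0 x ^ k) (q * x i ^ k) := (Gen.singleton hq0).mul (hX.pow k)
    have hXQ : Gen R (XQ a x q) (x j₀) := by
      refine ⟨hB.hx j₀, fun g hg => ?_, x j₀, mem_XQ hj₀, ?_, hB.hx j₀⟩
      · obtain ⟨j, hj, rfl⟩ := XQ_cases hg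
        exact hYR j hj
      · rw [div_self (hB.hx j₀)]; exact R.one_mem
    have g2 : Gen R (XQ a x q ^ k) ((x j₀ / x i) ^ k * x i ^ k) := by
      have h1 : (x j₀ / x i) ^ k * x i ^ k = x j₀ ^ k := by
        rw [← mul_pow, div_mul_cancel₀ _ (hB.hx i)]
      rw [h1]; exact hXQ.pow k
    rw [Sq, prin_union_iff hR g1 g2, cmp_mul_right (pow_ne_zero _ (hB.hx i))]
  constructor
  · intro hP
    obtain ⟨hXR, hS⟩ := (h.prin_iff hR).mp hP
    have h1 := hS 1 (Finset.mem_Icc.mpr ⟨le_rfl, hp1⟩)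
    rw [Sq, pow_one, pow_one] at h1
    obtain ⟨T, hT⟩ := h1
    have hmem : x j₀ ∈ ({(q : K)} * X0 x ∪ XQ a x q : Finset K) :=
      Finset.mem_union_right _ (mem_XQ hj₀)
    have hgen := hT.of_max hR hmem (by
      intro g hg
      rcases Finset.mem_union.mp hg with h' | h'
      · obtain ⟨b, hb, d, hd, rfl⟩ := Finset.mem_mul.mp h'
        obtain ⟨j, _, rfl⟩ := Finset.mem_image.mp hd
        rw [Finset.mem_singleton] at hb
        refine le_trans ?_ hle
        rw [hb, map_mul, map_mul]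
        exact mul_le_mul' le_rfl (h.hi j)
      · obtain ⟨j, hj, rfl⟩ := XQ_cases h'
        exact hmax j hj)
    have hYR : ∀ j, ¬ (q : ℤ) ∣ a j → x j / x j₀ ∈ R := fun j hj =>
      hgen.mem _ (Finset.mem_union_right _ (mem_XQ hj))
    exact ⟨hXR, hYR, fun k hk => (key hXR hYR k).mp (hS k hk)⟩
  · rintro ⟨hXR, hYR, hC⟩
    rw [h.prin_iff hR]
    exact ⟨hXR, fun k hk => (key hXR hYR k).mpr (hC k hk)⟩

theorem b1_i_ne (h : QCtr V p a x 𝒬 i q) (hai : (q : ℤ) ∣ a i) : b1 a q i ≠ 0 := by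
  intro h0
  have h1 := b1_eq hai
  rw [h0, mul_zero] at h1
  exact h.ha0 i h1.symm

theorem card_aux (hB : Base p a x) :
    (Nat.card (ι ⊕ Fin 2) : Cardinal.{0}) ≤ Algebra.trdeg ℤ K + (Fintype.card (Fin 4) : ℕ) := by
  have h1 : Nat.card (ι ⊕ Fin 2) = Fintype.card ι + 2 := by simp
  rw [h1, Fintype.card_fin]
  push_cast
  calc (Fintype.card ι : Cardinal.{0}) + 2 ≤ (Algebra.trdeg ℤ K + 2) + 2 := by
        gcongr; exact hB.htr
    _ = Algebra.trdeg ℤ K + 4 := by rw [add_assoc]; norm_num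

/-- Region Q1. -/
theorem QCtr.good_1 (h : QCtr V p a x 𝒬 i q) (hai : (q : ℤ) ∣ a i) {j₀ : ι}
    (hj₀ : ¬ (q : ℤ) ∣ a j₀)
    (hmax : ∀ j, ¬ (q : ℤ) ∣ a j → V.valuation (x j) ≤ V.valuation (x j₀))
    (hle : V.valuation (q * x i) ≤ V.valuation (x j₀))
    (hlt : V.valuation (x j₀) < V.valuation (x i)) {m : ℕ} (hm1 : 1 ≤ m) (hm2 : m ≤ p - 1)
    (hqm : V.valuation (q : K) ≤ V.valuation ((x j₀ / x i) ^ m))
    (hmq : V.valuation ((x j₀ / x i) ^ (m + 1)) ≤ V.valuation (q : K)) :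
    Good V (TotQ p a x 𝒱 𝒬) := by
  have hB := h.hB
  have hq0 := h.q0
  have hp1 : 1 ≤ p := hB.hp.one_le
  have hxi := hB.hx i
  have hxj := hB.hx j₀
  have hij : j₀ ≠ i := by rintro rfl; exact hj₀ hai
  obtain ⟨e, he⟩ : ∃ e, e = x j₀ / x i := ⟨_, rfl⟩
  have he0 : e ≠ 0 := by rw [he]; exact div_ne_zero hxj hxi
  have hem : ∀ k : ℕ, e ^ k ≠ 0 := fun k => pow_ne_zero _ he0
  have hxiv : 0 < V.valuation (x i) := by rw [Valuation.pos_iff]; exact hxi
  have hve : V.valuation e < 1 := by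
    rw [he, map_div₀]; exact (div_lt_one₀ hxiv).mpr hlt
  have hrel := h.rel hxj he
  rw [← he] at hqm hmq
  have hiff : ∀ {R : Subring K}, VLocal V R → (Prin R (TotQ p a x 𝒱 𝒬) ↔ (∀ j, x j / x i ∈ R) ∧
      (∀ j, ¬ (q : ℤ) ∣ a j → x j / x j₀ ∈ R) ∧
      ∀ k ∈ Finset.Icc 1 p, Cmp R (q : K) (e ^ k)) := by
    intro R hR
    rw [he]
    exact h.prin_iff2 hj₀ hmax hle hR
  have hvu0 : V.valuation ((q : K) / e ^ m) ≤ 1 := val_div_le (hem m) hqm
  have hvu1 : V.valuation (e ^ (m + 1) / q) ≤ 1 := val_div_le hq0 hmq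
  have he01 : (q : K) / e ^ m * (e ^ (m + 1) / q) = e := pow_id3 hq0 he0 m
  let z : ι ⊕ Fin 2 → K := Sum.elim (Wv a x q i (x j₀)) ![(q : K) / e ^ m, e ^ (m + 1) / q]
  have hzv : ∀ s, V.valuation (z s) ≤ 1 := by
    rintro (s | s)
    · show V.valuation (Wv a x q i (x j₀) s) ≤ 1
      by_cases hs : (q : ℤ) ∣ a s
      · rw [Wv_pos hs]; exact val_X_le hB.hx h.hi s
      · rw [Wv_neg hs]; exact val_div_le hxj (hmax s hs)
    · fin_cases s
      · exact hvu0
      · exact hvu1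
  have hXW : ∀ j, ¬ (q : ℤ) ∣ a j → x j / x i = e * Wv a x q i (x j₀) j := by
    intro j hj
    rw [Wv_neg hj, he]; field_simp
  refine good_of_relations V _ z hzv ?_ (famQ1 p q m (a0 a q) (b1 a q) i j₀) ?_ (card_aux hB) ?_ ?_ ?_
  · refine hB.closure_eq hxi fun j => ?_
    by_cases hj : (q : ℤ) ∣ a j
    · rw [← Wv_pos (i := i) (s := x j₀) hj]
      exact Subfield.subset_closure ⟨Sum.inl j, rfl⟩
    · rw [hXW j hj]
      refine Subfield.mul_mem _ ?_ (Subfield.subset_closure ⟨Sum.inl j, rfl⟩)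
      have h1 : (q : K) / e ^ m * (e ^ (m + 1) / q) ∈ Subfield.closure (Set.range z) :=
        Subfield.mul_mem _ (Subfield.subset_closure ⟨Sum.inr 0, rfl⟩)
          (Subfield.subset_closure ⟨Sum.inr 1, rfl⟩)
      rwa [he01] at h1
  · intro k
    fin_cases k
    · show aeval z (X (Sum.inl i) - 1) = 0
      rw [map_sub, aeval_X, map_one]
      show Wv a x q i (x j₀) i - 1 = 0
      rw [Wv_pos hai, div_self hxi, sub_self]
    · show aeval z (X (Sum.inl j₀) - 1) = 0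
      rw [map_sub, aeval_X, map_one]
      show Wv a x q i (x j₀) j₀ - 1 = 0
      rw [Wv_neg hj₀, div_self hxj, sub_self]
    · show aeval z (ws p (b1 a q) (fun l => X (Sum.inl l)) +
        (X (Sum.inr 0) * X (Sum.inr 1)) ^ (p - 1 - m) *
        (X (Sum.inr 1) * ws p (a0 a q) (fun l => X (Sum.inl l)))) = 0
      rw [map_add, map_mul, map_pow, map_mul, map_mul, aeval_X, aeval_X, ev_ws z Sum.inl,
        ev_ws z Sum.inl]
      show ws p (b1 a q) (Wv a x q i (x j₀)) +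
        ((q : K) / e ^ m * (e ^ (m + 1) / q)) ^ (p - 1 - m) *
          ((e ^ (m + 1) / q) * ws p (a0 a q) (Wv a x q i (x j₀))) = 0
      rw [he01]
      apply mul_left_cancel₀ hq0
      have h1 : e ^ p = e ^ (p - 1 - m) * e ^ (m + 1) := by rw [← pow_add]; congr 1; omega
      rw [h1] at hrel
      have h2 : (q : K) * (ws p (b1 a q) (Wv a x q i (x j₀)) + e ^ (p - 1 - m) *
          ((e ^ (m + 1) / q) * ws p (a0 a q) (Wv a x q i (x j₀)))) =
          q * ws p (b1 a q) (Wv a x q i (x j₀)) + e ^ (p - 1 - m) * e ^ (m + 1) *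
            ws p (a0 a q) (Wv a x q i (x j₀)) := by
        field_simp
      rw [h2, mul_zero]
      linear_combination hrel
    · show aeval z (-(X (Sum.inr 0) * (X (Sum.inr 0) * X (Sum.inr 1)) ^ m) +
        (q : MvPolynomial (ι ⊕ Fin 2) ℤ)) = 0
      rw [map_add, map_neg, map_mul, map_pow, map_mul, map_natCast, aeval_X, aeval_X]
      show -((q : K) / e ^ m * ((q : K) / e ^ m * (e ^ (m + 1) / q)) ^ m) + q = 0
      rw [he01, div_mul_cancel₀ _ (hem m)]
      ring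
  · intro hf
    have hbc : ∀ l, b1 a q l ≠ 0 → (b1 a q l : IsLocalRing.ResidueField V) ≠ 0 :=
      fun l hl => h.b1_cast hl
    refine indep_Q1 hB.hp h.hqp (a0 a q) (b1 a q) hij (cast_p_ne_zero h.hv)
      (cast_p_eq_zero h.hqv) (fun l hl => a0_eq' (b1_ne hl)) hbc (b1_i_ne h hai) (b1_eq' hj₀)
      (fun s => resv V (z s)) ?_ hf
    show resv V ((q : K) / e ^ m) * resv V (e ^ (m + 1) / q) = 0
    rw [← resv_mul hvu0 hvu1, he01, resv_eq_zero_iff hve.le]
    exact hve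
  · intro R hR hzR
    have hu0 : (q : K) / e ^ m ∈ R := hzR (Sum.inr 0)
    have hu1 : e ^ (m + 1) / q ∈ R := hzR (Sum.inr 1)
    have heR : e ∈ R := by rw [← he01]; exact R.mul_mem hu0 hu1
    have hWR : ∀ j, Wv a x q i (x j₀) j ∈ R := fun j => hzR (Sum.inl j)
    rw [hiff hR]
    refine ⟨fun j => ?_, fun j hj => ?_, fun k hk => ?_⟩
    · by_cases hj : (q : ℤ) ∣ a j
      · rw [← Wv_pos (i := i) (s := x j₀) hj]; exact hWR j
      · rw [hXW j hj]; exact R.mul_mem heR (hWR j)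
    · rw [← Wv_neg (i := i) (s := x j₀) hj]; exact hWR j
    · rcases Nat.lt_or_ge m k with hk1 | hk1
      · right
        have h1 : e ^ k / (q : K) = e ^ (m + 1) / q * e ^ (k - (m + 1)) := by
          have h1 : e ^ k = e ^ (m + 1) * e ^ (k - (m + 1)) := by rw [← pow_add]; congr 1; omega
          rw [h1]; ring
        rw [h1]
        exact R.mul_mem hu1 (R.pow_mem heR _)
      · left
        have h1 : (q : K) / e ^ k = (q : K) / e ^ m * e ^ (m - k) := by
          have h1 : e ^ m = e ^ (m - k) * e ^ k := by rw [← pow_add]; congr 1; omega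
          rw [h1]
          have h2 := hem (m - k)
          have h3 := hem k
          field_simp
        rw [h1]
        exact R.mul_mem hu0 (R.pow_mem heR _)
  · intro R' hR' hP
    obtain ⟨hXR, hYR, hC⟩ := (hiff hR').mp hP
    rintro (j | n)
    · show Wv a x q i (x j₀) j ∈ R'
      by_cases hj : (q : ℤ) ∣ a j
      · rw [Wv_pos hj]; exact hXR j
      · rw [Wv_neg hj]; exact hYR j hj
    · fin_cases n
      · show (q : K) / e ^ m ∈ R'
        exact (hC m (Finset.mem_Icc.mpr ⟨hm1, by omega⟩)).div_mem hR' hq0 (hem m) hqm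
      · show e ^ (m + 1) / (q : K) ∈ R'
        exact Cmp.div_mem hR' (hC (m + 1) (Finset.mem_Icc.mpr ⟨by omega, by omega⟩)).symm
          (hem _) hq0 hmq

/-- Region Q2. -/
theorem QCtr.good_2 (h : QCtr V p a x 𝒬 i q) (hai : (q : ℤ) ∣ a i) {j₀ : ι}
    (hj₀ : ¬ (q : ℤ) ∣ a j₀)
    (hmax : ∀ j, ¬ (q : ℤ) ∣ a j → V.valuation (x j) ≤ V.valuation (x j₀))
    (hle : V.valuation (q * x i) ≤ V.valuation (x j₀))
    (hlt : V.valuation (x j₀) < V.valuation (x i))
    (hqm : V.valuation (q : K) ≤ V.valuation ((x j₀ / x i) ^ p)) :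
    Good V (TotQ p a x 𝒱 𝒬) := by
  have hB := h.hB
  have hq0 := h.q0
  have hp1 : 1 ≤ p := hB.hp.one_le
  have hxi := hB.hx i
  have hxj := hB.hx j₀
  have hij : j₀ ≠ i := by rintro rfl; exact hj₀ hai
  obtain ⟨e, he⟩ : ∃ e, e = x j₀ / x i := ⟨_, rfl⟩
  have he0 : e ≠ 0 := by rw [he]; exact div_ne_zero hxj hxi
  have hem : ∀ k : ℕ, e ^ k ≠ 0 := fun k => pow_ne_zero _ he0
  have hxiv : 0 < V.valuation (x i) := by rw [Valuation.pos_iff]; exact hxi
  have hve : V.valuation e < 1 := by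
    rw [he, map_div₀]; exact (div_lt_one₀ hxiv).mpr hlt
  have hrel := h.rel hxj he
  rw [← he] at hqm
  have hiff : ∀ {R : Subring K}, VLocal V R → (Prin R (TotQ p a x 𝒱 𝒬) ↔ (∀ j, x j / x i ∈ R) ∧
      (∀ j, ¬ (q : ℤ) ∣ a j → x j / x j₀ ∈ R) ∧
      ∀ k ∈ Finset.Icc 1 p, Cmp R (q : K) (e ^ k)) := by
    intro R hR
    rw [he]
    exact h.prin_iff2 hj₀ hmax hle hR
  have hvu1 : V.valuation ((q : K) / e ^ p) ≤ 1 := val_div_le (hem p) hqm
  let z : ι ⊕ Fin 2 → K := Sum.elim (Wv a x q i (x j₀)) ![e, (q : K) / e ^ p]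
  have hzv : ∀ s, V.valuation (z s) ≤ 1 := by
    rintro (s | s)
    · show V.valuation (Wv a x q i (x j₀) s) ≤ 1
      by_cases hs : (q : ℤ) ∣ a s
      · rw [Wv_pos hs]; exact val_X_le hB.hx h.hi s
      · rw [Wv_neg hs]; exact val_div_le hxj (hmax s hs)
    · fin_cases s
      · exact hve.le
      · exact hvu1
  have hXW : ∀ j, ¬ (q : ℤ) ∣ a j → x j / x i = e * Wv a x q i (x j₀) j := by
    intro j hj
    rw [Wv_neg hj, he]; field_simp
  refine good_of_relations V _ z hzv ?_ (famQ2 p q (a0 a q) (b1 a q) i j₀) ?_ (card_aux hB) ?_ ?_ ?_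
  · refine hB.closure_eq hxi fun j => ?_
    by_cases hj : (q : ℤ) ∣ a j
    · rw [← Wv_pos (i := i) (s := x j₀) hj]
      exact Subfield.subset_closure ⟨Sum.inl j, rfl⟩
    · rw [hXW j hj]
      exact Subfield.mul_mem _ (Subfield.subset_closure ⟨Sum.inr 0, rfl⟩)
        (Subfield.subset_closure ⟨Sum.inl j, rfl⟩)
  · intro k
    fin_cases k
    · show aeval z (X (Sum.inl i) - 1) = 0
      rw [map_sub, aeval_X, map_one]
      show Wv a x q i (x j₀) i - 1 = 0
      rw [Wv_pos hai, div_self hxi, sub_self]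
    · show aeval z (X (Sum.inl j₀) - 1) = 0
      rw [map_sub, aeval_X, map_one]
      show Wv a x q i (x j₀) j₀ - 1 = 0
      rw [Wv_neg hj₀, div_self hxj, sub_self]
    · show aeval z (X (Sum.inr 1) * ws p (b1 a q) (fun l => X (Sum.inl l)) +
        ws p (a0 a q) (fun l => X (Sum.inl l))) = 0
      rw [map_add, map_mul, aeval_X, ev_ws z Sum.inl, ev_ws z Sum.inl]
      show (q : K) / e ^ p * ws p (b1 a q) (Wv a x q i (x j₀)) +
        ws p (a0 a q) (Wv a x q i (x j₀)) = 0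
      apply mul_left_cancel₀ (hem p)
      have h2 : e ^ p * ((q : K) / e ^ p * ws p (b1 a q) (Wv a x q i (x j₀)) +
        ws p (a0 a q) (Wv a x q i (x j₀))) = e ^ p * ws p (a0 a q) (Wv a x q i (x j₀)) +
          q * ws p (b1 a q) (Wv a x q i (x j₀)) := by
        have := hem p
        field_simp
        ring
      rw [h2, hrel, mul_zero]
    · show aeval z (-(X (Sum.inr 0) ^ p * X (Sum.inr 1)) +
        (q : MvPolynomial (ι ⊕ Fin 2) ℤ)) = 0
      rw [map_add, map_neg, map_mul, map_pow, map_natCast, aeval_X, aeval_X]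
      show -(e ^ p * ((q : K) / e ^ p)) + q = 0
      rw [mul_div_cancel₀ _ (hem p)]
      ring
  · intro hf
    have hac : ∀ l, a0 a q l ≠ 0 → (a0 a q l : IsLocalRing.ResidueField V) ≠ 0 := by
      intro l hl
      have h1 := a0_ne hl
      rw [a0_eq h1]
      exact cast_ne_of_not_dvd h.hqp h.hqv h1
    refine indep_Q2 hB.hp h.hqp (a0 a q) (b1 a q) hij (cast_p_ne_zero h.hv)
      (cast_p_eq_zero h.hqv) (fun l hl => b1_eq' (a0_ne hl)) hac (by
        rw [a0_eq hj₀]; exact h.ha0 j₀) (a0_eq' hai)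
      (fun s => resv V (z s)) ?_ hf
    show resv V e = 0
    rw [resv_eq_zero_iff hve.le]
    exact hve
  · intro R hR hzR
    have heR : e ∈ R := hzR (Sum.inr 0)
    have hu1 : (q : K) / e ^ p ∈ R := hzR (Sum.inr 1)
    have hWR : ∀ j, Wv a x q i (x j₀) j ∈ R := fun j => hzR (Sum.inl j)
    rw [hiff hR]
    refine ⟨fun j => ?_, fun j hj => ?_, fun k hk => Or.inl ?_⟩
    · by_cases hj : (q : ℤ) ∣ a j
      · rw [← Wv_pos (i := i) (s := x j₀) hj]; exact hWR j
      · rw [hXW j hj]; exact R.mul_mem heR (hWR j)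
    · rw [← Wv_neg (i := i) (s := x j₀) hj]; exact hWR j
    · have hk' := (Finset.mem_Icc.mp hk).2
      have h1 : (q : K) / e ^ k = (q : K) / e ^ p * e ^ (p - k) := by
        have h1 : e ^ p = e ^ (p - k) * e ^ k := by rw [← pow_add]; congr 1; omega
        rw [h1]
        have h2 := hem (p - k)
        have h3 := hem k
        field_simp
      rw [h1]
      exact R.mul_mem hu1 (R.pow_mem heR _)
  · intro R' hR' hP
    obtain ⟨hXR, hYR, hC⟩ := (hiff hR').mp hP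
    rintro (j | n)
    · show Wv a x q i (x j₀) j ∈ R'
      by_cases hj : (q : ℤ) ∣ a j
      · rw [Wv_pos hj]; exact hXR j
      · rw [Wv_neg hj]; exact hYR j hj
    · fin_cases n
      · show e ∈ R'
        rw [he]; exact hXR j₀
      · show (q : K) / e ^ p ∈ R'
        exact (hC p (Finset.mem_Icc.mpr ⟨hp1, le_rfl⟩)).div_mem hR' hq0 (hem p) hqm

end Pool.Agent.H96.Diag
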