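import Pool.Agent.H96.DSys2
import Pool.Agent.H96.DInd2

/-!
# The charts
-/

set_option autoImplicit false
set_option linter.unusedSectionVars false

namespace Pool.Agent.H96.Diag

open MvPolynomial Pool.Agent.H96.VL
open scoped Pointwise

variable {K : Type} [Field K] [CharZero K] [DecidableEq K] {ι : Type} [Fintype ι] [DecidableEq ι]
variable {V : ValuationSubring K} {R : Subring K}

theorem val_X_le {x : ι → K} {i : ι} (hx : ∀ j, x j ≠ 0)
    (hi : ∀ j, V.valuation (x j) ≤ V.valuation (x i)) (j : ι) : V.valuation (x j / x i) ≤ 1 := by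
  have h : 0 < V.valuation (x i) := by rw [Valuation.pos_iff]; exact hx i
  rw [map_div₀]
  exact (div_le_one₀ h).mpr (hi j)

theorem div_mem_of_prin_X0 (hR : VLocal V R) {x : ι → K} {i : ι}
    (hi : ∀ j, V.valuation (x j) ≤ V.valuation (x i)) (hP : Prin R (X0 x)) (j : ι) :
    x j / x i ∈ R := by
  obtain ⟨T, hT⟩ := hP
  refine (hT.of_max hR (Finset.mem_image_of_mem _ (Finset.mem_univ i)) ?_).mem _
    (Finset.mem_image_of_mem _ (Finset.mem_univ j))
  intro g hg
  obtain ⟨l, _, rfl⟩ := Finset.mem_image.mp hg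
  exact hi l

/-- The equivalence of principality with explicit conditions, at a centred point. -/
theorem centred_iff {p : ℕ} {a : ι → ℤ} {x : ι → K} {c : ι → ℤ} {t e n : K} {i : ι} {y : ι → K}
    {𝒱 : Finset (ι → ℤ)}
    (hp : p.Prime) (hx : ∀ j, x j ≠ 0) (hF : ws p a x = 0) (hl : ws 1 a x ≠ 0)
    (hi : ∀ j, V.valuation (x j) ≤ V.valuation (x i))
    (h : CData V p x c i t y) (hc : c ∈ 𝒱)
    (hother : ∀ c' ∈ 𝒱, c' ≠ c → ∃ g ∈ mS p x c', V.valuation t ≤ V.valuation g)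
    (he0 : e ≠ 0) (he : e = p ∨ ∃ j, e = y j)
    (hpe : V.valuation (p : K) ≤ V.valuation e) (hye : ∀ j, V.valuation (y j) ≤ V.valuation e)
    (hn : n = p ∨ n = gx p a x / t ^ p ∨ n = e ^ 2)
    (h1 : V.valuation (p : K) ≤ V.valuation n)
    (h2 : V.valuation (gx p a x / t ^ p) ≤ V.valuation n)
    (h3 : V.valuation (e ^ 2) ≤ V.valuation n) (hR : VLocal V R) :
    Prin R (Tot p a x 𝒱) ↔
      ((∀ j, x j / t ∈ R) ∧ (p : K) / e ∈ R ∧ (∀ j, y j / e ∈ R)) ∧
      ((p : K) / n ∈ R ∧ (gx p a x / t ^ p) / n ∈ R ∧ e ^ 2 / n ∈ R) ∧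
      (∀ k ∈ Finset.Icc 3 (2 * p - 2), Cmp R (p : K) (n ^ (k / 2) * e ^ (k % 2))) ∧
      (∀ j ∈ Finset.Icc 1 (p - 1), Cmp R (p : K) (n ^ (p - 1 - j) * (ws 1 a x / t) ^ j)) := by
  have hpK : (p : K) ≠ 0 := by exact_mod_cast hp.ne_zero
  have ht := h.t0
  have htp : t ^ p ≠ 0 := pow_ne_zero _ ht
  have hgx : gx p a x ≠ 0 := by
    rw [gx, neg_div, neg_ne_zero]
    exact div_ne_zero (pow_ne_zero _ hl) hpK
  have hn0 : n ≠ 0 := by
    rcases hn with h' | h' | h'
    · rw [h']; exact hpK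
    · rw [h']; exact div_ne_zero hgx htp
    · rw [h']; exact pow_ne_zero _ he0
  have hvi : V.valuation (x i) = V.valuation t := by rw [h.xi, map_mul, h.ci, one_mul]
  have hxt : ∀ j, V.valuation (x j) ≤ V.valuation t := fun j => by rw [← hvi]; exact hi j
  constructor
  · intro hP
    have hP' := hP
    rw [Tot, prin_mul_iff, prin_mul_iff, prin_mul_iff] at hP'
    obtain ⟨hPX, hPM, hPN, -⟩ := hP'
    have hXR : ∀ j, x j / t ∈ R := by
      intro j
      have h4 := div_mem_of_prin_X0 hR hi hPX j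
      have hci := h.ci0
      have : x j / t = c i * (x j / x i) := by
        rw [h.xi]; field_simp
      rw [this]
      exact R.mul_mem (intCast_mem R _) h4
    have hX := gen_X0 hR ht hvi hXR
    have hPm : Prin R (mS p x c) := (prin_prod_iff 𝒱).mp hPM c hc
    have hPJ : Prin R (J2 p a x c) := (prin_prod_iff 𝒱).mp hPN c hc
    obtain ⟨h4, h5⟩ := h.div_mem_of_prin hp.ne_zero hx hR hxt he0 he hpe hye hPm
    have hm := h.gen_mS hp.ne_zero hx hR hXR he0 he h4 h5
    obtain ⟨h6, h7, h8⟩ := div_mem_of_prin_J2 hR hp ht hX hm hgx hn h1 h2 h3 hPJ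
    have hJ := gen_J2 hp ht hX hm hgx hn h6 h7 h8
    obtain ⟨hM, hN⟩ := gen_MS_NS hR hp hF ht hXR hX hc hother hm hJ
    exact ⟨⟨hXR, h4, h5⟩, ⟨h6, h7, h8⟩,
      (prin_Tot_iff hR hp.ne_zero ht he0 hn0 hl hX hM hN).mp hP⟩
  · rintro ⟨⟨hXR, h4, h5⟩, ⟨h6, h7, h8⟩, h9⟩
    have hX := gen_X0 hR ht hvi hXR
    have hm := h.gen_mS hp.ne_zero hx hR hXR he0 he h4 h5
    have hJ := gen_J2 hp ht hX hm hgx hn h6 h7 h8
    obtain ⟨hM, hN⟩ := gen_MS_NS hR hp hF ht hXR hX hc hother hm hJ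
    exact (prin_Tot_iff hR hp.ne_zero ht he0 hn0 hl hX hM hN).mpr h9

/-- The same away from all the points. -/
theorem uncentred_iff {p : ℕ} {a : ι → ℤ} {x : ι → K} {i : ι}
    {𝒱 : Finset (ι → ℤ)}
    (hp : p.Prime) (hx : ∀ j, x j ≠ 0) (hF : ws p a x = 0) (hl : ws 1 a x ≠ 0)
    (hi : ∀ j, V.valuation (x j) ≤ V.valuation (x i))
    (hother : ∀ c' ∈ 𝒱, ∃ g ∈ mS p x c', V.valuation (x i) ≤ V.valuation g)
    (hR : VLocal V R) :
    Prin R (Tot p a x 𝒱) ↔ (∀ j, x j / x i ∈ R) ∧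
      (∀ j ∈ Finset.Icc 1 (p - 1), Cmp R (p : K) ((ws 1 a x / x i) ^ j)) := by
  have hkey : (∀ j, x j / x i ∈ R) → (Prin R (Tot p a x 𝒱) ↔
      (∀ j ∈ Finset.Icc 1 (p - 1), Cmp R (p : K) ((ws 1 a x / x i) ^ j))) := by
    intro hXR
    have hX := gen_X0 hR (hx i) rfl hXR
    obtain ⟨hM, hN⟩ := gen_MS_NS_of_one hR hp hF (hx i) hXR hX 𝒱 hother
    rw [← one_mul (x i ^ 𝒱.card)] at hM
    rw [← one_mul (x i ^ (p * 𝒱.card))] at hN
    rw [prin_Tot_iff hR hp.ne_zero (hx i) one_ne_zero one_ne_zero hl hX hM hN]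
    simp only [one_pow, one_mul]
    constructor
    · exact fun h => h.2
    · refine fun h => ⟨fun k _ => Or.inl ?_, h⟩
      rw [div_one]; exact natCast_mem R p
  constructor
  · intro hP
    have hP' := hP
    rw [Tot, prin_mul_iff] at hP'
    have hXR := div_mem_of_prin_X0 hR hi hP'.1
    exact ⟨hXR, (hkey hXR).mp hP⟩
  · rintro ⟨hXR, h⟩
    exact (hkey hXR).mpr h

/-- The standing hypotheses. -/
structure Base (p : ℕ) (a : ι → ℤ) (x : ι → K) : Prop where
  hp : p.Prime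
  hp3 : 3 ≤ p
  hx : ∀ j, x j ≠ 0
  hF : ws p a x = 0
  hl : ws 1 a x ≠ 0
  hpa : ∀ j, ¬ (p : ℤ) ∣ a j
  hfield : ∀ F : Subfield K, (∀ j l, x j / x l ∈ F) → F = ⊤
  htr : (Fintype.card ι : Cardinal.{0}) ≤ Algebra.trdeg ℤ K + 2

theorem Base.pK {p : ℕ} {a : ι → ℤ} {x : ι → K} (hB : Base p a x) : (p : K) ≠ 0 := by
  exact_mod_cast hB.hp.ne_zero

theorem Base.closure_eq {p : ℕ} {a : ι → ℤ} {x : ι → K} (hB : Base p a x) {t : K} (ht : t ≠ 0)
    {s : Set K} (hs : ∀ j, x j / t ∈ Subfield.closure s) : Subfield.closure s = ⊤ := by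
  apply hB.hfield
  intro j l
  have h1 := (Subfield.closure s).div_mem (hs j) (hs l)
  have h2 := hB.hx l
  have : x j / t / (x l / t) = x j / x l := by field_simp
  rwa [this] at h1

theorem Base.cast_a_ne {p : ℕ} {a : ι → ℤ} {x : ι → K} (hB : Base p a x)
    (hv : V.valuation (p : K) < 1) (j : ι) : (a j : IsLocalRing.ResidueField V) ≠ 0 := by
  rw [← resv_intCast, Ne, resv_eq_zero_iff (val_intCast_le V _)]
  intro h
  have hcop : IsCoprime (a j) (p : ℤ) :=
    (Int.isCoprime_iff_gcd_eq_one.mpr (by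
      rw [Int.gcd_comm]
      exact Int.isCoprime_iff_gcd_eq_one.mp
        ((Prime.coprime_iff_not_dvd (Nat.prime_iff_prime_int.mp hB.hp)).mpr (hB.hpa j))))
  obtain ⟨u, v, huv⟩ := hcop
  have h1 : (u : K) * (a j : K) + v * (p : K) = 1 := by
    have := congrArg (Int.cast : ℤ → K) huv
    push_cast at this
    exact this
  have h2 : V.valuation ((u : K) * (a j : K) + v * (p : K)) < 1 := by
    apply V.valuation.map_add_lt
    · rw [map_mul]
      exact (mul_le_mul' (val_intCast_le V u) le_rfl).trans_lt (by rwa [one_mul])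
    · rw [map_mul]
      exact (mul_le_mul' (val_intCast_le V v) le_rfl).trans_lt (by rwa [one_mul])
  rw [h1, map_one] at h2
  exact lt_irrefl _ h2

theorem cast_p_eq_zero {p : ℕ} (hv : V.valuation (p : K) < 1) :
    (p : IsLocalRing.ResidueField V) = 0 := by
  have h1 := resv_intCast V (p : ℤ)
  have h2 : V.valuation (((p : ℤ) : K)) < 1 := by simpa using hv
  rw [(resv_eq_zero_iff (val_intCast_le V _)).mpr h2] at h1
  simpa using h1.symm

theorem cast_p_ne_zero {p : ℕ} (hv : V.valuation (p : K) = 1) :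
    (p : IsLocalRing.ResidueField V) ≠ 0 := by
  have h1 := resv_intCast V (p : ℤ)
  have h2 : V.valuation (((p : ℤ) : K)) = 1 := by simpa using hv
  have h3 := (resv_ne_zero_iff (val_intCast_le V _)).mpr h2
  rw [h1] at h3
  simpa using h3

theorem ws_div (p : ℕ) (a : ι → ℤ) (x : ι → K) (t : K) :
    ws p a (fun j => x j / t) = ws p a x / t ^ p := by
  have : (fun j => x j / t) = fun j => t⁻¹ * x j := by
    funext j; rw [div_eq_mul_inv, mul_comm]
  rw [this, ws_smul, inv_pow, div_eq_mul_inv, mul_comm]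

/-- Region T0a: `p` is a unit. -/
theorem good_T0a {p : ℕ} {a : ι → ℤ} {x : ι → K} {i : ι} {𝒱 : Finset (ι → ℤ)}
    (hB : Base p a x) (ha0 : a i ≠ 0) (hsq : Squarefree (a i))
    (hcop : ∀ l, l ≠ i → IsCoprime (a l) (a i))
    (hi : ∀ j, V.valuation (x j) ≤ V.valuation (x i)) (hv : V.valuation (p : K) = 1) :
    Good V (Tot p a x 𝒱) := by
  have hother : ∀ c' ∈ 𝒱, ∃ g ∈ mS p x c', V.valuation (x i) ≤ V.valuation g := fun c' _ =>
    ⟨_, mem_mS_p hB.hp.ne_zero hB.hx c' i, by rw [map_mul, hv, one_mul]⟩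
  have hiff : ∀ {R : Subring K}, VLocal V R → _ := fun {R} hR =>
    uncentred_iff (R := R) hB.hp hB.hx hB.hF hB.hl hi hother hR
  refine good_of_relations V _ (fun j => x j / x i) (val_X_le hB.hx hi) ?_ (famT0 p a i) ?_ ?_ ?_
    ?_ ?_
  · exact hB.closure_eq (hB.hx i) fun j => Subfield.subset_closure ⟨j, rfl⟩
  · intro k
    fin_cases k
    · show aeval _ (X i - 1) = 0
      rw [map_sub, aeval_X, map_one, div_self (hB.hx i), sub_self]
    · show aeval _ (ws p a (fun l => X l)) = 0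
      rw [ev_ws _ (fun l => l), ws_div, hB.hF, zero_div]
  · simpa using hB.htr
  · exact fun hf => indep_T0a hB.hp a (cast_p_ne_zero hv) ha0 hsq hcop _ hf
  · intro R hR hz
    rw [hiff hR]
    refine ⟨hz, fun j _ => Or.inr ?_⟩
    have h1 : ws 1 a x / x i ∈ R := by
      have h2 := ws_div 1 a x (x i)
      rw [pow_one] at h2
      rw [← h2, ws]
      refine R.sum_mem fun l _ => R.mul_mem (intCast_mem R _) (R.pow_mem (hz l) _)
    exact hR.div_mem (R.pow_mem h1 j) (natCast_mem R p) hv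
  · intro R' hR' hP j
    exact ((hiff hR').mp hP).1 j

theorem lam_mem {a : ι → ℤ} {x : ι → K} {t : K} (hz : ∀ j, x j / t ∈ R) :
    ws 1 a x / t ∈ R := by
  have h2 := ws_div 1 a x t
  rw [pow_one] at h2
  rw [← h2, ws]
  exact R.sum_mem fun l _ => R.mul_mem (intCast_mem R _) (R.pow_mem (hz l) _)

/-- The value of `G` in terms of `ℓ`. -/
theorem Base.G_eq {p : ℕ} {a : ι → ℤ} {x : ι → K} (hB : Base p a x) {t : K} (ht : t ≠ 0) :
    aeval (fun j => x j / t) (Gp hB.hp a) = -(ws 1 a x / t) ^ p / p := by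
  rw [← gx_div_eq hB.hp hB.hF ht, gx]
  ring

/-- Region T0b: `G` is a unit. -/
theorem good_T0b {p : ℕ} {a : ι → ℤ} {x : ι → K} {i : ι} {𝒱 : Finset (ι → ℤ)}
    (hB : Base p a x)
    (hi : ∀ j, V.valuation (x j) ≤ V.valuation (x i)) (hv : V.valuation (p : K) < 1)
    (hother : ∀ c' ∈ 𝒱, ∃ g ∈ mS p x c', V.valuation (x i) ≤ V.valuation g)
    (hG : V.valuation (aeval (fun j => x j / x i) (Gp hB.hp a)) = 1) :
    Good V (Tot p a x 𝒱) := by
  have hiff : ∀ {R : Subring K}, VLocal V R → _ := fun {R} hR =>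
    uncentred_iff (R := R) hB.hp hB.hx hB.hF hB.hl hi hother hR
  refine good_of_relations V _ (fun j => x j / x i) (val_X_le hB.hx hi) ?_ (famT0 p a i) ?_ ?_ ?_
    ?_ ?_
  · exact hB.closure_eq (hB.hx i) fun j => Subfield.subset_closure ⟨j, rfl⟩
  · intro k
    fin_cases k
    · show aeval _ (X i - 1) = 0
      rw [map_sub, aeval_X, map_one, div_self (hB.hx i), sub_self]
    · show aeval _ (ws p a (fun l => X l)) = 0
      rw [ev_ws _ (fun l => l), ws_div, hB.hF, zero_div]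
  · simpa using hB.htr
  · intro hf
    have h1 := resv_aeval (fun j => x j / x i) (val_X_le hB.hx hi) (Gp hB.hp a)
    refine indep_T0b hB.hp a (cast_p_eq_zero hv) _ ?_ hf
    have h2 := (resv_ne_zero_iff h1.1).mpr hG
    rw [h1.2] at h2
    exact h2
  · intro R hR hz
    rw [hiff hR]
    refine ⟨hz, fun j hj => Or.inl ?_⟩
    have hj' := Finset.mem_Icc.mp hj
    have hGR : (aeval (fun j => x j / x i) (Gp hB.hp a))⁻¹ ∈ R := hR.inv _ (aeval_mem hz _) hG
    have hlam := lam_mem (a := a) hz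
    have hl0 : ws 1 a x / x i ≠ 0 := div_ne_zero hB.hl (hB.hx i)
    have hp0 := hB.pK
    have h1 : (p : K) / (ws 1 a x / x i) ^ j = -((ws 1 a x / x i) ^ (p - j) *
        (aeval (fun j => x j / x i) (Gp hB.hp a))⁻¹) := by
      rw [hB.G_eq (hB.hx i)]
      set L := ws 1 a x / x i
      have h2 : L ^ p = L ^ (p - j) * L ^ j := by rw [← pow_add]; congr 1; omega
      rw [h2]
      have h3 : L ^ (p - j) ≠ 0 := pow_ne_zero _ hl0
      have h4 : L ^ j ≠ 0 := pow_ne_zero _ hl0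
      rw [inv_div]
      field_simp
    rw [h1]
    exact R.neg_mem (R.mul_mem (R.pow_mem hlam _) hGR)
  · intro R' hR' hP j
    exact ((hiff hR').mp hP).1 j

theorem pow_id1 {P L : K} (hP : P ≠ 0) (hL : L ≠ 0) {j n m : ℕ} (hn : j + n + 1 = m) :
    (P / L ^ j) ^ n * (L ^ (j + 1) / P) ^ (n + 1) = L ^ m / P := by
  rw [div_pow, div_pow, ← pow_mul, ← pow_mul]
  have h2 : (j + 1) * (n + 1) = j * n + m := by rw [← hn]; ring
  rw [h2, pow_add, pow_succ P]
  have h3 : L ^ (j * n) ≠ 0 := pow_ne_zero _ hL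
  have h4 : P ^ n ≠ 0 := pow_ne_zero _ hP
  field_simp

theorem pow_id2 {P L : K} (hP : P ≠ 0) (hL : L ≠ 0) (j : ℕ) :
    (P / L ^ j) ^ (j + 1) * (L ^ (j + 1) / P) ^ j = P := by
  rw [div_pow, div_pow, ← pow_mul, ← pow_mul, mul_comm (j + 1) j, pow_succ P]
  have h3 : L ^ (j * (j + 1)) ≠ 0 := pow_ne_zero _ hL
  have h4 : P ^ j ≠ 0 := pow_ne_zero _ hP
  field_simp

theorem pow_id3 {P L : K} (hP : P ≠ 0) (hL : L ≠ 0) (j : ℕ) :
    (P / L ^ j) * (L ^ (j + 1) / P) = L := by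
  rw [pow_succ]
  have h3 : L ^ j ≠ 0 := pow_ne_zero _ hL
  field_simp

/-- Region T1. -/
theorem good_T1 {p : ℕ} {a : ι → ℤ} {x : ι → K} {i l₀ : ι} (hl₀ : l₀ ≠ i) {𝒱 : Finset (ι → ℤ)}
    (hB : Base p a x)
    (hi : ∀ j, V.valuation (x j) ≤ V.valuation (x i)) (hv : V.valuation (p : K) < 1)
    (hother : ∀ c' ∈ 𝒱, ∃ g ∈ mS p x c', V.valuation (x i) ≤ V.valuation g)
    (hG : V.valuation (aeval (fun j => x j / x i) (Gp hB.hp a)) < 1)
    (hnc : ¬ ∀ l, resv V (x l / x i) ^ (p - 1) = 1) :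
    Good V (Tot p a x 𝒱) := by
  have hp3 := hB.hp3
  obtain ⟨L, hL⟩ : ∃ L, L = ws 1 a x / x i := ⟨_, rfl⟩
  have hiff : ∀ {R : Subring K}, VLocal V R → (Prin R (Tot p a x 𝒱) ↔ (∀ j, x j / x i ∈ R) ∧
      (∀ j ∈ Finset.Icc 1 (p - 1), Cmp R (p : K) (L ^ j))) := fun {R} hR => by
    rw [hL]
    exact uncentred_iff (R := R) hB.hp hB.hx hB.hF hB.hl hi hother hR
  have hl0 : L ≠ 0 := by rw [hL]; exact div_ne_zero hB.hl (hB.hx i)
  have hp0 := hB.pK
  have hGe : aeval (fun j => x j / x i) (Gp hB.hp a) = -L ^ p / p := by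
    rw [hL]; exact hB.G_eq (hB.hx i)
  have hLp : L ^ p = -(p * aeval (fun j => x j / x i) (Gp hB.hp a)) := by
    rw [hGe]; field_simp
  have hvL : V.valuation L < 1 := by
    have h1 : V.valuation (L ^ p) < 1 := by
      rw [hLp, Valuation.map_neg, map_mul]
      exact mul_lt_one_of_lt_of_le hv hG.le
    rw [map_pow] at h1
    exact (pow_lt_one_iff_of_nonneg (by simp) hB.hp.ne_zero).mp h1
  let P : ℕ → Prop := fun j => V.valuation (p : K) ≤ V.valuation (L ^ j)
  classical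
  set j := Nat.findGreatest P (p - 1) with hj
  have hj0 : P 0 := by
    show V.valuation (p : K) ≤ V.valuation (L ^ 0)
    rw [pow_zero, map_one]; exact hv.le
  have hjP : V.valuation (p : K) ≤ V.valuation (L ^ j) := Nat.findGreatest_spec (Nat.zero_le _) hj0
  have hjle : j ≤ p - 1 := Nat.findGreatest_le _
  obtain ⟨n, hn⟩ : ∃ n, j + n + 1 = p := ⟨p - 1 - j, by omega⟩
  have hbet : V.valuation (L ^ (j + 1) / p) ≤ 1 := by
    rcases Nat.lt_or_ge j (p - 1) with h | h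
    · have h1 : ¬ P (j + 1) := Nat.findGreatest_is_greatest (Nat.lt_succ_self _) (by omega)
      have h2 : V.valuation (L ^ (j + 1)) ≤ V.valuation (p : K) := (not_le.mp h1).le
      rw [map_div₀]
      exact (div_le_one₀ (by rw [Valuation.pos_iff]; exact hp0)).mpr h2
    · have h1 : j + 1 = p := by omega
      have h2 : L ^ (j + 1) / p = -aeval (fun j => x j / x i) (Gp hB.hp a) := by
        rw [h1, hLp]; field_simp
      rw [h2, Valuation.map_neg]
      exact hG.le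
  have hLj : L ^ j ≠ 0 := pow_ne_zero _ hl0
  have halp : V.valuation ((p : K) / L ^ j) ≤ 1 := by
    rw [map_div₀]
    exact (div_le_one₀ (by rw [Valuation.pos_iff]; exact hLj)).mpr hjP
  let z : ι ⊕ Fin 2 → K := Sum.elim (fun j => x j / x i) ![(p : K) / L ^ j, L ^ (j + 1) / p]
  have hz0 : z (Sum.inr 0) = (p : K) / L ^ j := rfl
  have hz1 : z (Sum.inr 1) = L ^ (j + 1) / p := rfl
  have hzv : ∀ s, V.valuation (z s) ≤ 1 := by
    rintro (s | s)
    · exact val_X_le hB.hx hi s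
    · fin_cases s
      · exact halp
      · exact hbet
  have hαβ : z (Sum.inr 0) * z (Sum.inr 1) = L := by
    rw [hz0, hz1]; exact pow_id3 hp0 hl0 j
  refine good_of_relations V _ z hzv ?_ (famT1 hB.hp j n a i) ?_ ?_ ?_ ?_ ?_
  · exact hB.closure_eq (hB.hx i) fun j => Subfield.subset_closure ⟨Sum.inl j, rfl⟩
  · intro k
    fin_cases k
    · show aeval z (X (Sum.inl i) - 1) = 0
      rw [map_sub, aeval_X, map_one]
      show x i / x i - 1 = 0
      rw [div_self (hB.hx i), sub_self]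
    · show aeval z (ws 1 a (fun l => X (Sum.inl l)) - X (Sum.inr 0) * X (Sum.inr 1)) = 0
      rw [map_sub, map_mul, aeval_X, aeval_X, hαβ, ev_ws z Sum.inl]
      show ws 1 a (fun j => x j / x i) - L = 0
      rw [ws_div, pow_one, hL, sub_self]
    · show aeval z (aeval (fun l => X (Sum.inl l) : ι → MvPolynomial (ι ⊕ Fin 2) ℤ) (Gp hB.hp a) +
        X (Sum.inr 0) ^ n * X (Sum.inr 1) ^ (n + 1)) = 0
      rw [map_add, map_mul, map_pow, map_pow, aeval_X, aeval_X, ev_Gp z Sum.inl]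
      show aeval (fun j => x j / x i) (Gp hB.hp a) + _ = 0
      rw [hGe, hz0, hz1, pow_id1 hp0 hl0 hn]
      ring
    · show aeval z (-(X (Sum.inr 0) ^ (j + 1) * X (Sum.inr 1) ^ j) +
        (p : MvPolynomial (ι ⊕ Fin 2) ℤ)) = 0
      rw [map_add, map_neg, map_mul, map_pow, map_pow, aeval_X, aeval_X, map_natCast, hz0, hz1]
      rw [pow_id2 hp0 hl0 j]; ring
  · have h1 : Nat.card (ι ⊕ Fin 2) = Fintype.card ι + 2 := by simp
    rw [h1, Fintype.card_fin]
    push_cast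
    calc (Fintype.card ι : Cardinal.{0}) + 2 ≤ (Algebra.trdeg ℤ K + 2) + 2 := by
          gcongr; exact hB.htr
      _ = Algebra.trdeg ℤ K + 4 := by rw [add_assoc]; norm_num
  · intro hf
    refine indep_T1 hB.hp hp3 hn a hl₀ (cast_p_eq_zero hv) (hB.cast_a_ne hv) _ ?_ hnc hf
    rw [← resv_mul (hzv _) (hzv _), hαβ, resv_eq_zero_iff hvL.le]
    exact hvL
  · intro R hR hzR
    rw [hiff hR]
    refine ⟨fun j => hzR (Sum.inl j), fun m hm => ?_⟩
    have hm' := Finset.mem_Icc.mp hm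
    have hα := hzR (Sum.inr 0)
    have hβ := hzR (Sum.inr 1)
    have hLR : L ∈ R := by rw [← hαβ]; exact R.mul_mem hα hβ
    rw [hz0] at hα
    rw [hz1] at hβ
    rcases Nat.lt_or_ge j m with h | h
    · right
      have h1 : L ^ m / p = (L ^ (j + 1) / p) * L ^ (m - (j + 1)) := by
        have h2 : L ^ m = L ^ (j + 1) * L ^ (m - (j + 1)) := by rw [← pow_add]; congr 1; omega
        rw [h2]; ring
      rw [h1]
      exact R.mul_mem hβ (R.pow_mem hLR _)
    · left
      have h1 : (p : K) / L ^ m = ((p : K) / L ^ j) * L ^ (j - m) := by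
        have h2 : L ^ j = L ^ m * L ^ (j - m) := by rw [← pow_add]; congr 1; omega
        have h3 : L ^ m ≠ 0 := pow_ne_zero _ hl0
        have h4 : L ^ (j - m) ≠ 0 := pow_ne_zero _ hl0
        rw [h2]; field_simp
      rw [h1]
      exact R.mul_mem hα (R.pow_mem hLR _)
  · intro R' hR' hP
    obtain ⟨hXR, hcmp⟩ := (hiff hR').mp hP
    have hβ : L ^ (j + 1) / p ∈ R' := by
      rcases Nat.lt_or_ge j (p - 1) with h | h
      · have h1 := hcmp (j + 1) (Finset.mem_Icc.mpr ⟨by omega, by omega⟩)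
        have h2 : V.valuation (L ^ (j + 1)) ≤ V.valuation (p : K) := by
          have h3 : V.valuation (L ^ (j + 1) / p) ≤ 1 := hbet
          rw [map_div₀] at h3
          exact (div_le_one₀ (by rw [Valuation.pos_iff]; exact hp0)).mp h3
        exact Cmp.div_mem hR' h1.symm (pow_ne_zero _ hl0) hp0 h2
      · have h1 : j + 1 = p := by omega
        have h2 : L ^ (j + 1) / p = -aeval (fun j => x j / x i) (Gp hB.hp a) := by
          rw [h1, hLp]; field_simp
        rw [h2]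
        exact R'.neg_mem (aeval_mem hXR _)
    have hα : (p : K) / L ^ j ∈ R' := by
      rcases Nat.eq_zero_or_pos j with h | h
      · rw [h, pow_zero, div_one]; exact natCast_mem R' p
      · exact (hcmp j (Finset.mem_Icc.mpr ⟨h, hjle⟩)).div_mem hR' hp0 hLj hjP
    rintro (s | s)
    · exact hXR s
    · fin_cases s
      · exact hα
      · exact hβ

end Pool.Agent.H96.Diag
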