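import Pool.Agent.H96.DReg

/-!
# The charts at a centred point
-/

set_option autoImplicit false
set_option linter.unusedSectionVars false

namespace Pool.Agent.H96.Diag

open MvPolynomial Pool.Agent.H96.VL
open scoped Pointwise

variable {K : Type} [Field K] [CharZero K] [DecidableEq K] {ι : Type} [Fintype ι] [DecidableEq ι]
variable {V : ValuationSubring K} {R : Subring K}

/-- The hypotheses at a centred point. -/
structure Ctr (V : ValuationSubring K) (p : ℕ) (a : ι → ℤ) (x : ι → K) (𝒱 : Finset (ι → ℤ))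
    (c b : ι → ℤ) (c₀ : ℤ) (i : ι) (t : K) (y : ι → K) : Prop where
  hB : Base p a x
  hi : ∀ j, V.valuation (x j) ≤ V.valuation (x i)
  hd : CData V p x c i t y
  hc : c ∈ 𝒱
  hother : ∀ c' ∈ 𝒱, c' ≠ c → ∃ g ∈ mS p x c', V.valuation t ≤ V.valuation g
  hpt : PtData p a c b c₀
  hl : ∃ l₀, l₀ ≠ i

section

variable {p : ℕ} {a : ι → ℤ} {x : ι → K} {𝒱 : Finset (ι → ℤ)} {c b : ι → ℤ} {c₀ : ℤ} {i : ι}
  {t : K} {y : ι → K}

theorem Ctr.X_eq (h : Ctr V p a x 𝒱 c b c₀ i t y) (j : ι) : x j / t = c j + y j := by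
  have := h.hd.t0
  rw [h.hd.xj j]; field_simp

theorem Ctr.lam_eq (h : Ctr V p a x 𝒱 c b c₀ i t y) {e : K} {Y : ι → K}
    (hY : ∀ j, y j = e * Y j) : ws 1 a x / t = e * ws 1 a Y := by
  have h1 := ws_div 1 a x t
  rw [pow_one] at h1
  have h2 : (fun j => x j / t) = fun j => (c j : K) + e * Y j := by
    funext j; rw [h.X_eq, hY]
  rw [← h1, h2]
  have h3 : ∑ j, (a j : K) * (c j : K) = 0 := by
    have := congrArg (Int.cast : ℤ → K) h.hpt.lin
    push_cast at this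
    exact this
  simp only [ws, pow_one, mul_add, Finset.sum_add_distrib, h3, zero_add, Finset.mul_sum]
  exact Finset.sum_congr rfl fun j _ => by ring

theorem Ctr.gS_eq (h : Ctr V p a x 𝒱 c b c₀ i t y) :
    gx p a x / t ^ p = -(ws 1 a x / t) ^ p / p := by
  rw [gx]; ring

/-- The fundamental expansion. -/
theorem Ctr.star (h : Ctr V p a x 𝒱 c b c₀ i t y) {e : K} {Y : ι → K}
    (hY : ∀ j, y j = e * Y j) :
    gx p a x / t ^ p = p * BB a b c₀ e Y + e * ws 1 a Y + e ^ 2 * QQ h.hB.hp a c e Y := by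
  rw [gx_div_eq h.hB.hp h.hB.hF h.hd.t0]
  have h2 : (fun j => x j / t) = fun j => (c j : K) + e * Y j := by
    funext j; rw [h.X_eq, hY]
  rw [h2, G_expand h.hB.hp h.hB.hp3 h.hpt]
  simp only [BB, QQ]
  ring

theorem Ctr.closure_eq (h : Ctr V p a x 𝒱 c b c₀ i t y) {s : Set K}
    (hs : ∀ j, y j ∈ Subfield.closure s) : Subfield.closure s = ⊤ := by
  refine h.hB.closure_eq h.hd.t0 fun j => ?_
  rw [h.X_eq]
  exact Subfield.add_mem _ (Subfield.intCast_mem _ _) (hs j)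

theorem ws_mem {d : ℕ} {w : ι → ℤ} {Y : ι → K} (hY : ∀ j, Y j ∈ R) : ws d w Y ∈ R :=
  R.sum_mem fun l _ => R.mul_mem (intCast_mem R _) (R.pow_mem (hY l) _)

theorem paeval_mem {z : K} (hz : z ∈ R) (P : Polynomial ℤ) : Polynomial.aeval z P ∈ R := by
  induction P using Polynomial.induction_on' with
  | add P Q hP hQ => rw [map_add]; exact R.add_mem hP hQ
  | monomial n a =>
    rw [Polynomial.aeval_monomial, eq_intCast (algebraMap ℤ K)]
    exact R.mul_mem (intCast_mem R _) (R.pow_mem hz _)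

theorem HH_mem (hp : p.Prime) {e : K} {Y : ι → K} (he : e ∈ R) (hY : ∀ j, Y j ∈ R) :
    HH hp a c e Y ∈ R := by
  refine R.add_mem (R.sum_mem fun l _ => R.mul_mem (intCast_mem R _) (R.mul_mem
    (R.pow_mem (hY l) _) (paeval_mem (R.mul_mem he (hY l)) _))) (R.mul_mem (R.pow_mem he _)
    (aeval_mem hY _))

theorem QQ_mem (hp : p.Prime) {e : K} {Y : ι → K} (he : e ∈ R) (hY : ∀ j, Y j ∈ R) :
    QQ hp a c e Y ∈ R :=
  R.add_mem (ws_mem hY) (R.mul_mem he (HH_mem hp he hY))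

theorem BB_mem {e : K} {Y : ι → K} (he : e ∈ R) (hY : ∀ j, Y j ∈ R) :
    BB a b c₀ e Y ∈ R :=
  R.add_mem (intCast_mem R _) (R.mul_mem he (ws_mem hY))

/-- Region (i). -/
theorem Ctr.good_I (h : Ctr V p a x 𝒱 c b c₀ i t y)
    (hy : ∀ j, V.valuation (y j) ≤ V.valuation (p : K)) : Good V (Tot p a x 𝒱) := by
  have hp := h.hB.hp
  have hp3 := h.hB.hp3
  have hp0 := h.hB.pK
  have hd := h.hd
  obtain ⟨l₀, hl₀⟩ := h.hl
  have hpv : 0 < V.valuation (p : K) := by rw [Valuation.pos_iff]; exact hp0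
  obtain ⟨z, hz⟩ : ∃ z : ι → K, ∀ j, z j = y j / p := ⟨_, fun j => rfl⟩
  have hY : ∀ j, y j = p * z j := fun j => by rw [hz]; field_simp
  have hlam := h.lam_eq hY
  have hstar := h.star hY
  have hgS : gx p a x / t ^ p = -(p * (p ^ (p - 2) * ws 1 a z ^ p)) := by
    rw [h.gS_eq, hlam, mul_pow]
    have h1 : (p : K) ^ p = p * (p * p ^ (p - 2)) := by
      rw [← pow_succ', ← pow_succ']; congr 1; omega
    rw [h1]
    field_simp
  have hvg : V.valuation (gx p a x / t ^ p) ≤ V.valuation (p : K) := by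
    have hzV : ∀ j, z j ∈ V.toSubring := by
      intro j
      have h1 : V.valuation (z j) ≤ 1 := by
        rw [hz, map_div₀]
        exact (div_le_one₀ hpv).mpr (hy j)
      exact (V.valuation_le_one_iff _).mp h1
    rw [hgS, Valuation.map_neg, map_mul]
    have h2 : (p : K) ^ (p - 2) * ws 1 a z ^ p ∈ V.toSubring :=
      V.toSubring.mul_mem (V.toSubring.pow_mem (natCast_mem _ p) _)
        (V.toSubring.pow_mem (ws_mem hzV) _)
    have h3 : V.valuation ((p : K) ^ (p - 2) * ws 1 a z ^ p) ≤ 1 :=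
      (V.valuation_le_one_iff _).mpr h2
    calc V.valuation (p : K) * V.valuation ((p : K) ^ (p - 2) * ws 1 a z ^ p)
        ≤ V.valuation (p : K) * 1 := mul_le_mul' le_rfl h3
      _ = _ := mul_one _
  have hvp2 : V.valuation ((p : K) ^ 2) ≤ V.valuation (p : K) := by
    rw [pow_two, map_mul]
    calc V.valuation (p : K) * V.valuation (p : K) ≤ V.valuation (p : K) * 1 :=
          mul_le_mul' le_rfl hd.py.le
      _ = _ := mul_one _
  have hiff : ∀ {R : Subring K}, VLocal V R → _ := fun {R} hR =>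
    centred_iff (R := R) (e := p) (n := p) hp h.hB.hx h.hB.hF h.hB.hl h.hi hd h.hc h.hother hp0
      (Or.inl rfl) le_rfl hy (Or.inl rfl) le_rfl hvg hvp2 hR
  refine good_of_relations V _ z ?_ ?_ (fI hp a c b c₀ i) ?_ ?_ ?_ ?_ ?_
  · intro j
    rw [hz, map_div₀]
    exact (div_le_one₀ hpv).mpr (hy j)
  · apply h.closure_eq
    intro j
    rw [hY]
    exact Subfield.mul_mem _ (_root_.natCast_mem _ _) (Subfield.subset_closure ⟨j, rfl⟩)
  · intro k
    fin_cases k
    · show aeval z (X i) = 0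
      rw [aeval_X, hz, hd.yi, zero_div]
    · show aeval z (rI hp a c b c₀) = 0
      have e1 : aeval z (HH hp a c (p : MvPolynomial ι ℤ) (fun j => X j)) = HH hp a c (p : K) z := by
        rw [map_HH]
        simp
      rw [rI]
      simp only [map_add, map_mul, map_pow, map_intCast, map_natCast, e1, ev_ws z (fun l => l)]
      have h1 := hstar
      rw [hgS] at h1
      simp only [BB, QQ] at h1
      apply mul_left_cancel₀ hp0
      linear_combination -h1
  · simpa using h.hB.htr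
  · exact fun hf => indep_I hp hp3 a c b c₀ hl₀ (cast_p_eq_zero hd.py) (h.hB.cast_a_ne hd.py _) _ hf
  · intro R hR hzR
    rw [hiff hR]
    have hpR := natCast_mem R p
    refine ⟨⟨fun j => ?_, ?_, fun j => ?_⟩, ⟨?_, ?_, ?_⟩, fun k hk => Or.inr ?_,
      fun j hj => Or.inr ?_⟩
    · rw [h.X_eq, hY]
      exact R.add_mem (intCast_mem R _) (R.mul_mem hpR (hzR j))
    · rw [div_self hp0]; exact R.one_mem
    · rw [← hz]; exact hzR j
    · rw [div_self hp0]; exact R.one_mem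
    · have : gx p a x / t ^ p / p = -((p : K) ^ (p - 2) * ws 1 a z ^ p) := by
        rw [hgS]; field_simp
      rw [this]
      exact R.neg_mem (R.mul_mem (R.pow_mem hpR _) (R.pow_mem (ws_mem hzR) _))
    · have : (p : K) ^ 2 / p = p := by field_simp
      rw [this]; exact hpR
    · have hk' := Finset.mem_Icc.mp hk
      have h1 : (p : K) ^ (k / 2) * (p : K) ^ (k % 2) / p = p ^ (k / 2 - 1 + k % 2) := by
        rw [← pow_add, div_eq_iff hp0, ← pow_succ]
        congr 1; omega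
      rw [h1]
      exact R.pow_mem hpR _
    · have hj' := Finset.mem_Icc.mp hj
      have h1 : (p : K) ^ (p - 1 - j) * (ws 1 a x / t) ^ j / p = p ^ (p - 2) * ws 1 a z ^ j := by
        rw [hlam, mul_pow, ← mul_assoc, ← pow_add, div_eq_iff hp0]
        have h2 : (p : K) ^ (p - 1 - j + j) = p ^ (p - 2) * p := by
          rw [← pow_succ]; congr 1; omega
        rw [h2]; ring
      rw [h1]
      exact R.mul_mem (R.pow_mem hpR _) (R.pow_mem (ws_mem hzR) _)
  · intro R' hR' hP j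
    rw [hz]
    exact ((hiff hR').mp hP).1.2.2 j

/-- Wrapper for the charts with three extra generators. -/
theorem Ctr.good_wrap (h : Ctr V p a x 𝒱 c b c₀ i t y) {e : K} {Y : ι → K}
    (hY : ∀ j, y j = e * Y j) (u : Fin 3 → K) (hYv : ∀ j, V.valuation (Y j) ≤ 1)
    (huv : ∀ m, V.valuation (u m) ≤ 1) {j₀ : ι}
    (he : e ∈ Subfield.closure (Set.range (Sum.elim Y u)))
    (r₁ r₂ r₃ : MvPolynomial (ι ⊕ Fin 3) ℤ) (hYi : Y i = 0) (hYj : Y j₀ = 1)
    (hr₂ : aeval (Sum.elim Y u) r₂ = 0) (hr₃ : aeval (Sum.elim Y u) r₃ = 0)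
    (hr₁ : aeval (Sum.elim Y u) r₁ = 0)
    (hind : (∀ k, aeval (fun s => resv V (Sum.elim Y u s)) (fam i j₀ r₁ r₂ r₃ k) = 0) →
      Reg.IndepAt (fam i j₀ r₁ r₂ r₃) (RingHom.ker
      (aeval (fun s => resv V (Sum.elim Y u s)) :
        MvPolynomial (ι ⊕ Fin 3) ℤ →ₐ[ℤ] IsLocalRing.ResidueField V)))
    (hprin : ∀ R : Subring K, VLocal V R → (∀ j, Y j ∈ R) → (∀ m, u m ∈ R) → Prin R (Tot p a x 𝒱))
    (hmin : ∀ R' : Subring K, VLocal V R' → Prin R' (Tot p a x 𝒱) →
      (∀ j, Y j ∈ R') ∧ ∀ m, u m ∈ R') : Good V (Tot p a x 𝒱) := by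
  refine good_of_relations V _ (Sum.elim Y u) ?_ ?_ (fam i j₀ r₁ r₂ r₃) ?_ ?_ hind ?_ ?_
  · rintro (s | s)
    · exact hYv s
    · exact huv s
  · apply h.closure_eq
    intro j
    rw [hY]
    exact Subfield.mul_mem _ he (Subfield.subset_closure ⟨Sum.inl j, rfl⟩)
  · rw [fam_zero_iff]
    exact ⟨hYi, hYj, hr₂, hr₃, hr₁⟩
  · have h1 : Nat.card (ι ⊕ Fin 3) = Fintype.card ι + 3 := by simp
    rw [h1, Fintype.card_fin]
    push_cast
    calc (Fintype.card ι : Cardinal.{0}) + 3 ≤ (Algebra.trdeg ℤ K + 2) + 3 := by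
          gcongr; exact h.hB.htr
      _ = Algebra.trdeg ℤ K + 5 := by rw [add_assoc]; norm_num
  · intro R hR hz
    exact hprin R hR (fun j => hz (Sum.inl j)) (fun m => hz (Sum.inr m))
  · intro R' hR' hP
    obtain ⟨h1, h2⟩ := hmin R' hR' hP
    rintro (s | s)
    · exact h1 s
    · exact h2 s

/-- Hypotheses when `y j₀` generates the ideal of the point. -/
structure CtrE (V : ValuationSubring K) (p : ℕ) (y : ι → K) (j₀ : ι) : Prop where
  e0 : y j₀ ≠ 0
  py : V.valuation (p : K) ≤ V.valuation (y j₀)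
  hy : ∀ j, V.valuation (y j) ≤ V.valuation (y j₀)

theorem CtrE.ne {j₀ : ι} (hE : CtrE V p y j₀) (h : Ctr V p a x 𝒱 c b c₀ i t y) : j₀ ≠ i := by
  intro h1
  apply hE.e0
  rw [h1, h.hd.yi]

theorem val_div_le {u w : K} (hw : w ≠ 0) (h : V.valuation u ≤ V.valuation w) :
    V.valuation (u / w) ≤ 1 := by
  rw [map_div₀]
  exact (div_le_one₀ (by rw [Valuation.pos_iff]; exact hw)).mpr h

theorem val_le_of_mem {V : ValuationSubring K} {u : K} (hu : u ∈ V.toSubring) :
    V.valuation u ≤ 1 := (V.valuation_le_one_iff _).mpr hu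

theorem mem_of_val {V : ValuationSubring K} {u : K} (hu : V.valuation u ≤ 1) :
    u ∈ V.toSubring := (V.valuation_le_one_iff _).mp hu

/-- Region (ii), `p` generating `(p, G, e²)`. -/
theorem Ctr.good_IIp (h : Ctr V p a x 𝒱 c b c₀ i t y) {j₀ l₀ : ι} (hE : CtrE V p y j₀)
    (hl₀ : l₀ ≠ i) (hl₀' : l₀ ≠ j₀)
    (hg : V.valuation (gx p a x / t ^ p) ≤ V.valuation (p : K))
    (he2 : V.valuation (y j₀ ^ 2) ≤ V.valuation (p : K)) : Good V (Tot p a x 𝒱) := by
  have hp := h.hB.hp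
  have hp3 := h.hB.hp3
  have hp0 := h.hB.pK
  have hd := h.hd
  obtain ⟨e, he⟩ : ∃ e, e = y j₀ := ⟨_, rfl⟩
  have he0 : e ≠ 0 := by rw [he]; exact hE.e0
  obtain ⟨Y, hYd⟩ : ∃ Y : ι → K, ∀ j, Y j = y j / e := ⟨_, fun j => rfl⟩
  have hY : ∀ j, y j = e * Y j := fun j => by rw [hYd]; field_simp
  have hlam := h.lam_eq hY
  have hstar := h.star hY
  obtain ⟨L, hL⟩ : ∃ L, L = ws 1 a x / t := ⟨_, rfl⟩
  obtain ⟨g, hgd⟩ : ∃ g, g = gx p a x / t ^ p := ⟨_, rfl⟩
  have hgS : g = -L ^ p / p := by rw [hgd, hL]; exact h.gS_eq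
  rw [← hL] at hlam
  rw [← hgd] at hstar hg
  have hYv : ∀ j, V.valuation (Y j) ≤ 1 := fun j => by
    rw [hYd]; exact val_div_le he0 (by rw [he]; exact hE.hy j)
  have hvu0 : V.valuation ((p : K) / e) ≤ 1 := val_div_le he0 (by rw [he]; exact hE.py)
  have hvu1 : V.valuation (e ^ 2 / p) ≤ 1 := val_div_le hp0 (by rw [he]; exact he2)
  have he01 : (p : K) / e * (e ^ 2 / p) = e := by field_simp
  -- the third generator
  have hu2 : L / p = g / p - BB a b c₀ e Y - (e ^ 2 / p) * QQ hp a c e Y := by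
    rw [hstar, hlam]; field_simp; ring
  have hmem2 : ∀ R : Subring K, (∀ j, Y j ∈ R) → (p : K) / e ∈ R → e ^ 2 / p ∈ R → g / p ∈ R →
      L / p ∈ R := by
    intro R h1 h2 h3 h4
    have heR : e ∈ R := by rw [← he01]; exact R.mul_mem h2 h3
    rw [hu2]
    exact R.sub_mem (R.sub_mem h4 (BB_mem heR h1)) (R.mul_mem h3 (QQ_mem hp heR h1))
  have hvu2 : V.valuation (L / p) ≤ 1 := by
    apply val_le_of_mem
    exact hmem2 _ (fun j => mem_of_val (hYv j)) (mem_of_val hvu0) (mem_of_val hvu1)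
      (mem_of_val (val_div_le hp0 hg))
  have hiff : ∀ {R : Subring K}, VLocal V R → (Prin R (Tot p a x 𝒱) ↔
      ((∀ j, x j / t ∈ R) ∧ (p : K) / e ∈ R ∧ (∀ j, y j / e ∈ R)) ∧
      ((p : K) / p ∈ R ∧ g / p ∈ R ∧ e ^ 2 / p ∈ R) ∧
      (∀ k ∈ Finset.Icc 3 (2 * p - 2), Cmp R (p : K) ((p : K) ^ (k / 2) * e ^ (k % 2))) ∧
      (∀ j ∈ Finset.Icc 1 (p - 1), Cmp R (p : K) ((p : K) ^ (p - 1 - j) * L ^ j))) := by
    intro R hR
    rw [hgd, hL, he]
    exact centred_iff (R := R) hp h.hB.hx h.hB.hF h.hB.hl h.hi hd h.hc h.hother hE.e0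
      (Or.inr ⟨j₀, rfl⟩) hE.py hE.hy (Or.inl rfl) le_rfl (by rw [← hgd]; exact hg) he2 hR
  refine h.good_wrap hY ![(p : K) / e, e ^ 2 / p, L / p] hYv ?_ (j₀ := j₀) ?_ (r1p p) (r2p a)
    (r3p hp a c b c₀) ?_ ?_ ?_ ?_ ?_ ?_ ?_ ?_
  · intro m
    fin_cases m
    · exact hvu0
    · exact hvu1
    · exact hvu2
  · have h1 : (p : K) / e * (e ^ 2 / p) ∈
        Subfield.closure (Set.range (Sum.elim Y ![(p : K) / e, e ^ 2 / p, L / p])) :=
      Subfield.mul_mem _ (Subfield.subset_closure ⟨Sum.inr 0, rfl⟩)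
        (Subfield.subset_closure ⟨Sum.inr 1, rfl⟩)
    rwa [he01] at h1
  · rw [hYd, hd.yi, zero_div]
  · rw [hYd, ← he, div_self he0]
  · rw [r2p, map_sub, map_mul, aeval_X, aeval_X, ev_ws _ Sum.inl]
    show ws 1 a Y - (p : K) / e * (L / p) = 0
    rw [hlam]; field_simp; ring
  · rw [r3p, map_add, map_add, map_add, map_mul, map_mul, map_mul, map_BB, map_QQ, map_mul, map_pow,
      map_pow, map_natCast, aeval_X, aeval_X, aeval_X]
    simp only [aeval_X]
    show L / p + BB a b c₀ ((p : K) / e * (e ^ 2 / p)) Y + e ^ 2 / p *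
      QQ hp a c ((p : K) / e * (e ^ 2 / p)) Y + p * (p ^ (p - 3) * (L / p) ^ p) = 0
    rw [he01]
    have h1 : (p : K) * (p ^ (p - 3) * (L / p) ^ p) = - (g / p) := by
      rw [hgS, div_pow]
      have h2 : (p : K) ^ p = p ^ (p - 3) * p ^ 3 := by rw [← pow_add]; congr 1; omega
      rw [h2]
      have h3 : (p : K) ^ (p - 3) ≠ 0 := pow_ne_zero _ hp0
      field_simp
    rw [h1, hu2]
    ring
  · rw [r1p, map_add, map_neg, map_mul, map_pow, map_natCast, aeval_X, aeval_X]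
    show -(((p : K) / e) ^ 2 * (e ^ 2 / p)) + p = 0
    field_simp
    ring
  · intro hf
    refine indep_IIp hp hp3 a c b c₀ (hE.ne h) hl₀ hl₀' (cast_p_eq_zero hd.py)
      (h.hB.cast_a_ne hd.py _) _ ?_ hf
    show resv V ((p : K) / e) * resv V (e ^ 2 / p) = 0
    rw [← resv_mul hvu0 hvu1, he01, resv_eq_zero_iff (by rw [he]; exact (hd.hy _).le), he]
    exact hd.hy _
  · intro R hR hYR huR
    have hu0 : (p : K) / e ∈ R := huR 0
    have hu1 : e ^ 2 / p ∈ R := huR 1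
    have hu2R : L / p ∈ R := huR 2
    have heR : e ∈ R := by rw [← he01]; exact R.mul_mem hu0 hu1
    have hpR := natCast_mem R p
    have hLR : L ^ p / p / p ∈ R := by
      have h1 : L ^ p / p / p = p ^ (p - 2) * (L / p) ^ p := by
        rw [div_pow]
        have h2 : (p : K) ^ p = p ^ (p - 2) * p ^ 2 := by rw [← pow_add]; congr 1; omega
        rw [h2]
        have h3 : (p : K) ^ (p - 2) ≠ 0 := pow_ne_zero _ hp0
        field_simp
      rw [h1]
      exact R.mul_mem (R.pow_mem hpR _) (R.pow_mem hu2R _)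
    rw [hiff hR]
    refine ⟨⟨fun j => ?_, hu0, fun j => ?_⟩, ⟨?_, ?_, hu1⟩, fun k hk => Or.inr ?_,
      fun j hj => Or.inr ?_⟩
    · rw [h.X_eq, hY]
      exact R.add_mem (intCast_mem R _) (R.mul_mem heR (hYR j))
    · rw [← hYd]; exact hYR j
    · rw [div_self hp0]; exact R.one_mem
    · have : g / p = -(L ^ p / p / p) := by rw [hgS]; ring
      rw [this]; exact R.neg_mem hLR
    · have hk' := Finset.mem_Icc.mp hk
      have h1 : (p : K) ^ (k / 2) * e ^ (k % 2) / p = p ^ (k / 2 - 1) * e ^ (k % 2) := by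
        have h2 : (p : K) ^ (k / 2) = p ^ (k / 2 - 1) * p := by
          rw [← pow_succ]; congr 1; omega
        rw [h2]; field_simp
      rw [h1]
      exact R.mul_mem (R.pow_mem hpR _) (R.pow_mem heR _)
    · have hj' := Finset.mem_Icc.mp hj
      have h1 : (p : K) ^ (p - 1 - j) * L ^ j / p = p ^ (p - 2) * (L / p) ^ j := by
        rw [div_pow]
        have h2 : (p : K) ^ (p - 1 - j) * p ^ j = p ^ (p - 2) * p := by
          rw [← pow_add, ← pow_succ]; congr 1; omega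
        have h3 : (p : K) ^ j ≠ 0 := pow_ne_zero _ hp0
        field_simp
        linear_combination L ^ j * h2
      rw [h1]
      exact R.mul_mem (R.pow_mem hpR _) (R.pow_mem hu2R _)
  · intro R' hR' hP
    obtain ⟨⟨_, h1, h2⟩, ⟨_, h3, h4⟩, _⟩ := (hiff hR').mp hP
    have hYR : ∀ j, Y j ∈ R' := fun j => by rw [hYd]; exact h2 j
    refine ⟨hYR, fun m => ?_⟩
    fin_cases m
    · exact h1
    · exact h4
    · exact hmem2 R' hYR h1 h4 h3

/-- Region (ii), `G` generating `(p, G, e²)`. -/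
theorem Ctr.good_IIG (h : Ctr V p a x 𝒱 c b c₀ i t y) {j₀ l₀ : ι} (hE : CtrE V p y j₀)
    (hl₀ : l₀ ≠ i) (hl₀' : l₀ ≠ j₀)
    (hpg : V.valuation (p : K) ≤ V.valuation (gx p a x / t ^ p))
    (he2 : V.valuation (y j₀ ^ 2) ≤ V.valuation (gx p a x / t ^ p)) :
    Good V (Tot p a x 𝒱) := by
  have hp := h.hB.hp
  have hp3 := h.hB.hp3
  have hp0 := h.hB.pK
  have hd := h.hd
  obtain ⟨e, he⟩ : ∃ e, e = y j₀ := ⟨_, rfl⟩
  have he0 : e ≠ 0 := by rw [he]; exact hE.e0
  obtain ⟨Y, hYd⟩ : ∃ Y : ι → K, ∀ j, Y j = y j / e := ⟨_, fun j => rfl⟩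
  have hY : ∀ j, y j = e * Y j := fun j => by rw [hYd]; field_simp
  have hlam := h.lam_eq hY
  have hstar := h.star hY
  obtain ⟨L, hL⟩ : ∃ L, L = ws 1 a x / t := ⟨_, rfl⟩
  obtain ⟨g, hgd⟩ : ∃ g, g = gx p a x / t ^ p := ⟨_, rfl⟩
  have hL0 : L ≠ 0 := by rw [hL]; exact div_ne_zero h.hB.hl hd.t0
  have hgS : g = -L ^ p / p := by rw [hgd, hL]; exact h.gS_eq
  have hg0 : g ≠ 0 := by
    rw [hgS, neg_div, neg_ne_zero]
    exact div_ne_zero (pow_ne_zero _ hL0) hp0
  rw [← hL] at hlam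
  rw [← hgd] at hstar hpg he2
  have hYv : ∀ j, V.valuation (Y j) ≤ 1 := fun j => by
    rw [hYd]; exact val_div_le he0 (by rw [he]; exact hE.hy j)
  have hvpe : V.valuation ((p : K) / e) ≤ 1 := val_div_le he0 (by rw [he]; exact hE.py)
  have hve : V.valuation e ≤ 1 := by rw [he]; exact (hd.hy _).le
  have hge : g / e = (p : K) / e * BB a b c₀ e Y + ws 1 a Y + e * QQ hp a c e Y := by
    rw [hstar]; field_simp
  have hmem0 : ∀ R : Subring K, (∀ j, Y j ∈ R) → (p : K) / e ∈ R → e ∈ R → g / e ∈ R := by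
    intro R h1 h2 h3
    rw [hge]
    exact R.add_mem (R.add_mem (R.mul_mem h2 (BB_mem h3 h1)) (ws_mem h1))
      (R.mul_mem h3 (QQ_mem hp h3 h1))
  have hvu0 : V.valuation (g / e) ≤ 1 := by
    apply val_le_of_mem
    exact hmem0 _ (fun j => mem_of_val (hYv j)) (mem_of_val hvpe) (mem_of_val hve)
  have hvu1 : V.valuation (e ^ 2 / g) ≤ 1 := val_div_le hg0 (by rw [he]; exact he2)
  have he01 : g / e * (e ^ 2 / g) = e := by field_simp
  -- the third generator
  have hu2 : L / g = 1 - (p : K) / g * BB a b c₀ e Y - (e ^ 2 / g) * QQ hp a c e Y := by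
    have h1 : L = g - p * BB a b c₀ e Y - e ^ 2 * QQ hp a c e Y := by
      rw [hlam]; linear_combination -hstar
    rw [h1]; field_simp
  have hmem2 : ∀ R : Subring K, (∀ j, Y j ∈ R) → e ∈ R → e ^ 2 / g ∈ R → (p : K) / g ∈ R →
      L / g ∈ R := by
    intro R h1 h2 h3 h4
    rw [hu2]
    exact R.sub_mem (R.sub_mem R.one_mem (R.mul_mem h4 (BB_mem h2 h1)))
      (R.mul_mem h3 (QQ_mem hp h2 h1))
  have hvu2 : V.valuation (L / g) ≤ 1 := by
    apply val_le_of_mem
    exact hmem2 _ (fun j => mem_of_val (hYv j)) (mem_of_val hve) (mem_of_val hvu1)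
      (mem_of_val (val_div_le hg0 hpg))
  have hiff : ∀ {R : Subring K}, VLocal V R → (Prin R (Tot p a x 𝒱) ↔
      ((∀ j, x j / t ∈ R) ∧ (p : K) / e ∈ R ∧ (∀ j, y j / e ∈ R)) ∧
      ((p : K) / g ∈ R ∧ g / g ∈ R ∧ e ^ 2 / g ∈ R) ∧
      (∀ k ∈ Finset.Icc 3 (2 * p - 2), Cmp R (p : K) (g ^ (k / 2) * e ^ (k % 2))) ∧
      (∀ j ∈ Finset.Icc 1 (p - 1), Cmp R (p : K) (g ^ (p - 1 - j) * L ^ j))) := by
    intro R hR
    have h1 := centred_iff (R := R) (e := y j₀) (n := gx p a x / t ^ p) hp h.hB.hx h.hB.hF h.hB.hl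
      h.hi hd h.hc h.hother hE.e0
      (Or.inr ⟨j₀, rfl⟩) hE.py hE.hy (Or.inr (Or.inl rfl)) (by rw [← hgd]; exact hpg) le_rfl
      (by rw [← hgd]; exact he2) hR
    rw [← hgd, ← hL, ← he] at h1
    exact h1
  -- `p` in terms of the generators
  have hpeq : (p : K) = -(g ^ (p - 1) * (L / g) ^ p) := by
    rw [div_pow]
    have h1 : g ^ p = g ^ (p - 1) * g := by rw [← pow_succ]; congr 1; omega
    have h2 : L ^ p = -(p * g) := by rw [hgS]; field_simp
    rw [h1, h2]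
    have h3 : g ^ (p - 1) ≠ 0 := pow_ne_zero _ hg0
    field_simp
  have hgα : (g / e) ^ 2 * (e ^ 2 / g) = g := by field_simp
  refine h.good_wrap hY ![g / e, e ^ 2 / g, L / g] hYv ?_ (j₀ := j₀) ?_ (r1G p) (r2p a)
    (r3G hp a c b c₀) ?_ ?_ ?_ ?_ ?_ ?_ ?_ ?_
  · intro m
    fin_cases m
    · exact hvu0
    · exact hvu1
    · exact hvu2
  · have h1 : g / e * (e ^ 2 / g) ∈
        Subfield.closure (Set.range (Sum.elim Y ![g / e, e ^ 2 / g, L / g])) :=
      Subfield.mul_mem _ (Subfield.subset_closure ⟨Sum.inr 0, rfl⟩)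
        (Subfield.subset_closure ⟨Sum.inr 1, rfl⟩)
    rwa [he01] at h1
  · rw [hYd, hd.yi, zero_div]
  · rw [hYd, ← he, div_self he0]
  · rw [r2p, map_sub, map_mul, aeval_X, aeval_X, ev_ws _ Sum.inl]
    show ws 1 a Y - g / e * (L / g) = 0
    rw [hlam]; field_simp; ring
  · rw [r3G, map_add, map_sub, map_sub, map_mul, map_mul, map_mul, map_BB, map_QQ, map_mul, map_pow,
      map_pow, map_one, map_mul, map_pow, aeval_X, aeval_X, aeval_X]
    simp only [aeval_X]
    show L / g - 1 - ((g / e) ^ 2 * (e ^ 2 / g)) ^ (p - 2) * (L / g) ^ p *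
      BB a b c₀ (g / e * (e ^ 2 / g)) Y + e ^ 2 / g *
      QQ hp a c (g / e * (e ^ 2 / g)) Y = 0
    rw [he01, hgα]
    have h1 : g ^ (p - 2) * (L / g) ^ p = -(p / g) := by
      have h2 : g ^ (p - 1) = g ^ (p - 2) * g := by rw [← pow_succ]; congr 1; omega
      have h3 := hpeq
      rw [h2] at h3
      have h4 : (p : K) / g = -(g ^ (p - 2) * (L / g) ^ p) := by
        rw [div_eq_iff hg0]; linear_combination h3
      rw [h4]; ring
    rw [h1, hu2]
    ring
  · rw [r1G, map_add, map_mul, map_pow, map_mul, map_pow, map_pow, map_natCast, aeval_X, aeval_X,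
      aeval_X]
    show ((g / e) ^ 2 * (e ^ 2 / g)) ^ (p - 1) * (L / g) ^ p + p = 0
    rw [hgα]
    linear_combination hpeq
  · intro hf
    refine indep_IIG hp hp3 a c b c₀ (hE.ne h) hl₀ hl₀' (cast_p_eq_zero hd.py)
      (h.hB.cast_a_ne hd.py _) _ ?_ hf
    show resv V (g / e) * resv V (e ^ 2 / g) = 0
    rw [← resv_mul hvu0 hvu1, he01, resv_eq_zero_iff hve, he]
    exact hd.hy _
  · intro R hR hYR huR
    have hu0 : g / e ∈ R := huR 0
    have hu1 : e ^ 2 / g ∈ R := huR 1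
    have hu2R : L / g ∈ R := huR 2
    have heR : e ∈ R := by rw [← he01]; exact R.mul_mem hu0 hu1
    have hgR : g ∈ R := by rw [← hgα]; exact R.mul_mem (R.pow_mem hu0 _) hu1
    have hpdiv : ∀ m, m ≤ p - 1 → (p : K) / g ^ m = -(g ^ (p - 1 - m) * (L / g) ^ p) := by
      intro m hm
      rw [div_eq_iff (pow_ne_zero _ hg0)]
      have h1 : g ^ (p - 1) = g ^ (p - 1 - m) * g ^ m := by rw [← pow_add]; congr 1; omega
      have h3 := hpeq
      rw [h1] at h3
      linear_combination h3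
    have hpdivR : ∀ m, m ≤ p - 1 → (p : K) / g ^ m ∈ R := by
      intro m hm
      rw [hpdiv m hm]
      exact R.neg_mem (R.mul_mem (R.pow_mem hgR _) (R.pow_mem hu2R _))
    rw [hiff hR]
    refine ⟨⟨fun j => ?_, ?_, fun j => ?_⟩, ⟨?_, ?_, hu1⟩, fun k hk => Or.inl ?_,
      fun j hj => Or.inl ?_⟩
    · rw [h.X_eq, hY]
      exact R.add_mem (intCast_mem R _) (R.mul_mem heR (hYR j))
    · have h1 : (p : K) / e = (p / g ^ 1) * (g / e) := by rw [pow_one]; field_simp
      rw [h1]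
      exact R.mul_mem (hpdivR 1 (by omega)) hu0
    · rw [← hYd]; exact hYR j
    · have h1 := hpdivR 1 (by omega)
      rwa [pow_one] at h1
    · rw [div_self hg0]; exact R.one_mem
    · have hk' := Finset.mem_Icc.mp hk
      rcases Nat.mod_two_eq_zero_or_one k with hk2 | hk2
      · rw [hk2, pow_zero, mul_one]
        exact hpdivR _ (by omega)
      · rw [hk2, pow_one]
        have h1 : (p : K) / (g ^ (k / 2) * e) = (p / g ^ (k / 2 + 1)) * (g / e) := by
          rw [pow_succ]; field_simp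
        rw [h1]
        exact R.mul_mem (hpdivR _ (by omega)) hu0
    · have hj' := Finset.mem_Icc.mp hj
      have h1 : (p : K) / (g ^ (p - 1 - j) * L ^ j) = -((L / g) ^ (p - j)) := by
        have h2 : L ^ j = g ^ j * (L / g) ^ j := by rw [← mul_pow]; congr 1; field_simp
        have h3 : g ^ (p - 1 - j) * g ^ j = g ^ (p - 1) := by rw [← pow_add]; congr 1; omega
        have h4 : (L / g) ^ p = (L / g) ^ (p - j) * (L / g) ^ j := by
          rw [← pow_add]; congr 1; omega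
        have h5 : (L / g) ^ j ≠ 0 := pow_ne_zero _ (div_ne_zero hL0 hg0)
        have h6 : g ^ (p - 1) ≠ 0 := pow_ne_zero _ hg0
        rw [h2, ← mul_assoc, h3, div_eq_iff (mul_ne_zero h6 h5)]
        have h7 := hpeq
        rw [h4] at h7
        linear_combination h7
      rw [h1]
      exact R.neg_mem (R.pow_mem hu2R _)
  · intro R' hR' hP
    obtain ⟨⟨hXR, h1, h2⟩, ⟨h5, h3, h4⟩, _⟩ := (hiff hR').mp hP
    have hYR : ∀ j, Y j ∈ R' := fun j => by rw [hYd]; exact h2 j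
    have heR : e ∈ R' := by
      have h6 := h.X_eq j₀
      have : e = x j₀ / t - c j₀ := by rw [h6, he]; ring
      rw [this]
      exact R'.sub_mem (hXR _) (intCast_mem R' _)
    refine ⟨hYR, fun m => ?_⟩
    fin_cases m
    · exact hmem0 R' hYR h1 heR
    · exact h4
    · exact hmem2 R' hYR heR h4 h5

end

end Pool.Agent.H96.Diag
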