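import Pool.Agent.H96.DReg2

/-!
# The charts at a centred point, part 2
-/

set_option autoImplicit false
set_option linter.unusedSectionVars false

namespace Pool.Agent.H96.Diag

open MvPolynomial Pool.Agent.H96.VL
open scoped Pointwise

variable {K : Type} [Field K] [CharZero K] [DecidableEq K] {ι : Type} [Fintype ι] [DecidableEq ι]
variable {V : ValuationSubring K} {R : Subring K}
variable {p : ℕ} {a : ι → ℤ} {x : ι → K} {𝒱 : Finset (ι → ℤ)} {c b : ι → ℤ} {c₀ : ℤ} {i : ι}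
  {t : K} {y : ι → K}

/-- Region (ii) with parameter `m`. -/
theorem Ctr.good_IIk (h : Ctr V p a x 𝒱 c b c₀ i t y) {j₀ l₀ : ι} (hE : CtrE V p y j₀)
    (hl₀ : l₀ ≠ i) (hl₀' : l₀ ≠ j₀) {m : ℕ} (hm2 : 2 ≤ m) (hm3 : m ≤ 2 * p - 3)
    (hpm : V.valuation (p : K) ≤ V.valuation (y j₀ ^ m))
    (hmp : V.valuation (y j₀ ^ (m + 1)) ≤ V.valuation (p : K))
    (hpe2 : V.valuation (p : K) ≤ V.valuation (y j₀ ^ 2))
    (hge2 : V.valuation (gx p a x / t ^ p) ≤ V.valuation (y j₀ ^ 2)) :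
    Good V (Tot p a x 𝒱) := by
  have hp := h.hB.hp
  have hp3 := h.hB.hp3
  have hp0 := h.hB.pK
  have hd := h.hd
  obtain ⟨e, he⟩ : ∃ e, e = y j₀ := ⟨_, rfl⟩
  have he0 : e ≠ 0 := by rw [he]; exact hE.e0
  have hem : ∀ k : ℕ, e ^ k ≠ 0 := fun k => pow_ne_zero _ he0
  obtain ⟨Y, hYd⟩ : ∃ Y : ι → K, ∀ j, Y j = y j / e := ⟨_, fun j => rfl⟩
  have hY : ∀ j, y j = e * Y j := fun j => by rw [hYd]; field_simp
  have hlam := h.lam_eq hY
  have hstar := h.star hY
  obtain ⟨L, hL⟩ : ∃ L, L = ws 1 a x / t := ⟨_, rfl⟩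
  obtain ⟨g, hgd⟩ : ∃ g, g = gx p a x / t ^ p := ⟨_, rfl⟩
  have hL0 : L ≠ 0 := by rw [hL]; exact div_ne_zero h.hB.hl hd.t0
  have hgS : g = -L ^ p / p := by rw [hgd, hL]; exact h.gS_eq
  rw [← hL] at hlam
  rw [← hgd] at hstar hge2
  have hYv : ∀ j, V.valuation (Y j) ≤ 1 := fun j => by
    rw [hYd]; exact val_div_le he0 (by rw [he]; exact hE.hy j)
  have hve : V.valuation e ≤ 1 := by rw [he]; exact (hd.hy _).le
  have hvu0 : V.valuation ((p : K) / e ^ m) ≤ 1 := val_div_le (hem m) (by rw [he]; exact hpm)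
  have hvu1 : V.valuation (e ^ (m + 1) / p) ≤ 1 := val_div_le hp0 (by rw [he]; exact hmp)
  have he01 : (p : K) / e ^ m * (e ^ (m + 1) / p) = e := pow_id3 hp0 he0 m
  -- the third generator
  have hu2 : L / e ^ 2 = g / e ^ 2 - (p : K) / e ^ 2 * BB a b c₀ e Y - QQ hp a c e Y := by
    have h1 : L = g - p * BB a b c₀ e Y - e ^ 2 * QQ hp a c e Y := by
      rw [hlam]; linear_combination -hstar
    rw [h1]; field_simp
  have hmem2 : ∀ R : Subring K, (∀ j, Y j ∈ R) → e ∈ R → g / e ^ 2 ∈ R → (p : K) / e ^ 2 ∈ R →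
      L / e ^ 2 ∈ R := by
    intro R h1 h2 h3 h4
    rw [hu2]
    exact R.sub_mem (R.sub_mem h3 (R.mul_mem h4 (BB_mem h2 h1))) (QQ_mem hp h2 h1)
  have hvu2 : V.valuation (L / e ^ 2) ≤ 1 := by
    apply val_le_of_mem
    exact hmem2 _ (fun j => mem_of_val (hYv j)) (mem_of_val hve)
      (mem_of_val (val_div_le (hem 2) (by rw [he] at *; exact hge2)))
      (mem_of_val (val_div_le (hem 2) (by rw [he]; exact hpe2)))
  have hiff : ∀ {R : Subring K}, VLocal V R → (Prin R (Tot p a x 𝒱) ↔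
      ((∀ j, x j / t ∈ R) ∧ (p : K) / e ∈ R ∧ (∀ j, y j / e ∈ R)) ∧
      ((p : K) / e ^ 2 ∈ R ∧ g / e ^ 2 ∈ R ∧ e ^ 2 / e ^ 2 ∈ R) ∧
      (∀ k ∈ Finset.Icc 3 (2 * p - 2), Cmp R (p : K) ((e ^ 2) ^ (k / 2) * e ^ (k % 2))) ∧
      (∀ j ∈ Finset.Icc 1 (p - 1), Cmp R (p : K) ((e ^ 2) ^ (p - 1 - j) * L ^ j))) := by
    intro R hR
    have h1 := centred_iff (R := R) (e := y j₀) (n := y j₀ ^ 2) hp h.hB.hx h.hB.hF h.hB.hl
      h.hi hd h.hc h.hother hE.e0
      (Or.inr ⟨j₀, rfl⟩) hE.py hE.hy (Or.inr (Or.inr rfl)) hpe2 (by rw [← hgd]; exact hge2)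
      le_rfl hR
    rw [← hgd, ← hL, ← he] at h1
    exact h1
  have hek : ∀ k : ℕ, (e ^ 2) ^ (k / 2) * e ^ (k % 2) = e ^ k := by
    intro k
    rw [← pow_mul, ← pow_add, Nat.div_add_mod]
  -- `p` and `g` in terms of the generators
  have hpeq : (p : K) / e ^ m * e ^ m = p := div_mul_cancel₀ _ (hem m)
  have hgeq : g / e ^ 2 = -(e ^ (2 * p - 3 - m) * (e ^ (m + 1) / p) * (L / e ^ 2) ^ p) := by
    rw [hgS, div_pow, ← pow_mul]
    have h1 : e ^ (2 * p) = e ^ (2 * p - 3 - m) * e ^ (m + 1) * e ^ 2 := by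
      rw [← pow_add, ← pow_add]; congr 1; omega
    rw [h1]
    have h2 := hem (2 * p - 3 - m)
    have h3 := hem (m + 1)
    field_simp
  have hpe2eq : (p : K) / e ^ 2 = (p : K) / e ^ m * e ^ (m - 2) := by
    have h1 : e ^ m = e ^ (m - 2) * e ^ 2 := by rw [← pow_add]; congr 1; omega
    rw [h1]
    have h2 := hem (m - 2)
    field_simp
  refine h.good_wrap hY ![(p : K) / e ^ m, e ^ (m + 1) / p, L / e ^ 2] hYv ?_ (j₀ := j₀) ?_
    (r1k p m) (r2k a) (r3k hp m a c b c₀) ?_ ?_ ?_ ?_ ?_ ?_ ?_ ?_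
  · intro m
    fin_cases m
    · exact hvu0
    · exact hvu1
    · exact hvu2
  · have h1 : (p : K) / e ^ m * (e ^ (m + 1) / p) ∈
        Subfield.closure (Set.range (Sum.elim Y ![(p : K) / e ^ m, e ^ (m + 1) / p, L / e ^ 2])) :=
      Subfield.mul_mem _ (Subfield.subset_closure ⟨Sum.inr 0, rfl⟩)
        (Subfield.subset_closure ⟨Sum.inr 1, rfl⟩)
    rwa [he01] at h1
  · rw [hYd, hd.yi, zero_div]
  · rw [hYd, ← he, div_self he0]
  · rw [r2k, map_sub, map_mul, map_mul, aeval_X, aeval_X, aeval_X, ev_ws _ Sum.inl]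
    show ws 1 a Y - (p : K) / e ^ m * (e ^ (m + 1) / p) * (L / e ^ 2) = 0
    rw [he01, hlam]; field_simp; ring
  · rw [r3k, map_add, map_add, map_add, map_mul, map_mul, map_mul, map_mul, map_BB, map_QQ,
      map_pow, map_pow, map_pow, map_mul, aeval_X, aeval_X, aeval_X]
    simp only [aeval_X]
    show L / e ^ 2 + ((p : K) / e ^ m * (e ^ (m + 1) / p)) ^ (2 * p - 3 - m) * (e ^ (m + 1) / p) *
      (L / e ^ 2) ^ p + (p : K) / e ^ m * ((p : K) / e ^ m * (e ^ (m + 1) / p)) ^ (m - 2) *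
      BB a b c₀ ((p : K) / e ^ m * (e ^ (m + 1) / p)) Y +
      QQ hp a c ((p : K) / e ^ m * (e ^ (m + 1) / p)) Y = 0
    rw [he01]
    have h1 := hgeq
    have h2 := hu2
    rw [hpe2eq] at h2
    linear_combination h2 + h1
  · rw [r1k, map_add, map_neg, map_mul, map_pow, map_mul, map_natCast, aeval_X, aeval_X]
    show -((p : K) / e ^ m * ((p : K) / e ^ m * (e ^ (m + 1) / p)) ^ m) + p = 0
    rw [he01, hpeq]
    ring
  · intro hf
    refine indep_IIk hp hm2 a c b c₀ (hE.ne h) hl₀ hl₀' (cast_p_eq_zero hd.py)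
      (h.hB.cast_a_ne hd.py _) _ ?_ hf
    show resv V ((p : K) / e ^ m) * resv V (e ^ (m + 1) / p) = 0
    rw [← resv_mul hvu0 hvu1, he01, resv_eq_zero_iff hve, he]
    exact hd.hy _
  · intro R hR hYR huR
    have hu0 : (p : K) / e ^ m ∈ R := huR 0
    have hu1 : e ^ (m + 1) / p ∈ R := huR 1
    have hu2R : L / e ^ 2 ∈ R := huR 2
    have heR : e ∈ R := by rw [← he01]; exact R.mul_mem hu0 hu1
    have hpk : ∀ k, k ≤ m → (p : K) / e ^ k ∈ R := by
      intro k hk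
      have h1 : (p : K) / e ^ k = (p : K) / e ^ m * e ^ (m - k) := by
        have h1 : e ^ m = e ^ (m - k) * e ^ k := by rw [← pow_add]; congr 1; omega
        rw [h1]
        have h2 := hem (m - k)
        have h3 := hem k
        field_simp
      rw [h1]
      exact R.mul_mem hu0 (R.pow_mem heR _)
    have hkp : ∀ k, m + 1 ≤ k → e ^ k / (p : K) ∈ R := by
      intro k hk
      have h1 : e ^ k / (p : K) = e ^ (m + 1) / p * e ^ (k - (m + 1)) := by
        have h1 : e ^ k = e ^ (m + 1) * e ^ (k - (m + 1)) := by rw [← pow_add]; congr 1; omega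
        rw [h1]; ring
      rw [h1]
      exact R.mul_mem hu1 (R.pow_mem heR _)
    rw [hiff hR]
    refine ⟨⟨fun j => ?_, ?_, fun j => ?_⟩, ⟨?_, ?_, ?_⟩, fun k hk => ?_,
      fun j hj => Or.inr ?_⟩
    · rw [h.X_eq, hY]
      exact R.add_mem (intCast_mem R _) (R.mul_mem heR (hYR j))
    · have h1 := hpk 1 (by omega)
      rwa [pow_one] at h1
    · rw [← hYd]; exact hYR j
    · exact hpk 2 hm2
    · rw [hgeq]
      exact R.neg_mem (R.mul_mem (R.mul_mem (R.pow_mem heR _) hu1) (R.pow_mem hu2R _))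
    · rw [div_self (hem 2)]; exact R.one_mem
    · rw [hek]
      rcases Nat.lt_or_ge m k with hk1 | hk1
      · exact Or.inr (hkp k hk1)
      · exact Or.inl (hpk k hk1)
    · have hj' := Finset.mem_Icc.mp hj
      have h1 : (e ^ 2) ^ (p - 1 - j) * L ^ j / p = e ^ (2 * p - 2) / p * (L / e ^ 2) ^ j := by
        rw [div_pow, ← pow_mul, ← pow_mul]
        have h2 : e ^ (2 * p - 2) = e ^ (2 * (p - 1 - j)) * e ^ (2 * j) := by
          rw [← pow_add]; congr 1; omega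
        rw [h2]
        have h3 := hem (2 * j)
        field_simp
      rw [h1]
      exact R.mul_mem (hkp _ (by omega)) (R.pow_mem hu2R _)
  · intro R' hR' hP
    obtain ⟨⟨hXR, h1, h2⟩, ⟨h5, h3, h4⟩, hk, _⟩ := (hiff hR').mp hP
    have hYR : ∀ j, Y j ∈ R' := fun j => by rw [hYd]; exact h2 j
    have heR : e ∈ R' := by
      have h6 := h.X_eq j₀
      have : e = x j₀ / t - c j₀ := by rw [h6, he]; ring
      rw [this]
      exact R'.sub_mem (hXR _) (intCast_mem R' _)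
    refine ⟨hYR, fun n => ?_⟩
    fin_cases n
    · show (p : K) / e ^ m ∈ R'
      rcases Nat.lt_or_ge m 3 with hm | hm
      · have : m = 2 := by omega
        rw [this]; exact h5
      · have h6 := hk m (Finset.mem_Icc.mpr ⟨hm, by omega⟩)
        rw [hek] at h6
        exact h6.div_mem hR' hp0 (hem m) (by rw [he]; exact hpm)
    · show e ^ (m + 1) / (p : K) ∈ R'
      have h6 := hk (m + 1) (Finset.mem_Icc.mpr ⟨by omega, by omega⟩)
      rw [hek] at h6
      exact Cmp.div_mem hR' h6.symm (hem _) hp0 (by rw [he]; exact hmp)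
    · exact hmem2 R' hYR heR h3 h5

/-- Region (iii). -/
theorem Ctr.good_III (h : Ctr V p a x 𝒱 c b c₀ i t y) {j₀ l₀ : ι} (hE : CtrE V p y j₀)
    (hl₀ : l₀ ≠ i) (hl₀' : l₀ ≠ j₀)
    (hpm : V.valuation (p : K) ≤ V.valuation (y j₀ ^ (2 * p - 2)))
    (hpe2 : V.valuation (p : K) ≤ V.valuation (y j₀ ^ 2))
    (hge2 : V.valuation (gx p a x / t ^ p) ≤ V.valuation (y j₀ ^ 2)) :
    Good V (Tot p a x 𝒱) := by
  have hp := h.hB.hp
  have hp3 := h.hB.hp3
  have hp0 := h.hB.pK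
  have hd := h.hd
  obtain ⟨e, he⟩ : ∃ e, e = y j₀ := ⟨_, rfl⟩
  have he0 : e ≠ 0 := by rw [he]; exact hE.e0
  have hem : ∀ k : ℕ, e ^ k ≠ 0 := fun k => pow_ne_zero _ he0
  obtain ⟨Y, hYd⟩ : ∃ Y : ι → K, ∀ j, Y j = y j / e := ⟨_, fun j => rfl⟩
  have hY : ∀ j, y j = e * Y j := fun j => by rw [hYd]; field_simp
  have hlam := h.lam_eq hY
  have hstar := h.star hY
  obtain ⟨L, hL⟩ : ∃ L, L = ws 1 a x / t := ⟨_, rfl⟩
  obtain ⟨g, hgd⟩ : ∃ g, g = gx p a x / t ^ p := ⟨_, rfl⟩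
  have hL0 : L ≠ 0 := by rw [hL]; exact div_ne_zero h.hB.hl hd.t0
  have hgS : g = -L ^ p / p := by rw [hgd, hL]; exact h.gS_eq
  rw [← hL] at hlam
  rw [← hgd] at hstar hge2
  have hYv : ∀ j, V.valuation (Y j) ≤ 1 := fun j => by
    rw [hYd]; exact val_div_le he0 (by rw [he]; exact hE.hy j)
  have hve : V.valuation e ≤ 1 := by rw [he]; exact (hd.hy _).le
  obtain ⟨P, hP⟩ : ∃ P : K, P = p / e ^ (2 * p - 2) := ⟨_, rfl⟩
  obtain ⟨M, hM⟩ : ∃ M : K, M = L / e ^ 2 := ⟨_, rfl⟩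
  have hP0 : P ≠ 0 := by rw [hP]; exact div_ne_zero hp0 (hem _)
  have hM0 : M ≠ 0 := by rw [hM]; exact div_ne_zero hL0 (hem _)
  have hvP : V.valuation P ≤ 1 := by rw [hP]; exact val_div_le (hem _) (by rw [he]; exact hpm)
  -- `M`
  have hu2 : M = g / e ^ 2 - (p : K) / e ^ 2 * BB a b c₀ e Y - QQ hp a c e Y := by
    have h1 : L = g - p * BB a b c₀ e Y - e ^ 2 * QQ hp a c e Y := by
      rw [hlam]; linear_combination -hstar
    rw [hM, h1]; field_simp
  have hvge : V.valuation (g / e ^ 2) ≤ 1 := val_div_le (hem 2) (by rw [he] at *; exact hge2)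
  have hvM : V.valuation M ≤ 1 := by
    apply val_le_of_mem
    have heV := mem_of_val hve
    have hYV : ∀ j, Y j ∈ V.toSubring := fun j => mem_of_val (hYv j)
    rw [hu2]
    exact V.toSubring.sub_mem (V.toSubring.sub_mem (mem_of_val hvge)
      (V.toSubring.mul_mem (mem_of_val (val_div_le (hem 2) (by rw [he]; exact hpe2)))
        (BB_mem heV hYV))) (QQ_mem hp heV hYV)
  -- `g / e ^ 2` and `p`
  have hgeq : g / e ^ 2 = -(M ^ p / P) := by
    rw [hgS, hM, hP, div_pow, ← pow_mul]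
    have h1 : e ^ (2 * p) = e ^ (2 * p - 2) * e ^ 2 := by
      rw [← pow_add]; congr 1; omega
    rw [h1]
    have h2 := hem (2 * p - 2)
    field_simp
  have hpeq : ∀ k, k ≤ 2 * p - 2 → (p : K) / e ^ k = e ^ (2 * p - 2 - k) * P := by
    intro k hk
    rw [hP]
    have h1 : e ^ (2 * p - 2) = e ^ (2 * p - 2 - k) * e ^ k := by
      rw [← pow_add]; congr 1; omega
    rw [h1]
    have h2 := hem (2 * p - 2 - k)
    have h3 := hem k
    field_simp
  have hiff : ∀ {R : Subring K}, VLocal V R → (Prin R (Tot p a x 𝒱) ↔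
      ((∀ j, x j / t ∈ R) ∧ (p : K) / e ∈ R ∧ (∀ j, y j / e ∈ R)) ∧
      ((p : K) / e ^ 2 ∈ R ∧ g / e ^ 2 ∈ R ∧ e ^ 2 / e ^ 2 ∈ R) ∧
      (∀ k ∈ Finset.Icc 3 (2 * p - 2), Cmp R (p : K) ((e ^ 2) ^ (k / 2) * e ^ (k % 2))) ∧
      (∀ j ∈ Finset.Icc 1 (p - 1), Cmp R (p : K) ((e ^ 2) ^ (p - 1 - j) * L ^ j))) := by
    intro R hR
    have h1 := centred_iff (R := R) (e := y j₀) (n := y j₀ ^ 2) hp h.hB.hx h.hB.hF h.hB.hl
      h.hi hd h.hc h.hother hE.e0
      (Or.inr ⟨j₀, rfl⟩) hE.py hE.hy (Or.inr (Or.inr rfl)) hpe2 (by rw [← hgd]; exact hge2)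
      le_rfl hR
    rw [← hgd, ← hL, ← he] at h1
    exact h1
  have hek : ∀ k : ℕ, (e ^ 2) ^ (k / 2) * e ^ (k % 2) = e ^ k := by
    intro k
    rw [← pow_mul, ← pow_add, Nat.div_add_mod]
  have hej : ∀ j, j ≤ p - 1 → (e ^ 2) ^ (p - 1 - j) * L ^ j = e ^ (2 * p - 2) * M ^ j := by
    intro j hj
    rw [hM, div_pow, ← pow_mul, ← pow_mul]
    have h2 : e ^ (2 * p - 2) = e ^ (2 * (p - 1 - j)) * e ^ (2 * j) := by
      rw [← pow_add]; congr 1; omega
    rw [h2]
    have h3 := hem (2 * j)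
    field_simp
  have hpP : (p : K) = e ^ (2 * p - 2) * P := by
    have := hpeq 0 (by omega)
    simpa using this
  have hcmp : ∀ {R : Subring K} (j : ℕ), j ≤ p - 1 →
      (Cmp R (p : K) ((e ^ 2) ^ (p - 1 - j) * L ^ j) ↔ Cmp R P (M ^ j)) := by
    intro R j hj
    rw [hej j hj, hpP, mul_comm (e ^ (2 * p - 2)) P, mul_comm (e ^ (2 * p - 2)) (M ^ j),
      cmp_mul_right (hem _)]
  -- the maximal exponent
  let Q : ℕ → Prop := fun j => V.valuation P ≤ V.valuation (M ^ j)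
  classical
  set j := Nat.findGreatest Q (p - 1) with hj
  have hj0 : Q 0 := by
    show V.valuation P ≤ V.valuation (M ^ 0)
    rw [pow_zero, map_one]; exact hvP
  have hjP : V.valuation P ≤ V.valuation (M ^ j) := Nat.findGreatest_spec (Nat.zero_le _) hj0
  have hjle : j ≤ p - 1 := Nat.findGreatest_le _
  obtain ⟨n, hn⟩ : ∃ n, j + n + 1 = p := ⟨p - 1 - j, by omega⟩
  have hMj : M ^ j ≠ 0 := pow_ne_zero _ hM0
  have halp : V.valuation (P / M ^ j) ≤ 1 := val_div_le hMj hjP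
  have hbet : V.valuation (M ^ (j + 1) / P) ≤ 1 := by
    rcases Nat.lt_or_ge j (p - 1) with h' | h'
    · have h1 : ¬ Q (j + 1) := Nat.findGreatest_is_greatest (Nat.lt_succ_self _) (by omega)
      exact val_div_le hP0 (not_le.mp h1).le
    · have h1 : j + 1 = p := by omega
      have h2 : M ^ (j + 1) / P = -(g / e ^ 2) := by rw [h1, hgeq]; ring
      rw [h2, Valuation.map_neg]
      exact hvge
  have hαβ : P / M ^ j * (M ^ (j + 1) / P) = M := pow_id3 hP0 hM0 j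
  have hαβP : (P / M ^ j) ^ (j + 1) * (M ^ (j + 1) / P) ^ j = P := pow_id2 hP0 hM0 j
  have hαβn : (P / M ^ j) ^ n * (M ^ (j + 1) / P) ^ (n + 1) = M ^ p / P := pow_id1 hP0 hM0 hn
  refine h.good_wrap hY ![e, P / M ^ j, M ^ (j + 1) / P] hYv ?_ (j₀ := j₀) ?_
    (r1t p j) (r2t a) (r3t hp j n a c b c₀) ?_ ?_ ?_ ?_ ?_ ?_ ?_ ?_
  · intro m
    fin_cases m
    · exact hve
    · exact halp
    · exact hbet
  · exact Subfield.subset_closure ⟨Sum.inr 0, rfl⟩
  · rw [hYd, hd.yi, zero_div]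
  · rw [hYd, ← he, div_self he0]
  · rw [r2t, map_sub, map_mul, map_mul, aeval_X, aeval_X, aeval_X, ev_ws _ Sum.inl]
    show ws 1 a Y - e * (P / M ^ j * (M ^ (j + 1) / P)) = 0
    rw [hαβ, hM, hlam]; field_simp; ring
  · rw [r3t, map_add, map_add, map_add, map_mul, map_mul, map_mul, map_mul, map_mul, map_BB, map_QQ,
      map_pow, map_pow, map_pow, map_pow, map_pow, aeval_X, aeval_X, aeval_X]
    simp only [aeval_X]
    show P / M ^ j * (M ^ (j + 1) / P) + (P / M ^ j) ^ n * (M ^ (j + 1) / P) ^ (n + 1) +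
      e ^ (2 * p - 4) * ((P / M ^ j) ^ (j + 1) * (M ^ (j + 1) / P) ^ j * BB a b c₀ e Y) +
      QQ hp a c e Y = 0
    rw [hαβ, hαβn, hαβP]
    have h1 := hpeq 2 (by omega)
    have h2 : 2 * p - 2 - 2 = 2 * p - 4 := by omega
    rw [h2] at h1
    have h3 := hu2
    rw [h1] at h3
    linear_combination h3 + hgeq
  · rw [r1t, map_add, map_neg, map_mul, map_mul, map_pow, map_pow, map_pow, map_natCast, aeval_X,
      aeval_X, aeval_X]
    show -(e ^ (2 * p - 2) * ((P / M ^ j) ^ (j + 1) * (M ^ (j + 1) / P) ^ j)) + (p : K) = 0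
    rw [hαβP]
    linear_combination hpP
  · intro hf
    have hcl : ∀ l, (c l : IsLocalRing.ResidueField V) ^ (p - 1) = 1 := by
      intro l
      have h1 := congrArg (Int.cast : ℤ → IsLocalRing.ResidueField V) (h.hpt.fermat l)
      push_cast at h1
      rw [cast_p_eq_zero hd.py, zero_mul, add_zero] at h1
      exact h1
    have hac : ∑ l, (a l : IsLocalRing.ResidueField V) * (c l : IsLocalRing.ResidueField V) = 0 := by
      have h1 := congrArg (Int.cast : ℤ → IsLocalRing.ResidueField V) h.hpt.lin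
      push_cast at h1
      exact h1
    refine indep_III hp hp3 hn a c b c₀ (hE.ne h) hl₀ hl₀' (cast_p_eq_zero hd.py)
      (h.hB.cast_a_ne hd.py) hcl hac _ ?_ hf
    show resv V e = 0
    rw [resv_eq_zero_iff hve, he]
    exact hd.hy _
  · intro R hR hYR huR
    have heR : e ∈ R := huR 0
    have hα : P / M ^ j ∈ R := huR 1
    have hβ : M ^ (j + 1) / P ∈ R := huR 2
    have hMR : M ∈ R := by rw [← hαβ]; exact R.mul_mem hα hβ
    have hPR : P ∈ R := by
      rw [← hαβP]; exact R.mul_mem (R.pow_mem hα _) (R.pow_mem hβ _)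
    have hpk : ∀ k, k ≤ 2 * p - 2 → (p : K) / e ^ k ∈ R := by
      intro k hk
      rw [hpeq k hk]
      exact R.mul_mem (R.pow_mem heR _) hPR
    rw [hiff hR]
    refine ⟨⟨fun j => ?_, ?_, fun j => ?_⟩, ⟨?_, ?_, ?_⟩, fun k hk => ?_,
      fun m hm => ?_⟩
    · rw [h.X_eq, hY]
      exact R.add_mem (intCast_mem R _) (R.mul_mem heR (hYR j))
    · have h1 := hpk 1 (by omega)
      rwa [pow_one] at h1
    · rw [← hYd]; exact hYR j
    · exact hpk 2 (by omega)
    · rw [hgeq, ← hαβn]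
      exact R.neg_mem (R.mul_mem (R.pow_mem hα _) (R.pow_mem hβ _))
    · rw [div_self (hem 2)]; exact R.one_mem
    · rw [hek]
      exact Or.inl (hpk k (Finset.mem_Icc.mp hk).2)
    · have hm' := Finset.mem_Icc.mp hm
      rw [hcmp m hm'.2]
      rcases Nat.lt_or_ge j m with h' | h'
      · right
        have h1 : M ^ m / P = (M ^ (j + 1) / P) * M ^ (m - (j + 1)) := by
          have h2 : M ^ m = M ^ (j + 1) * M ^ (m - (j + 1)) := by rw [← pow_add]; congr 1; omega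
          rw [h2]; ring
        rw [h1]
        exact R.mul_mem hβ (R.pow_mem hMR _)
      · left
        have h1 : P / M ^ m = (P / M ^ j) * M ^ (j - m) := by
          have h2 : M ^ j = M ^ m * M ^ (j - m) := by rw [← pow_add]; congr 1; omega
          have h3 : M ^ m ≠ 0 := pow_ne_zero _ hM0
          have h4 : M ^ (j - m) ≠ 0 := pow_ne_zero _ hM0
          rw [h2]; field_simp
        rw [h1]
        exact R.mul_mem hα (R.pow_mem hMR _)
  · intro R' hR' hPr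
    obtain ⟨⟨hXR, h1, h2⟩, ⟨h5, h3, h4⟩, hk, hjj⟩ := (hiff hR').mp hPr
    have hYR : ∀ j, Y j ∈ R' := fun j => by rw [hYd]; exact h2 j
    have heR : e ∈ R' := by
      have h6 := h.X_eq j₀
      have : e = x j₀ / t - c j₀ := by rw [h6, he]; ring
      rw [this]
      exact R'.sub_mem (hXR _) (intCast_mem R' _)
    have hα : P / M ^ j ∈ R' := by
      rcases Nat.eq_zero_or_pos j with h' | h'
      · rw [h', pow_zero, div_one, hP]
        have h6 := hk (2 * p - 2) (Finset.mem_Icc.mpr ⟨by omega, le_rfl⟩)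
        rw [hek] at h6
        exact h6.div_mem hR' hp0 (hem _) (by rw [he]; exact hpm)
      · have h6 := hjj j (Finset.mem_Icc.mpr ⟨h', hjle⟩)
        rw [hcmp j hjle] at h6
        exact h6.div_mem hR' hP0 hMj hjP
    have hβ : M ^ (j + 1) / P ∈ R' := by
      rcases Nat.lt_or_ge j (p - 1) with h' | h'
      · have h6 := hjj (j + 1) (Finset.mem_Icc.mpr ⟨by omega, by omega⟩)
        rw [hcmp (j + 1) (by omega)] at h6
        refine Cmp.div_mem hR' h6.symm (pow_ne_zero _ hM0) hP0 ?_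
        have h7 := hbet
        rw [map_div₀] at h7
        exact (div_le_one₀ (by rw [Valuation.pos_iff]; exact hP0)).mp h7
      · have h6 : j + 1 = p := by omega
        have h7 : M ^ (j + 1) / P = -(g / e ^ 2) := by rw [h6, hgeq]; ring
        rw [h7]
        exact R'.neg_mem h3
    refine ⟨hYR, fun n => ?_⟩
    fin_cases n
    · exact heR
    · exact hα
    · exact hβ

end Pool.Agent.H96.Diag
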