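import Pool.Agent.H96.VSys
import Pool.Agent.H96.DExp

/-!
# The linear systems resolving the model of a diagonal hypersurface
-/

set_option autoImplicit false
set_option linter.unusedSectionVars false

namespace Pool.Agent.H96.Diag

open MvPolynomial Pool.Agent.H96.VL
open scoped Pointwise

variable {K : Type} [Field K] [CharZero K] [DecidableEq K] {ι : Type} [Fintype ι] [DecidableEq ι]

/-- The coordinates. -/
def X0 (x : ι → K) : Finset K := Finset.univ.image x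

/-- The linear forms vanishing at the point `c`, and `p`. -/
def mS (p : ℕ) (x : ι → K) (c : ι → ℤ) : Finset K :=
  ({(p : K)} * X0 x ∪ Finset.univ.image (fun jk : ι × ι => c jk.2 * x jk.1 - c jk.1 * x jk.2)).erase 0

/-- The element `G(x)`. -/
def gx (p : ℕ) (a : ι → ℤ) (x : ι → K) : K := -(ws 1 a x) ^ p / p

/-- The ideal `(p, G) + m²`. -/
def J2 (p : ℕ) (a : ι → ℤ) (x : ι → K) (c : ι → ℤ) : Finset K :=
  {(p : K)} * X0 x ^ p ∪ ({gx p a x} ∪ mS p x c ^ 2 * X0 x ^ (p - 2))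

/-- Product of the `m`. -/
def MS (p : ℕ) (x : ι → K) (𝒱 : Finset (ι → ℤ)) : Finset K := ∏ c ∈ 𝒱, mS p x c

/-- Product of the `(p, G) + m²`. -/
def NS (p : ℕ) (a : ι → ℤ) (x : ι → K) (𝒱 : Finset (ι → ℤ)) : Finset K := ∏ c ∈ 𝒱, J2 p a x c

def Jk (p : ℕ) (a : ι → ℤ) (x : ι → K) (𝒱 : Finset (ι → ℤ)) (k : ℕ) : Finset K :=
  {(p : K)} * X0 x ^ (𝒱.card * (p * (k / 2) + k % 2)) ∪
    NS p a x 𝒱 ^ (k / 2) * MS p x 𝒱 ^ (k % 2)

def Jj (p : ℕ) (a : ι → ℤ) (x : ι → K) (𝒱 : Finset (ι → ℤ)) (j : ℕ) : Finset K :=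
  {(p : K)} * X0 x ^ (𝒱.card * (p * (p - 1 - j)) + j) ∪
    NS p a x 𝒱 ^ (p - 1 - j) * {(ws 1 a x) ^ j}

/-- The total system. -/
def Tot (p : ℕ) (a : ι → ℤ) (x : ι → K) (𝒱 : Finset (ι → ℤ)) : Finset K :=
  X0 x * (MS p x 𝒱 * (NS p a x 𝒱 * ((∏ k ∈ Finset.Icc 3 (2 * p - 2), Jk p a x 𝒱 k) *
    ∏ j ∈ Finset.Icc 1 (p - 1), Jj p a x 𝒱 j)))

theorem cmp_mul_right {R : Subring K} {u w z : K} (hz : z ≠ 0) :
    Cmp R (u * z) (w * z) ↔ Cmp R u w := by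
  rw [Cmp, Cmp, mul_div_mul_right _ _ hz, mul_div_mul_right _ _ hz]

variable {V : ValuationSubring K} {R : Subring K}

theorem natCast_mem (R : Subring K) (n : ℕ) : (n : K) ∈ R := _root_.natCast_mem R n

theorem gen_X0 (hR : VLocal V R) {x : ι → K} {t : K} (ht : t ≠ 0) {i : ι}
    (hi : V.valuation (x i) = V.valuation t) (hXR : ∀ j, x j / t ∈ R) : Gen R (X0 x) t := by
  have ht' : V.valuation t ≠ 0 := by rw [Ne, Valuation.zero_iff]; exact ht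
  refine ⟨ht, ?_, x i, Finset.mem_image_of_mem _ (Finset.mem_univ i), ?_, ?_⟩
  · intro g hg
    obtain ⟨j, _, rfl⟩ := Finset.mem_image.mp hg
    exact hXR j
  · have h1 := hR.inv _ (hXR i) (by rw [map_div₀, hi, div_self ht'])
    rwa [inv_div] at h1
  · intro h
    rw [h, map_zero] at hi
    exact ht' hi.symm

/-- The main criterion. -/
theorem prin_Tot_iff (hR : VLocal V R) {p : ℕ} (hp : p ≠ 0) {a : ι → ℤ} {x : ι → K}
    {𝒱 : Finset (ι → ℤ)} {t e n : K} (ht : t ≠ 0) (he : e ≠ 0) (hn : n ≠ 0)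
    (hl : ws 1 a x ≠ 0) (hX : Gen R (X0 x) t)
    (hM : Gen R (MS p x 𝒱) (e * t ^ 𝒱.card)) (hN : Gen R (NS p a x 𝒱) (n * t ^ (p * 𝒱.card))) :
    Prin R (Tot p a x 𝒱) ↔
      (∀ k ∈ Finset.Icc 3 (2 * p - 2), Cmp R (p : K) (n ^ (k / 2) * e ^ (k % 2))) ∧
      (∀ j ∈ Finset.Icc 1 (p - 1), Cmp R (p : K) (n ^ (p - 1 - j) * (ws 1 a x / t) ^ j)) := by
  have hpK : (p : K) ≠ 0 := by exact_mod_cast hp
  have h1 : ∀ k, Prin R (Jk p a x 𝒱 k) ↔ Cmp R (p : K) (n ^ (k / 2) * e ^ (k % 2)) := by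
    intro k
    have g1 : Gen R ({(p : K)} * X0 x ^ (𝒱.card * (p * (k / 2) + k % 2)))
      (p * t ^ (𝒱.card * (p * (k / 2) + k % 2))) := (Gen.singleton hpK).mul (hX.pow _)
    have g2 : Gen R (NS p a x 𝒱 ^ (k / 2) * MS p x 𝒱 ^ (k % 2))
      ((n ^ (k / 2) * e ^ (k % 2)) * t ^ (𝒱.card * (p * (k / 2) + k % 2))) := by
      have h := (hN.pow (k / 2)).mul (hM.pow (k % 2))
      have h2 : (n * t ^ (p * 𝒱.card)) ^ (k / 2) * (e * t ^ 𝒱.card) ^ (k % 2) =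
        (n ^ (k / 2) * e ^ (k % 2)) * t ^ (𝒱.card * (p * (k / 2) + k % 2)) := by
        rw [mul_pow, mul_pow, ← pow_mul, ← pow_mul, mul_add, pow_add]
        have : p * 𝒱.card * (k / 2) = 𝒱.card * (p * (k / 2)) := by ring
        rw [this]
        ring
      rwa [h2] at h
    rw [Jk, prin_union_iff hR g1 g2, cmp_mul_right (pow_ne_zero _ ht)]
  have h2 : ∀ j, Prin R (Jj p a x 𝒱 j) ↔
      Cmp R (p : K) (n ^ (p - 1 - j) * (ws 1 a x / t) ^ j) := by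
    intro j
    have g1 : Gen R ({(p : K)} * X0 x ^ (𝒱.card * (p * (p - 1 - j)) + j))
      (p * t ^ (𝒱.card * (p * (p - 1 - j)) + j)) := (Gen.singleton hpK).mul (hX.pow _)
    have g2 : Gen R (NS p a x 𝒱 ^ (p - 1 - j) * {(ws 1 a x) ^ j})
      ((n ^ (p - 1 - j) * (ws 1 a x / t) ^ j) * t ^ (𝒱.card * (p * (p - 1 - j)) + j)) := by
      have h := (hN.pow (p - 1 - j)).mul (Gen.singleton (R := R) (pow_ne_zero j hl))
      have h2 : (n * t ^ (p * 𝒱.card)) ^ (p - 1 - j) * (ws 1 a x) ^ j =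
        (n ^ (p - 1 - j) * (ws 1 a x / t) ^ j) * t ^ (𝒱.card * (p * (p - 1 - j)) + j) := by
        rw [mul_pow, ← pow_mul, pow_add, div_pow]
        have : p * 𝒱.card * (p - 1 - j) = 𝒱.card * (p * (p - 1 - j)) := by ring
        rw [this]
        field_simp
      rwa [h2] at h
    rw [Jj, prin_union_iff hR g1 g2, cmp_mul_right (pow_ne_zero _ ht)]
  rw [Tot, prin_mul_iff, prin_mul_iff, prin_mul_iff, prin_mul_iff, prin_prod_iff, prin_prod_iff]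
  simp only [h1, h2]
  constructor
  · rintro ⟨_, _, _, h, h'⟩
    exact ⟨h, h'⟩
  · rintro ⟨h, h'⟩
    exact ⟨⟨_, hX⟩, ⟨_, hM⟩, ⟨_, hN⟩, h, h'⟩

theorem mem_mS_p {p : ℕ} (hp : p ≠ 0) {x : ι → K} (hx : ∀ j, x j ≠ 0) (c : ι → ℤ) (j : ι) :
    (p : K) * x j ∈ mS p x c := by
  have hpK : (p : K) ≠ 0 := by exact_mod_cast hp
  rw [mS, Finset.mem_erase]
  refine ⟨mul_ne_zero hpK (hx j), Finset.mem_union_left _ (Finset.mul_mem_mul
    (Finset.mem_singleton_self _) (Finset.mem_image_of_mem _ (Finset.mem_univ j)))⟩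

theorem mem_mS_minor {p : ℕ} {x : ι → K} {c : ι → ℤ} {j l : ι}
    (h : (c l : K) * x j - c j * x l ≠ 0) : (c l : K) * x j - c j * x l ∈ mS p x c := by
  rw [mS, Finset.mem_erase]
  exact ⟨h, Finset.mem_union_right _ (Finset.mem_image.mpr ⟨(j, l), Finset.mem_univ _, rfl⟩)⟩

theorem mS_cases {p : ℕ} {x : ι → K} {c : ι → ℤ} {g : K} (hg : g ∈ mS p x c) :
    g ≠ 0 ∧ ((∃ j, g = p * x j) ∨ ∃ j l, g = (c l : K) * x j - c j * x l) := by
  rw [mS, Finset.mem_erase] at hg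
  refine ⟨hg.1, ?_⟩
  rcases Finset.mem_union.mp hg.2 with h | h
  · obtain ⟨a, ha, b, hb, rfl⟩ := Finset.mem_mul.mp h
    obtain ⟨j, _, rfl⟩ := Finset.mem_image.mp hb
    rw [Finset.mem_singleton] at ha
    exact Or.inl ⟨j, by rw [ha]⟩
  · obtain ⟨⟨j, l⟩, _, rfl⟩ := Finset.mem_image.mp h
    exact Or.inr ⟨j, l, rfl⟩

/-- Away from the point `c`. -/
theorem gen_mS_of_not (hR : VLocal V R) {p : ℕ} {x : ι → K}
    {t : K} (ht : t ≠ 0) (hXR : ∀ j, x j / t ∈ R) {c : ι → ℤ}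
    (hc : ∃ g ∈ mS p x c, V.valuation t ≤ V.valuation g) : Gen R (mS p x c) t := by
  have hmem : ∀ g ∈ mS p x c, g / t ∈ R := by
    intro g hg
    obtain ⟨_, ⟨j, rfl⟩ | ⟨j, l, rfl⟩⟩ := mS_cases hg
    · rw [mul_div_assoc]
      exact R.mul_mem (natCast_mem R p) (hXR j)
    · rw [sub_div, mul_div_assoc, mul_div_assoc]
      exact R.sub_mem (R.mul_mem (intCast_mem R _) (hXR j)) (R.mul_mem (intCast_mem R _) (hXR l))
  obtain ⟨g, hg, hv⟩ := hc
  have ht' : 0 < V.valuation t := by rw [Valuation.pos_iff]; exact ht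
  refine ⟨ht, hmem, g, hg, ?_, (mS_cases hg).1⟩
  have h1 := hR.inv _ (hmem g hg) (by
    apply le_antisymm (hR.le _ (hmem g hg))
    rw [map_div₀]
    exact (one_le_div₀ ht').mpr hv)
  rwa [inv_div] at h1

theorem gx_div_eq {p : ℕ} (hp : p.Prime) {a : ι → ℤ} {x : ι → K} (hF : ws p a x = 0) {t : K}
    (ht : t ≠ 0) : gx p a x / t ^ p = aeval (fun j => x j / t) (Gp hp a) := by
  have hpK : (p : K) ≠ 0 := by exact_mod_cast hp.ne_zero
  have h := Gp_eval hp a (fun j => x j / t)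
  have h1 : ∀ d, ws d a (fun j => x j / t) = ws d a x / t ^ d := by
    intro d
    have : (fun j => x j / t) = fun j => t⁻¹ * x j := by
      funext j; rw [div_eq_mul_inv, mul_comm]
    rw [this, ws_smul, inv_pow, div_eq_mul_inv, mul_comm]
  rw [h1, h1, hF, zero_div, pow_one, div_pow] at h
  have h2 : aeval (fun j => x j / t) (Gp hp a) = -(ws 1 a x ^ p / t ^ p) / p := by
    rw [eq_div_iff hpK]
    linear_combination -h
  rw [h2, gx]
  ring

theorem aeval_mem {X : ι → K} (hX : ∀ j, X j ∈ R) (P : MvPolynomial ι ℤ) : aeval X P ∈ R := by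
  induction P using MvPolynomial.induction_on with
  | C n => rw [aeval_C, eq_intCast (algebraMap ℤ K)]; exact intCast_mem R n
  | add P Q hP hQ => rw [map_add]; exact R.add_mem hP hQ
  | mul_X P i hP => rw [map_mul, aeval_X]; exact R.mul_mem hP (hX i)

theorem gen_J2_of_one {p : ℕ} (hp : p.Prime) {a : ι → ℤ} {x : ι → K}
    (hF : ws p a x = 0) {t : K} (ht : t ≠ 0) (hXR : ∀ j, x j / t ∈ R) (hX : Gen R (X0 x) t)
    {c : ι → ℤ} (hm : Gen R (mS p x c) t) : Gen R (J2 p a x c) (t ^ p) := by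
  have h1 : Gen R (mS p x c ^ 2 * X0 x ^ (p - 2)) (t ^ p) := by
    have h := (hm.pow 2).mul (hX.pow (p - 2))
    rwa [← pow_add, Nat.add_sub_cancel' hp.two_le] at h
  rw [J2]
  refine Gen.union_left (Gen.union_left h1 ?_) ?_
  · intro g hg
    rw [Finset.mem_singleton] at hg
    rw [hg, gx_div_eq hp hF ht]
    exact aeval_mem hXR _
  · intro g hg
    obtain ⟨b, hb, d, hd, rfl⟩ := Finset.mem_mul.mp hg
    rw [Finset.mem_singleton] at hb
    rw [hb, mul_div_assoc]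
    exact R.mul_mem (natCast_mem R p) ((hX.pow p).mem d hd)

theorem gen_MS_NS_of_one (hR : VLocal V R) {p : ℕ} (hp : p.Prime) {a : ι → ℤ} {x : ι → K}
    (hF : ws p a x = 0) {t : K} (ht : t ≠ 0) (hXR : ∀ j, x j / t ∈ R) (hX : Gen R (X0 x) t)
    (𝒱 : Finset (ι → ℤ)) (hc : ∀ c ∈ 𝒱, ∃ g ∈ mS p x c, V.valuation t ≤ V.valuation g) :
    Gen R (MS p x 𝒱) (t ^ 𝒱.card) ∧ Gen R (NS p a x 𝒱) (t ^ (p * 𝒱.card)) := by
  have h1 : ∀ c ∈ 𝒱, Gen R (mS p x c) t := fun c hc' => gen_mS_of_not hR ht hXR (hc c hc')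
  constructor
  · have h := Gen.prod 𝒱 h1
    rwa [Finset.prod_const] at h
  · have h := Gen.prod 𝒱 fun c hc' => gen_J2_of_one hp hF ht hXR hX (h1 c hc')
    rwa [Finset.prod_const, ← pow_mul] at h

end Pool.Agent.H96.Diag
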