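import Pool.Agent.H96.DQ3

/-!
# All valuations prime to `p`
-/

set_option autoImplicit false
set_option linter.unusedSectionVars false

namespace Pool.Agent.H96.Diag

open MvPolynomial Pool.Agent.H96.VL Pool.Agent.H96.Reg
open scoped Pointwise

variable {K : Type} [Field K] [CharZero K] [DecidableEq K] {ι : Type} [Fintype ι] [DecidableEq ι]
variable {V : ValuationSubring K} {R : Subring K}
variable {p : ℕ} {a : ι → ℤ} {x : ι → K} {𝒱 : Finset (ι → ℤ)} {𝒬 : Finset ℕ} {i : ι} {q : ℕ}

/-- `p` and `a_i` are units. -/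
theorem good_T0c (hB : Base p a x) (hai : V.valuation (a i : K) = 1)
    (hi : ∀ j, V.valuation (x j) ≤ V.valuation (x i)) (hv : V.valuation (p : K) = 1) :
    Good V (Tot p a x 𝒱) := by
  have hother : ∀ c' ∈ 𝒱, ∃ g ∈ mS p x c', V.valuation (x i) ≤ V.valuation g := fun c' _ =>
    ⟨_, mem_mS_p hB.hp.ne_zero hB.hx c' i, by rw [map_mul, hv, one_mul]⟩
  have hiff : ∀ {R : Subring K}, VLocal V R → _ := fun {R} hR =>
    uncentred_iff (R := R) hB.hp hB.hx hB.hF hB.hl hi hother hR
  refine good_of_relations V _ (fun j => x j / x i) (val_X_le hB.hx hi) ?_ (famT0 p a i) ?_ ?_ ?_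
    ?_ ?_
  · exact hB.closure_eq (hB.hx i) fun j => Subfield.subset_closure ⟨j, rfl⟩
  · intro k
    fin_cases k
    · show aeval _ (X i - 1) = 0
      rw [map_sub, aeval_X, map_one, div_self (hB.hx i), sub_self]
    · show aeval _ (ws p a (fun l => X l)) = 0
      rw [ev_ws _ (fun l => l), ws_div, hB.hF, zero_div]
  · simpa using hB.htr
  · have hai' : (a i : IsLocalRing.ResidueField V) ≠ 0 := by
      rw [← resv_intCast, resv_ne_zero_iff (val_intCast_le V _)]
      exact hai
    exact fun hf => indep_T0c hB.hp a (cast_p_ne_zero hv) hai' _ hf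
  · intro R hR hz
    rw [hiff hR]
    refine ⟨hz, fun j _ => Or.inr ?_⟩
    exact hR.div_mem (R.pow_mem (lam_mem hz) j) (natCast_mem R p) hv
  · intro R' hR' hP j
    exact ((hiff hR').mp hP).1 j

theorem val_natCast_le (V : ValuationSubring K) (n : ℕ) : V.valuation (n : K) ≤ 1 := by
  have := val_intCast_le V (n : ℤ)
  simpa using this

theorem val_nat_eq_one {n : ℕ} (hn : n ≠ 0)
    (h : ∀ q : ℕ, q.Prime → q ∣ n → V.valuation (q : K) = 1) : V.valuation (n : K) = 1 := by
  induction n using Nat.recOnMul with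
  | zero => exact absurd rfl hn
  | one => simp
  | prime q hq => exact h q hq (dvd_refl q)
  | mul a b ha hb =>
    have ha0 : a ≠ 0 := left_ne_zero_of_mul hn
    have hb0 : b ≠ 0 := right_ne_zero_of_mul hn
    rw [Nat.cast_mul, map_mul, ha ha0 fun q hq hd => h q hq (hd.mul_right b),
      hb hb0 fun q hq hd => h q hq (hd.mul_left a), one_mul]

theorem val_int_eq_one {n : ℤ} (hn : n ≠ 0)
    (h : ∀ q : ℕ, q.Prime → (q : ℤ) ∣ n → V.valuation (q : K) = 1) :
    V.valuation (n : K) = 1 := by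
  have h1 : V.valuation (n.natAbs : K) = 1 :=
    val_nat_eq_one (Int.natAbs_ne_zero.mpr hn) fun q hq hd => h q hq (Int.natCast_dvd.mpr hd)
  rcases Int.natAbs_eq n with h2 | h2
  · rw [h2]; simpa using h1
  · rw [h2, Int.cast_neg, Valuation.map_neg]; simpa using h1

/-- The set of tame primes. -/
structure QSet (p : ℕ) (a : ι → ℤ) (𝒬 : Finset ℕ) : Prop where
  prime : ∀ q ∈ 𝒬, q.Prime
  all : ∀ j (q : ℕ), q.Prime → (q : ℤ) ∣ a j → q ∈ 𝒬
  ne : p ∉ 𝒬

/-- Arithmetic hypotheses on the coefficients. -/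
structure AHyp (a : ι → ℤ) : Prop where
  ha0 : ∀ j, a j ≠ 0
  hsq : ∀ j, Squarefree (a j)
  hgcd : ∀ q : ℕ, q.Prime → ∃ j, ¬ (q : ℤ) ∣ a j

theorem not_dvd_of_ne {q q' : ℕ} (hq : q.Prime) (hq' : q'.Prime) (h : q' ≠ q) :
    ¬ (q : ℤ) ∣ (q' : ℤ) := by
  intro hd
  rw [Int.natCast_dvd_natCast] at hd
  exact h ((Nat.prime_dvd_prime_iff_eq hq hq').mp hd).symm

theorem good_of_val_p (hB : Base p a x) (hA : AHyp a) (hQ : QSet p a 𝒬)
    (hi : ∀ j, V.valuation (x j) ≤ V.valuation (x i)) (hv : V.valuation (p : K) = 1) :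
    Good V (TotQ p a x 𝒱 𝒬) := by
  classical
  by_cases hex : ∃ q ∈ 𝒬, V.valuation (q : K) < 1
  · obtain ⟨q, hq, hqv⟩ := hex
    have hqp := hQ.prime q hq
    have hq' : ∀ q' ∈ 𝒬, q' ≠ q → V.valuation (q' : K) = 1 := by
      intro q' hq'' hne
      have h1 := val_eq_one_of_not_dvd (V := V) hqp hqv (not_dvd_of_ne hqp (hQ.prime q' hq'') hne)
      simpa using h1
    have hctr : ∀ i', (∀ j, V.valuation (x j) ≤ V.valuation (x i')) → QCtr V p a x 𝒬 i' q :=
      fun i' hi' => ⟨hB, hi', hv, hqp, hq, hqv, hq', hA.ha0, hA.hsq⟩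
    obtain ⟨j₁, hj₁⟩ := hA.hgcd q hqp
    obtain ⟨j₀, hj₀, hmax⟩ := Finset.exists_max_image
      (Finset.univ.filter fun j => ¬ (q : ℤ) ∣ a j) (fun j => V.valuation (x j))
      ⟨j₁, Finset.mem_filter.mpr ⟨Finset.mem_univ _, hj₁⟩⟩
    have hj₀' := (Finset.mem_filter.mp hj₀).2
    have hmax' : ∀ j, ¬ (q : ℤ) ∣ a j → V.valuation (x j) ≤ V.valuation (x j₀) := fun j hj =>
      hmax j (Finset.mem_filter.mpr ⟨Finset.mem_univ _, hj⟩)
    rcases (hi j₀).lt_or_eq with hlt | heq
    · have hai : (q : ℤ) ∣ a i := by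
        by_contra hcon
        exact absurd (hmax' i hcon) (not_le.mpr hlt)
      have h := hctr i hi
      have hxi := hB.hx i
      have hxj := hB.hx j₀
      rcases le_total (V.valuation (x j₀)) (V.valuation (q * x i)) with hle | hle
      · exact h.good_0 hai fun j hj => (hmax' j hj).trans hle
      · set e := x j₀ / x i with he
        have he0 : e ≠ 0 := div_ne_zero hxj hxi
        have hxiv : 0 < V.valuation (x i) := by rw [Valuation.pos_iff]; exact hxi
        let P : ℕ → Prop := fun m => V.valuation (q : K) ≤ V.valuation (e ^ m)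
        have hP1 : P 1 := by
          show V.valuation (q : K) ≤ V.valuation (e ^ 1)
          rw [pow_one, he, map_div₀, le_div_iff₀ hxiv, ← map_mul]
          exact hle
        have hp2 := hB.hp.two_le
        set m := Nat.findGreatest P p with hm
        have hmP : V.valuation (q : K) ≤ V.valuation (e ^ m) :=
          Nat.findGreatest_spec (P := P) (m := 1) (by omega) hP1
        have hm1 : 1 ≤ m := Nat.le_findGreatest (by omega) hP1
        have hmle : m ≤ p := Nat.findGreatest_le _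
        rcases hmle.lt_or_eq with hmp | hmp
        · have h1 : ¬ P (m + 1) := Nat.findGreatest_is_greatest (Nat.lt_succ_self _) (by omega)
          have h2 : V.valuation (e ^ (m + 1)) ≤ V.valuation (q : K) := (not_le.mp h1).le
          exact h.good_1 hai hj₀' hmax' hle hlt hm1 (by omega) hmP h2
        · rw [hmp] at hmP
          exact h.good_2 hai hj₀' hmax' hle hlt hmP
    · have h := hctr j₀ fun j => (hi j).trans heq.ge
      exact h.good_A hj₀'
  · push Not at hex
    have hex' : ∀ q ∈ 𝒬, V.valuation (q : K) = 1 := fun q hq =>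
      le_antisymm (val_natCast_le V q) (hex q hq)
    have hai : V.valuation (a i : K) = 1 :=
      val_int_eq_one (hA.ha0 i) fun q hq hd => hex' q (hQ.all i q hq hd)
    exact good_TotQ_of_good hex' hi hB.hx (good_T0c hB hai hi hv)

end Pool.Agent.H96.Diag
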