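import Pool.Agent.H96.DPts

/-!
# All valuations above `p`, and the model
-/

set_option autoImplicit false
set_option linter.unusedSectionVars false

namespace Pool.Agent.H96.Diag

open MvPolynomial Pool.Agent.H96.VL Pool.Agent.H96.Reg
open scoped Pointwise

variable {K : Type} [Field K] [CharZero K] [DecidableEq K] {ι : Type} [Fintype ι] [DecidableEq ι]
variable {V : ValuationSubring K} {R : Subring K}
variable {p : ℕ} {a : ι → ℤ} {x : ι → K} {𝒱 : Finset (ι → ℤ)} {𝒬 : Finset ℕ} {i : ι} {q : ℕ}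
  {c c' b : ι → ℤ} {c₀ : ℤ} {t : K} {y : ι → K}

theorem Ctr.good (h : Ctr V p a x 𝒱 c b c₀ i t y) (hcard : 3 ≤ Fintype.card ι) :
    Good V (Tot p a x 𝒱) := by
  classical
  have hp := h.hB.hp
  have hp3 := h.hB.hp3
  by_cases hI : ∀ j, V.valuation (y j) ≤ V.valuation (p : K)
  · exact h.good_I hI
  push Not at hI
  obtain ⟨j₁, hj₁⟩ := hI
  obtain ⟨j₀, -, hmax⟩ := Finset.exists_max_image Finset.univ (fun j => V.valuation (y j))
    ⟨j₁, Finset.mem_univ _⟩
  have hlt : V.valuation (p : K) < V.valuation (y j₀) := hj₁.trans_le (hmax j₁ (Finset.mem_univ _))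
  have hE : CtrE V p y j₀ := ⟨by
    intro h0
    rw [h0, map_zero] at hlt
    exact not_lt_zero hlt, hlt.le, fun j => hmax j (Finset.mem_univ _)⟩
  obtain ⟨l₀, hl₀⟩ : ∃ l₀, l₀ ∉ ({i, j₀} : Finset ι) := by
    by_contra hcon
    push Not at hcon
    have h1 : (Finset.univ : Finset ι) ⊆ {i, j₀} := fun l _ => hcon l
    have h2 := Finset.card_le_card h1
    have h3 : ({i, j₀} : Finset ι).card ≤ 2 := Finset.card_le_two
    rw [Finset.card_univ] at h2
    omega
  rw [Finset.mem_insert, Finset.mem_singleton, not_or] at hl₀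
  obtain ⟨hli, hlj⟩ := hl₀
  rcases le_total (V.valuation (gx p a x / t ^ p)) (V.valuation (p : K)) with h1 | h1
  · rcases le_total (V.valuation (y j₀ ^ 2)) (V.valuation (p : K)) with h2 | h2
    · exact h.good_IIp hE hli hlj h1 h2
    · have h3 : V.valuation (gx p a x / t ^ p) ≤ V.valuation (y j₀ ^ 2) := h1.trans h2
      let P : ℕ → Prop := fun m => V.valuation (p : K) ≤ V.valuation (y j₀ ^ m)
      set m := Nat.findGreatest P (2 * p - 2) with hm
      have hmP : V.valuation (p : K) ≤ V.valuation (y j₀ ^ m) :=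
        Nat.findGreatest_spec (P := P) (m := 2) (by omega) h2
      have hm2 : 2 ≤ m := Nat.le_findGreatest (by omega) h2
      have hmle : m ≤ 2 * p - 2 := Nat.findGreatest_le _
      rcases hmle.lt_or_eq with hmp | hmp
      · have h4 : ¬ P (m + 1) := Nat.findGreatest_is_greatest (Nat.lt_succ_self _) (by omega)
        have h5 : V.valuation (y j₀ ^ (m + 1)) ≤ V.valuation (p : K) := (not_le.mp h4).le
        exact h.good_IIk hE hli hlj hm2 (by omega) hmP h5 h2 h3
      · rw [hmp] at hmP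
        exact h.good_III hE hli hlj hmP h2 h3
  · rcases le_total (V.valuation (y j₀ ^ 2)) (V.valuation (gx p a x / t ^ p)) with h2 | h2
    · exact h.good_IIG hE hli hlj h1 h2
    · have h3 : V.valuation (p : K) ≤ V.valuation (y j₀ ^ 2) := h1.trans h2
      let P : ℕ → Prop := fun m => V.valuation (p : K) ≤ V.valuation (y j₀ ^ m)
      set m := Nat.findGreatest P (2 * p - 2) with hm
      have hmP : V.valuation (p : K) ≤ V.valuation (y j₀ ^ m) :=
        Nat.findGreatest_spec (P := P) (m := 2) (by omega) h3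
      have hm2 : 2 ≤ m := Nat.le_findGreatest (by omega) h3
      have hmle : m ≤ 2 * p - 2 := Nat.findGreatest_le _
      rcases hmle.lt_or_eq with hmp | hmp
      · have h4 : ¬ P (m + 1) := Nat.findGreatest_is_greatest (Nat.lt_succ_self _) (by omega)
        have h5 : V.valuation (y j₀ ^ (m + 1)) ≤ V.valuation (p : K) := (not_le.mp h4).le
        exact h.good_IIk hE hli hlj hm2 (by omega) hmP h5 h3 h2
      · rw [hmp] at hmP
        exact h.good_III hE hli hlj hmP h3 h2

/-- The data at a centred point. -/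
theorem exists_ctr [NeZero p] {i₀ : ι} (hB : Base p a x) (hv : V.valuation (p : K) < 1)
    (hi : ∀ j, V.valuation (x j) ≤ V.valuation (x i)) (hcard : 3 ≤ Fintype.card ι)
    (hc : c ∈ Pts p a i₀) (h : Centred V p x i c) :
    ∃ b c₀ t y, Ctr V p a x (Pts p a i₀) c b c₀ i t y := by
  have hp := hB.hp
  have hx := hB.hx
  have hxi := hx i
  have hxiv : 0 < V.valuation (x i) := by rw [Valuation.pos_iff]; exact hxi
  obtain ⟨b, c₀, hdat⟩ := Pts_data hp hc
  have hci : V.valuation (c i : K) = 1 := val_eq_one_of_not_dvd hp hv (Pts_not_dvd hc i)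
  have hci0 : (c i : K) ≠ 0 := by
    intro h0; rw [h0, map_zero] at hci; exact zero_ne_one hci
  have hti : V.valuation (x i / c i) = V.valuation (x i) := by rw [map_div₀, hci, div_one]
  refine ⟨b, c₀, x i / c i, fun j => x j / (x i / c i) - c j, hB, hi, ?_, hc, ?_, hdat, ?_⟩
  · refine ⟨div_ne_zero hxi hci0, by field_simp, hci, ?_, ?_, hv, ?_⟩
    · intro j; field_simp; ring
    · show x i / (x i / c i) - c i = 0
      field_simp; ring
    · intro j
      have h1 : x j / (x i / c i) - c j = ((c i : K) * x j - c j * x i) / x i := by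
        field_simp
      show V.valuation (x j / (x i / c i) - c j) < 1
      rw [h1, map_div₀]
      exact (div_lt_one₀ hxiv).mpr (h.minor hx j i)
  · intro c' hc' hne
    rw [hti]
    by_contra hcon
    push Not at hcon
    exact hne (Centred.uniq hp hv hx hi hc' hc hcon h)
  · obtain ⟨l₀, hl₀⟩ : ∃ l₀, l₀ ∉ ({i} : Finset ι) := by
      by_contra hcon
      push Not at hcon
      have h1 : (Finset.univ : Finset ι) ⊆ {i} := fun l _ => hcon l
      have h2 := Finset.card_le_card h1
      rw [Finset.card_univ, Finset.card_singleton] at h2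
      omega
    exact ⟨l₀, by simpa using hl₀⟩

theorem good_of_val_p_lt [NeZero p] {i₀ : ι} (hB : Base p a x) (hv : V.valuation (p : K) < 1)
    (hi : ∀ j, V.valuation (x j) ≤ V.valuation (x i)) (hcard : 3 ≤ Fintype.card ι) :
    Good V (Tot p a x (Pts p a i₀)) := by
  by_cases hex : ∃ c ∈ Pts p a i₀, Centred V p x i c
  · obtain ⟨c, hc, h⟩ := hex
    obtain ⟨b, c₀, t, y, hctr⟩ := exists_ctr hB hv hi hcard hc h
    exact hctr.good hcard
  · push Not at hex
    have hother : ∀ c' ∈ Pts p a i₀, ∃ g ∈ mS p x c', V.valuation (x i) ≤ V.valuation g := by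
      intro c' hc'
      have h1 := hex c' hc'
      rw [Centred] at h1
      push Not at h1
      exact h1
    have hGle : V.valuation (aeval (fun j => x j / x i) (Gp hB.hp a)) ≤ 1 :=
      (resv_aeval _ (val_X_le hB.hx hi) _).1
    rcases hGle.lt_or_eq with hG | hG
    · obtain ⟨l₀, hl₀⟩ : ∃ l₀, l₀ ∉ ({i} : Finset ι) := by
        by_contra hcon
        push Not at hcon
        have h1 : (Finset.univ : Finset ι) ⊆ {i} := fun l _ => hcon l
        have h2 := Finset.card_le_card h1
        rw [Finset.card_univ, Finset.card_singleton] at h2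
        omega
      have hl₀' : l₀ ≠ i := by simpa using hl₀
      refine good_T1 hl₀' hB hi hv hother hG ?_
      intro hnc
      obtain ⟨c, hc, h⟩ := exists_centred i₀ hB hv hi hG hnc
      exact hex c hc h
    · exact good_T0b hB hi hv hother hG

/-- Every valuation is good. -/
theorem good_all [NeZero p] (i₀ : ι) (hB : Base p a x) (hA : AHyp a) (hQ : QSet p a 𝒬)
    (hcard : 3 ≤ Fintype.card ι) (V : ValuationSubring K) :
    Good V (TotQ p a x (Pts p a i₀) 𝒬) := by
  obtain ⟨i, -, hi⟩ := Finset.exists_max_image Finset.univ (fun j => V.valuation (x j))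
    ⟨i₀, Finset.mem_univ _⟩
  have hi' : ∀ j, V.valuation (x j) ≤ V.valuation (x i) := fun j => hi j (Finset.mem_univ _)
  rcases (val_natCast_le V p).lt_or_eq with hv | hv
  · have hq : ∀ q ∈ 𝒬, V.valuation (q : K) = 1 := by
      intro q hq
      have hne : q ≠ p := by rintro rfl; exact hQ.ne hq
      have := val_eq_one_of_not_dvd (V := V) hB.hp hv (not_dvd_of_ne hB.hp (hQ.prime q hq) hne)
      simpa using this
    exact good_TotQ_of_good hq hi' hB.hx (good_of_val_p_lt hB hv hi' hcard)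
  · exact good_of_val_p hB hA hQ hi' hv

/-! ### Nonvanishing -/

theorem zero_notMem_mul {s t : Finset K} (hs : (0 : K) ∉ s) (ht : (0 : K) ∉ t) :
    (0 : K) ∉ s * t := by
  intro h
  obtain ⟨b, hb, d, hd, h0⟩ := Finset.mem_mul.mp h
  rcases mul_eq_zero.mp h0 with h1 | h1
  · rw [h1] at hb; exact hs hb
  · rw [h1] at hd; exact ht hd

theorem zero_notMem_one : (0 : K) ∉ (1 : Finset K) := by
  rw [Finset.mem_one]; exact zero_ne_one

theorem zero_notMem_pow {s : Finset K} (hs : (0 : K) ∉ s) (n : ℕ) : (0 : K) ∉ s ^ n := by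
  induction n with
  | zero => rw [pow_zero]; exact zero_notMem_one
  | succ n ih => rw [pow_succ]; exact zero_notMem_mul ih hs

theorem zero_notMem_prod {κ : Type} (A : Finset κ) {s : κ → Finset K}
    (h : ∀ k ∈ A, (0 : K) ∉ s k) : (0 : K) ∉ ∏ k ∈ A, s k := by
  classical
  induction A using Finset.induction_on with
  | empty => rw [Finset.prod_empty]; exact zero_notMem_one
  | insert k A hk ih =>
    rw [Finset.prod_insert hk]
    exact zero_notMem_mul (h k (Finset.mem_insert_self _ _))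
      (ih fun k' hk' => h k' (Finset.mem_insert_of_mem hk'))

theorem zero_notMem_union {s t : Finset K} (hs : (0 : K) ∉ s) (ht : (0 : K) ∉ t) :
    (0 : K) ∉ s ∪ t := by
  rw [Finset.mem_union, not_or]; exact ⟨hs, ht⟩

theorem zero_notMem_singleton {z : K} (hz : z ≠ 0) : (0 : K) ∉ ({z} : Finset K) := by
  rw [Finset.mem_singleton]; exact hz.symm

theorem zero_notMem_X0 (hx : ∀ j, x j ≠ 0) : (0 : K) ∉ X0 x := by
  intro h
  obtain ⟨j, _, hj⟩ := Finset.mem_image.mp h
  exact hx j hj

theorem zero_notMem_mS : (0 : K) ∉ mS p x c := fun h => (mS_cases h).1 rfl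

theorem gx_ne (hp0 : (p : K) ≠ 0) (hl : ws 1 a x ≠ 0) : gx p a x ≠ 0 := by
  rw [gx, neg_div, neg_ne_zero]
  exact div_ne_zero (pow_ne_zero _ hl) hp0

theorem zero_notMem_J2 (hp0 : (p : K) ≠ 0) (hx : ∀ j, x j ≠ 0) (hl : ws 1 a x ≠ 0) :
    (0 : K) ∉ J2 p a x c :=
  zero_notMem_union (zero_notMem_mul (zero_notMem_singleton hp0)
    (zero_notMem_pow (zero_notMem_X0 hx) _)) (zero_notMem_union
    (zero_notMem_singleton (gx_ne hp0 hl)) (zero_notMem_mul (zero_notMem_pow zero_notMem_mS _)
      (zero_notMem_pow (zero_notMem_X0 hx) _)))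

theorem zero_notMem_TotQ (hB : Base p a x) (hQ : QSet p a 𝒬) : (0 : K) ∉ TotQ p a x 𝒱 𝒬 := by
  have hp0 := hB.pK
  have hX := zero_notMem_X0 hB.hx
  have hM : (0 : K) ∉ MS p x 𝒱 := zero_notMem_prod _ fun _ _ => zero_notMem_mS
  have hN : (0 : K) ∉ NS p a x 𝒱 := zero_notMem_prod _ fun _ _ => zero_notMem_J2 hp0 hB.hx hB.hl
  refine zero_notMem_mul (zero_notMem_mul hX (zero_notMem_mul hM (zero_notMem_mul hN
    (zero_notMem_mul (zero_notMem_prod _ fun k _ => ?_) (zero_notMem_prod _ fun j _ => ?_)))))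
    (zero_notMem_prod _ fun q hq => zero_notMem_prod _ fun k _ => ?_)
  · exact zero_notMem_union (zero_notMem_mul (zero_notMem_singleton hp0) (zero_notMem_pow hX _))
      (zero_notMem_mul (zero_notMem_pow hN _) (zero_notMem_pow hM _))
  · exact zero_notMem_union (zero_notMem_mul (zero_notMem_singleton hp0) (zero_notMem_pow hX _))
      (zero_notMem_mul (zero_notMem_pow hN _) (zero_notMem_singleton (pow_ne_zero _ hB.hl)))
  · have hq0 : (q : K) ≠ 0 := by exact_mod_cast (hQ.prime q hq).ne_zero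
    refine zero_notMem_union (zero_notMem_mul (zero_notMem_singleton hq0) (zero_notMem_pow hX _))
      (zero_notMem_pow (fun h => hX (XQ_subset q h)) _)

theorem nonempty_prod {κ : Type} (A : Finset κ) {s : κ → Finset K}
    (h : ∀ k ∈ A, (s k).Nonempty) : (∏ k ∈ A, s k).Nonempty := by
  classical
  induction A using Finset.induction_on with
  | empty => rw [Finset.prod_empty]; exact Finset.one_nonempty
  | insert k A hk ih =>
    rw [Finset.prod_insert hk]
    exact (h k (Finset.mem_insert_self _ _)).mul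
      (ih fun k' hk' => h k' (Finset.mem_insert_of_mem hk'))

theorem exists_TotQ_eq (hB : Base p a x) (i₀ : ι) :
    ∃ s : Finset K, s.Nonempty ∧ TotQ p a x 𝒱 𝒬 = X0 x * s := by
  have hXne : (X0 x).Nonempty := ⟨x i₀, Finset.mem_image_of_mem _ (Finset.mem_univ _)⟩
  refine ⟨(MS p x 𝒱 * (NS p a x 𝒱 * ((∏ k ∈ Finset.Icc 3 (2 * p - 2), Jk p a x 𝒱 k) *
    ∏ j ∈ Finset.Icc 1 (p - 1), Jj p a x 𝒱 j))) * TQ p a x 𝒬, ?_, ?_⟩
  · refine Finset.Nonempty.mul (Finset.Nonempty.mul ?_ (Finset.Nonempty.mul ?_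
      (Finset.Nonempty.mul ?_ ?_))) ?_
    · exact nonempty_prod _ fun c _ => ⟨_, mem_mS_p hB.hp.ne_zero hB.hx c i₀⟩
    · exact nonempty_prod _ fun c _ =>
        ⟨gx p a x, Finset.mem_union_right _ (Finset.mem_union_left _ (Finset.mem_singleton_self _))⟩
    · refine nonempty_prod _ fun k _ => ?_
      exact ((Finset.singleton_nonempty _).mul (hXne.pow)).mono Finset.subset_union_left
    · refine nonempty_prod _ fun k _ => ?_
      exact ((Finset.singleton_nonempty _).mul (hXne.pow)).mono Finset.subset_union_left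
    · refine nonempty_prod _ fun q _ => nonempty_prod _ fun k _ => ?_
      exact ((Finset.singleton_nonempty _).mul (hXne.pow)).mono Finset.subset_union_left
  · rw [TotQ, Tot, mul_assoc]

/-- The model of the function field. -/
theorem hasCharts (i₀ : ι) (hB : Base p a x) (hA : AHyp a) (hcard : 3 ≤ Fintype.card ι) :
    Pool.Agent.H19.OG.HasCharts K := by
  classical
  have : NeZero p := ⟨hB.hp.ne_zero⟩
  let 𝒬 : Finset ℕ := (∏ j, a j).natAbs.primeFactors
  have hne : ∏ j, a j ≠ 0 := Finset.prod_ne_zero_iff.mpr fun j _ => hA.ha0 j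
  have hQ : QSet p a 𝒬 := by
    refine ⟨fun q hq => Nat.prime_of_mem_primeFactors hq, fun j q hq hd => ?_, fun hp => ?_⟩
    · refine Nat.mem_primeFactors.mpr ⟨hq, ?_, Int.natAbs_ne_zero.mpr hne⟩
      exact Int.natCast_dvd.mp (hd.trans (Finset.dvd_prod_of_mem _ (Finset.mem_univ j)))
    · have h1 : (p : ℤ) ∣ ∏ j, a j := Int.natCast_dvd.mpr (Nat.dvd_of_mem_primeFactors hp)
      obtain ⟨j, _, hj⟩ := ((Nat.prime_iff_prime_int.mp hB.hp).dvd_finsetProd_iff _).mp h1
      exact hB.hpa j hj
  obtain ⟨s, ⟨g, hg⟩, hs⟩ := exists_TotQ_eq (𝒱 := Pts p a i₀) (𝒬 := 𝒬) hB i₀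
  have h0 := zero_notMem_TotQ (𝒱 := Pts p a i₀) hB hQ
  have hmem : ∀ j, x j * g ∈ TotQ p a x (Pts p a i₀) 𝒬 := by
    intro j
    rw [hs]
    exact Finset.mul_mem_mul (Finset.mem_image_of_mem _ (Finset.mem_univ j)) hg
  have hg0 : g ≠ 0 := by
    intro h
    apply h0
    have := hmem i₀
    rwa [h, mul_zero] at this
  refine hasCharts_of_vlocal (TotQ p a x (Pts p a i₀) 𝒬) h0 (x i₀ * g) (hmem i₀) ?_
    (good_all i₀ hB hA hQ hcard)
  apply isFractionRing_of_closure
  apply hB.closure_eq (hB.hx i₀)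
  intro j
  apply Subfield.subset_closure
  apply Algebra.subset_adjoin
  refine ⟨⟨x j * g, hmem j⟩, ?_⟩
  show x j * g / (x i₀ * g) = x j / x i₀
  rw [mul_div_mul_right _ _ hg0]

end Pool.Agent.H96.Diag
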