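import Mathlib

/-!
# A prime number is a parameter: `s * p ∈ Q ^ 2` forces `s ∈ Q` in `ℤ[X]`
-/

set_option autoImplicit false

namespace Pool.Agent.H96.Reg

open MvPolynomial

theorem exists_expand_eq {σ : Type*} {p : ℕ} (hp : p.Prime) (f : MvPolynomial σ ℤ) :
    ∃ a, expand p f = f ^ p + (p : MvPolynomial σ ℤ) * a := by
  induction f using MvPolynomial.induction_on with
  | C n =>
    have : Fact p.Prime := ⟨hp⟩
    have h1 : ((p : ℤ)) ∣ n - n ^ p := by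
      rw [← ZMod.intCast_zmod_eq_zero_iff_dvd]
      push_cast
      rw [ZMod.pow_card, sub_self]
    obtain ⟨a, ha⟩ := h1
    refine ⟨C a, ?_⟩
    rw [expand_C, ← C_pow]
    have : (p : MvPolynomial σ ℤ) = C (p : ℤ) := by simp
    rw [this, ← C_mul, ← C_add]
    congr 1
    linarith
  | add f g hf hg =>
    obtain ⟨a, ha⟩ := hf
    obtain ⟨b, hb⟩ := hg
    obtain ⟨r, hr⟩ := exists_add_pow_prime_eq hp f g
    refine ⟨a + b - f * g * r, ?_⟩
    rw [map_add, ha, hb, hr]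
    ring
  | mul_X f i hf =>
    obtain ⟨a, ha⟩ := hf
    refine ⟨a * X i ^ p, ?_⟩
    rw [map_mul, ha, expand_X]
    ring

theorem expand_sq {σ : Type*} {p : ℕ} (hp : p.Prime) (Q : Ideal (MvPolynomial σ ℤ))
    (hpQ : (p : MvPolynomial σ ℤ) ∈ Q) {h : MvPolynomial σ ℤ} (hh : h ∈ Q ^ 2) :
    h ∈ Q ∧ ∃ z ∈ Q, expand p h = h ^ p + (p : MvPolynomial σ ℤ) * z := by
  rw [pow_two] at hh
  induction hh using Submodule.mul_induction_on' with
  | mem_mul_mem a ha b hb =>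
    obtain ⟨α, hα⟩ := exists_expand_eq hp a
    obtain ⟨β, hβ⟩ := exists_expand_eq hp b
    refine ⟨Q.mul_mem_left _ hb, α * b ^ p + a ^ p * β + p * α * β, ?_, ?_⟩
    · refine Q.add_mem (Q.add_mem (Q.mul_mem_left _ (Q.pow_mem_of_mem hb p hp.pos))
        (Q.mul_mem_right _ (Q.pow_mem_of_mem ha p hp.pos))) ?_
      exact Q.mul_mem_right _ (Q.mul_mem_right _ hpQ)
    · rw [map_mul, hα, hβ]
      ring
  | add a _ b _ ha hb =>
    obtain ⟨ha1, α, hα, hα'⟩ := ha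
    obtain ⟨hb1, β, hβ, hβ'⟩ := hb
    obtain ⟨r, hr⟩ := exists_add_pow_prime_eq hp a b
    refine ⟨Q.add_mem ha1 hb1, α + β - a * b * r, ?_, ?_⟩
    · exact Q.sub_mem (Q.add_mem hα hβ) (Q.mul_mem_right _ (Q.mul_mem_right _ ha1))
    · rw [map_add, hα', hβ', hr]
      ring

/-- In a polynomial ring over `ℤ`, a prime number `p` in a prime ideal `Q` is not in `Q ^ 2`, even
locally at `Q`. -/
theorem mem_of_mul_prime_mem_sq {σ : Type*} {p : ℕ} (hp : p.Prime) (Q : Ideal (MvPolynomial σ ℤ))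
    [hQ : Q.IsPrime] (hpQ : (p : MvPolynomial σ ℤ) ∈ Q) {s : MvPolynomial σ ℤ}
    (hs : s * p ∈ Q ^ 2) : s ∈ Q := by
  obtain ⟨_, z, hz, hz'⟩ := expand_sq hp Q hpQ hs
  obtain ⟨α, hα⟩ := exists_expand_eq hp s
  rw [map_mul, hα, map_natCast] at hz'
  have hp0 : (p : MvPolynomial σ ℤ) ≠ 0 := by
    have : (p : MvPolynomial σ ℤ) = C (p : ℤ) := by simp
    rw [this, Ne, C_eq_zero]
    exact_mod_cast hp.ne_zero
  obtain ⟨k, hk⟩ : ∃ k, p = k + 1 := ⟨p - 1, by have := hp.pos; omega⟩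
  have h1 : s ^ p + p * α = s ^ p * p ^ k + z := by
    apply mul_right_cancel₀ hp0
    rw [hz']
    have : (p : MvPolynomial σ ℤ) ^ p = p ^ k * p := by
      conv_lhs => rw [hk]
      rw [← pow_succ]
      push_cast
      congr 1
      rw [hk]; push_cast; ring
    rw [mul_pow, this]
    ring
  have hk1 : 1 ≤ k := by have := hp.two_le; omega
  have h2 : s ^ p = s ^ p * p ^ k + z - p * α := by rw [← h1]; ring
  have h3 : s ^ p ∈ Q := by
    rw [h2]
    exact Q.sub_mem (Q.add_mem (Q.mul_mem_left _ (Q.pow_mem_of_mem hpQ k hk1)) hz)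
      (Q.mul_mem_right _ hpQ)
  exact hQ.mem_of_pow_mem _ h3

end Pool.Agent.H96.Reg
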