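import Pool.Agent.H96.RegSub

/-!
# Height of the kernel of an evaluation, and regularity of subrings of fields
-/

set_option autoImplicit false

namespace Pool.Agent.H96.Reg

open MvPolynomial

theorem height_le_of_comap_C {A : Type*} [CommRing A] [IsDomain A] {υ : Type*} [Finite υ]
    (I : Ideal (MvPolynomial υ A)) [hI : I.IsPrime] (h : ∀ a : A, (C a : MvPolynomial υ A) ∈ I → a = 0) :
    I.height ≤ Nat.card υ := by
  let F := FractionRing A
  let alg : Algebra (MvPolynomial υ A) (MvPolynomial υ F) := MvPolynomial.algebraMvPolynomial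
  let M : Submonoid (MvPolynomial υ A) := (nonZeroDivisors A).map (C (σ := υ))
  have : IsLocalization M (MvPolynomial υ F) := MvPolynomial.isLocalization (nonZeroDivisors A) F
  have hdisj : Disjoint (M : Set (MvPolynomial υ A)) (I : Set (MvPolynomial υ A)) := by
    rw [Set.disjoint_left]
    rintro _ ⟨a, ha, rfl⟩ haI
    exact nonZeroDivisors.ne_zero ha (h a haI)
  rw [← IsLocalization.height_map_of_disjoint M (S := MvPolynomial υ F) I hdisj]
  have hne : (I.map (algebraMap (MvPolynomial υ A) (MvPolynomial υ F))).IsPrime :=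
    IsLocalization.isPrime_of_isPrime_disjoint M _ I hI hdisj
  have h1 := Ideal.height_le_ringKrullDim_of_isPrime
    (I := I.map (algebraMap (MvPolynomial υ A) (MvPolynomial υ F)))
  rw [MvPolynomial.ringKrullDim_of_isNoetherianRing, ringKrullDim_eq_zero_of_field, zero_add] at h1
  exact_mod_cast h1

theorem height_ker_le {σ : Type*} [Finite σ] {B : Type*} [CommRing B] [IsDomain B]
    (π : MvPolynomial σ ℤ →+* B) (T : Set σ)
    (hT : AlgebraicIndependent ℤ (fun t : T => π (X (t : σ)))) :
    (RingHom.ker π).height ≤ Nat.card (Tᶜ : Set σ) := by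
  classical
  let e : σ ≃ (↥(Tᶜ : Set σ)) ⊕ (↥T) := ((Equiv.sumComm _ _).trans (Equiv.Set.sumCompl T)).symm
  let E : MvPolynomial σ ℤ ≃ₐ[ℤ] MvPolynomial (↥(Tᶜ : Set σ)) (MvPolynomial (↥T) ℤ) :=
    (renameEquiv ℤ e).trans (sumAlgEquiv ℤ _ _)
  have hprime : (RingHom.ker π).IsPrime := RingHom.ker_isPrime π
  have h1 : ((RingHom.ker π).comap (E.symm.toRingEquiv : _ ≃+* _)).height =
      (RingHom.ker π).height := RingEquiv.height_comap _ _
  rw [← h1]
  have : ((RingHom.ker π).comap (E.symm.toRingEquiv : _ ≃+* _)).IsPrime :=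
    Ideal.comap_isPrime _ _
  apply height_le_of_comap_C
  intro a ha
  have h2 : π (E.symm (C a)) = 0 := ha
  have h3 : E.symm (C a) = rename (Subtype.val) a := by
    rw [AlgEquiv.symm_apply_eq]
    show C a = (sumAlgEquiv ℤ _ _) (renameEquiv ℤ e (rename Subtype.val a))
    rw [renameEquiv_apply, rename_rename]
    have h4 : (e ∘ Subtype.val : ↥T → _) = Sum.inr := by
      ext t
      simp only [Function.comp_apply]
      rw [Equiv.symm_apply_eq]
      simp
    rw [h4]
    have h5 := congrArg (fun φ => φ a)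
      (sumAlgEquiv_comp_rename_inr (R := ℤ) (S₁ := ↥(Tᶜ : Set σ)) (S₂ := ↥T))
    simpa using h5.symm
  rw [h3] at h2
  have h6 : aeval (fun t : T => π (X (t : σ))) a = 0 := by
    rw [← h2]
    have h7 : (aeval (fun t : T => π (X (t : σ)))).toRingHom =
        π.comp (rename (Subtype.val : T → σ)).toRingHom := by
      apply MvPolynomial.ringHom_ext
      · intro n; simp
      · intro t; simp
    exact congrFun (congrArg DFunLike.coe h7) a
  exact (injective_iff_map_eq_zero _).mp hT a h6

theorem IndepAt.comp_equiv {S : Type*} [CommRing S] {κ κ' : Type*} [Fintype κ] [Fintype κ']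
    {f : κ → S} {P : Ideal S} (h : IndepAt f P) (e : κ' ≃ κ) : IndepAt (f ∘ e) P := by
  intro a t ht hmem i
  have h1 := h (a ∘ e.symm) t ht (by
    have : ∑ i, (a ∘ e.symm) i * f i = ∑ i, a i * (f ∘ e) i := by
      refine (Fintype.sum_equiv e _ _ fun i => ?_).symm
      simp
    rw [this]; exact hmem) (e i)
  simpa using h1

/-- **Regularity of a finitely generated subring of a field** of characteristic zero presented by
enough independent relations. -/
theorem isRegularRing_adjoin {σ κ : Type} [Finite σ] [Fintype κ] {K : Type} [Field K] [CharZero K]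
    (x : σ → K) (hfrac : IsFractionRing (Algebra.adjoin ℤ (Set.range x)) K)
    (f : κ → MvPolynomial σ ℤ) (hf : ∀ k, aeval x (f k) = 0)
    (htr : (Nat.card σ : Cardinal.{0}) ≤ Algebra.trdeg ℤ K + Fintype.card κ)
    (hind : ∀ (Q : Ideal (MvPolynomial σ ℤ)) [Q.IsPrime], (∀ k, f k ∈ Q) → IndepAt f Q) :
    IsRegularRing (Algebra.adjoin ℤ (Set.range x)) := by
  classical
  set B := Algebra.adjoin ℤ (Set.range x) with hB
  let π : MvPolynomial σ ℤ →ₐ[ℤ] B := aeval (fun i => ⟨x i, Algebra.subset_adjoin ⟨i, rfl⟩⟩)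
  have hπx : ∀ g, ((π g : B) : K) = aeval x g := by
    intro g
    have : (B.val.comp π) = aeval x := by
      apply MvPolynomial.algHom_ext
      intro i
      simp [π]
    exact congrFun (congrArg DFunLike.coe this) g
  have hπ : Function.Surjective (π : MvPolynomial σ ℤ →+* B) := by
    rintro ⟨z, hz⟩
    have hz' := hz
    rw [hB, Algebra.adjoin_range_eq_range_aeval] at hz'
    obtain ⟨g, hg⟩ := hz'
    exact ⟨g, Subtype.ext ((hπx g).trans hg)⟩
  -- a transcendence basis among the generators
  have halg : Algebra.IsAlgebraic (Algebra.adjoin ℤ (Set.range x)) K :=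
    IsLocalization.isAlgebraic K (nonZeroDivisors (Algebra.adjoin ℤ (Set.range x)))
  obtain ⟨t, htx, ht⟩ := exists_isTranscendenceBasis_subset (R := ℤ) (A := K) (Set.range x)
  choose g hg using fun z : t => htx z.2
  have hginj : Function.Injective g := by
    intro a b hab
    apply Subtype.ext
    rw [← hg a, ← hg b, hab]
  let T : Set σ := Set.range g
  let e : t ≃ T := Equiv.ofInjective g hginj
  have hT : AlgebraicIndependent ℤ (fun i : T => x (i : σ)) := by
    have h1 : (fun i : T => x (i : σ)) = (Subtype.val : t → K) ∘ e.symm := by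
      funext i
      obtain ⟨z, rfl⟩ := e.surjective i
      rw [Function.comp_apply, Equiv.symm_apply_apply]
      exact hg z
    rw [h1]
    exact ht.1.comp _ e.symm.injective
  have hcardT : (Nat.card T : Cardinal.{0}) = Algebra.trdeg ℤ K := by
    rw [← ht.cardinalMk_eq_trdeg, Nat.cast_card]
    exact (Cardinal.mk_congr e).symm
  have hsplit : Nat.card σ = Nat.card T + Nat.card (Tᶜ : Set σ) := by
    rw [← Nat.card_sum]
    exact Nat.card_congr (Equiv.Set.sumCompl T).symm
  have hcompl : Nat.card (Tᶜ : Set σ) ≤ Fintype.card κ := by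
    rw [← hcardT, hsplit] at htr
    have : Nat.card T + Nat.card (Tᶜ : Set σ) ≤ Nat.card T + Fintype.card κ := by exact_mod_cast htr
    omega
  have hTπ : AlgebraicIndependent ℤ (fun i : T => π (X (i : σ))) := by
    have h1 : AlgebraicIndependent ℤ (fun i : T => B.val (π (X (i : σ)))) := by
      have : (fun i : T => B.val (π (X (i : σ)))) = fun i : T => x (i : σ) := by
        funext i
        show ((π (X (i : σ)) : B) : K) = x i
        rw [hπx, aeval_X]
      rw [this]; exact hT
    exact AlgebraicIndependent.of_comp B.val h1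
  have hht := (height_ker_le (π : MvPolynomial σ ℤ →+* B) T hTπ).trans
    (show ((Nat.card (Tᶜ : Set σ) : ℕ) : ℕ∞) ≤ ((Fintype.card κ : ℕ) : ℕ∞) by exact_mod_cast hcompl)
  let ε : Fin (Fintype.card κ) ≃ κ := (Fintype.equivFin κ).symm
  have hf0 : ∀ k, (π : MvPolynomial σ ℤ →+* B) (f k) = 0 := by
    intro k
    apply Subtype.ext
    exact (hπx (f k)).trans (hf k)
  have hnoeth : IsNoetherianRing B :=
    isNoetherianRing_of_surjective _ _ (π : MvPolynomial σ ℤ →+* B) hπ
  rw [isRegularRing_iff]
  intro q hq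
  have hkerp : (RingHom.ker (π : MvPolynomial σ ℤ →+* B)).IsPrime := RingHom.ker_isPrime _
  refine isRegularLocalRing_of_surjective (π : MvPolynomial σ ℤ →+* B) hπ (f ∘ ε)
    (fun k => hf0 _) hht ?_ q ?_
  · exact (hind _ (fun k => hf0 k)).comp_equiv ε
  · have : (q.comap (π : MvPolynomial σ ℤ →+* B)).IsPrime := Ideal.comap_isPrime _ _
    refine (hind _ (fun k => ?_)).comp_equiv ε
    show (π : MvPolynomial σ ℤ →+* B) (f k) ∈ q
    rw [hf0]; exact q.zero_mem

end Pool.Agent.H96.Reg
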