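import Pool.Agent.H96.RegV
import Pool.Agent.H96.PDer

/-!
# Independence modulo `P ^ 2` from partial derivatives and prime numbers
-/

set_option autoImplicit false

namespace Pool.Agent.H96.VL

open MvPolynomial Pool.Agent.H96.Reg

theorem aeval_pderiv_eq_zero {σ : Type} {k : Type} [Field k] (y : σ → k)
    {h : MvPolynomial σ ℤ}
    (hh : h ∈ (RingHom.ker (aeval y : MvPolynomial σ ℤ →ₐ[ℤ] k)) ^ 2) (l : σ) :
    aeval y (pderiv l h) = 0 := by
  rw [pow_two] at hh
  induction hh using Submodule.mul_induction_on' with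
  | mem_mul_mem a ha b hb =>
    have ha' : aeval y a = 0 := ha
    have hb' : aeval y b = 0 := hb
    rw [Derivation.leibniz, map_add, smul_eq_mul, smul_eq_mul, map_mul, map_mul, ha', hb']
    ring
  | add a _ b _ ha hb => rw [map_add, map_add, ha, hb, add_zero]

theorem indepAt_of_linear {σ κ : Type} [Fintype κ] {k : Type} [Field k] (y : σ → k)
    (f : κ → MvPolynomial σ ℤ) (hf : ∀ i, aeval y (f i) = 0) (i₀ : κ)
    (hlin : ∀ A : κ → k, (∀ l, ∑ i, A i * aeval y (pderiv l (f i)) = 0) →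
      ∀ i, i ≠ i₀ → A i = 0)
    (hfin : (∃ l, aeval y (pderiv l (f i₀)) ≠ 0) ∨
      ∃ (q : ℕ) (u h : MvPolynomial σ ℤ), q.Prime ∧ (q : k) = 0 ∧ aeval y u ≠ 0 ∧
        f i₀ = u * (q : MvPolynomial σ ℤ) + h ∧
        h ∈ (RingHom.ker (aeval y : MvPolynomial σ ℤ →ₐ[ℤ] k)) ^ 2) :
    IndepAt f (RingHom.ker (aeval y : MvPolynomial σ ℤ →ₐ[ℤ] k)) := by
  classical
  set P := RingHom.ker (aeval y : MvPolynomial σ ℤ →ₐ[ℤ] k) with hP
  have hPp : P.IsPrime := RingHom.ker_isPrime _
  intro a t ht hmem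
  have ht' : aeval y t ≠ 0 := ht
  have hder : ∀ l, ∑ i, aeval y (a i) * aeval y (pderiv l (f i)) = 0 := by
    intro l
    have h1 := aeval_pderiv_eq_zero y hmem l
    rw [Derivation.leibniz, map_add, smul_eq_mul, smul_eq_mul, map_mul, map_mul] at h1
    have h2 : aeval y (∑ i, a i * f i) = 0 := by
      rw [map_sum]
      refine Finset.sum_eq_zero fun i _ => ?_
      rw [map_mul, hf, mul_zero]
    rw [h2, zero_mul, add_zero, map_sum, map_sum] at h1
    have h3 := (mul_eq_zero.mp h1).resolve_left ht'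
    rw [← h3]
    refine Finset.sum_congr rfl fun i _ => ?_
    rw [Derivation.leibniz, map_add, smul_eq_mul, smul_eq_mul, map_mul, map_mul, hf, zero_mul,
      add_zero]
  have hA := hlin _ hder
  have hi₀ : a i₀ ∈ P := by
    rcases hfin with ⟨l, hl⟩ | ⟨q, u, h, hq, hqk, hu, hfe, hh⟩
    · have h1 := hder l
      rw [Finset.sum_eq_single i₀ (fun i _ hi => by rw [hA i hi, zero_mul])
        (fun h => absurd (Finset.mem_univ _) h)] at h1
      exact (mul_eq_zero.mp h1).resolve_right hl
    · have hqP : (q : MvPolynomial σ ℤ) ∈ P := by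
        show aeval y (q : MvPolynomial σ ℤ) = 0
        rw [map_natCast]; exact hqk
      have h1 : t * (a i₀ * f i₀) ∈ P ^ 2 := by
        have h2 : t * (a i₀ * f i₀) = t * ∑ i, a i * f i -
            ∑ i ∈ Finset.univ.erase i₀, t * (a i * f i) := by
          rw [← Finset.add_sum_erase _ _ (Finset.mem_univ i₀), mul_add, Finset.mul_sum]
          ring
        rw [h2]
        refine Ideal.sub_mem _ hmem (Ideal.sum_mem _ fun i hi => Ideal.mul_mem_left _ _ ?_)
        rw [pow_two]
        exact Ideal.mul_mem_mul (hA i (Finset.ne_of_mem_erase hi)) (hf i)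
      have h3 : (t * a i₀ * u) * (q : MvPolynomial σ ℤ) ∈ P ^ 2 := by
        have h4 : (t * a i₀ * u) * (q : MvPolynomial σ ℤ) = t * (a i₀ * f i₀) - t * a i₀ * h := by
          rw [hfe]; ring
        rw [h4]
        exact Ideal.sub_mem _ h1 (Ideal.mul_mem_left _ _ hh)
      have h5 := mem_of_mul_prime_mem_sq hq P hqP h3
      rcases hPp.mem_or_mem h5 with h6 | h6
      · rcases hPp.mem_or_mem h6 with h7 | h7
        · exact absurd h7 ht
        · exact h7
      · exact absurd h6 hu
  intro i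
  by_cases hi : i = i₀
  · rw [hi]; exact hi₀
  · exact hA i hi

end Pool.Agent.H96.VL
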