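import Pool.Agent.H97.RegQuot

/-!
# Regular local rings are domains
-/

set_option autoImplicit false

namespace Pool.Agent.H96.Reg

open IsLocalRing Module Pointwise

/-- A single element outside the square of the maximal ideal: the quotient is regular. -/
theorem isRegularLocalRing_quotient_singleton {R : Type*} [CommRing R] [IsRegularLocalRing R]
    {x : R} (hx : x ∈ maximalIdeal R) (hx2 : x ∉ (maximalIdeal R) ^ 2) :
    IsRegularLocalRing (R ⧸ Ideal.span {x}) := by
  have h := Pool.Agent.H97.isRegularLocalRing_quotient (fun _ : Fin 1 => x) (fun _ => hx) (by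
    rw [Fintype.linearIndependent_iff]
    intro g hg i
    have h1 : g 0 • (maximalIdeal R).toCotangent ⟨x, hx⟩ = 0 := by simpa using hg
    have hi : i = 0 := Subsingleton.elim _ _
    subst hi
    by_contra hne
    have h2 : (maximalIdeal R).toCotangent ⟨x, hx⟩ = 0 := by
      rcases smul_eq_zero.mp h1 with h | h
      · exact absurd h hne
      · exact h
    rw [Ideal.toCotangent_eq_zero] at h2
    exact hx2 h2)
  have hr : Set.range (fun _ : Fin 1 => x) = {x} := by ext y; simp [eq_comm]
  rw [hr] at h
  exact h

/-- Regular local rings are domains. -/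
theorem isDomain_aux : ∀ (n : ℕ) (R : Type*) [CommRing R] [IsRegularLocalRing R],
    ringKrullDim R ≤ n → IsDomain R := by
  intro n
  induction n with
  | zero =>
    intro R _ _ hdim
    have h1 : (((maximalIdeal R).spanFinrank : ℕ) : WithBot ℕ∞) ≤ (0 : ℕ) := by
      rw [IsRegularLocalRing.spanFinrank_maximalIdeal]
      exact hdim
    have h2 : (maximalIdeal R).spanFinrank = 0 := by
      have : (maximalIdeal R).spanFinrank ≤ 0 := by exact_mod_cast h1
      omega
    have h3 : maximalIdeal R = ⊥ :=
      (Submodule.spanFinrank_eq_zero_iff_eq_bot (maximalIdeal R).fg_of_isNoetherianRing).mp h2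
    have h4 : IsField R := IsLocalRing.isField_iff_maximalIdeal_eq.mpr h3
    exact h4.isDomain
  | succ n ih =>
    intro R _ _ hdim
    by_cases hm0 : maximalIdeal R ≤ (maximalIdeal R) ^ 2
    · -- field
      have h3 : maximalIdeal R = ⊥ := by
        apply Submodule.eq_bot_of_le_smul_of_le_jacobson_bot (maximalIdeal R) (maximalIdeal R)
          (maximalIdeal R).fg_of_isNoetherianRing
        · rw [smul_eq_mul, ← pow_two]; exact hm0
        · exact IsLocalRing.maximalIdeal_le_jacobson _
      exact (IsLocalRing.isField_iff_maximalIdeal_eq.mpr h3).isDomain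
    by_cases hmin : ∃ P ∈ minimalPrimes R, maximalIdeal R ≤ P
    · obtain ⟨P, hP, hmP⟩ := hmin
      have hPp : P.IsPrime := hP.1.1
      have hPm : P = maximalIdeal R :=
        le_antisymm (IsLocalRing.le_maximalIdeal hPp.ne_top) hmP
      have hd : ringKrullDim R ≤ (0 : ℕ) := by
        rw [← IsLocalRing.maximalIdeal_height_eq_ringKrullDim]
        have h5 : (maximalIdeal R).height = 0 := by
          rw [← hPm]
          exact Ideal.height_eq_zero_iff.mpr hP
        rw [h5]; simp
      exact ih R (hd.trans (by exact_mod_cast Nat.zero_le n))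
    push Not at hmin
    obtain ⟨x, hxm, hx2, hxP⟩ : ∃ x ∈ maximalIdeal R, x ∉ (maximalIdeal R) ^ 2 ∧
        ∀ P ∈ minimalPrimes R, x ∉ P := by
      by_contra hcon
      push Not at hcon
      have hfin := minimalPrimes.finite_of_isNoetherianRing R
      let s : Finset (Ideal R) := insert ((maximalIdeal R) ^ 2) hfin.toFinset
      have hsub : ((maximalIdeal R : Ideal R) : Set R) ⊆ ⋃ i ∈ (↑s : Set (Ideal R)), (id i : Ideal R) := by
        intro x hx
        by_cases h : x ∈ (maximalIdeal R) ^ 2
        · exact Set.mem_biUnion (show (maximalIdeal R) ^ 2 ∈ (↑s : Set (Ideal R)) by simp [s]) h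
        · obtain ⟨P, hP, hxP⟩ := hcon x hx h
          exact Set.mem_biUnion (show P ∈ (↑s : Set (Ideal R)) by simp [s, hP]) hxP
      have := (Ideal.subset_union_prime ((maximalIdeal R) ^ 2) ((maximalIdeal R) ^ 2)
        (by
          intro i hi h1 _
          have : i ∈ minimalPrimes R := by
            simp only [s, Finset.mem_insert, Set.Finite.mem_toFinset] at hi
            rcases hi with hi | hi
            · exact absurd hi h1
            · exact hi
          exact this.1.1)).mp hsub
      obtain ⟨i, hi, hle⟩ := this
      simp only [s, Finset.mem_insert, Set.Finite.mem_toFinset] at hi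
      rcases hi with hi | hi
      · subst hi; exact hm0 hle
      · exact hmin i hi hle
    -- the quotient
    have hreg := isRegularLocalRing_quotient_singleton hxm hx2
    have hdq : ringKrullDim (R ⧸ Ideal.span {x}) ≤ n := by
      have h1 : supportDim R (QuotSMulTop x R) + 1 ≤ supportDim R R :=
        supportDim_quotSMulTop_succ_le_of_notMem_minimalPrimes (by
          intro P hP
          have : (annihilator R R) = ⊥ := Module.annihilator_eq_bot.mpr inferInstance
          rw [this] at hP
          exact hxP P hP)
      have h : Ideal.span {x} = x • (⊤ : Ideal R) := by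
        simp [← Submodule.ideal_span_singleton_smul]
      rw [Module.supportDim_self_eq_ringKrullDim] at h1
      have h2 : ringKrullDim (R ⧸ Ideal.span {x}) + 1 ≤ ringKrullDim R := by
        rw [ringKrullDim_eq_of_ringEquiv (Ideal.quotientEquivAlgOfEq R h).toRingEquiv]
        have h3 := Module.supportDim_quotient_eq_ringKrullDim (R := R) (x • (⊤ : Ideal R))
        rw [← h3]
        exact h1
      have h4 : ringKrullDim (R ⧸ Ideal.span {x}) + 1 ≤ (n : WithBot ℕ∞) + 1 := by
        refine h2.trans ?_
        exact_mod_cast hdim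
      obtain ⟨D, hD⟩ : ∃ D : ℕ∞, (D : WithBot ℕ∞) = ringKrullDim (R ⧸ Ideal.span {x}) :=
        WithBot.ne_bot_iff_exists.mp (ringKrullDim_ne_bot)
      rw [← hD] at h4 ⊢
      have h5 : D + 1 ≤ (n : ℕ∞) + 1 := by exact_mod_cast h4
      have h6 : D ≤ (n : ℕ∞) := by
        exact (ENat.add_le_add_iff_right (by simp)).mp h5
      exact_mod_cast h6
    have hdom := ih _ hdq
    have hprime : (Ideal.span {x}).IsPrime := (Ideal.Quotient.isDomain_iff_prime _).mp hdom
    obtain ⟨P, hP, hPx⟩ := Ideal.exists_minimalPrimes_le (I := ⊥) (J := Ideal.span {x}) bot_le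
    have hPmin : P ∈ minimalPrimes R := hP
    have hxP' : x ∉ P := hxP P hPmin
    have hPp : P.IsPrime := hP.1.1
    have hP0 : P = ⊥ := by
      apply Submodule.eq_bot_of_le_smul_of_le_jacobson_bot (maximalIdeal R) P
        P.fg_of_isNoetherianRing
      · intro y hy
        obtain ⟨z, rfl⟩ := Ideal.mem_span_singleton'.mp (hPx hy)
        have hz : z ∈ P := (hPp.mem_or_mem hy).resolve_right hxP'
        rw [mul_comm]
        exact Submodule.smul_mem_smul hxm hz
      · exact IsLocalRing.maximalIdeal_le_jacobson _
    rw [hP0] at hPp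
    exact IsDomain.of_bot_isPrime R

/-- Regular local rings are domains. -/
theorem isDomain_of_isRegularLocalRing (R : Type*) [CommRing R] [IsRegularLocalRing R] :
    IsDomain R :=
  isDomain_aux (maximalIdeal R).spanFinrank R
    (by rw [IsRegularLocalRing.spanFinrank_maximalIdeal])

end Pool.Agent.H96.Reg
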