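import Pool.Agent.H96.RegHeight

/-!
# Regularity at a point from relations independent at that point only
-/

set_option autoImplicit false

namespace Pool.Agent.H96.Reg

open IsLocalRing Module

theorem le_height_span {R : Type*} [CommRing R] [IsRegularLocalRing R] :
    ∀ (c : ℕ) (f : Fin c → R) (hf : ∀ i, f i ∈ maximalIdeal R),
      LinearIndependent (ResidueField R)
        (fun i => (maximalIdeal R).toCotangent ⟨f i, hf i⟩ : Fin c → CotangentSpace R) →
      (Ideal.span (Set.range f)).IsPrime ∧ (c : ℕ∞) ≤ (Ideal.span (Set.range f)).height := by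
  intro c
  induction c with
  | zero =>
    intro f hf hli
    have := isDomain_of_isRegularLocalRing R
    have h : Set.range f = ∅ := Set.range_eq_empty f
    rw [h, Ideal.span_empty]
    exact ⟨Ideal.isPrime_bot, by simp⟩
  | succ c ih =>
    intro f hf hli
    have hprime : ∀ (d : ℕ) (g : Fin d → R) (hg : ∀ i, g i ∈ maximalIdeal R),
        LinearIndependent (ResidueField R)
          (fun i => (maximalIdeal R).toCotangent ⟨g i, hg i⟩ : Fin d → CotangentSpace R) →
        (Ideal.span (Set.range g)).IsPrime := by
      intro d g hg hg'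
      have := Pool.Agent.H97.isRegularLocalRing_quotient g hg hg'
      have := isDomain_of_isRegularLocalRing (R ⧸ Ideal.span (Set.range g))
      exact (Ideal.Quotient.isDomain_iff_prime _).mp this
    have hli' : LinearIndependent (ResidueField R)
        (fun i => (maximalIdeal R).toCotangent ⟨f (Fin.castSucc i), hf (Fin.castSucc i)⟩ :
          Fin c → CotangentSpace R) :=
      hli.comp Fin.castSucc (Fin.castSucc_injective c)
    obtain ⟨h1, h2⟩ := ih (fun i => f (Fin.castSucc i)) (fun i => hf _) hli'
    have h3 := hprime (c + 1) f hf hli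
    refine ⟨h3, ?_⟩
    have hlt : Ideal.span (Set.range fun i => f (Fin.castSucc i)) < Ideal.span (Set.range f) := by
      refine lt_of_le_of_ne (Ideal.span_mono ?_) ?_
      · rintro _ ⟨i, rfl⟩
        exact ⟨_, rfl⟩
      · intro heq
        have hmem : f (Fin.last c) ∈ Ideal.span (Set.range fun i => f (Fin.castSucc i)) := by
          rw [heq]
          exact Ideal.subset_span ⟨_, rfl⟩
        rw [Ideal.mem_span_range_iff_exists_fun] at hmem
        obtain ⟨r, hr⟩ := hmem
        have hni := hli.notMem_span_image (s := {Fin.last c}ᶜ) (x := Fin.last c) (by simp)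
        apply hni
        have h4 : (maximalIdeal R).toCotangent ⟨f (Fin.last c), hf (Fin.last c)⟩ =
            ∑ i, (residue R (r i)) • (maximalIdeal R).toCotangent
              ⟨f (Fin.castSucc i), hf (Fin.castSucc i)⟩ := by
          have h5 : (⟨f (Fin.last c), hf (Fin.last c)⟩ : maximalIdeal R) =
              ∑ i, r i • (⟨f (Fin.castSucc i), hf (Fin.castSucc i)⟩ : maximalIdeal R) := by
            apply Subtype.ext
            show f (Fin.last c) = _
            rw [← hr]
            simp
          rw [h5, map_sum]
          refine Finset.sum_congr rfl fun i _ => ?_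
          rw [map_smul]
          rfl
        rw [h4]
        refine Submodule.sum_mem _ fun i _ => Submodule.smul_mem _ _ (Submodule.subset_span ?_)
        exact ⟨Fin.castSucc i, by simp [Fin.ext_iff, i.2.ne], rfl⟩
    have h5 := Ideal.height_add_one_le_of_lt_of_isPrime hlt
    calc ((c + 1 : ℕ) : ℕ∞) = (c : ℕ∞) + 1 := by push_cast; rfl
      _ ≤ (Ideal.span (Set.range fun i => f (Fin.castSucc i))).height + 1 := by gcongr
      _ ≤ _ := h5

/-- **Regularity at a point from relations.** -/
theorem isRegularLocalRing_of_surjective_pt {S B : Type*} [CommRing S] [IsRegularRing S]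
    [CommRing B] [IsDomain B] (π : S →+* B) (hπ : Function.Surjective π) {c : ℕ} (f : Fin c → S)
    (hf : ∀ k, π (f k) = 0) (hht : (RingHom.ker π).height ≤ c)
    (q : Ideal B) [q.IsPrime] (hq : IndepAt f (q.comap π)) :
    IsRegularLocalRing (Localization.AtPrime q) := by
  classical
  set J : Ideal S := Ideal.span (Set.range f) with hJ
  set P : Ideal S := RingHom.ker π with hP
  have hPprime : P.IsPrime := RingHom.ker_isPrime π
  set Q : Ideal S := q.comap π with hQ
  have hQprime : Q.IsPrime := Ideal.comap_isPrime π q
  have hPQ : P ≤ Q := by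
    intro x hx
    show π x ∈ q
    rw [show π x = 0 from hx]
    exact q.zero_mem
  have hfP : ∀ k, f k ∈ P := hf
  have hJP : J ≤ P := by
    rw [hJ, Ideal.span_le]
    rintro _ ⟨k, rfl⟩
    exact hfP k
  let ρ : S ⧸ J →+* B := Ideal.Quotient.lift J π (fun a ha => hJP ha)
  have hρ : Function.Surjective ρ := Ideal.Quotient.lift_surjective_of_surjective _ _ hπ
  let Qb : Ideal (S ⧸ J) := q.comap ρ
  have hQb : Qb.IsPrime := Ideal.comap_isPrime ρ q
  have hQQ : Q = Qb.comap (Ideal.Quotient.mk J) := by
    ext x
    rfl
  have hreg : IsRegularLocalRing (Localization.AtPrime Qb) :=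
    Pool.Agent.H97.isRegularLocalRing_localization_quotient f Qb Q hQQ hq
  -- in the localization at `Q`, the relations generate the kernel
  let R := Localization.AtPrime Q
  let f' : Fin c → R := fun i => algebraMap S R (f i)
  have hf' : ∀ i, f' i ∈ maximalIdeal R := fun i =>
    (IsLocalization.AtPrime.to_map_mem_maximal_iff R Q (f i)).mpr (hPQ (hfP i))
  have hli := linearIndependent_of_indepAt f Q hq hf'
  obtain ⟨hJprime, hJht⟩ := le_height_span c f' hf' hli
  have hdisj : Disjoint (Q.primeCompl : Set S) (P : Set S) := by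
    rw [Set.disjoint_left]
    intro x hx hx'
    exact hx (hPQ hx')
  have hP'prime : (P.map (algebraMap S R)).IsPrime :=
    IsLocalization.isPrime_of_isPrime_disjoint Q.primeCompl _ P hPprime hdisj
  have hP'ht : (P.map (algebraMap S R)).height = P.height :=
    IsLocalization.height_map_of_disjoint Q.primeCompl (S := R) P hdisj
  have hJ'P' : Ideal.span (Set.range f') ≤ P.map (algebraMap S R) := by
    rw [Ideal.span_le]
    rintro _ ⟨i, rfl⟩
    exact Ideal.mem_map_of_mem _ (hfP i)
  have heq : Ideal.span (Set.range f') = P.map (algebraMap S R) := by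
    by_contra hne
    have hlt := lt_of_le_of_ne hJ'P' hne
    have h1 := Ideal.height_add_one_le_of_lt_of_isPrime hlt
    rw [hP'ht] at h1
    have h2 : (c : ℕ∞) + 1 ≤ c := (add_le_add_left hJht 1).trans (h1.trans hht)
    have h3 : ((c + 1 : ℕ) : ℕ∞) ≤ ((c : ℕ) : ℕ∞) := by exact_mod_cast h2
    have h4 : c + 1 ≤ c := by exact_mod_cast h3
    omega
  -- every element of `P` is killed locally at `Q`
  have hkill : ∀ x ∈ P,
      algebraMap (S ⧸ J) (Localization.AtPrime Qb) (Ideal.Quotient.mk J x) = 0 := by
    intro x hx
    have h1 : algebraMap S R x ∈ J.map (algebraMap S R) := by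
      rw [hJ, Ideal.map_span, ← Set.range_comp]
      show algebraMap S R x ∈ Ideal.span (Set.range f')
      rw [heq]
      exact Ideal.mem_map_of_mem _ hx
    rw [IsLocalization.algebraMap_mem_map_algebraMap_iff Q.primeCompl] at h1
    obtain ⟨m, hm, hmx⟩ := h1
    rw [IsLocalization.map_eq_zero_iff Qb.primeCompl]
    refine ⟨⟨Ideal.Quotient.mk J m, ?_⟩, ?_⟩
    · intro h
      apply hm
      show m ∈ Q
      rw [hQQ]
      exact h
    · show Ideal.Quotient.mk J m * Ideal.Quotient.mk J x = 0
      rw [← map_mul, Ideal.Quotient.eq_zero_iff_mem]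
      exact hmx
  have hM : Submonoid.map ρ Qb.primeCompl = q.primeCompl := by
    ext x
    constructor
    · rintro ⟨y, hy, rfl⟩
      exact hy
    · intro hx
      obtain ⟨y, rfl⟩ := hρ x
      exact ⟨y, hx, rfl⟩
  have hle : Qb.primeCompl ≤ q.primeCompl.comap ρ := by
    rw [← hM]; exact Submonoid.le_comap_map _
  let φ : Localization.AtPrime Qb →+* Localization.AtPrime q :=
    IsLocalization.map (Localization.AtPrime q) ρ hle
  have hφ : Function.Surjective φ := by
    have : IsLocalization (Submonoid.map ρ Qb.primeCompl) (Localization.AtPrime q) := by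
      rw [hM]; infer_instance
    exact IsLocalization.map_surjective_of_surjective Qb.primeCompl (Localization.AtPrime Qb)
      (Localization.AtPrime q) hρ
  have hinj : Function.Injective φ := by
    rw [injective_iff_map_eq_zero]
    intro z hz
    obtain ⟨a, b, rfl⟩ := IsLocalization.exists_mk'_eq Qb.primeCompl z
    have hz2 : IsLocalization.mk' (Localization.AtPrime q) (ρ a)
        (⟨ρ (b : S ⧸ J), hle b.2⟩ : q.primeCompl) = 0 := by
      have := IsLocalization.map_mk' (S := Localization.AtPrime Qb) (Q := Localization.AtPrime q)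
        hle a b
      rw [← this]; exact hz
    rw [IsLocalization.mk'_eq_zero_iff] at hz2
    obtain ⟨m, hm⟩ := hz2
    obtain ⟨m', hm'⟩ := hρ (m : B)
    obtain ⟨m'', rfl⟩ := Ideal.Quotient.mk_surjective m'
    obtain ⟨a', rfl⟩ := Ideal.Quotient.mk_surjective a
    have h1 : m'' * a' ∈ P := by
      show π (m'' * a') = 0
      have h2 : ρ (Ideal.Quotient.mk J m'') * ρ (Ideal.Quotient.mk J a') = 0 := by
        rw [hm']; exact hm
      rw [map_mul]; exact h2
    have h3 := hkill _ h1
    rw [map_mul, map_mul] at h3
    have h6 : IsUnit (algebraMap (S ⧸ J) (Localization.AtPrime Qb) (Ideal.Quotient.mk J m'')) := by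
      apply IsLocalization.map_units (Localization.AtPrime Qb)
        (⟨Ideal.Quotient.mk J m'', ?_⟩ : Qb.primeCompl)
      show ¬ (ρ (Ideal.Quotient.mk J m'') ∈ q)
      rw [hm']
      exact m.2
    have h5 : algebraMap (S ⧸ J) (Localization.AtPrime Qb) (Ideal.Quotient.mk J a') = 0 := by
      rw [← h6.mul_right_eq_zero]
      exact h3
    rw [IsLocalization.mk'_eq_zero_iff]
    rw [IsLocalization.map_eq_zero_iff Qb.primeCompl] at h5
    exact h5
  exact IsRegularLocalRing.of_ringEquiv (RingEquiv.ofBijective φ ⟨hinj, hφ⟩)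

end Pool.Agent.H96.Reg
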