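import Pool.Agent.H96.RegDomain

/-!
# Regularity of a quotient domain from enough independent relations
-/

set_option autoImplicit false

namespace Pool.Agent.H96.Reg

open IsLocalRing Module

/-- Independence modulo `P ^ 2`, locally at `P`, of a finite family. -/
def IndepAt {S : Type*} [CommRing S] {κ : Type*} [Fintype κ] (f : κ → S) (P : Ideal S) : Prop :=
  ∀ (a : κ → S) (t : S), t ∉ P → t * ∑ i, a i * f i ∈ P ^ 2 → ∀ i, a i ∈ P

theorem linearIndependent_of_indepAt {S : Type*} [CommRing S] {c : ℕ} (f : Fin c → S)
    (P : Ideal S) [P.IsPrime] (h : IndepAt f P)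
    (hf' : ∀ i, algebraMap S (Localization.AtPrime P) (f i) ∈
      maximalIdeal (Localization.AtPrime P)) :
    LinearIndependent (ResidueField (Localization.AtPrime P))
      (fun i => (maximalIdeal (Localization.AtPrime P)).toCotangent
        ⟨algebraMap S (Localization.AtPrime P) (f i), hf' i⟩ :
          Fin c → CotangentSpace (Localization.AtPrime P)) := by
  classical
  let R := Localization.AtPrime P
  let f' : Fin c → R := fun i => algebraMap S R (f i)
  rw [Fintype.linearIndependent_iff]
  intro g hg
  choose r hr using fun i => IsLocalRing.residue_surjective (g i)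
  obtain ⟨b, hb⟩ := IsLocalization.exist_integer_multiples_of_finset P.primeCompl
    (Finset.univ.image r)
  have hb' : ∀ i, ∃ a : S, algebraMap S R a = (b : S) • r i := fun i =>
    hb (r i) (Finset.mem_image_of_mem _ (Finset.mem_univ i))
  choose a ha using hb'
  have hsum : ∑ i, r i * f' i ∈ maximalIdeal R ^ 2 := by
    have h1 : (maximalIdeal R).toCotangent (∑ i, r i • (⟨f' i, hf' i⟩ : maximalIdeal R)) = 0 := by
      rw [map_sum, ← hg]
      refine Finset.sum_congr rfl fun i _ => ?_
      rw [map_smul, ← hr i]
      rfl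
    rw [Ideal.toCotangent_eq_zero] at h1
    simpa using h1
  have hsum2 : algebraMap S R (∑ i, a i * f i) ∈ (P ^ 2).map (algebraMap S R) := by
    rw [Ideal.map_pow, Localization.AtPrime.map_eq_maximalIdeal, map_sum]
    have : ∑ i, algebraMap S R (a i * f i) = algebraMap S R b * ∑ i, r i * f' i := by
      rw [Finset.mul_sum]
      refine Finset.sum_congr rfl fun i _ => ?_
      rw [map_mul, ha, Algebra.smul_def, mul_assoc]
    rw [this]
    exact Ideal.mul_mem_left _ _ hsum
  rw [IsLocalization.algebraMap_mem_map_algebraMap_iff P.primeCompl] at hsum2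
  obtain ⟨t, ht, htm⟩ := hsum2
  intro i
  have hai := h a t ht htm i
  have h3 : algebraMap S R (a i) ∈ maximalIdeal R :=
    (IsLocalization.AtPrime.to_map_mem_maximal_iff R P (a i)).mpr hai
  rw [ha, Algebra.smul_def] at h3
  have h4 : r i ∈ maximalIdeal R := by
    rcases (maximalIdeal.isMaximal R).isPrime.mem_or_mem h3 with h5 | h5
    · exact absurd ((IsLocalization.AtPrime.to_map_mem_maximal_iff R P (b : S)).mp h5) b.2
    · exact h5
  rw [← hr i]
  exact (IsLocalRing.residue_eq_zero_iff _).mpr h4

/-- If `P` has height at most `c` and contains `c` elements independent at `P`, then these elements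
generate `P` locally at `P`. -/
theorem exists_mul_mem_of_height_le {S : Type*} [CommRing S] {c : ℕ} (f : Fin c → S)
    (P : Ideal S) [P.IsPrime] [IsRegularLocalRing (Localization.AtPrime P)] (hfP : ∀ i, f i ∈ P)
    (hht : P.height ≤ c) (h : IndepAt f P) {x : S} (hx : x ∈ P) :
    ∃ s, s ∉ P ∧ s * x ∈ Ideal.span (Set.range f) := by
  classical
  let R := Localization.AtPrime P
  let f' : Fin c → R := fun i => algebraMap S R (f i)
  have hf' : ∀ i, f' i ∈ maximalIdeal R := fun i =>
    (IsLocalization.AtPrime.to_map_mem_maximal_iff R P (f i)).mpr (hfP i)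
  have hli := linearIndependent_of_indepAt f P h hf'
  have hdim : (Module.finrank (ResidueField R) (CotangentSpace R) : WithBot ℕ∞) = P.height := by
    rw [(IsRegularLocalRing.iff_finrank_cotangentSpace R).mp inferInstance]
    exact IsLocalization.AtPrime.ringKrullDim_eq_height P R
  have hfr : Module.finrank (ResidueField R) (CotangentSpace R) ≤ c := by
    have h1 : ((Module.finrank (ResidueField R) (CotangentSpace R) : ℕ) : WithBot ℕ∞) ≤
        ((c : ℕ∞) : WithBot ℕ∞) := by
      rw [hdim]; exact_mod_cast hht
    exact_mod_cast h1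
  have hfin : FiniteDimensional (ResidueField R) (CotangentSpace R) := inferInstance
  have hcard : Fintype.card (Fin c) = Module.finrank (ResidueField R) (CotangentSpace R) := by
    apply le_antisymm hli.fintype_card_le_finrank
    simpa using hfr
  have hspan := hli.span_eq_top_of_card_eq_finrank' hcard
  -- pass to generators of the maximal ideal
  let s : Set (maximalIdeal R) := Set.range (fun i => (⟨f' i, hf' i⟩ : maximalIdeal R))
  have hs : (Submodule.span (ResidueField R) ((maximalIdeal R).toCotangent '' s)) = ⊤ := by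
    rw [← hspan]
    congr 1
    rw [← Set.range_comp]
    rfl
  have hspan' : Submodule.span R s = ⊤ := CotangentSpace.span_image_eq_top_iff.mp hs
  have hm : maximalIdeal R = Ideal.span (Set.range f') := by
    have := congrArg (Submodule.map (maximalIdeal R).subtype) hspan'
    rw [Submodule.map_span, Submodule.map_top, Submodule.range_subtype] at this
    refine this.symm.trans ?_
    rw [← Set.range_comp]
    rfl
  have hx1 : algebraMap S R x ∈ (Ideal.span (Set.range f)).map (algebraMap S R) := by
    rw [Ideal.map_span, ← Set.range_comp]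
    have : algebraMap S R x ∈ maximalIdeal R :=
      (IsLocalization.AtPrime.to_map_mem_maximal_iff R P x).mpr hx
    rw [hm] at this
    exact this
  rw [IsLocalization.algebraMap_mem_map_algebraMap_iff P.primeCompl] at hx1
  obtain ⟨t, ht, htm⟩ := hx1
  exact ⟨t, ht, htm⟩

/-- **Regularity from relations, local form.** -/
theorem isRegularLocalRing_of_surjective {S B : Type*} [CommRing S] [IsRegularRing S] [CommRing B]
    [IsDomain B] (π : S →+* B) (hπ : Function.Surjective π) {c : ℕ} (f : Fin c → S)
    (hf : ∀ k, π (f k) = 0) (hht : (RingHom.ker π).height ≤ c)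
    (h0 : IndepAt f (RingHom.ker π)) (q : Ideal B) [q.IsPrime] (hq : IndepAt f (q.comap π)) :
    IsRegularLocalRing (Localization.AtPrime q) := by
  classical
  set J : Ideal S := Ideal.span (Set.range f) with hJ
  set P : Ideal S := RingHom.ker π with hP
  have hPprime : P.IsPrime := RingHom.ker_isPrime π
  set Q : Ideal S := q.comap π with hQ
  have hQprime : Q.IsPrime := Ideal.comap_isPrime π q
  have hPQ : P ≤ Q := by
    intro x hx
    show π x ∈ q
    rw [show π x = 0 from hx]
    exact q.zero_mem
  have hfP : ∀ k, f k ∈ P := hf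
  have hJP : J ≤ P := by
    rw [hJ, Ideal.span_le]
    rintro _ ⟨k, rfl⟩
    exact hfP k
  let ρ : S ⧸ J →+* B := Ideal.Quotient.lift J π (fun a ha => hJP ha)
  have hρ : Function.Surjective ρ := Ideal.Quotient.lift_surjective_of_surjective _ _ hπ
  let Qb : Ideal (S ⧸ J) := q.comap ρ
  have hQb : Qb.IsPrime := Ideal.comap_isPrime ρ q
  have hQQ : Q = Qb.comap (Ideal.Quotient.mk J) := by
    ext x
    rfl
  have hreg : IsRegularLocalRing (Localization.AtPrime Qb) :=
    Pool.Agent.H97.isRegularLocalRing_localization_quotient f Qb Q hQQ hq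
  have hdom : IsDomain (Localization.AtPrime Qb) :=
    isDomain_of_isRegularLocalRing (Localization.AtPrime Qb)
  -- every element of `P` is killed locally at `Q`
  have hkill : ∀ x ∈ P, algebraMap (S ⧸ J) (Localization.AtPrime Qb) (Ideal.Quotient.mk J x) = 0 := by
    intro x hx
    obtain ⟨s, hs, hsx⟩ := exists_mul_mem_of_height_le f P hfP hht h0 hx
    have h1 : algebraMap (S ⧸ J) (Localization.AtPrime Qb) (Ideal.Quotient.mk J (s * x)) = 0 := by
      rw [Ideal.Quotient.eq_zero_iff_mem.mpr hsx, map_zero]
    rw [map_mul, map_mul] at h1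
    rcases mul_eq_zero.mp h1 with h2 | h2
    · exfalso
      rw [IsLocalization.map_eq_zero_iff Qb.primeCompl] at h2
      obtain ⟨m, hm⟩ := h2
      obtain ⟨u, hu⟩ := Ideal.Quotient.mk_surjective (m : S ⧸ J)
      rw [← hu, ← map_mul, Ideal.Quotient.eq_zero_iff_mem] at hm
      have h3 : u * s ∈ P := hJP hm
      rcases hPprime.mem_or_mem h3 with h4 | h4
      · apply m.2
        rw [← hu]
        show ρ (Ideal.Quotient.mk J u) ∈ q
        have h5 : ρ (Ideal.Quotient.mk J u) = π u := rfl
        rw [h5, show π u = 0 from h4]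
        exact q.zero_mem
      · exact hs h4
    · exact h2
  have hM : Submonoid.map ρ Qb.primeCompl = q.primeCompl := by
    ext x
    constructor
    · rintro ⟨y, hy, rfl⟩
      exact hy
    · intro hx
      obtain ⟨y, rfl⟩ := hρ x
      exact ⟨y, hx, rfl⟩
  have hle : Qb.primeCompl ≤ q.primeCompl.comap ρ := by
    rw [← hM]; exact Submonoid.le_comap_map _
  let φ : Localization.AtPrime Qb →+* Localization.AtPrime q :=
    IsLocalization.map (Localization.AtPrime q) ρ hle
  have hφ : Function.Surjective φ := by
    have : IsLocalization (Submonoid.map ρ Qb.primeCompl) (Localization.AtPrime q) := by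
      rw [hM]; infer_instance
    exact IsLocalization.map_surjective_of_surjective Qb.primeCompl (Localization.AtPrime Qb)
      (Localization.AtPrime q) hρ
  have hinj : Function.Injective φ := by
    rw [injective_iff_map_eq_zero]
    intro z hz
    obtain ⟨a, b, rfl⟩ := IsLocalization.exists_mk'_eq Qb.primeCompl z
    have hz2 : IsLocalization.mk' (Localization.AtPrime q) (ρ a)
        (⟨ρ (b : S ⧸ J), hle b.2⟩ : q.primeCompl) = 0 := by
      have := IsLocalization.map_mk' (S := Localization.AtPrime Qb) (Q := Localization.AtPrime q)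
        hle a b
      rw [← this]; exact hz
    rw [IsLocalization.mk'_eq_zero_iff] at hz2
    obtain ⟨m, hm⟩ := hz2
    obtain ⟨m', hm'⟩ := hρ (m : B)
    obtain ⟨m'', rfl⟩ := Ideal.Quotient.mk_surjective m'
    obtain ⟨a', rfl⟩ := Ideal.Quotient.mk_surjective a
    have h1 : m'' * a' ∈ P := by
      show π (m'' * a') = 0
      have h2 : ρ (Ideal.Quotient.mk J m'') * ρ (Ideal.Quotient.mk J a') = 0 := by
        rw [hm']; exact hm
      rw [map_mul]; exact h2
    have h3 := hkill _ h1
    rw [map_mul, map_mul] at h3
    have h4 : algebraMap (S ⧸ J) (Localization.AtPrime Qb) (Ideal.Quotient.mk J m'') ≠ 0 := by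
      intro h5
      have h6 : IsUnit (algebraMap (S ⧸ J) (Localization.AtPrime Qb) (Ideal.Quotient.mk J m'')) := by
        apply IsLocalization.map_units (Localization.AtPrime Qb)
          (⟨Ideal.Quotient.mk J m'', ?_⟩ : Qb.primeCompl)
        show ¬ (ρ (Ideal.Quotient.mk J m'') ∈ q)
        rw [hm']
        exact m.2
      rw [h5] at h6
      exact not_isUnit_zero h6
    have h5 : algebraMap (S ⧸ J) (Localization.AtPrime Qb) (Ideal.Quotient.mk J a') = 0 :=
      (mul_eq_zero.mp h3).resolve_left h4
    rw [IsLocalization.mk'_eq_zero_iff]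
    rw [IsLocalization.map_eq_zero_iff Qb.primeCompl] at h5
    exact h5
  exact IsRegularLocalRing.of_ringEquiv (RingEquiv.ofBijective φ ⟨hinj, hφ⟩)

end Pool.Agent.H96.Reg
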